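import Pool.Agent.H90.SN.Sys

/-!
# The space of filters of a ccc preorder (module E2a)

`gl H`: the sets of subsets of `H` which contain all filters meeting countably many given predense
sets.

* `gl_frequently` (Rasiowa–Sikorski): given `q` and predense `D n`, choose `q = p 0 ≥ p 1 ≥ …` with
  `p (n + 1)` below a member of `D n`; the filter generated by the `p n` contains `q` and meets all
  `D n`.  `NeBot` follows.
* `exists_countable`: a maximal antichain of elements below members of `D` is countable; choose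
  members of `D` above them.  (`H` is ccc for `Om`-indexed families; so an antichain is countable: an
  uncountable set contains an injective image of `Om`.)
-/

set_option autoImplicit false

open Filter MeasureTheory

namespace Pool.Agent.H90.SN

variable {H : Type} [Preorder H]

/-- compatible elements -/
def Compat (p q : H) : Prop := ∃ r, r ≤ p ∧ r ≤ q

def Predense (D : Set H) : Prop := ∀ p, ∃ q ∈ D, Compat p q

structure IsFilt (G : Set H) : Prop where
  nonempty : G.Nonempty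
  up : ∀ p ∈ G, ∀ q, p ≤ q → q ∈ G
  dir : ∀ p ∈ G, ∀ q ∈ G, ∃ r ∈ G, r ≤ p ∧ r ≤ q

/-- the countable chain condition -/
def IsCcc (H : Type) [Preorder H] : Prop := ∀ f : Om → H, ∃ i j, i ≠ j ∧ Compat (f i) (f j)

/-- the σ-algebra on the subsets of `H` -/
def gms (H : Type) : MeasurableSpace (Set H) :=
  MeasurableSpace.generateFrom (Set.range fun p : H => {G : Set H | p ∈ G})

theorem measurableSet_mem (p : H) : MeasurableSet[gms H] {G : Set H | p ∈ G} :=
  MeasurableSpace.measurableSet_generateFrom ⟨p, rfl⟩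

theorem exists_enum {ι : Type} [Countable ι] (D : ι → Set H) (hD : ∀ i, Predense (D i)) :
    ∃ D' : ℕ → Set H, (∀ n, Predense (D' n)) ∧
      ∀ G : Set H, (∀ n, (G ∩ D' n).Nonempty) → ∀ i, (G ∩ D i).Nonempty := by
  rcases isEmpty_or_nonempty ι with hι | hι
  · exact ⟨fun _ => Set.univ, fun _ p => ⟨p, trivial, p, le_rfl, le_rfl⟩,
      fun _ _ i => (hι.false i).elim⟩
  · obtain ⟨f, hf⟩ := exists_surjective_nat ι
    refine ⟨fun n => D (f n), fun n => hD _, fun G hG i => ?_⟩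
    obtain ⟨n, rfl⟩ := hf i
    exact hG n

/-- almost all filters -/
def gl (H : Type) [Preorder H] : Filter (Set H) where
  sets := {X | ∃ D : ℕ → Set H, (∀ n, Predense (D n)) ∧
    ∀ G, IsFilt G → (∀ n, (G ∩ D n).Nonempty) → G ∈ X}
  univ_sets := ⟨fun _ => Set.univ, fun _ p => ⟨p, trivial, p, le_rfl, le_rfl⟩,
    fun _ _ _ => trivial⟩
  sets_of_superset := by
    rintro X Y ⟨D, h1, h2⟩ hXY
    exact ⟨D, h1, fun G hG hD => hXY (h2 G hG hD)⟩
  inter_sets := by
    rintro X Y ⟨D, h1, h2⟩ ⟨D', h1', h2'⟩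
    obtain ⟨E, h3, h4⟩ := exists_enum (ι := ℕ ⊕ ℕ) (Sum.elim D D')
      (by rintro (n | n) <;> simp only [Sum.elim_inl, Sum.elim_inr, h1, h1'])
    exact ⟨E, h3, fun G hG hE => ⟨h2 G hG fun n => h4 G hE (Sum.inl n),
      h2' G hG fun n => h4 G hE (Sum.inr n)⟩⟩

theorem eventually_filt : ∀ᶠ G in gl H, IsFilt G :=
  ⟨fun _ => Set.univ, fun _ p => ⟨p, trivial, p, le_rfl, le_rfl⟩, fun _ hG _ => hG⟩

theorem eventually_meets {D : Set H} (hD : Predense D) : ∀ᶠ G in gl H, (G ∩ D).Nonempty :=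
  ⟨fun _ => D, fun _ => hD, fun _ _ h => h 0⟩

instance : CountableInterFilter (gl H) := by
  refine ⟨fun S hS hX => ?_⟩
  have hX' : ∀ X : S, ∃ D : ℕ → Set H, (∀ n, Predense (D n)) ∧
    ∀ G, IsFilt G → (∀ n, (G ∩ D n).Nonempty) → G ∈ X.1 := fun X => hX X.1 X.2
  choose D h1 h2 using hX'
  have : Countable S := hS.to_subtype
  obtain ⟨E, h3, h4⟩ := exists_enum (ι := S × ℕ) (fun i => D i.1 i.2) fun i => h1 _ _
  exact ⟨E, h3, fun G hG hE X hXS => h2 ⟨X, hXS⟩ G hG fun n => h4 G hE (⟨X, hXS⟩, n)⟩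

/-- Rasiowa-Sikorski -/
theorem exists_filt (q : H) {D : ℕ → Set H} (hD : ∀ n, Predense (D n)) :
    ∃ G : Set H, IsFilt G ∧ q ∈ G ∧ ∀ n, (G ∩ D n).Nonempty := by
  have step : ∀ (n : ℕ) (p : H), ∃ p' ≤ p, ∃ d ∈ D n, p' ≤ d := by
    intro n p
    obtain ⟨d, hd, r, hr1, hr2⟩ := hD n p
    exact ⟨r, hr1, d, hd, hr2⟩
  choose f hf1 d hd1 hd2 using step
  let p : ℕ → H := fun n => Nat.rec q (fun n x => f n x) n
  have hps : ∀ n, p (n + 1) = f n (p n) := fun n => rfl
  have hanti : Antitone p := antitone_nat_of_succ_le fun n => by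
    rw [hps]
    exact hf1 n (p n)
  refine ⟨{x | ∃ n, p n ≤ x}, ⟨⟨q, 0, le_rfl⟩, ?_, ?_⟩, ⟨0, le_rfl⟩, fun n => ?_⟩
  · rintro x ⟨n, hn⟩ y hxy
    exact ⟨n, hn.trans hxy⟩
  · rintro x ⟨n, hn⟩ y ⟨m, hm⟩
    exact ⟨p (max n m), ⟨_, le_rfl⟩, (hanti (le_max_left _ _)).trans hn,
      (hanti (le_max_right _ _)).trans hm⟩
  · refine ⟨d n (p n), ⟨n + 1, ?_⟩, hd1 n (p n)⟩
    rw [hps]
    exact hd2 n (p n)

theorem gl_frequently (q : H) : ∃ᶠ G in gl H, q ∈ G := by
  rintro ⟨D, h1, h2⟩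
  obtain ⟨G, h3, h4, h5⟩ := exists_filt q h1
  exact h2 G h3 h5 h4

theorem gl_neBot [Nonempty H] : (gl H).NeBot := by
  obtain ⟨q⟩ := ‹Nonempty H›
  refine ⟨fun h => ?_⟩
  have h1 := gl_frequently q
  rw [h] at h1
  exact h1 Filter.eventually_bot

theorem exists_countable (hH : IsCcc H) {D : Set H} (hD : Predense D) :
    ∃ A ⊆ D, A.Countable ∧ Predense A := by
  obtain ⟨M, hM⟩ := zorn_subset {M : Set H | (∀ x ∈ M, ∃ d ∈ D, x ≤ d) ∧
      ∀ x ∈ M, ∀ y ∈ M, x ≠ y → ¬ Compat x y} (by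
    intro c hc hchain
    refine ⟨⋃₀ c, ⟨?_, ?_⟩, fun s hs => Set.subset_sUnion_of_mem hs⟩
    · rintro x ⟨s, hs, hx⟩
      exact (hc hs).1 x hx
    · rintro x ⟨s, hs, hx⟩ y ⟨t, ht, hy⟩ hxy
      rcases hchain.total hs ht with h | h
      · exact (hc ht).2 x (h hx) y hy hxy
      · exact (hc hs).2 x hx y (h hy) hxy)
  have hcount : M.Countable := by
    by_contra hcon
    have h1 : Cardinal.aleph0 < Cardinal.mk M := by
      rw [← not_le]
      intro h
      exact hcon (Cardinal.le_aleph0_iff_set_countable.1 h)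
    have h2 : Cardinal.mk Om ≤ Cardinal.mk M := by
      rw [Cardinal.mk_toType, Ordinal.card_omega, ← Cardinal.succ_aleph0]
      exact Order.succ_le_of_lt h1
    obtain ⟨f⟩ := (Cardinal.le_def _ _).1 h2
    obtain ⟨i, j, hij, h3⟩ := hH fun i => (f i).1
    refine hM.prop.2 _ (f i).2 _ (f j).2 (fun h => hij ?_) h3
    exact f.injective (Subtype.ext h)
  have hmem : ∀ x : M, ∃ d ∈ D, x.1 ≤ d := fun x => hM.prop.1 x.1 x.2
  choose d hd1 hd2 using hmem
  have : Countable M := hcount.to_subtype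
  refine ⟨Set.range d, ?_, Set.countable_range d, fun p => ?_⟩
  · rintro _ ⟨x, rfl⟩
    exact hd1 x
  · obtain ⟨e, he, r, hr1, hr2⟩ := hD p
    have hex : ∃ x ∈ M, Compat r x := by
      by_contra hcon
      push Not at hcon
      have h1 : insert r M ⊆ M := by
        refine hM.le_of_ge ⟨?_, ?_⟩ (Set.subset_insert r M)
        · rintro x (rfl | hx)
          · exact ⟨e, he, hr2⟩
          · exact hM.prop.1 x hx
        · rintro x (rfl | hx) y (rfl | hy) hxy
          · exact absurd rfl hxy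
          · exact hcon y hy
          · rintro ⟨s, h1, h2⟩
            exact hcon x hx ⟨s, h2, h1⟩
          · exact hM.prop.2 x hx y hy hxy
      exact hcon r (h1 (Set.mem_insert r M)) ⟨r, le_rfl, le_rfl⟩
    obtain ⟨x, hx, s, hs1, hs2⟩ := hex
    exact ⟨d ⟨x, hx⟩, ⟨⟨x, hx⟩, rfl⟩, s, hs1.trans hr1, hs2.trans (hd2 ⟨x, hx⟩)⟩

end Pool.Agent.H90.SN
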