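import Mathlib

/-!
# Exhaustive submeasures along a linear order: basic definitions

`Z = ∀ g, T g` for a linear order `Γ`.  `Cov π n k a b X w` says that `X` is covered by elements
of the classes `k, …, k + n - 1` living on the interval `[a, b)`, of total weight at most `w`.
-/

set_option autoImplicit false

namespace Pool.Agent.H90.SN

variable {Γ : Type} [LinearOrder Γ] {T : Γ → Type}

/-- `u` below `c` and `z` from `c` on -/
def mix (c : Γ) (u z : ∀ g, T g) : ∀ g, T g := fun g => if g < c then u g else z g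

/-- the section of `X` at `u` below `c` -/
def sec (X : Set (∀ g, T g)) (c : Γ) (u : ∀ g, T g) : Set (∀ g, T g) := {z | mix c u z ∈ X}

/-- membership in `X` depends only on the coordinates in `[a, b)` -/
def Dep (X : Set (∀ g, T g)) (a b : Γ) : Prop :=
  ∀ z z' : ∀ g, T g, (∀ g, a ≤ g → g < b → z g = z' g) → (z ∈ X ↔ z' ∈ X)

/-- cover predicates: interval, set, weight -/
abbrev Cv (T : Γ → Type) := Γ → Γ → Set (∀ g, T g) → ℝ → Prop

/-- not covered by weight less than `1` -/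
def Large (C : Cv T) (a b : Γ) (D : Set (∀ g, T g)) : Prop := ∀ w < 1, ¬ C a b D w

/-- `m` disjoint slots `[l i, r i)` in `[a, b)`, in increasing order -/
def Slots (a b : Γ) (m : ℕ) (l r : ℕ → Γ) : Prop :=
  (∀ i < m, a ≤ l i ∧ l i < r i ∧ r i ≤ b) ∧ ∀ i j, i < j → j < m → r i ≤ l j

/-- at the slots one can escape from `X` up to residual `e` by a large set -/
def Escape (C : Cv T) (b : Γ) (X : Set (∀ g, T g)) (m : ℕ) (l r : ℕ → Γ) (e : ℝ) : Prop :=
  ∀ i < m, ∀ u : ∀ g, T g, ∃ D, Dep D (l i) (r i) ∧ Large C (l i) (r i) D ∧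
    ∀ v ∈ D, C (r i) b (sec X (r i) (mix (l i) u v)) e

/-- the parameters of the construction -/
structure Par where
  /-- the growth of the weights -/
  d : ℕ → ℝ
  /-- the numbers of slots -/
  N : ℕ → ℕ
  /-- the residuals -/
  ep : ℕ → ℝ
  /-- the constants of the main estimate -/
  c : ℕ → ℝ
  d_pos : ∀ k, 0 < d k
  d_anti : ∀ k, d (k + 1) ≤ d k
  d_le : ∀ k, d k ≤ 1 / 100
  ep_pos : ∀ k, 0 < ep k
  ep_le : ∀ k, ep k ≤ (1 / 2) ^ (k + 10)
  /-- elements of weight less than `16` have many slots -/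
  slots : ∀ k j m, (1 / 2 : ℝ) ^ k * (1 + d k) ^ j < 16 → N k ≤ 3 ^ j * m →
    1000 * 2 ^ (k + 4) ≤ m
  /-- the residuals of elements of weight less than `16` are very small -/
  resid : ∀ k j, (1 / 2 : ℝ) ^ k * (1 + d k) ^ j < 16 →
    2 ^ (j + 1) * ep k ≤ (1 / 2 : ℝ) ^ k * (1 + d k) ^ j / 2 ^ (2 * k + 20)
  /-- the residuals of higher classes are much smaller -/
  resid' : ∀ k k' j, k < k' → (1 / 2 : ℝ) ^ k' * (1 + d k') ^ j < 16 →
    2 ^ (j + 1) * ep k' ≤ (1 / 2 : ℝ) ^ k' * (1 + d k') ^ j * ep k / 2 ^ 20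
  c_lo : ∀ k, 12 ≤ c k
  c_hi : ∀ k, c k ≤ 16
  /-- the growth in the main estimate -/
  grow : ∀ k t : ℕ, (t : ℝ) ≤ 2 ^ (k + 4) →
    (1 + d (k + 1)) ^ (2 * t + 2) * (c k + 2 ^ (k + 4) * (16 / 2 ^ (2 * k + 20))) ≤ c (k + 1)

variable (π : Par)

/-- the weight of an element of class `k` with parameter `j` -/
noncomputable def wt (k j : ℕ) : ℝ := (1 / 2 : ℝ) ^ k * (1 + π.d k) ^ j

/-- the allowed residual of an element of class `k` with parameter `j` -/
noncomputable def rs (k j : ℕ) : ℝ := 2 ^ j * π.ep k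

/-- `X` is an element of class `k` with parameter `j` on `[a, b)`; `C` is the cover predicate of
the classes above `k`. -/
def Elm (k : ℕ) (C : Cv T) (a b : Γ) (X : Set (∀ g, T g)) (j : ℕ) : Prop :=
  Dep X a b ∧
    ((∃ m l r, π.N k ≤ 3 ^ j * m ∧ Slots a b m l r ∧ Escape C b X m l r (rs π k j)) ∨
      ∃ g, a ≤ g ∧ g ≤ b ∧ ∀ u, C g b (sec X g u) (rs π k j))

/-- finite unions of elements (predicate `E`) and sets covered in the sense of `C` -/
inductive Sp {α : Type} (E C : Set α → ℝ → Prop) : Set α → ℝ → Prop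
  | base {X : Set α} {w : ℝ} (h : C X w) : Sp E C X w
  | elem {X : Set α} {w : ℝ} (h : E X w) : Sp E C X w
  | union {X Y : Set α} {w v : ℝ} (h : Sp E C X w) (h' : Sp E C Y v) : Sp E C (X ∪ Y) (w + v)
  | mono {X Y : Set α} {w v : ℝ} (h : Sp E C X w) (hY : Y ⊆ X) (hv : w ≤ v) : Sp E C Y v

/-- `X` is covered by elements of classes `k, …, k + n - 1` on `[a, b)` of total weight `≤ w` -/
def Cov : ℕ → ℕ → Cv T
  | 0, _ => fun _ _ X w => X = ∅ ∧ 0 ≤ w
  | n + 1, k => fun a b => Sp (fun X w => ∃ j, w = wt π k j ∧ Elm π k (Cov n (k + 1)) a b X j)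
      (Cov n (k + 1) a b)

end Pool.Agent.H90.SN
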