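import Pool.Agent.H90.SN.Sys

/-!
# The countable chain condition for finite partial functions (module E1)

Among `ω₁` many finite partial functions with values in a countable set there are two which agree
on the intersection of their domains.  Proof by a Δ-system argument: pass to an uncountable set of
indices on which all domains have the same size `n`, and use induction on `n`:
if some `x` is in the domains of uncountably many of them, pass to those, with the same value
at `x`, and remove `x`; otherwise choose recursively (or by taking a maximal disjoint family, which is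
uncountable) two with disjoint domains.
-/

set_option autoImplicit false

namespace Pool.Agent.H90.SN

theorem cohen_aux {J I V : Type} [Countable V] (v : J → I → V) (n : ℕ) :
    ∀ (D : J → Finset I) (S : Set J), ¬ S.Countable → (∀ i ∈ S, (D i).card = n) →
      ∃ i ∈ S, ∃ j ∈ S, i ≠ j ∧ ∀ x ∈ D i, x ∈ D j → v i x = v j x := by
  classical
  induction n with
  | zero =>
    intro D S hS hD
    have hnt : S.Nontrivial := by
      by_contra h
      exact hS (Set.not_nontrivial_iff.1 h).finite.countable
    obtain ⟨i, hi, j, hj, hij⟩ := hnt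
    refine ⟨i, hi, j, hj, hij, fun x hx => ?_⟩
    have := Finset.card_eq_zero.1 (hD i hi)
    rw [this] at hx
    simp at hx
  | succ n ih =>
    intro D S hS hD
    by_cases hx : ∃ x, ¬ {i ∈ S | x ∈ D i}.Countable
    · obtain ⟨x, hx⟩ := hx
      obtain ⟨w, hw⟩ : ∃ w, ¬ {i ∈ S | x ∈ D i ∧ v i x = w}.Countable := by
        by_contra hcon
        push Not at hcon
        apply hx
        have : {i ∈ S | x ∈ D i} ⊆ ⋃ w, {i ∈ S | x ∈ D i ∧ v i x = w} := by
          intro i hi
          exact Set.mem_iUnion.2 ⟨v i x, hi.1, hi.2, rfl⟩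
        exact (Set.countable_iUnion hcon).mono this
      obtain ⟨i, hi, j, hj, hij, hag⟩ := ih (fun i => (D i).erase x)
        {i ∈ S | x ∈ D i ∧ v i x = w} hw (by
          intro i hi
          rw [Finset.card_erase_of_mem hi.2.1, hD i hi.1]
          simp)
      refine ⟨i, hi.1, j, hj.1, hij, fun y hyi hyj => ?_⟩
      by_cases hyx : y = x
      · subst hyx
        rw [hi.2.2, hj.2.2]
      · exact hag y (Finset.mem_erase.2 ⟨hyx, hyi⟩) (Finset.mem_erase.2 ⟨hyx, hyj⟩)
    · push Not at hx
      have hne : S.Nonempty := by
        by_contra h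
        rw [Set.not_nonempty_iff_eq_empty] at h
        exact hS (h ▸ Set.countable_empty)
      obtain ⟨i, hi⟩ := hne
      have hc : ({i} ∪ ⋃ x ∈ D i, {j ∈ S | x ∈ D j}).Countable := by
        refine (Set.countable_singleton i).union ?_
        exact Set.Countable.biUnion (D i).countable_toSet fun x _ => hx x
      obtain ⟨j, hj, hj2⟩ : ∃ j ∈ S, j ∉ ({i} ∪ ⋃ x ∈ D i, {j ∈ S | x ∈ D j} : Set J) := by
        by_contra hcon
        push Not at hcon
        exact hS (hc.mono hcon)
      refine ⟨i, hi, j, hj, ?_, fun x hxi hxj => ?_⟩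
      · intro h
        exact hj2 (Or.inl (by simp [h]))
      · refine absurd ?_ hj2
        refine Or.inr ?_
        simp only [Set.mem_iUnion]
        exact ⟨x, hxi, hj, hxj⟩

theorem cohen_ccc {I V : Type} [Countable V] (D : Om → Finset I) (v : Om → I → V) :
    ∃ i j, i ≠ j ∧ ∀ x ∈ D i, x ∈ D j → v i x = v j x := by
  obtain ⟨n, hn⟩ : ∃ n, ¬ {i : Om | (D i).card = n}.Countable := by
    by_contra hcon
    push Not at hcon
    apply om_not_countable
    have h : (Set.univ : Set Om) ⊆ ⋃ n, {i : Om | (D i).card = n} := fun i _ =>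
      Set.mem_iUnion.2 ⟨(D i).card, rfl⟩
    exact Set.countable_univ_iff.1 ((Set.countable_iUnion hcon).mono h)
  obtain ⟨i, _, j, _, hij, h⟩ := cohen_aux v n D _ hn (fun i hi => hi)
  exact ⟨i, j, hij, h⟩

end Pool.Agent.H90.SN
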