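import Pool.Agent.H90.SN.Ext

/-!
# Approximation and continuity (module C2)

* `nu_below`: let `ε > 0`.  By `increments_small` there are `n 0 < n 1 < …` such that
  `μ (A m \ A (n j)) ≤ ε / 2 ^ j` for `m ≥ n j`; `⋃ n, A n = A (n 0) ∪ ⋃ j, (A (n (j+1)) \ A (n j))`, so
  `nu (⋃ n, A n) ≤ r + 2 * ε`.
* `approx`: the sets `E` which can be approximated form a σ-algebra (`symmDiff`): for a countable
  union `⋃ E n` take `A n` with error `ε / 2 ^ (n + 3)`, `U n = ⋃ i ≤ n, A i`; by `increments_small` and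
  `nu_below` there is `n` with `nu ((⋃ m, U m) \ U n) ≤ ε / 2`.
* `tendsto_of_empty`: choose `A n ∈ C` with `nu (E n ∆ A n) ≤ ε / 2 ^ n`, `B n = ⋂ i ≤ n, A i`, so that
  `nu (E n \ B n) ≤ 2 * ε`.  By `increments_small` for the complements and `nu_below` there is `n` with
  `nu (B n \ ⋂ m, B m) ≤ ε`; `⋂ m, B m ⊆ ⋃ i, (A i \ E i)` as `⋂ E i = ∅`.  So `nu (E n) ≤ 5 * ε`.
* `le_nu_limsup`: the sets `⋃ m ≥ n, E m \ L` decrease to `∅`, `L` the limsup.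
* `nu_ccc`: if all intersections are null put `E' n = E n \ ⋃ i < n, E i`, `ε ≤ nu (E' n)`, pairwise
  disjoint, contradicting `le_nu_limsup`.
-/

set_option autoImplicit false

open Filter ENNReal Topology MeasureTheory

namespace Pool.Agent.H90.SN

namespace Sub

variable {Z : Type} (μ : Sub Z)

theorem nu_below {A : ℕ → Set Z} (hA : ∀ n, A n ∈ μ.C) (hm : Monotone A) {r : ℝ≥0∞}
    (h : ∀ n, μ.μ (A n) ≤ r) : μ.nu (⋃ n, A n) ≤ r := by
  refine ENNReal.le_of_forall_pos_le_add fun ε hε _ => ?_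
  have hε' : (ε : ℝ≥0∞) ≠ 0 := by simpa using hε.ne'
  obtain ⟨δ, hδ, hδs⟩ := ENNReal.exists_pos_sum_of_countable' hε' ℕ
  choose N hN using fun j => μ.increments_small hA hm (hδ j).ne'
  set n : ℕ → ℕ := fun j => j + ∑ i ∈ Finset.range (j + 1), N i with hn
  have hnN : ∀ j, N j ≤ n j := fun j => by
    have := Finset.single_le_sum (f := N) (fun i _ => Nat.zero_le _)
      (Finset.mem_range.2 (Nat.lt_succ_self j))
    simp only [Nat.succ_eq_add_one] at this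
    simp only [hn]
    omega
  have hnj : ∀ j, j ≤ n j := fun j => by simp only [hn]; omega
  have hnm : Monotone n := by
    refine monotone_nat_of_le_succ fun j => ?_
    simp only [hn]
    rw [Finset.sum_range_succ _ (j + 1)]
    omega
  set B : ℕ → Set Z := fun j => Nat.casesOn j (A (n 0)) fun j => A (n (j + 1)) \ A (n j) with hB
  have hB0 : B 0 = A (n 0) := rfl
  have hBs : ∀ j, B (j + 1) = A (n (j + 1)) \ A (n j) := fun j => rfl
  have hBC : ∀ j, B j ∈ μ.C := by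
    intro j
    cases j with
    | zero => exact hA _
    | succ j => exact μ.diff_mem (hA _) (hA _)
  have hcov : ∀ j, A (n j) ⊆ ⋃ i, B i := by
    intro j
    induction j with
    | zero => exact Set.subset_iUnion B 0
    | succ j ih =>
      intro z hz
      by_cases h' : z ∈ A (n j)
      · exact ih h'
      · exact Set.mem_iUnion.2 ⟨j + 1, hz, h'⟩
  have h1 : μ.nu (⋃ n, A n) ≤ μ.nu (⋃ j, B j) := by
    refine μ.nu_mono ?_
    refine Set.iUnion_subset fun m => (hm (hnj m)).trans (hcov m)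
  have h2 : μ.nu (⋃ j, B j) ≤ ∑' j, μ.μ (B j) := by
    refine (μ.nu_iUnion_le B).trans ?_
    exact ENNReal.tsum_le_tsum fun j => (μ.nu_eq (hBC j)).le
  have h3 : ∑' j, μ.μ (B j) = μ.μ (B 0) + ∑' j, μ.μ (B (j + 1)) :=
    tsum_eq_zero_add' ENNReal.summable
  have h4 : ∑' j, μ.μ (B (j + 1)) ≤ ∑' j, δ j := by
    refine ENNReal.tsum_le_tsum fun j => ?_
    rw [hBs]
    refine (μ.μ_mono ?_).trans (hN j (n (j + 1)) ((hnN j).trans (hnm (Nat.le_succ j))))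
    exact Set.sdiff_subset_sdiff_right (hm (hnN j))
  calc μ.nu (⋃ n, A n) ≤ ∑' j, μ.μ (B j) := h1.trans h2
    _ = μ.μ (B 0) + ∑' j, μ.μ (B (j + 1)) := h3
    _ ≤ r + ε := add_le_add (h _) (h4.trans hδs.le)

theorem approx_aux {A : ℕ → Set Z} (hA : ∀ n, A n ∈ μ.C) (hm : Monotone A) {ε : ℝ≥0∞}
    (hε : ε ≠ 0) : ∃ n, μ.nu ((⋃ m, A m) \ A n) ≤ ε := by
  obtain ⟨n, hn⟩ := μ.increments_small hA hm hε
  refine ⟨n, ?_⟩
  rw [Set.iUnion_sdiff]
  refine μ.nu_below (fun m => μ.diff_mem (hA m) (hA n))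
    (fun m m' h => Set.sdiff_subset_sdiff_left (hm h)) fun m => ?_
  rcases le_total n m with h | h
  · exact hn m h
  · rw [Set.sdiff_eq_empty.2 (hm h), μ.μ_empty]
    exact zero_le

theorem approx {E : Set Z} (hE : MeasurableSet[μ.ms] E) {ε : ℝ≥0∞} (hε : ε ≠ 0) :
    ∃ A ∈ μ.C, μ.nu (symmDiff E A) ≤ ε := by
  suffices H : ∀ E : Set Z, MeasurableSet[μ.ms] E → ∀ ε : ℝ≥0∞, ε ≠ 0 →
      ∃ A ∈ μ.C, μ.nu (symmDiff E A) ≤ ε from H E hE ε hε
  intro E hE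
  refine MeasurableSpace.generateFrom_induction μ.C
    (fun E _ => ∀ ε : ℝ≥0∞, ε ≠ 0 → ∃ A ∈ μ.C, μ.nu (symmDiff E A) ≤ ε) ?_ ?_ ?_ ?_ E hE
  · intro t ht _ ε _
    refine ⟨t, ht, ?_⟩
    rw [symmDiff_self]
    exact (μ.nu_empty).le.trans (zero_le)
  · intro ε _
    refine ⟨∅, μ.empty_mem, ?_⟩
    rw [symmDiff_self]
    exact (μ.nu_empty).le.trans (zero_le)
  · intro t _ ih ε hε
    obtain ⟨A, hA, h⟩ := ih ε hε
    exact ⟨Aᶜ, μ.compl_mem hA, by rwa [compl_symmDiff_compl]⟩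
  · intro f _ ih ε hε
    have hε2 : ε / 2 ≠ 0 := by
      simpa using hε
    obtain ⟨δ, hδ, hδs⟩ := ENNReal.exists_pos_sum_of_countable' hε2 ℕ
    choose A hA h using fun n => ih n (δ n) (hδ n).ne'
    obtain ⟨n, hn⟩ := μ.approx_aux (A := fun n => ⋃ i < n, A i) (fun n => μ.biUnion_mem hA n)
      (fun m m' hmm => Set.biUnion_mono (fun i hi => lt_of_lt_of_le hi hmm) fun _ _ => le_rfl) hε2
    refine ⟨⋃ i < n, A i, μ.biUnion_mem hA n, ?_⟩
    have hsub : symmDiff (⋃ i, f i) (⋃ i < n, A i) ⊆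
        (⋃ i, symmDiff (f i) (A i)) ∪ ((⋃ m, ⋃ i < m, A i) \ ⋃ i < n, A i) := by
      intro z hz
      rcases hz with ⟨hz1, hz2⟩ | ⟨hz1, hz2⟩
      · obtain ⟨i, hi⟩ := Set.mem_iUnion.1 hz1
        by_cases hi' : z ∈ A i
        · right
          exact ⟨Set.mem_iUnion.2 ⟨i + 1, Set.mem_iUnion₂.2 ⟨i, Nat.lt_succ_self i, hi'⟩⟩, hz2⟩
        · left
          exact Set.mem_iUnion.2 ⟨i, Or.inl ⟨hi, hi'⟩⟩
      · left
        obtain ⟨i, _, hi⟩ := Set.mem_iUnion₂.1 hz1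
        exact Set.mem_iUnion.2 ⟨i, Or.inr ⟨hi, fun h => hz2 (Set.mem_iUnion.2 ⟨i, h⟩)⟩⟩
    calc μ.nu (symmDiff (⋃ i, f i) (⋃ i < n, A i))
        ≤ μ.nu ((⋃ i, symmDiff (f i) (A i)) ∪ ((⋃ m, ⋃ i < m, A i) \ ⋃ i < n, A i)) :=
          μ.nu_mono hsub
      _ ≤ μ.nu (⋃ i, symmDiff (f i) (A i)) + μ.nu ((⋃ m, ⋃ i < m, A i) \ ⋃ i < n, A i) :=
          μ.nu_union_le _ _
      _ ≤ ε / 2 + ε / 2 := by
          refine add_le_add ?_ hn
          refine (μ.nu_iUnion_le _).trans ?_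
          exact (ENNReal.tsum_le_tsum h).trans hδs.le
      _ = ε := ENNReal.add_halves ε

theorem tendsto_of_empty {E : ℕ → Set Z} (hE : ∀ n, MeasurableSet[μ.ms] (E n))
    (hm : Antitone E) (h : (⋂ n, E n) = ∅) : Tendsto (fun n => μ.nu (E n)) atTop (𝓝 0) := by
  refine ENNReal.tendsto_atTop_zero.2 fun ε hε => ?_
  have hε2 : ε / 2 ≠ 0 := by
    simpa using hε.ne'
  obtain ⟨δ, hδ, hδs⟩ := ENNReal.exists_pos_sum_of_countable' hε2 ℕ
  choose A hA hEA using fun n => μ.approx (hE n) (hδ n).ne'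
  have hAc : ∀ n, (A n)ᶜ ∈ μ.C := fun n => μ.compl_mem (hA n)
  obtain ⟨n, hn⟩ := μ.approx_aux (A := fun n => ⋃ i < n, (A i)ᶜ) (fun n => μ.biUnion_mem hAc n)
    (fun m m' hmm => Set.biUnion_mono (fun i hi => lt_of_lt_of_le hi hmm) fun _ _ => le_rfl) hε2
  refine ⟨n, fun k hk => ?_⟩
  refine (μ.nu_mono (hm hk)).trans ?_
  have hsub : E n ⊆ (⋃ i, symmDiff (E i) (A i)) ∪ ((⋃ m, ⋃ i < m, (A i)ᶜ) \ ⋃ i < n, (A i)ᶜ) := by
    intro z hz
    by_cases hz1 : ∃ i < n, z ∉ A i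
    · obtain ⟨i, hi, hz2⟩ := hz1
      left
      exact Set.mem_iUnion.2 ⟨i, Or.inl ⟨hm hi.le hz, hz2⟩⟩
    · push Not at hz1
      by_cases hz2 : ∃ i, z ∉ A i
      · obtain ⟨i, hi⟩ := hz2
        right
        refine ⟨Set.mem_iUnion.2 ⟨i + 1, Set.mem_iUnion₂.2 ⟨i, Nat.lt_succ_self i, hi⟩⟩, ?_⟩
        intro hz3
        obtain ⟨j, hj, hj'⟩ := Set.mem_iUnion₂.1 hz3
        exact hj' (hz1 j hj)
      · push Not at hz2
        have hz3 : z ∉ ⋂ n, E n := by rw [h]; exact Set.notMem_empty z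
        rw [Set.mem_iInter, not_forall] at hz3
        obtain ⟨i, hi⟩ := hz3
        left
        exact Set.mem_iUnion.2 ⟨i, Or.inr ⟨hz2 i, hi⟩⟩
  calc μ.nu (E n) ≤ μ.nu ((⋃ i, symmDiff (E i) (A i)) ∪
          ((⋃ m, ⋃ i < m, (A i)ᶜ) \ ⋃ i < n, (A i)ᶜ)) := μ.nu_mono hsub
    _ ≤ μ.nu (⋃ i, symmDiff (E i) (A i)) + μ.nu ((⋃ m, ⋃ i < m, (A i)ᶜ) \ ⋃ i < n, (A i)ᶜ) :=
        μ.nu_union_le _ _
    _ ≤ ε / 2 + ε / 2 := by
        refine add_le_add ?_ hn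
        refine (μ.nu_iUnion_le _).trans ?_
        exact (ENNReal.tsum_le_tsum hEA).trans hδs.le
    _ = ε := ENNReal.add_halves ε

theorem limsup_eq_aux (E : ℕ → Set Z) :
    {z | ∃ᶠ n in atTop, z ∈ E n} = ⋂ n : ℕ, ⋃ m : ℕ, ⋃ _ : n ≤ m, E m := by
  ext z
  simp only [Set.mem_ofPred_eq, Filter.frequently_atTop, Set.mem_iInter, Set.mem_iUnion]
  constructor
  · intro h n
    obtain ⟨m, hm, hz⟩ := h n
    exact ⟨m, hm, hz⟩
  · intro h n
    obtain ⟨m, hm, hz⟩ := h n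
    exact ⟨m, hm, hz⟩

theorem le_nu_limsup {E : ℕ → Set Z} (hE : ∀ n, MeasurableSet[μ.ms] (E n)) {q : ℝ≥0∞}
    (h : ∃ᶠ n in atTop, q ≤ μ.nu (E n)) : q ≤ μ.nu {z | ∃ᶠ n in atTop, z ∈ E n} := by
  let _ : MeasurableSpace Z := μ.ms
  set L : Set Z := {z | ∃ᶠ n in atTop, z ∈ E n} with hL
  have hLm : MeasurableSet L := by
    rw [hL, limsup_eq_aux]
    exact MeasurableSet.iInter fun n => MeasurableSet.iUnion fun m => MeasurableSet.iUnion fun _ =>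
      hE m
  have hF : Tendsto (fun n : ℕ => μ.nu ((⋃ m : ℕ, ⋃ _ : n ≤ m, E m) \ L)) atTop (𝓝 0) := by
    refine μ.tendsto_of_empty (E := fun n : ℕ => (⋃ m : ℕ, ⋃ _ : n ≤ m, E m) \ L)
      (fun n => ?_) (fun n n' hnn => ?_) ?_
    · exact (MeasurableSet.iUnion fun m => MeasurableSet.iUnion fun _ => hE m).diff hLm
    · refine Set.sdiff_subset_sdiff_left ?_
      intro z hz
      obtain ⟨m, hm, hz'⟩ := Set.mem_iUnion₂.1 hz
      exact Set.mem_iUnion₂.2 ⟨m, hnn.trans hm, hz'⟩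
    · refine Set.eq_empty_iff_forall_notMem.2 fun z hz => ?_
      have hz0 := (Set.mem_iInter.1 hz 0).2
      refine hz0 ?_
      rw [hL, limsup_eq_aux]
      exact Set.mem_iInter.2 fun n => (Set.mem_iInter.1 hz n).1
  have hT : Tendsto (fun n : ℕ => μ.nu L + μ.nu ((⋃ m : ℕ, ⋃ _ : n ≤ m, E m) \ L)) atTop
      (𝓝 (μ.nu L)) := by
    simpa using hF.const_add (μ.nu L)
  refine ge_of_tendsto' hT fun n => ?_
  obtain ⟨m, hm, hq⟩ := Filter.frequently_atTop.1 h n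
  refine hq.trans (le_trans ?_ (μ.nu_union_le _ _))
  refine μ.nu_mono fun z hz => ?_
  by_cases hzL : z ∈ L
  · exact Or.inl hzL
  · exact Or.inr ⟨Set.mem_iUnion₂.2 ⟨m, hm, hz⟩, hzL⟩

theorem nu_ccc {E : ℕ → Set Z} (hE : ∀ n, MeasurableSet[μ.ms] (E n)) {ε : ℝ≥0∞} (hε : ε ≠ 0)
    (h : ∀ n, ε ≤ μ.nu (E n)) : ∃ i j, i ≠ j ∧ μ.nu (E i ∩ E j) ≠ 0 := by
  let _ : MeasurableSpace Z := μ.ms
  by_contra hcon
  push Not at hcon
  have h1 : ∀ n, ε ≤ μ.nu (E n \ ⋃ i < n, E i) := by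
    intro n
    refine (h n).trans ?_
    have hsub : E n ⊆ (E n \ ⋃ i < n, E i) ∪ ⋃ i : Set.Iio n, (E n ∩ E i) := by
      intro z hz
      by_cases hz' : z ∈ ⋃ i < n, E i
      · obtain ⟨i, hi, hzi⟩ := Set.mem_iUnion₂.1 hz'
        exact Or.inr (Set.mem_iUnion.2 ⟨⟨i, hi⟩, hz, hzi⟩)
      · exact Or.inl ⟨hz, hz'⟩
    refine (μ.nu_mono hsub).trans ((μ.nu_union_le _ _).trans ?_)
    rw [μ.nu_iUnion_null fun i : Set.Iio n => hcon n i (ne_of_gt i.2), add_zero]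
  have h2 := μ.le_nu_limsup (E := fun n => E n \ ⋃ i < n, E i) (fun n => (hE n).diff
    (MeasurableSet.iUnion fun i => MeasurableSet.iUnion fun _ => hE i))
    (Filter.Frequently.of_forall h1)
  have h3 : {z | ∃ᶠ n in atTop, z ∈ E n \ ⋃ i < n, E i} = ∅ := by
    refine Set.eq_empty_iff_forall_notMem.2 fun z hz => ?_
    have hz' : ∃ᶠ n in atTop, z ∈ E n \ ⋃ i < n, E i := hz
    obtain ⟨n, _, hn⟩ := Filter.frequently_atTop.1 hz' 0
    obtain ⟨m, hm, hmz⟩ := Filter.frequently_atTop.1 hz' (n + 1)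
    exact hmz.2 (Set.mem_iUnion₂.2 ⟨n, hm, hn.1⟩)
  rw [h3, μ.nu_empty] at h2
  exact hε (le_antisymm h2 (zero_le))

end Sub

end Pool.Agent.H90.SN
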