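import Pool.Agent.H90.SN.Basic

/-!
# Elementary properties of covers
-/

set_option autoImplicit false

namespace Pool.Agent.H90.SN

variable {Γ : Type} [LinearOrder Γ] {T : Γ → Type}

/-! ### Mixing and sections -/

theorem mix_mix {c d : Γ} (h : c ≤ d) (u v z : ∀ g, T g) :
    mix c u (mix d v z) = mix d (mix c u v) z := by
  funext g
  simp only [mix]
  by_cases h1 : g < c
  · simp [h1, h1.trans_le h]
  · simp [h1]

theorem mix_self (c : Γ) (u : ∀ g, T g) : mix c u u = u := by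
  funext g
  simp [mix]

/-- the coordinates below `c` of the third argument do not matter -/
theorem mix_mix_right {c d : Γ} (h : d ≤ c) (u v z : ∀ g, T g) :
    mix c u (mix d v z) = mix c u z := by
  funext g
  simp only [mix]
  by_cases h1 : g < c
  · simp [h1]
  · have : ¬ g < d := fun h2 => h1 (h2.trans_le h)
    simp [h1, this]

theorem mix_mix_left {c d : Γ} (h : c ≤ d) (u v z : ∀ g, T g) :
    mix c (mix d u v) z = mix c u z := by
  funext g
  simp only [mix]
  by_cases h1 : g < c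
  · simp [h1, h1.trans_le h]
  · simp [h1]

theorem mem_sec {X : Set (∀ g, T g)} {c : Γ} {u z : ∀ g, T g} :
    z ∈ sec X c u ↔ mix c u z ∈ X := Iff.rfl

theorem sec_sec {c d : Γ} (h : c ≤ d) (X : Set (∀ g, T g)) (u v : ∀ g, T g) :
    sec (sec X c u) d v = sec X d (mix c u v) := by
  ext z
  rw [mem_sec, mem_sec, mem_sec, mix_mix h]

theorem sec_mono {X Y : Set (∀ g, T g)} (h : X ⊆ Y) (c : Γ) (u : ∀ g, T g) :
    sec X c u ⊆ sec Y c u := fun _ hz => h hz

theorem sec_union (X Y : Set (∀ g, T g)) (c : Γ) (u : ∀ g, T g) :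
    sec (X ∪ Y) c u = sec X c u ∪ sec Y c u := rfl

theorem sec_empty (c : Γ) (u : ∀ g, T g) : sec (∅ : Set (∀ g, T g)) c u = ∅ := rfl

theorem sec_univ (c : Γ) (u : ∀ g, T g) : sec (Set.univ : Set (∀ g, T g)) c u = Set.univ := rfl

/-! ### Dependence -/

theorem Dep.mono {X : Set (∀ g, T g)} {a b a' b' : Γ} (h : Dep X a b) (ha : a' ≤ a)
    (hb : b ≤ b') : Dep X a' b' :=
  fun z z' hz => h z z' fun g h1 h2 => hz g (ha.trans h1) (h2.trans_le hb)

theorem dep_empty (a b : Γ) : Dep (∅ : Set (∀ g, T g)) a b := fun _ _ _ => Iff.rfl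

theorem dep_univ (a b : Γ) : Dep (Set.univ : Set (∀ g, T g)) a b := fun _ _ _ => Iff.rfl

theorem Dep.union {X Y : Set (∀ g, T g)} {a b : Γ} (h : Dep X a b) (h' : Dep Y a b) :
    Dep (X ∪ Y) a b := fun z z' hz => or_congr (h z z' hz) (h' z z' hz)

theorem Dep.compl {X : Set (∀ g, T g)} {a b : Γ} (h : Dep X a b) : Dep Xᶜ a b :=
  fun z z' hz => not_congr (h z z' hz)

theorem Dep.sec {X : Set (∀ g, T g)} {a b : Γ} (h : Dep X a b) (c : Γ) (u : ∀ g, T g) :
    Dep (sec X c u) c b := by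
  intro z z' hz
  refine h _ _ fun g h1 h2 => ?_
  simp only [mix]
  split_ifs with h3
  · rfl
  · exact hz g (not_lt.1 h3) h2

/-- the section depends only on the coordinates of `u` in `[a, c)` -/
theorem Dep.sec_congr {X : Set (∀ g, T g)} {a b : Γ} (h : Dep X a b) {c : Γ} {u u' : ∀ g, T g}
    (hu : ∀ g, a ≤ g → g < c → u g = u' g) : SN.sec X c u = SN.sec X c u' := by
  ext z
  refine h _ _ fun g h1 h2 => ?_
  simp only [mix]
  split_ifs with h3
  · exact hu g h1 h3
  · rfl

/-- a set defined by a condition on the sections depends on the coordinates below `c` -/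
theorem dep_of_sec {X : Set (∀ g, T g)} {a b : Γ} (h : Dep X a b) (c : Γ)
    (p : Set (∀ g, T g) → Prop) : Dep {z | p (sec X c z)} a c := by
  intro z z' hz
  change p _ ↔ p _
  rw [h.sec_congr hz]

theorem Dep.mem_mix {X : Set (∀ g, T g)} {a b c : Γ} (h : Dep X a b) (hb : b ≤ c)
    (u z : ∀ g, T g) : mix c u z ∈ X ↔ u ∈ X :=
  h _ _ fun g _ h2 => by simp [mix, h2.trans_le hb]

theorem Dep.mem_mix' {X : Set (∀ g, T g)} {a b c : Γ} (h : Dep X a b) (ha : c ≤ a)
    (u z : ∀ g, T g) : mix c u z ∈ X ↔ z ∈ X :=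
  h _ _ fun g h1 _ => by simp [mix, (ha.trans h1).not_gt]

theorem Dep.sec_eq {X : Set (∀ g, T g)} {a b c : Γ} (h : Dep X a b) (ha : c ≤ a)
    (u : ∀ g, T g) : SN.sec X c u = X := by
  ext z
  exact h.mem_mix' ha u z

/-! ### Unions of elements -/

namespace Sp

variable {α : Type} {E C : Set α → ℝ → Prop}

theorem imp {α' : Type} {E' C' : Set α' → ℝ → Prop} {f : Set α → Set α'} {s : ℝ}
    (hf : ∀ X Y, f (X ∪ Y) ⊆ f X ∪ f Y) (hm : ∀ X Y, X ⊆ Y → f X ⊆ f Y) (hs : 0 ≤ s)
    (hC : ∀ X w, C X w → Sp E' C' (f X) (s * w)) (hE : ∀ X w, E X w → Sp E' C' (f X) (s * w))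
    {X : Set α} {w : ℝ} (h : Sp E C X w) : Sp E' C' (f X) (s * w) := by
  induction h with
  | base h => exact hC _ _ h
  | elem h => exact hE _ _ h
  | union h h' ih ih' => exact (ih.union ih').mono (hf _ _) (by rw [mul_add])
  | mono h hY hv ih => exact ih.mono (hm _ _ hY) (mul_le_mul_of_nonneg_left hv hs)

theorem nonneg (hC : ∀ X w, C X w → 0 ≤ w) (hE : ∀ X w, E X w → 0 ≤ w) {X : Set α} {w : ℝ}
    (h : Sp E C X w) : 0 ≤ w := by
  induction h with
  | base h => exact hC _ _ h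
  | elem h => exact hE _ _ h
  | union h h' ih ih' => exact add_nonneg ih ih'
  | mono h hY hv ih => exact ih.trans hv

end Sp

/-! ### Covers -/

variable (π : Par)

theorem wt_pos (k j : ℕ) : 0 < wt π k j := by
  have := π.d_pos k
  unfold wt
  positivity

theorem wt_ge (k j : ℕ) : (1 / 2 : ℝ) ^ k ≤ wt π k j := by
  have := π.d_pos k
  unfold wt
  exact le_mul_of_one_le_right (by positivity) (one_le_pow₀ (by linarith))

theorem wt_succ (k j : ℕ) : wt π k (j + 1) = (1 + π.d k) * wt π k j := by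
  unfold wt
  ring

theorem rs_pos (k j : ℕ) : 0 < rs π k j := by
  have := π.ep_pos k
  unfold rs
  positivity

theorem rs_succ (k j : ℕ) : rs π k (j + 1) = 2 * rs π k j := by
  unfold rs
  ring

theorem cov_nonneg {n k : ℕ} {a b : Γ} {X : Set (∀ g, T g)} {w : ℝ} (h : Cov π n k a b X w) :
    0 ≤ w := by
  induction n generalizing k a b X w with
  | zero => exact h.2
  | succ n ih =>
    refine Sp.nonneg (fun X w h => ih h) ?_ h
    rintro X w ⟨j, rfl, -⟩
    exact (wt_pos π k j).le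

theorem cov_mono {n k : ℕ} {a b : Γ} {X Y : Set (∀ g, T g)} {w v : ℝ}
    (h : Cov π n k a b X w) (hY : Y ⊆ X) (hv : w ≤ v) : Cov π n k a b Y v := by
  cases n with
  | zero => exact ⟨Set.subset_empty_iff.1 (h.1 ▸ hY), h.2.trans hv⟩
  | succ n => exact Sp.mono h hY hv

theorem cov_union {n k : ℕ} {a b : Γ} {X Y : Set (∀ g, T g)} {w v : ℝ}
    (h : Cov π n k a b X w) (h' : Cov π n k a b Y v) : Cov π n k a b (X ∪ Y) (w + v) := by
  cases n with
  | zero => exact ⟨by rw [h.1, h'.1, Set.union_empty], add_nonneg h.2 h'.2⟩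
  | succ n => exact Sp.union h h'

theorem cov_empty (n k : ℕ) (a b : Γ) {w : ℝ} (hw : 0 ≤ w) :
    Cov π n k a b (∅ : Set (∀ g, T g)) w := by
  induction n generalizing k with
  | zero => exact ⟨rfl, hw⟩
  | succ n ih => exact Sp.base (ih (k + 1))

theorem cov_succ {n k : ℕ} {a b : Γ} {X : Set (∀ g, T g)} {w : ℝ}
    (h : Cov π n (k + 1) a b X w) : Cov π (n + 1) k a b X w := Sp.base h

theorem cov_elem {n k : ℕ} {a b : Γ} {X : Set (∀ g, T g)} {j : ℕ}
    (h : Elm π k (Cov π n (k + 1)) a b X j) : Cov π (n + 1) k a b X (wt π k j) :=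
  Sp.elem ⟨j, rfl, h⟩

/-- covers of small weight only use higher classes -/
theorem cov_of_small {n k : ℕ} {a b : Γ} {X : Set (∀ g, T g)} {w : ℝ}
    (h : Cov π (n + 1) k a b X w) (hw : w < (1 / 2) ^ k) : Cov π n (k + 1) a b X w := by
  have key : ∀ {X : Set (∀ g, T g)} {w : ℝ}, Sp (fun X w => ∃ j, w = wt π k j ∧
      Elm π k (Cov π n (k + 1)) a b X j) (Cov π n (k + 1) a b) X w → w < (1 / 2) ^ k →
      Cov π n (k + 1) a b X w := by
    intro X w h
    induction h with
    | base h => exact fun _ => h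
    | elem h =>
      obtain ⟨j, rfl, -⟩ := h
      exact fun h => absurd (wt_ge π k j) (not_le.2 h)
    | union h h' ih ih' =>
      intro hw
      have h1 := cov_nonneg π (n := n + 1) (k := k) (a := a) (b := b) h
      have h2 := cov_nonneg π (n := n + 1) (k := k) (a := a) (b := b) h'
      exact cov_union π (ih (by linarith)) (ih' (by linarith))
    | mono h hY hv ih => exact fun hw => cov_mono π (ih (hv.trans_lt hw)) hY hv
  exact key h hw

/-- every covered set is contained in a covered set depending on the interval only -/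
theorem cov_dep {n k : ℕ} {a b : Γ} {X : Set (∀ g, T g)} {w : ℝ} (h : Cov π n k a b X w) :
    ∃ Y, X ⊆ Y ∧ Dep Y a b ∧ Cov π n k a b Y w := by
  induction n generalizing k X w with
  | zero => exact ⟨X, subset_rfl, by rw [h.1]; exact dep_empty a b, h⟩
  | succ n ih =>
    change Sp _ _ _ _ at h
    induction h with
    | base h =>
      obtain ⟨Y, h1, h2, h3⟩ := ih h
      exact ⟨Y, h1, h2, Sp.base h3⟩
    | elem h =>
      refine ⟨_, subset_rfl, ?_, Sp.elem h⟩
      obtain ⟨j, -, h⟩ := h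
      exact h.1
    | union h h' ih ih' =>
      obtain ⟨Y, h1, h2, h3⟩ := ih
      obtain ⟨Y', h1', h2', h3'⟩ := ih'
      exact ⟨Y ∪ Y', Set.union_subset_union h1 h1', h2.union h2', h3.union h3'⟩
    | mono h hY hv ih =>
      obtain ⟨Y, h1, h2, h3⟩ := ih
      exact ⟨Y, hY.trans h1, h2, h3.mono subset_rfl hv⟩

/-! ### Enlarging the interval -/

theorem Slots.mono {a b a' b' : Γ} {m : ℕ} {l r : ℕ → Γ} (h : Slots a b m l r) (ha : a' ≤ a)
    (hb : b ≤ b') : Slots a' b' m l r :=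
  ⟨fun i hi => ⟨ha.trans (h.1 i hi).1, (h.1 i hi).2.1, (h.1 i hi).2.2.trans hb⟩, h.2⟩

theorem cov_interval {n k : ℕ} {a b a' b' : Γ} {X : Set (∀ g, T g)} {w : ℝ}
    (h : Cov π n k a b X w) (ha : a' ≤ a) (hb : b ≤ b') : Cov π n k a' b' X w := by
  induction n generalizing k a b a' b' X w with
  | zero => exact h
  | succ n ih =>
    change Sp _ _ _ _ at h
    induction h with
    | base h => exact Sp.base (ih h ha hb)
    | elem h =>
      obtain ⟨j, rfl, hX, h⟩ := h
      refine Sp.elem ⟨j, rfl, hX.mono ha hb, ?_⟩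
      rcases h with ⟨m, l, r, hN, hs, he⟩ | ⟨g, h1, h2, h3⟩
      · refine Or.inl ⟨m, l, r, hN, hs.mono ha hb, fun i hi u => ?_⟩
        obtain ⟨D, hD, hL, hv⟩ := he i hi u
        exact ⟨D, hD, hL, fun v hvD => ih (hv v hvD) le_rfl hb⟩
      · exact Or.inr ⟨g, ha.trans h1, h2.trans hb, fun u => ih (h3 u) le_rfl hb⟩
    | union h h' ih ih' => exact ih.union ih'
    | mono h hY hv ih => exact ih.mono hY hv

/-! ### Sections of escapes -/

/-- slots to the right of `c` are slots of the section -/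
theorem Escape.sec {C : Cv T} {b c : Γ} {X : Set (∀ g, T g)} {m : ℕ} {l r : ℕ → Γ} {e : ℝ}
    (h : Escape C b X m l r e) (z : ∀ g, T g) (hc : ∀ i < m, c ≤ l i)
    (hlr : ∀ i < m, l i < r i) : Escape C b (SN.sec X c z) m l r e := by
  intro i hi u
  obtain ⟨D, hD, hL, hv⟩ := h i hi (mix c z u)
  refine ⟨D, hD, hL, fun v hvD => ?_⟩
  rw [sec_sec ((hc i hi).trans (hlr i hi).le), mix_mix (hc i hi)]
  exact hv v hvD

/-- a consecutive block of slots -/
theorem Escape.block {C : Cv T} {b : Γ} {X : Set (∀ g, T g)} {m : ℕ} {l r : ℕ → Γ} {e : ℝ}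
    (h : Escape C b X m l r e) (s m' : ℕ) (hs : s + m' ≤ m) :
    Escape C b X m' (fun i => l (s + i)) (fun i => r (s + i)) e :=
  fun i hi u => h (s + i) (by omega) u

theorem Slots.block {a b : Γ} {m : ℕ} {l r : ℕ → Γ} (h : Slots a b m l r) (s m' : ℕ)
    (hs : s + m' ≤ m) : Slots a b m' (fun i => l (s + i)) (fun i => r (s + i)) :=
  ⟨fun i hi => h.1 (s + i) (by omega), fun i j hij hj => h.2 _ _ (by omega) (by omega)⟩

theorem Large.interval {n k : ℕ} {a b a' b' : Γ} {D : Set (∀ g, T g)}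
    (h : Large (Cov π n k) a' b' D) (ha : a' ≤ a) (hb : b ≤ b') : Large (Cov π n k) a b D :=
  fun w hw hc => h w hw (cov_interval π hc ha hb)

end Pool.Agent.H90.SN
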