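import Pool.Agent.H90.SN.Hech

/-!
# The dominating functions (module E4)

`dn c' c`: `c'` is hereditarily a child of `c`.

* `ok_congr`: structural induction; `ok q c s F` depends only on the values of `q` at `c` and below.
* `exists_code`: enumerate the (finite) support of `q x`; outside the support the demand is trivial
  (`ok_triv`).
* `restrict_below`: `r` below `c`, `p` elsewhere.  It is `≤ p` if `r ≤ p`: at the coordinates below `c`
  by `ok_congr` (`dn` is transitive), at the others since the stem is the same (no demand on new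
  values); and it satisfies the same demands as `r` at the coordinates below `c`.
* `stem_long`: it is enough to increase the length; let `n = (p.stem c).length`.  By predensity and
  `restrict_below`, in finitely many steps, for `α ∈ p.pr c`, there is `r ≤ p` with
  `r.stem c = p.stem c`, `r.pr c = p.pr c` (`dn_irrefl`) and `r ≤ q (α, n, i α)` for suitable
  `i α`, for all `α ∈ p.pr c`.  (To compare with `q (α, n, i)` use its demands at the children of
  `c`.)  Extend the stem of `r` at `c` by one value `≥` all `v (α, n, i α)`: this gives `r' ≤ r`.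
* `gl_dom`: `exists_decide` for `G ↦ g α G n` gives `q (α, n, ·)`, `v (α, n, ·)`, and `exists_code` a
  coordinate `c`.  `h G n`: the value at `n` of the first stem `s` (in an enumeration of `List ℕ`)
  with length `> n` such that the condition with the stem `s` at `c` and no promises is in `G`
  (`0` if there is none); this is measurable.
  For `α`: almost all `G` are filters, meet the predense (even dense) sets `{p | α ∈ p.pr c}` (add `α`
  to `p.pr c`) and `{p | N ≤ (p.stem c).length}` for all `N`, and `q (α, n, i) ∈ G → g α G n = v (α, n, i)`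
  for all `n`, `i`.  Let `p ∈ G` with `α ∈ p.pr c`, and `n ≥ (p.stem c).length`.  Take `r ∈ G`,
  `r ≤ p`, with `n < (r.stem c).length`: there is `i` with `v (α, n, i) ≤ (r.stem c).getD n 0` and
  `r ≤ q (α, n, i)`, so `g α G n = v (α, n, i) ≤ h G n` (all stems at `c` of members of `G` are
  compatible).
-/

set_option autoImplicit false

open Filter MeasureTheory

namespace Pool.Agent.H90.SN

/-- `c'` is hereditarily a child of the coordinate -/
def dn (c' : Nm) : Nm → Prop
  | .nil => False
  | .mk ch _ _ _ _ => ∃ x, c' = ch x ∨ dn c' (ch x)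

theorem dn_trans {c c' c'' : Nm} (h : dn c'' c') (h' : dn c' c) : dn c'' c := by
  induction c with
  | nil => exact h'.elim
  | mk ch st fs len val ih =>
    obtain ⟨x, rfl | hx⟩ := h'
    · exact ⟨x, Or.inr h⟩
    · exact ⟨x, Or.inr (ih x hx)⟩

theorem dn_irrefl (c : Nm) : ¬ dn c c := by
  induction c with
  | nil => exact fun h => h
  | mk ch st fs len val ih =>
    intro h
    obtain ⟨x, hx⟩ := h
    have hc : dn (ch x) (.mk ch st fs len val) := ⟨x, Or.inl rfl⟩
    rcases hx with hx | hx
    · rw [hx] at hc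
      exact ih x hc
    · exact ih x (dn_trans hc hx)

theorem ok_pre {q : Cd} {c : Nm} {s : List ℕ} {F : Finset Om} (h : ok q c s F) :
    s <+: q.stem c := by
  cases c with
  | nil => exact h.1
  | mk ch st fs len val => exact h.1

theorem ok_of_eq {q : Cd} {c : Nm} {s : List ℕ} {F : Finset Om} (h : q.stem c = s)
    (h' : F ⊆ q.pr c) : ok q c s F := by
  cases c with
  | nil => exact ⟨by rw [h], h'⟩
  | mk ch st fs len val =>
    refine ⟨by rw [h], h', fun n h1 h2 => ?_⟩
    rw [h] at h2
    omega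

theorem ok_congr {r r' : Cd} {c : Nm}
    (h : ∀ c', c' = c ∨ dn c' c → r.stem c' = r'.stem c' ∧ r.pr c' = r'.pr c')
    {s : List ℕ} {F : Finset Om} (hr : ok r c s F) : ok r' c s F := by
  induction c generalizing s F with
  | nil =>
    obtain ⟨h1, h2⟩ := h _ (Or.inl rfl)
    change s <+: r'.stem .nil ∧ F ⊆ r'.pr .nil
    rw [← h1, ← h2]
    exact hr
  | mk ch st fs len val ih =>
    obtain ⟨h1, h2⟩ := h _ (Or.inl rfl)
    obtain ⟨h3, h4, h5⟩ := hr
    refine ⟨by rw [← h1]; exact h3, by rw [← h2]; exact h4, fun n hn hn' α hα => ?_⟩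
    rw [← h1] at hn' ⊢
    obtain ⟨i, h6, h7⟩ := h5 n hn hn' α hα
    exact ⟨i, h6, fun m hm => ih _ (fun c' hc' => h c' (Or.inr ⟨_, hc'⟩)) (h7 m hm)⟩

theorem restrict_below {r p : Cd} (h : r ≤ p) (c : Nm) :
    ∃ r' ≤ p, (∀ c', ¬ dn c' c → r'.stem c' = p.stem c' ∧ r'.pr c' = p.pr c') ∧
      ∀ c', dn c' c → ∀ s F, ok r c' s F → ok r' c' s F := by
  classical
  have hfin : {c' | (if dn c' c then r.stem c' else p.stem c') ≠ [] ∨
      (if dn c' c then r.pr c' else p.pr c') ≠ ∅}.Finite := by
    refine (r.fin.union p.fin).subset fun c' hc' => ?_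
    simp only [Set.mem_ofPred_eq] at hc'
    by_cases h1 : dn c' c
    · rw [if_pos h1, if_pos h1] at hc'
      exact Or.inl hc'
    · rw [if_neg h1, if_neg h1] at hc'
      exact Or.inr hc'
  let r' : Cd := ⟨fun c' => if dn c' c then r.stem c' else p.stem c',
    fun c' => if dn c' c then r.pr c' else p.pr c', hfin⟩
  have hpos : ∀ c', dn c' c → r.stem c' = r'.stem c' ∧ r.pr c' = r'.pr c' := fun c' hc' =>
    ⟨(if_pos hc').symm, (if_pos hc').symm⟩
  have hneg : ∀ c', ¬ dn c' c → r'.stem c' = p.stem c' ∧ r'.pr c' = p.pr c' := fun c' hc' =>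
    ⟨if_neg hc', if_neg hc'⟩
  have hok : ∀ c', dn c' c → ∀ s F, ok r c' s F → ok r' c' s F := by
    intro c' hc' s F hr
    refine ok_congr (fun c'' hc'' => hpos c'' ?_) hr
    rcases hc'' with rfl | hc''
    · exact hc'
    · exact dn_trans hc'' hc'
  refine ⟨r', fun c' => ?_, hneg, hok⟩
  by_cases h1 : dn c' c
  · exact hok c' h1 _ _ (h c')
  · exact ok_of_eq (hneg c' h1).1 (by rw [(hneg c' h1).2])

/-- conditions are coded by demands -/
theorem exists_code (q : Om × ℕ × ℕ → Cd) :
    ∃ (ch : Om × ℕ × ℕ × ℕ → Nm) (st : Om × ℕ × ℕ × ℕ → List ℕ)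
      (fs : Om × ℕ × ℕ × ℕ → Finset Om) (len : Om × ℕ × ℕ → ℕ),
      ∀ (r : Cd) (α : Om) (n i : ℕ),
        (∀ m < len (α, n, i), ok r (ch (α, n, i, m)) (st (α, n, i, m)) (fs (α, n, i, m))) ↔
          r ≤ q (α, n, i) := by
  classical
  have key : ∀ p : Cd, ∃ (ch : ℕ → Nm) (len : ℕ), ∀ c, (p.stem c ≠ [] ∨ p.pr c ≠ ∅) →
      ∃ m < len, ch m = c := by
    intro p
    refine ⟨fun m => p.fin.toFinset.toList.getD m .nil, p.fin.toFinset.toList.length,
      fun c hc => ?_⟩
    have h1 : c ∈ p.fin.toFinset.toList := by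
      rw [Finset.mem_toList, Set.Finite.mem_toFinset]
      exact hc
    obtain ⟨m, hm, hm'⟩ := List.getElem_of_mem h1
    refine ⟨m, hm, ?_⟩
    dsimp only
    rw [List.getD_eq_getElem _ _ hm, hm']
  choose ch len hc using key
  refine ⟨fun x => ch (q (x.1, x.2.1, x.2.2.1)) x.2.2.2,
    fun x => (q (x.1, x.2.1, x.2.2.1)).stem (ch (q (x.1, x.2.1, x.2.2.1)) x.2.2.2),
    fun x => (q (x.1, x.2.1, x.2.2.1)).pr (ch (q (x.1, x.2.1, x.2.2.1)) x.2.2.2),
    fun x => len (q x), fun r α n i => ⟨fun h c => ?_, fun h m _ => h _⟩⟩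
  by_cases h1 : (q (α, n, i)).stem c ≠ [] ∨ (q (α, n, i)).pr c ≠ ∅
  · obtain ⟨m, hm, hm'⟩ := hc _ c h1
    have h2 := h m hm
    dsimp only at h2
    rw [hm'] at h2
    exact h2
  · rw [not_or, not_not, not_not] at h1
    rw [h1.1, h1.2]
    exact ok_triv r c

theorem stem_step {ch : Om × ℕ × ℕ × ℕ → Nm} {st : Om × ℕ × ℕ × ℕ → List ℕ}
    {fs : Om × ℕ × ℕ × ℕ → Finset Om} {len : Om × ℕ × ℕ → ℕ} {q : Om × ℕ × ℕ → Cd}
    (hq : ∀ (r : Cd) (α : Om) (n i : ℕ),
        (∀ m < len (α, n, i), ok r (ch (α, n, i, m)) (st (α, n, i, m)) (fs (α, n, i, m))) ↔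
          r ≤ q (α, n, i))
    (hd : ∀ α n, Predense (Set.range fun i => q (α, n, i))) (val : Om × ℕ × ℕ → ℕ) (p : Cd) :
    ∃ r ≤ p, (p.stem (.mk ch st fs len val)).length <
      (r.stem (.mk ch st fs len val)).length := by
  classical
  set c : Nm := .mk ch st fs len val with hc
  set n := (p.stem c).length with hn
  have key : ∀ F : Finset Om, ∃ r ≤ p, r.stem c = p.stem c ∧ r.pr c = p.pr c ∧
      ∀ α ∈ F, ∃ i, r ≤ q (α, n, i) := by
    intro F
    induction F using Finset.induction_on with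
    | empty => exact ⟨p, le_rfl, rfl, rfl, fun α hα => absurd hα (Finset.notMem_empty α)⟩
    | insert α F hα ih =>
      obtain ⟨r, h1, h2, h3, h4⟩ := ih
      obtain ⟨_, ⟨i, rfl⟩, r1, h5, h6⟩ := hd α n r
      obtain ⟨r', h7, h8, h9⟩ := restrict_below h5 c
      obtain ⟨h10, h11⟩ := h8 c (dn_irrefl c)
      refine ⟨r', h7.trans h1, h10.trans h2, h11.trans h3, fun β hβ => ?_⟩
      rw [Finset.mem_insert] at hβ
      rcases hβ with rfl | hβ
      · refine ⟨i, (hq _ _ _ _).1 fun m hm => ?_⟩
        exact h9 _ ⟨_, Or.inl rfl⟩ _ _ ((hq _ _ _ _).2 h6 m hm)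
      · obtain ⟨j, hj⟩ := h4 β hβ
        exact ⟨j, h7.trans hj⟩
  obtain ⟨r, h1, h2, h3, h4⟩ := key (p.pr c)
  choose! i hi using h4
  have hfin : {c' | (if c' = c then r.stem c ++ [(p.pr c).sup fun α => val (α, n, i α)]
      else r.stem c') ≠ [] ∨ r.pr c' ≠ ∅}.Finite := by
    refine (r.fin.union (Set.finite_singleton c)).subset fun c' hc' => ?_
    simp only [Set.mem_ofPred_eq] at hc'
    by_cases h5 : c' = c
    · exact Or.inr h5
    · rw [if_neg h5] at hc'
      exact Or.inl hc'
  let r' : Cd := ⟨fun c' => if c' = c then r.stem c ++ [(p.pr c).sup fun α => val (α, n, i α)]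
    else r.stem c', r.pr, hfin⟩
  have hs : r'.stem c = r.stem c ++ [(p.pr c).sup fun α => val (α, n, i α)] := if_pos rfl
  have hne : ∀ c', c' ≠ c → r'.stem c' = r.stem c' := fun c' hc' => if_neg hc'
  have hlen : (r.stem c).length = n := by rw [h2]
  refine ⟨r', le_trans (fun c' => ?_) h1, ?_⟩
  · by_cases h5 : c' = c
    · subst h5
      rw [hc]
      rw [hc] at hs h3 hlen
      refine ⟨?_, subset_rfl, fun n' h6 h7 α hα => ?_⟩
      · rw [hs]
        exact List.prefix_append _ _
      · rw [hs, List.length_append, List.length_singleton] at h7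
        have h8 : n' = n := by omega
        subst h8
        rw [h3] at hα
        refine ⟨i α, ?_, fun m hm => ?_⟩
        · rw [hs, List.getD_append_right _ _ _ _ (by omega), hlen, Nat.sub_self,
            List.getD_cons_zero]
          exact Finset.le_sup (f := fun α => val (α, _, i α)) hα
        · refine ok_congr (fun c' hc' => ⟨(hne c' ?_).symm, rfl⟩)
            ((hq r α _ (i α)).2 (hi α hα) m hm)
          rintro rfl
          rw [hc] at hc'
          rcases hc' with hc' | hc'
          · apply dn_irrefl (Nm.mk ch st fs len val)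
            exact ⟨_, Or.inl hc'⟩
          · apply dn_irrefl (Nm.mk ch st fs len val)
            exact ⟨_, Or.inr hc'⟩
    · exact ok_of_eq (hne c' h5) subset_rfl
  · rw [hs, List.length_append, List.length_singleton, hlen]
    omega

theorem stem_long {ch : Om × ℕ × ℕ × ℕ → Nm} {st : Om × ℕ × ℕ × ℕ → List ℕ}
    {fs : Om × ℕ × ℕ × ℕ → Finset Om} {len : Om × ℕ × ℕ → ℕ} {q : Om × ℕ × ℕ → Cd}
    (hq : ∀ (r : Cd) (α : Om) (n i : ℕ),
        (∀ m < len (α, n, i), ok r (ch (α, n, i, m)) (st (α, n, i, m)) (fs (α, n, i, m))) ↔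
          r ≤ q (α, n, i))
    (hd : ∀ α n, Predense (Set.range fun i => q (α, n, i))) (val : Om × ℕ × ℕ → ℕ) (p : Cd)
    (N : ℕ) : ∃ r ≤ p, N ≤ (r.stem (.mk ch st fs len val)).length := by
  induction N with
  | zero => exact ⟨p, le_rfl, Nat.zero_le _⟩
  | succ N ih =>
    obtain ⟨r, h1, h2⟩ := ih
    obtain ⟨r', h3, h4⟩ := stem_step hq hd val r
    exact ⟨r', h3.trans h1, by omega⟩

theorem getD_of_prefix {s t : List ℕ} (h : s <+: t) {n : ℕ} (hn : n < s.length) :
    s.getD n 0 = t.getD n 0 := by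
  obtain ⟨u, rfl⟩ := h
  rw [List.getD_append _ _ _ _ hn]

theorem gl_dom (g : Om → Set Cd → ℕ → ℕ) (hg : ∀ i, Measurable[gms Cd] (g i)) :
    ∃ h : Set Cd → ℕ → ℕ, Measurable[gms Cd] h ∧
      ∀ i, ∀ᶠ G in gl Cd, ∀ᶠ n in atTop, g i G n ≤ h G n := by
  classical
  let _ : MeasurableSpace (Set Cd) := gms Cd
  have h1 : ∀ x : Om × ℕ, ∃ (q : ℕ → Cd) (v : ℕ → ℕ), Predense (Set.range q) ∧
      ∀ i, ∀ᶠ G in gl Cd, q i ∈ G → g x.1 G x.2 = v i := fun x =>
    exists_decide cd_ccc (f := fun G => g x.1 G x.2) ((measurable_pi_apply x.2).comp (hg x.1))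
  choose q v hq hv using h1
  obtain ⟨ch, st, fs, len, hcode⟩ := exists_code fun x => q (x.1, x.2.1) x.2.2
  set val : Om × ℕ × ℕ → ℕ := fun x => v (x.1, x.2.1) x.2.2 with hval
  set c : Nm := .mk ch st fs len val with hc
  have hlong := stem_long (q := fun x => q (x.1, x.2.1) x.2.2) hcode
    (fun α n => hq (α, n)) val
  have hcfin : ∀ s : List ℕ, {c' | (if c' = c then s else []) ≠ [] ∨
      (∅ : Finset Om) ≠ ∅}.Finite := by
    intro s
    refine (Set.finite_singleton c).subset fun c' hc' => ?_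
    simp only [Set.mem_ofPred_eq, ne_eq, not_true_eq_false, or_false] at hc'
    by_contra h
    exact hc' (if_neg h)
  let cond : List ℕ → Cd := fun s => ⟨fun c' => if c' = c then s else [], fun _ => ∅, hcfin s⟩
  have hcond : ∀ s, (cond s).stem c = s := fun s => if_pos rfl
  have hle : ∀ r : Cd, r ≤ cond (r.stem c) := by
    intro r c'
    by_cases h : c' = c
    · subst h
      exact ok_of_eq (hcond _).symm (Finset.empty_subset _)
    · have h2 : (cond (r.stem c)).stem c' = [] := if_neg h
      have h3 : (cond (r.stem c)).pr c' = ∅ := rfl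
      rw [h2, h3]
      exact ok_triv r c'
  let E : ℕ → ℕ → Set (Set Cd) := fun n a => {G | ∃ s : List ℕ, n < s.length ∧
    s.getD n 0 = a ∧ cond s ∈ G}
  have hE : ∀ n a, MeasurableSet (E n a) := by
    intro n a
    have : E n a = ⋃ s : List ℕ, {G | n < s.length ∧ s.getD n 0 = a ∧ cond s ∈ G} := by
      ext G
      simp [E]
    rw [this]
    refine MeasurableSet.iUnion fun s => ?_
    by_cases h : n < s.length ∧ s.getD n 0 = a
    · have : {G : Set Cd | n < s.length ∧ s.getD n 0 = a ∧ cond s ∈ G} =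
          {G | cond s ∈ G} := by
        ext G
        simp only [Set.mem_ofPred_eq]
        exact ⟨fun h' => h'.2.2, fun h' => ⟨h.1, h.2, h'⟩⟩
      rw [this]
      exact measurableSet_mem (cond s)
    · have : {G : Set Cd | n < s.length ∧ s.getD n 0 = a ∧ cond s ∈ G} = ∅ := by
        ext G
        simp only [Set.mem_ofPred_eq, Set.mem_empty_iff_false, iff_false]
        exact fun h' => h ⟨h'.1, h'.2.1⟩
      rw [this]
      exact MeasurableSet.empty
  have hex : ∀ n (G : Set Cd), ∃ a, G ∈ E n a ∨ ∀ b, G ∉ E n b := by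
    intro n G
    by_cases h : ∃ a, G ∈ E n a
    · obtain ⟨a, ha⟩ := h
      exact ⟨a, Or.inl ha⟩
    · exact ⟨0, Or.inr fun b hb => h ⟨b, hb⟩⟩
  refine ⟨fun G n => Nat.find (hex n G), ?_, fun α => ?_⟩
  · refine measurable_pi_lambda _ fun n => ?_
    refine measurable_find (hex n) fun k => ?_
    have : {G : Set Cd | G ∈ E n k ∨ ∀ b, G ∉ E n b} = E n k ∪ ⋂ b, (E n b)ᶜ := by
      ext G
      simp
    rw [this]
    exact (hE n k).union (MeasurableSet.iInter fun b => (hE n b).compl)
  · have hd1 : Predense {p : Cd | α ∈ p.pr c} := by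
      intro p
      have hfin : {c' | p.stem c' ≠ [] ∨ (if c' = c then insert α (p.pr c) else p.pr c') ≠ ∅}.Finite := by
        refine (p.fin.union (Set.finite_singleton c)).subset fun c' hc' => ?_
        simp only [Set.mem_ofPred_eq] at hc'
        by_cases h5 : c' = c
        · exact Or.inr h5
        · rw [if_neg h5] at hc'
          exact Or.inl hc'
      let p' : Cd := ⟨p.stem, fun c' => if c' = c then insert α (p.pr c) else p.pr c', hfin⟩
      have hp' : p'.pr c = insert α (p.pr c) := if_pos rfl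
      have hne : ∀ c', c' ≠ c → p'.pr c' = p.pr c' := fun c' h => if_neg h
      refine ⟨p', ?_, p', fun c' => ?_, le_rfl⟩
      · rw [Set.mem_ofPred_eq, hp']
        exact Finset.mem_insert_self _ _
      · refine ok_of_eq rfl ?_
        by_cases h : c' = c
        · subst h
          rw [hp']
          exact Finset.subset_insert _ _
        · rw [hne c' h]
    have hd2 : ∀ N : ℕ, Predense {p : Cd | N ≤ (p.stem c).length} := by
      intro N p
      obtain ⟨r, h3, h4⟩ := hlong p N
      exact ⟨r, h4, r, h3, le_rfl⟩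
    have e1 := eventually_filt (H := Cd)
    have e2 := eventually_meets hd1
    have e3 : ∀ᶠ G in gl Cd, ∀ N : ℕ, (G ∩ {p : Cd | N ≤ (p.stem c).length}).Nonempty :=
      eventually_countable_forall.2 fun N => eventually_meets (hd2 N)
    have e4 : ∀ᶠ G in gl Cd, ∀ n i : ℕ, q (α, n) i ∈ G → g α G n = v (α, n) i :=
      eventually_countable_forall.2 fun n => eventually_countable_forall.2 fun i => hv (α, n) i
    filter_upwards [e1, e2, e3, e4] with G hG hG2 hG3 hG4
    obtain ⟨p, hpG, hpα⟩ := hG2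
    rw [Filter.eventually_atTop]
    refine ⟨(p.stem c).length, fun n hn => ?_⟩
    obtain ⟨p', hp'G, hp'⟩ := hG3 (n + 1)
    obtain ⟨r, hrG, hrp, hrp'⟩ := hG.dir p hpG p' hp'G
    have h5 : n < (r.stem c).length := by
      have := (ok_pre (hrp' c)).length_le
      rw [Set.mem_ofPred_eq] at hp'
      omega
    obtain ⟨-, -, h6⟩ := hrp c
    obtain ⟨i, h7, h8⟩ := h6 n hn h5 α hpα
    have h9 : r ≤ q (α, n) i := (hcode r α n i).1 h8
    have h10 : g α G n = v (α, n) i := hG4 n i (hG.up r hrG _ h9)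
    have h11 : G ∈ E n ((r.stem c).getD n 0) :=
      ⟨r.stem c, h5, rfl, hG.up r hrG _ (hle r)⟩
    have h12 := Nat.find_spec (hex n G)
    rcases h12 with h12 | h12
    · obtain ⟨s, h13, h14, h15⟩ := h12
      obtain ⟨t, -, h16, h17⟩ := hG.dir _ h15 r hrG
      have h18 := ok_pre (h16 c)
      rw [hcond] at h18
      have h19 := ok_pre (h17 c)
      rw [h10, ← h14, getD_of_prefix h18 h13, ← getD_of_prefix h19 h5]
      exact h7
    · exact absurd h11 (h12 _)

theorem exists_base : Nonempty Base :=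
  ⟨{ S := Set Cd
     ms := gms Cd
     l := gl Cd
     neBot := gl_neBot
     cinf := inferInstance
     ccc := gl_ccc cd_ccc
     dom := gl_dom }⟩

end Pool.Agent.H90.SN
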