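import Pool.Agent.H90.SN.Limit

/-!
# Exhaustivity (module B5)

* `exh_succ`: for `t : T c` let `E' t i := {z | Function.update z c t ∈ E i}`; these sets have finite
  support, depend on `[a, c)` and are pairwise disjoint for fixed `t`, and `E i ⊆ ⋃ t, E' t i`.
  `mu π a b (E' t i) ≤ mu π a c (E' t i) → 0` (`mu_interval`), and there are finitely many `t`.
* `exh_theorem`: induction on `b`.
  * `b ≤ a`: every `E i` is `∅` or `univ`, at most one is `univ`.
  * `a < b`, there is `c < b` with no element between: `exh_succ`.
  * otherwise: `Fsp.dep_lt` gives `g' i < b` with `Dep (E i) a (g' i)`; let `g n` be the maximum of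
    `g' i`, `i ≤ n`.  If `g` has a largest value `g n₀` then all `E i` depend on `[a, g n₀)`: use the
    induction hypothesis for `g n₀` and `mu_interval`.  Otherwise `exh_limit`.
-/

set_option autoImplicit false

open Filter ENNReal Topology

namespace Pool.Agent.H90.SN

variable {Γ : Type} [LinearOrder Γ] {T : Γ → Type} (π : Par)

theorem mu_finset_le {ι : Type} (a b : Γ) (s : Finset ι) (X : ι → Set (∀ g, T g)) :
    mu π a b (⋃ t ∈ s, X t) ≤ ∑ t ∈ s, mu π a b (X t) := by
  classical
  induction s using Finset.induction_on with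
  | empty =>
    have h : (⋃ t ∈ (∅ : Finset ι), X t) = ∅ := by simp
    rw [h, mu_empty]
    exact zero_le
  | insert t s ht ih =>
    rw [Finset.set_biUnion_insert, Finset.sum_insert ht]
    exact (mu_union π a b _ _).trans (by gcongr)

theorem exh_succ {a b c : Γ} [Finite (T c)] (hac : a ≤ c) (hcb : c < b)
    (hc : ∀ g, g < b → g ≤ c) (ih : Exh π T a c) : Exh π T a b := by
  classical
  intro E hE hEd hdis
  have := Fintype.ofFinite (T c)
  have key : ∀ t : T c, Tendsto (fun i => mu π a c {z | Function.update z c t ∈ E i})
      atTop (𝓝 0) := by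
    intro t
    refine ih (fun i => {z | Function.update z c t ∈ E i}) ?_ ?_ ?_
    · intro i
      obtain ⟨F, hF⟩ := hE i
      refine ⟨F, fun z z' hz => hF _ _ fun g hg => ?_⟩
      by_cases hgc : g = c
      · subst hgc
        simp
      · rw [Function.update_of_ne hgc, Function.update_of_ne hgc]
        exact hz g hg
    · intro i z z' hz
      refine hEd i _ _ fun g hag hgb => ?_
      by_cases hgc : g = c
      · subst hgc
        simp
      · rw [Function.update_of_ne hgc, Function.update_of_ne hgc]
        exact hz g hag (lt_of_le_of_ne (hc g hgb) hgc)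
    · intro i j hij
      refine Set.disjoint_left.2 fun z hz hz' => ?_
      exact Set.disjoint_left.1 (hdis hij) hz hz'
  have hsum : Tendsto (fun i => ∑ t : T c, mu π a c {z | Function.update z c t ∈ E i})
      atTop (𝓝 0) := by
    have h0 := tendsto_finsetSum (Finset.univ : Finset (T c)) fun t _ => key t
    simpa using h0
  refine tendsto_of_tendsto_of_tendsto_of_le_of_le tendsto_const_nhds hsum
    (fun i => zero_le) (fun i => ?_)
  have hsub : E i ⊆ ⋃ t ∈ (Finset.univ : Finset (T c)), {z | Function.update z c t ∈ E i} := by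
    intro z hz
    refine Set.mem_biUnion (Finset.mem_univ (z c)) ?_
    change Function.update z c (z c) ∈ E i
    rwa [Function.update_eq_self]
  refine (mu_mono π hsub).trans ((mu_finset_le π a b _ _).trans ?_)
  exact Finset.sum_le_sum fun t _ => mu_interval π le_rfl hcb.le _

/-- **Exhaustivity.** -/
theorem exh_theorem [WellFoundedLT Γ] [∀ g, Nonempty (T g)] [∀ g, Finite (T g)] (a b : Γ) :
    Exh π T a b := by
  induction b using WellFoundedLT.induction with
  | ind b ih =>
  rcases le_or_gt b a with hba | hab
  · intro E hE hEd hdis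
    have hall : ∀ i, ∀ z z' : ∀ g, T g, z ∈ E i → z' ∈ E i := by
      intro i z z' hz
      refine (hEd i z z' fun g h1 h2 => ?_).1 hz
      exact absurd (h2.trans_le hba) (not_lt.2 h1)
    have hfin : ∀ᶠ i in atTop, mu π a b (E i) = 0 := by
      by_cases hne : ∃ i, (E i).Nonempty
      · obtain ⟨i, z, hz⟩ := hne
        filter_upwards [eventually_gt_atTop i] with j hj
        have : E j = ∅ := by
          rw [Set.eq_empty_iff_forall_notMem]
          intro z' hz'
          exact Set.disjoint_left.1 (hdis (ne_of_lt hj)) hz (hall j z' z hz')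
        rw [this, mu_empty]
      · push Not at hne
        filter_upwards with j
        rw [hne j, mu_empty]
    exact tendsto_nhds_of_eventually_eq hfin
  · by_cases hs : ∃ c, c < b ∧ ∀ g, g < b → g ≤ c
    · obtain ⟨c, hcb, hc⟩ := hs
      exact exh_succ π (hc a hab) hcb hc (ih c hcb)
    · push Not at hs
      have hb : ∀ c < b, ∃ g, c < g ∧ g < b := by
        intro c hc
        obtain ⟨g, h1, h2⟩ := hs c hc
        exact ⟨g, h2, h1⟩
      intro E hE hEd hdis
      have hdep : ∀ i, ∃ g, a ≤ g ∧ g < b ∧ Dep (E i) a g := fun i =>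
        Fsp.dep_lt (hE i) hab (hEd i) hb
      choose g' h1 h2 h3 using hdep
      let g : ℕ → Γ := fun n => (Finset.range (n + 1)).sup' ⟨0, by simp⟩ g'
      have hgle : ∀ n, g' n ≤ g n := fun n => Finset.le_sup' g' (by simp)
      have hag : ∀ n, a ≤ g n := fun n => (h1 n).trans (hgle n)
      have hgb : ∀ n, g n < b := fun n => (Finset.sup'_lt_iff _).2 fun i _ => h2 i
      have hg : Monotone g := by
        intro m n hmn
        refine Finset.sup'_mono _ ?_ _
        intro i hi
        rw [Finset.mem_range] at hi ⊢
        omega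
      have hEd' : ∀ i, Dep (E i) a (g i) := fun i => (h3 i).mono le_rfl (hgle i)
      by_cases hcof : ∀ n, ∃ m, g n < g m
      · exact exh_limit π ih hg hag hgb hcof hE hEd' hdis
      · push Not at hcof
        obtain ⟨n₀, hn₀⟩ := hcof
        have h4 := ih (g n₀) (hgb n₀) E hE (fun i => (hEd' i).mono le_rfl (hn₀ i)) hdis
        refine tendsto_of_tendsto_of_tendsto_of_le_of_le tendsto_const_nhds h4
          (fun i => zero_le) (fun i => ?_)
        exact mu_interval π le_rfl (hgb n₀).le _

/-- the exhaustive submeasure on the interval `[a, b)` -/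
noncomputable def sub (T : Γ → Type) [WellFoundedLT Γ] [∀ g, Nonempty (T g)]
    [∀ g, Finite (T g)] (a b : Γ) : Sub (∀ g, T g) :=
  subOf π (exh_theorem (T := T) π a b)

end Pool.Agent.H90.SN
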