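import Pool.Agent.H90.SN.Sub

/-!
# The outer submeasure (module C1)

`μ.nu E` is the infimum of `∑ μ (A n)` over countable covers of `E` by members of the algebra.
(`nu_eq`: if `A ⊆ ⋃ n, B n` with `A, B n ∈ C`, then finitely many of the sets `B n` cover `A`, by
`cpt`.)
-/

set_option autoImplicit false

open Filter ENNReal Topology MeasureTheory

namespace Pool.Agent.H90.SN

namespace Sub

variable {Z : Type} (μ : Sub Z)

/-- the outer submeasure -/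
noncomputable def nu (E : Set Z) : ℝ≥0∞ :=
  ⨅ (A : ℕ → Set Z) (_ : ∀ n, A n ∈ μ.C) (_ : E ⊆ ⋃ n, A n), ∑' n, μ.μ (A n)

/-- the σ-algebra generated by the algebra -/
def ms : MeasurableSpace Z := MeasurableSpace.generateFrom μ.C

theorem exists_of_nu_lt {E : Set Z} {r : ℝ≥0∞} (h : μ.nu E < r) :
    ∃ A : ℕ → Set Z, (∀ n, A n ∈ μ.C) ∧ E ⊆ ⋃ n, A n ∧ ∑' n, μ.μ (A n) < r := by
  unfold nu at h
  obtain ⟨A, hA⟩ := iInf_lt_iff.1 h
  obtain ⟨h1, hA⟩ := iInf_lt_iff.1 hA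
  obtain ⟨h2, hA⟩ := iInf_lt_iff.1 hA
  exact ⟨A, h1, h2, hA⟩

theorem nu_le_tsum {E : Set Z} {A : ℕ → Set Z} (hA : ∀ n, A n ∈ μ.C) (hE : E ⊆ ⋃ n, A n) :
    μ.nu E ≤ ∑' n, μ.μ (A n) :=
  iInf_le_of_le A (iInf_le_of_le hA (iInf_le_of_le hE le_rfl))

theorem nu_mono {E F : Set Z} (h : E ⊆ F) : μ.nu E ≤ μ.nu F := by
  unfold nu
  refine le_iInf fun A => le_iInf fun hA => le_iInf fun hF => ?_
  exact iInf_le_of_le A (iInf_le_of_le hA (iInf_le_of_le (h.trans hF) le_rfl))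

theorem nu_empty : μ.nu ∅ = 0 := by
  refine le_antisymm ?_ zero_le
  refine (μ.nu_le_tsum (A := fun _ => ∅) (fun _ => μ.empty_mem) (Set.empty_subset _)).trans ?_
  simp [μ.μ_empty]

theorem nu_iUnion_le (E : ℕ → Set Z) : μ.nu (⋃ n, E n) ≤ ∑' n, μ.nu (E n) := by
  by_cases htop : ∑' n, μ.nu (E n) = ∞
  · rw [htop]; exact le_top
  refine ENNReal.le_of_forall_pos_le_add fun ε hε _ => ?_
  obtain ⟨e, he, hes⟩ := ENNReal.exists_pos_sum_of_countable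
    (ε := (ε : ℝ≥0∞)) (by simpa using hε.ne') ℕ
  have hfin : ∀ n, μ.nu (E n) ≠ ∞ := fun n h =>
    htop (ENNReal.tsum_eq_top_of_eq_top ⟨n, h⟩)
  have hlt : ∀ n, μ.nu (E n) < μ.nu (E n) + (e n : ℝ≥0∞) := fun n =>
    ENNReal.lt_add_right (hfin n) (by simpa using (he n).ne')
  choose A hA1 hA2 hA3 using fun n => μ.exists_of_nu_lt (hlt n)
  have hcov : (⋃ n, E n) ⊆ ⋃ k, A (Nat.unpair k).1 (Nat.unpair k).2 := by
    intro z hz
    obtain ⟨n, hn⟩ := Set.mem_iUnion.1 hz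
    obtain ⟨k, hk⟩ := Set.mem_iUnion.1 (hA2 n hn)
    exact Set.mem_iUnion.2 ⟨Nat.pair n k, by simpa using hk⟩
  refine (μ.nu_le_tsum (A := fun k => A (Nat.unpair k).1 (Nat.unpair k).2)
    (fun k => hA1 _ _) hcov).trans ?_
  have h1 : ∑' k, μ.μ (A (Nat.unpair k).1 (Nat.unpair k).2)
      = ∑' n, ∑' k, μ.μ (A n k) := by
    rw [← ENNReal.tsum_prod (f := fun n k => μ.μ (A n k))]
    exact Nat.pairEquiv.symm.tsum_eq (fun p : ℕ × ℕ => μ.μ (A p.1 p.2))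
  rw [h1]
  calc ∑' n, ∑' k, μ.μ (A n k) ≤ ∑' n, (μ.nu (E n) + (e n : ℝ≥0∞)) :=
        ENNReal.tsum_le_tsum fun n => (hA3 n).le
    _ = ∑' n, μ.nu (E n) + ∑' n, (e n : ℝ≥0∞) := ENNReal.tsum_add
    _ ≤ ∑' n, μ.nu (E n) + (ε : ℝ≥0∞) := by gcongr

theorem nu_union_le (E F : Set Z) : μ.nu (E ∪ F) ≤ μ.nu E + μ.nu F := by
  let G : ℕ → Set Z := fun n => if n = 0 then E else if n = 1 then F else ∅
  have h1 : E ∪ F ⊆ ⋃ n, G n := by
    intro z hz
    rcases hz with hz | hz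
    · exact Set.mem_iUnion.2 ⟨0, by simpa [G] using hz⟩
    · exact Set.mem_iUnion.2 ⟨1, by simpa [G] using hz⟩
  refine (μ.nu_mono h1).trans ((μ.nu_iUnion_le G).trans ?_)
  have h2 : ∑' n, μ.nu (G n) = ∑ n ∈ Finset.range 2, μ.nu (G n) := by
    refine tsum_eq_sum fun n hn => ?_
    have hn2 : 1 < n := by simpa using hn
    have h0 : n ≠ 0 := by omega
    have h1 : n ≠ 1 := by omega
    simp [G, h0, h1, μ.nu_empty]
  rw [h2]
  simp [G, Finset.sum_range_succ]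

theorem nu_iUnion_null {ι : Type} [Countable ι] {E : ι → Set Z} (h : ∀ n, μ.nu (E n) = 0) :
    μ.nu (⋃ n, E n) = 0 := by
  rcases isEmpty_or_nonempty ι with hι | hι
  · simp [μ.nu_empty]
  obtain ⟨f, hf⟩ := exists_surjective_nat ι
  refine le_antisymm ?_ zero_le
  have h1 : (⋃ n, E n) ⊆ ⋃ k, E (f k) := by
    intro z hz
    obtain ⟨n, hn⟩ := Set.mem_iUnion.1 hz
    obtain ⟨k, rfl⟩ := hf n
    exact Set.mem_iUnion.2 ⟨k, hn⟩
  refine (μ.nu_mono h1).trans ((μ.nu_iUnion_le _).trans ?_)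
  simp [h]

/-- on the algebra, `nu` is the given submeasure -/
theorem nu_eq {A : Set Z} (hA : A ∈ μ.C) : μ.nu A = μ.μ A := by
  refine le_antisymm ?_ ?_
  · let G : ℕ → Set Z := fun n => if n = 0 then A else ∅
    have hG : ∀ n, G n ∈ μ.C := by
      intro n
      by_cases hn : n = 0
      · simpa [G, hn] using hA
      · simpa [G, hn] using μ.empty_mem
    have h1 : A ⊆ ⋃ n, G n := fun z hz => Set.mem_iUnion.2 ⟨0, by simpa [G] using hz⟩
    refine (μ.nu_le_tsum hG h1).trans ?_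
    have h2 : ∑' n, μ.μ (G n) = ∑ n ∈ Finset.range 1, μ.μ (G n) := by
      refine tsum_eq_sum fun n hn => ?_
      have h0 : n ≠ 0 := by
        intro h0; exact hn (by simp [h0])
      simp [G, h0, μ.μ_empty]
    rw [h2]
    simp [G]
  · unfold nu
    refine le_iInf fun B => le_iInf fun hB => le_iInf fun hAB => ?_
    let D : ℕ → Set Z := fun n => Aᶜ ∪ B n
    have hD : ∀ n, D n ∈ μ.C := fun n => μ.union_mem (μ.compl_mem hA) (hB n)
    have hU : (⋃ n, D n) = Set.univ := by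
      refine Set.eq_univ_of_forall fun z => ?_
      by_cases hz : z ∈ A
      · obtain ⟨n, hn⟩ := Set.mem_iUnion.1 (hAB hz)
        exact Set.mem_iUnion.2 ⟨n, Or.inr hn⟩
      · exact Set.mem_iUnion.2 ⟨0, Or.inl hz⟩
    obtain ⟨n, hn⟩ := μ.cpt D hD hU
    have hsub : A ⊆ ⋃ i < n, B i := by
      intro z hz
      have hzu : z ∈ ⋃ i < n, D i := by rw [hn]; trivial
      simp only [Set.mem_iUnion] at hzu ⊢
      obtain ⟨i, hi, hzi⟩ := hzu
      rcases hzi with h | h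
      · exact absurd hz h
      · exact ⟨i, hi, h⟩
    calc μ.μ A ≤ μ.μ (⋃ i < n, B i) := μ.μ_mono hsub
      _ ≤ ∑ i ∈ Finset.range n, μ.μ (B i) := μ.μ_biUnion_le B n
      _ ≤ ∑' i, μ.μ (B i) := ENNReal.sum_le_tsum _

/-- Borel–Cantelli -/
theorem nu_limsup_null {E : ℕ → Set Z} (h : ∑' n, μ.nu (E n) ≠ ∞) :
    μ.nu {z | ∃ᶠ n in atTop, z ∈ E n} = 0 := by
  refine le_antisymm ?_ zero_le
  have hlim := ENNReal.tendsto_sum_nat_add (fun n => μ.nu (E n)) h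
  refine ge_of_tendsto' hlim fun N => ?_
  have hsub : {z | ∃ᶠ n in atTop, z ∈ E n} ⊆ ⋃ k, E (k + N) := by
    intro z hz
    obtain ⟨n, hn, hzn⟩ := (Filter.frequently_atTop.1 hz) N
    exact Set.mem_iUnion.2 ⟨n - N, by rwa [Nat.sub_add_cancel hn]⟩
  exact (μ.nu_mono hsub).trans (μ.nu_iUnion_le _)

end Sub

end Pool.Agent.H90.SN
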