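import Pool.Agent.H90.SN.ReadD

/-!
# Sets which are not covered by a level (module D8)

Proof sketch.  `p` forces `∃ z, z ∈ χ ∧ z ∉ famN X β` (names `![χ, famN X β]`; use `Fc.with_names` to
have `ω`, `addN`, `ltN`, `FN X` denoted; `famN X β` denotes a member of `FN X`, by `Gen.mem_iff`), so by
`Fc.exists_name` there are `q ≤ p` and a name `τ` with `q` forcing `τ ∈ χ`, `τ ∉ famN X β`.  `q` forces
that `τ` is a cut.  `read_real` gives `x` with `q` forcing `τ = rlN x`.  If `x = x'` on a condition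
`r ≤ q`, `x'` of level `β`, then, in a generic structure containing `r` (with all these names
denoted, `exists_gen_set`), `rlN x = rlN x' ∈ famN X β` (`rlN_eq_of`), contradiction.
(`{η | x η = x' η}` is measurable.)
-/

set_option autoImplicit false

open Filter MeasureTheory

namespace Pool.Agent.H90.SN

open Frc Ordinal

variable {X : Sys}

theorem exists_outside {p : Pos X} {χ : Name (Pos X)}
    (hcut : Fc p ![onN (Pos X) ω, ltN (Pos X), χ]
      (fun _ E v => ∀ x, E x (v 2) → IsCut E (v 0) (v 1) x))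
    (h : Fc p ![FN X, χ] (fun _ E v => ¬ ∃ Y, E Y (v 0) ∧ IsSub E (v 1) Y)) (β : Om) :
    ∃ q ≤ p, ∃ x : X.Ω → ℝ, Measurable x ∧
      Fc q ![χ, rlN x] (fun _ E v => E (v 1) (v 0)) ∧
      ∀ x' : X.Ω → ℝ, Measurable[X.Sg β] x' → ∀ᶠ η in X.l, η ∈ q.1 → x η ≠ x' η := by
  have h1 : Fc p ![χ, famN X β] (fun _ E v => ∃ z, E z (v 0) ∧ ¬ E z (v 1)) := by
    refine Fc.with_names (.ex (.and (.mem _ _) (.not (.mem _ _)))) (L := {FN X})
      (Set.countable_singleton _) ?_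
    intro g hg hL a ha
    obtain ⟨F, hF⟩ := hL _ rfl
    have h2 : ¬ ∃ Y, g.E Y F ∧ IsSub g.E (a 0) Y := h g hg ![F, a 0] (den2 hF (ha 0))
    have h3 : g.E (a 1) F := (Gen.mem_iff hF).2 ⟨β, g.top_mem, ha 1⟩
    by_contra hcon
    refine h2 ⟨a 1, h3, fun z hz => ?_⟩
    by_contra hz'
    exact hcon ⟨z, hz, hz'⟩
  obtain ⟨q, hq, τ, hτ⟩ := Fc.exists_name
    (R := fun _ E v => E (v 2) (v 0) ∧ ¬ E (v 2) (v 1)) (.and (.mem _ _) (.not (.mem _ _))) h1
  rw [ext_vec2] at hτ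
  have h2 : Fc q ![onN (Pos X) ω, ltN (Pos X), τ] (fun _ E v => IsCut E (v 0) (v 1) (v 2)) := by
    refine Fc.with_names (dfn_isCut _ _ _) (L := {χ, famN X β}) (by simp) ?_
    intro g hg hL a ha
    obtain ⟨c, hc⟩ := hL χ (by simp)
    obtain ⟨f, hf⟩ := hL (famN X β) (by simp)
    have h3 := hτ g hg ![c, f, a 2] (den3 hc hf (ha 2))
    have h4 := hcut g (g.up q hg p hq) ![a 0, a 1, c] (den3 (ha 0) (ha 1) hc)
    exact h4 (a 2) h3.1
  obtain ⟨x, hx, hxτ⟩ := read_real h2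
  refine ⟨q, hq, x, hx, ?_, ?_⟩
  · refine Fc.with_names (.mem _ _) (L := {τ, famN X β}) (by simp) ?_
    intro g hg hL a ha
    obtain ⟨t, ht⟩ := hL τ (by simp)
    obtain ⟨f, hf⟩ := hL (famN X β) (by simp)
    have h3 := hτ g hg ![a 0, f, t] (den3 (ha 0) hf ht)
    have h4 : t = a 1 := hxτ g hg ![t, a 1] (den2 ht (ha 1))
    rw [← h4]
    exact h3.1
  · intro x' hx'
    by_contra hcon
    have hm : MeasurableSet {η | x η = x' η} :=
      measurableSet_eq_fun hx (hx'.mono (X.sg_le β) le_rfl)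
    have hfr : ∃ᶠ η in X.l, η ∈ q.1 ∧ η ∈ {η | x η = x' η} :=
      Frequently.mono (not_eventually.1 hcon) fun η hη => by
        rw [Classical.not_imp, not_not] at hη; exact hη
    obtain ⟨r, hr, hrA, -⟩ := exists_pos hm hfr
    obtain ⟨g, hg, a, ha⟩ := exists_gen_fin r ![χ, famN X β, τ, rlN x, rlN x']
    have hgq := g.up r hg q hr
    have h3 := hτ g hgq ![a 0, a 1, a 2] (den3 (ha 0) (ha 1) (ha 2))
    have h4 : a 2 = a 3 := hxτ g hgq ![a 2, a 3] (den2 (ha 2) (ha 3))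
    have h5 : a 3 = a 4 := rlN_eq_of hx (hx'.mono (X.sg_le β) le_rfl) (ha 3) (ha 4) hg
      fun η hη => hrA hη
    have h6 : g.E (a 4) (a 1) := (Gen.mem_iff (ha 1)).2 ⟨⟨x', hx'⟩, g.top_mem, ha 4⟩
    refine h3.2 ?_
    change g.E (a 2) (a 1)
    rw [h4, h5]
    exact h6

end Pool.Agent.H90.SN
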