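import Pool.Agent.H90.SN.SeqD
import Pool.Agent.H90.SN.FamD

/-!
# The final contradiction (module D9)

Proof sketch of `no_bad`.  For every `β : Om` take `q β ≤ p`, `x β` from `exists_outside`, and `e' β`
from `X.evade β (q β).1`.  Let `h` be from `X.dom` for the functions
`η, n ↦ ⌈1 / e' β η n⌉₊`, and `e η n = 1 / (h η n + 1)`: for all `β`, for almost all `η`, for
almost all `n`, `e η n < e' β η n`.  For `j : ℕ` take `a j`, `b j` from `exists_goodOn` for
`η, i ↦ e η (Nat.pair j i)`, and let `A η n = a n.unpair.1 η n.unpair.2`; `A` is measurable.  By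
`X.bounded` (for the countably many sets `{η | A η n = s}`), `om_bounded` and `X.sg_mono` there is `β`
such that `A` is measurable for `X.Sg β`.  For almost all `η ∈ q β`: for all `j` there is `i` with
`A η (pair j i) < x β η ≤ b j η i < A η (pair j i) + e η (pair j i)`, so for infinitely many `n`,
`A η n < x β η < A η n + e η n`; this contradicts `evade`.
-/

set_option autoImplicit false

open Filter MeasureTheory

namespace Pool.Agent.H90.SN

open Frc Ordinal

variable {X : Sys}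

/-- a measurable sequence of rational numbers is measurable for some level -/
theorem exists_level {A : X.Ω → ℕ → ℚ} (hA : Measurable A) : ∃ β, Measurable[X.Sg β] A := by
  have h1 : ∀ z : ℕ × ℚ, ∃ β, MeasurableSet[X.Sg β] {η | A η z.1 = z.2} := fun z =>
    X.bounded _ (meas_coord hA z.1 (measurableSet_singleton z.2))
  choose β hβ using h1
  obtain ⟨b, hb⟩ := om_bounded (Set.countable_range β)
  refine ⟨b, ?_⟩
  refine @measurable_pi_iff _ _ _ (X.Sg b) _ A |>.2 fun n => ?_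
  have h2 : ∀ s : ℚ, MeasurableSet[X.Sg b] ((fun η => A η n) ⁻¹' {s}) := fun s =>
    X.sg_mono (hb _ ⟨(n, s), rfl⟩).le _ (hβ (n, s))
  exact @measurable_to_countable' ℚ X.Ω _ _ (X.Sg b) (fun η => A η n) h2

theorem no_bad {p : Pos X} {χ : Name (Pos X)}
    (hcut : Fc p ![onN (Pos X) ω, ltN (Pos X), χ]
      (fun _ E v => ∀ x, E x (v 2) → IsCut E (v 0) (v 1) x))
    (hsn : Fc p ![onN (Pos X) ω, addN (Pos X), ltN (Pos X), χ]
      (fun _ E v => IsSN E (v 0) (v 0) (v 1) (v 2) (v 3)))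
    (h : Fc p ![FN X, χ] (fun _ E v => ¬ ∃ Y, E Y (v 0) ∧ IsSub E (v 1) Y)) : False := by
  have h1 : ∀ β : Om, ∃ (q : Pos X) (x : X.Ω → ℝ) (e' : X.Ω → ℕ → ℚ), q ≤ p ∧ Measurable x ∧
      Fc q ![χ, rlN x] (fun _ E v => E (v 1) (v 0)) ∧ Measurable e' ∧ (∀ η n, 0 < e' η n) ∧
      ∀ a : X.Ω → ℕ → ℚ, Measurable[X.Sg β] a → ∀ᶠ η in X.l, η ∈ q.1 →
        ∀ᶠ n in atTop, ¬ ((a η n : ℝ) < x η ∧ x η < (a η n : ℝ) + e' η n) := by
    intro β
    obtain ⟨q, hq, x, hx, hqx, hne⟩ := exists_outside hcut h β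
    obtain ⟨e', he', hpos, hev⟩ := X.evade β q.1 (pos_meas q) x hx hne
    exact ⟨q, x, e', hq, hx, hqx, he', hpos, hev⟩
  choose q x e' hq hx hqx he' hpos hev using h1
  -- a dominating function
  obtain ⟨h, hh, hdom⟩ := X.dom (fun β η n => ⌈1 / e' β η n⌉₊) (fun β => by
    refine measurable_pi_iff.2 fun n => ?_
    have h2 : Measurable fun s : ℚ => ⌈1 / s⌉₊ := measurable_from_top
    exact h2.comp (meas_coord (he' β) n))
  have hcoord : ∀ n, Measurable fun η => h η n := fun n => (measurable_pi_apply n).comp hh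
  let e : X.Ω → ℕ → ℚ := fun η n => 1 / ((h η n : ℚ) + 1)
  have hepos : ∀ η n, 0 < e η n := fun η n => by
    have : (0 : ℚ) ≤ (h η n : ℚ) := Nat.cast_nonneg _
    exact one_div_pos.2 (by linarith)
  have hemeas : ∀ n, Measurable fun η => e η n := by
    intro n
    have h2 : Measurable fun m : ℕ => 1 / ((m : ℚ) + 1) := measurable_from_top
    exact h2.comp (hcoord n)
  have hlt : ∀ β, ∀ᶠ η in X.l, ∀ᶠ n in atTop, e η n < e' β η n := by
    intro β
    filter_upwards [hdom β] with η hη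
    filter_upwards [hη] with n hn
    have h3 : 1 / e' β η n ≤ (⌈1 / e' β η n⌉₊ : ℚ) := Nat.le_ceil _
    have h4 : ((⌈1 / e' β η n⌉₊ : ℕ) : ℚ) ≤ (h η n : ℚ) := by exact_mod_cast hn
    have h5 : 1 / e' β η n < (h η n : ℚ) + 1 := by linarith
    exact one_div_lt (hpos β η n) (by
      have : (0 : ℚ) ≤ (h η n : ℚ) := Nat.cast_nonneg _
      linarith) |>.1 h5
  -- the covers
  have h2 : ∀ j : ℕ, ∃ a b : X.Ω → ℕ → ℚ, Measurable a ∧ Measurable b ∧
      GoodOn p (fun η i => e η (Nat.pair j i)) χ a b := by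
    intro j
    exact exists_goodOn hsn (measurable_pi_iff.2 fun i => hemeas _) fun η i => hepos _ _
  choose a b ha hb hG using h2
  let A : X.Ω → ℕ → ℚ := fun η n => a n.unpair.1 η n.unpair.2
  have hA : Measurable A := measurable_pi_iff.2 fun n => meas_coord (ha _) _
  obtain ⟨β, hβ⟩ := exists_level hA
  have k1 := hev β A hβ
  have k2 : ∀ᶠ η in X.l, ∀ j, η ∈ p.1 → ∀ i, b j η i < a j η i + e η (Nat.pair j i) :=
    eventually_countable_forall.2 fun j => (hG j).1
  have k3 : ∀ᶠ η in X.l, ∀ j, η ∈ (q β).1 →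
      ∃ i, (a j η i : ℝ) < x β η ∧ x β η ≤ (b j η i : ℝ) :=
    eventually_countable_forall.2 fun j => (hG j).2 (q β) (hq β) (x β) (hx β) (hqx β)
  obtain ⟨η, hη, hk1, hk2, hk3, hk4⟩ :=
    ((pos_freq (q β)).and_eventually (k1.and (k2.and (k3.and (hlt β))))).exists
  obtain ⟨N, hN⟩ := eventually_atTop.1 ((hk1 hη).and hk4)
  obtain ⟨i, hi1, hi2⟩ := hk3 N hη
  obtain ⟨hn1, hn2⟩ := hN (Nat.pair N i) (Nat.left_le_pair N i)
  have hAe : A η (Nat.pair N i) = a N η i := by simp [A]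
  rw [hAe] at hn1
  refine hn1 ⟨hi1, ?_⟩
  have h6 : b N η i < a N η i + e η (Nat.pair N i) := hk2 N (hq β hη) i
  have h7 : b N η i < a N η i + e' β η (Nat.pair N i) := by linarith
  have h8 : ((b N η i : ℚ) : ℝ) < (a N η i : ℝ) + (e' β η (Nat.pair N i) : ℝ) := by
    exact_mod_cast h7
  exact lt_of_le_of_lt hi2 h8

end Pool.Agent.H90.SN
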