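import Mathlib

/-!
# A measurable point outside of short intervals (module D11)

Proof sketch.  Let `c η n = b η n + 1 / 2 ^ (n + 3)`.  The open intervals `(a η n, c η n)` have total
length less than `1`, so `K η = Icc 0 1 \ ⋃ n, Ioo (a η n) (c η n)` is compact and not empty (Lebesgue
measure).  Let `x η = sInf (K η) ∈ K η`.  It is measurable: for real `r`, `r < x η` iff `r < 0` or
(`r ≤ 1`, in fact `r < 1`, and) `Icc 0 r ⊆ ⋃ n, Ioo (a η n) (c η n)`, that is, for some `N`,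
`Icc 0 r ⊆ ⋃ n < N, Ioo (a η n) (c η n)` (compactness), and this is a measurable condition, as
`(a η n, c η n)` for `n < N` takes only countably many (rational) values.
-/

set_option autoImplicit false

open MeasureTheory

namespace Pool.Agent.H90.SN

namespace LowA

/-- the enlarged right end points -/
noncomputable def cc (b : ℕ → ℚ) (n : ℕ) : ℝ := (b n : ℝ) + 1 / 2 ^ (n + 3)

/-- the points of the unit interval outside of the open intervals -/
def KK (a b : ℕ → ℚ) : Set ℝ := Set.Icc 0 1 \ ⋃ n, Set.Ioo (a n : ℝ) (cc b n)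

theorem isCompact_KK (a b : ℕ → ℚ) : IsCompact (KK a b) :=
  isCompact_Icc.diff (isOpen_iUnion fun _ => isOpen_Ioo)

theorem hasSum_len : HasSum (fun n : ℕ => (3 : ℝ) / 2 ^ (n + 3)) (3 / 4) := by
  have h := (hasSum_geometric_of_lt_one (r := (1 / 2 : ℝ)) (by norm_num) (by norm_num)).mul_left
    (3 / 8)
  have h1 : (fun n : ℕ => (3 : ℝ) / 2 ^ (n + 3)) = fun n : ℕ => 3 / 8 * (1 / 2 : ℝ) ^ n := by
    funext n
    rw [pow_add, one_div, inv_pow]
    field_simp
    norm_num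
  rw [h1]
  have h2 : (3 / 8 : ℝ) * (1 - 1 / 2)⁻¹ = 3 / 4 := by norm_num
  rw [h2] at h
  exact h

theorem nonempty_KK {a b : ℕ → ℚ} (h : ∀ n, b n < a n + 1 / 2 ^ (n + 2)) : (KK a b).Nonempty := by
  by_contra hcon
  rw [Set.not_nonempty_iff_eq_empty] at hcon
  have hsub : Set.Icc (0 : ℝ) 1 ⊆ ⋃ n, Set.Ioo (a n : ℝ) (cc b n) :=
    Set.sdiff_eq_empty.1 hcon
  have h1 : volume (Set.Icc (0 : ℝ) 1) ≤ ∑' n, volume (Set.Ioo (a n : ℝ) (cc b n)) :=
    (measure_mono hsub).trans (measure_iUnion_le _)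
  have h2 : ∀ n, volume (Set.Ioo (a n : ℝ) (cc b n)) ≤ ENNReal.ofReal (3 / 2 ^ (n + 3)) := by
    intro n
    rw [Real.volume_Ioo]
    refine ENNReal.ofReal_le_ofReal ?_
    have h3 : (b n : ℝ) < a n + 1 / 2 ^ (n + 2) := by
      have := h n
      have h4 : ((b n : ℚ) : ℝ) < ((a n + 1 / 2 ^ (n + 2) : ℚ) : ℝ) := by exact_mod_cast this
      push_cast at h4
      exact h4
    have h5 : (3 : ℝ) / 2 ^ (n + 3) = 1 / 2 ^ (n + 2) + 1 / 2 ^ (n + 3) := by
      rw [show n + 3 = n + 2 + 1 by ring, pow_succ (2 : ℝ) (n + 2)]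
      field_simp
      norm_num
    unfold cc
    rw [h5]
    linarith
  have h3 : ∑' n, volume (Set.Ioo (a n : ℝ) (cc b n)) ≤ ENNReal.ofReal (3 / 4) := by
    refine (ENNReal.tsum_le_tsum h2).trans (le_of_eq ?_)
    rw [← ENNReal.ofReal_tsum_of_nonneg (fun n => by positivity) hasSum_len.summable,
      hasSum_len.tsum_eq]
  have h4 := h1.trans h3
  rw [Real.volume_Icc] at h4
  rw [ENNReal.ofReal_le_ofReal_iff (by norm_num)] at h4
  norm_num at h4

theorem sInf_mem {a b : ℕ → ℚ} (h : ∀ n, b n < a n + 1 / 2 ^ (n + 2)) :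
    sInf (KK a b) ∈ KK a b :=
  (isCompact_KK a b).sInf_mem (nonempty_KK h)

theorem lt_sInf_iff {a b : ℕ → ℚ} (h : ∀ n, b n < a n + 1 / 2 ^ (n + 2)) {r : ℝ}
    (h1 : r < 1) : r < sInf (KK a b) ↔
      ∃ N : ℕ, Set.Icc 0 r ⊆ ⋃ n : Fin N, Set.Ioo (a n : ℝ) (cc b n) := by
  have hm := sInf_mem h
  have hbd : BddBelow (KK a b) := (isCompact_KK a b).bddBelow
  constructor
  · intro hr
    have hsub : Set.Icc 0 r ⊆ ⋃ n, Set.Ioo (a n : ℝ) (cc b n) := by
      intro y hy
      by_contra hcon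
      have hyK : y ∈ KK a b := ⟨⟨hy.1, hy.2.trans h1.le⟩, hcon⟩
      exact absurd (csInf_le hbd hyK) (not_le.2 (hy.2.trans_lt hr))
    obtain ⟨t, ht⟩ := isCompact_Icc.elim_finite_subcover _ (fun n => isOpen_Ioo) hsub
    refine ⟨t.sup id + 1, fun y hy => ?_⟩
    obtain ⟨n, hn, hyn⟩ := Set.mem_iUnion₂.1 (ht hy)
    have hle : n ≤ t.sup id := Finset.le_sup (f := id) hn
    exact Set.mem_iUnion.2 ⟨⟨n, by omega⟩, hyn⟩
  · rintro ⟨N, hN⟩
    by_contra hcon
    push Not at hcon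
    obtain ⟨n, hn⟩ := Set.mem_iUnion.1 (hN ⟨hm.1.1, hcon⟩)
    exact hm.2 (Set.mem_iUnion.2 ⟨n, hn⟩)

end LowA

open LowA

theorem exists_avoid {Ω : Type} [MeasurableSpace Ω] {a b : Ω → ℕ → ℚ} (ha : Measurable a)
    (hb : Measurable b) (h : ∀ η n, b η n < a η n + 1 / 2 ^ (n + 2)) :
    ∃ x : Ω → ℝ, Measurable x ∧ ∀ η n, ¬ ((a η n : ℝ) < x η ∧ x η ≤ (b η n : ℝ)) := by
  refine ⟨fun η => sInf (KK (a η) (b η)), ?_, ?_⟩
  · refine measurable_of_Ioi fun r => ?_
    by_cases h0 : 0 ≤ r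
    · by_cases h1 : r < 1
      · have hset : (fun η => sInf (KK (a η) (b η))) ⁻¹' Set.Ioi r =
            ⋃ N : ℕ, (fun η (n : Fin N) => ((a η n, b η n) : ℚ × ℚ)) ⁻¹'
              {f | Set.Icc 0 r ⊆ ⋃ n : Fin N, Set.Ioo ((f n).1 : ℝ)
                (((f n).2 : ℝ) + 1 / 2 ^ ((n : ℕ) + 3))} := by
          ext η
          rw [Set.mem_preimage, Set.mem_Ioi, lt_sInf_iff (h η) h1, Set.mem_iUnion]
          rfl
        rw [hset]
        refine MeasurableSet.iUnion fun N => ?_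
        have hmeas : Measurable fun η (n : Fin N) => ((a η n, b η n) : ℚ × ℚ) := by
          refine measurable_pi_lambda _ fun n => ?_
          exact (((measurable_pi_apply (n : ℕ)).comp ha).prodMk
            ((measurable_pi_apply (n : ℕ)).comp hb))
        exact hmeas (Set.to_countable _).measurableSet
      · have hset : (fun η => sInf (KK (a η) (b η))) ⁻¹' Set.Ioi r = ∅ := by
          ext η
          simp only [Set.mem_preimage, Set.mem_Ioi, Set.mem_empty_iff_false, iff_false, not_lt]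
          exact (sInf_mem (h η)).1.2.trans (not_lt.1 h1)
        rw [hset]
        exact MeasurableSet.empty
    · have hset : (fun η => sInf (KK (a η) (b η))) ⁻¹' Set.Ioi r = Set.univ := by
        ext η
        simp only [Set.mem_preimage, Set.mem_Ioi, Set.mem_univ, iff_true]
        exact (not_le.1 h0).trans_le (sInf_mem (h η)).1.1
      rw [hset]
      exact MeasurableSet.univ
  · rintro η n ⟨h1, h2⟩
    refine (sInf_mem (h η)).2 (Set.mem_iUnion.2 ⟨n, h1, ?_⟩)
    refine h2.trans_lt ?_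
    unfold cc
    have : (0 : ℝ) < 1 / 2 ^ (n + 3) := by positivity
    linarith

end Pool.Agent.H90.SN
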