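import Pool.Agent.H90.SN.SeqD

/-!
# Covering the members of a countable family (module D12)

`Φ` names a family of strong measure zero sets, `φ` an injection of `Φ` into `ω`.

Proof sketch.  It is enough to find for every `q ≤ p` some `r ≤ q` and measurable `a`, `b` with the
property for `r` instead of `p` (`exists_partition`, `glue` for the pairs `(a, b)`; the property is
local).  Let `q ≤ p`.  If some `r ≤ q` forces that there is no `Y ∈ Φ` with `Rel φ Y n`, take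
`a = b = 0`.  Otherwise (`Fc.decide`, `Fc.exists_name`) there are `r ≤ q` and a name `Υ` with `r` forcing
`Υ ∈ Φ` and `Rel φ Υ n`; `r` forces `IsSN Υ` (`Fc.with_names`), so `exists_goodOn` gives `a`, `b`.  If
`q' ≤ r` forces `∃ Y ∈ Φ, Rel φ Y n ∧ rlN x ∈ Y`, then, by injectivity, `q'` forces `rlN x ∈ Υ`.
-/

set_option autoImplicit false

open Filter MeasureTheory

namespace Pool.Agent.H90.SN

open Frc Ordinal

variable {X : Sys}

/-- on `r` the sequences `a`, `b` are short for `e` and cover the members of the set with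
number `n` -/
def LowOn (Φ φ : Name (Pos X)) (n : ℕ) (e : X.Ω → ℕ → ℚ) (r : Pos X) (a b : X.Ω → ℕ → ℚ) : Prop :=
  (∀ᶠ η in X.l, η ∈ r.1 → ∀ i, b η i < a η i + e η i) ∧
    ∀ (q : Pos X), q ≤ r → ∀ x : X.Ω → ℝ, Measurable x →
      Fc q ![Φ, φ, rlN x, onN (Pos X) n] (fun _ E v => ∃ Y, E Y (v 0) ∧ Rel E (v 1) Y (v 3) ∧
        E (v 2) Y) →
      ∀ᶠ η in X.l, η ∈ q.1 → ∃ i, (a η i : ℝ) < x η ∧ x η ≤ (b η i : ℝ)

theorem low_local {p : Pos X} {Φ φ : Name (Pos X)}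
    (h : Fc p ![onN (Pos X) ω, addN (Pos X), ltN (Pos X), Φ, φ]
      (fun _ E v => IsInj E (v 4) (v 3) (v 0) ∧
        ∀ Y, E Y (v 3) → IsSN E (v 0) (v 0) (v 1) (v 2) Y)) (n : ℕ)
    {e : X.Ω → ℕ → ℚ} (he : Measurable e) (hpos : ∀ η n, 0 < e η n) :
    ∃ r ≤ p, ∃ a b : X.Ω → ℕ → ℚ, Measurable a ∧ Measurable b ∧ LowOn Φ φ n e r a b := by
  have hS : Dfn (n := 3) (fun _ E v => ∃ Y, E Y (v 0) ∧ Rel E (v 1) Y (v 2)) :=
    .ex (.and (.mem _ _) (dfn_rel _ _ _))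
  obtain ⟨q, hq, hd⟩ := Fc.decide hS ![Φ, φ, onN (Pos X) n] p
  rcases hd with hd | hd
  · -- there is a member with number `n`
    have h1 : Fc q ![Φ, φ, onN (Pos X) n] (fun M E v => ∃ a,
        (fun (M : Type) (E : M → M → Prop) (v : Fin 4 → M) =>
          E (v 3) (v 0) ∧ Rel E (v 1) (v 3) (v 2)) M E (ext v a)) := by
      intro g hg v hv
      obtain ⟨Y, hY⟩ := hd g hg v hv
      exact ⟨Y, hY⟩
    obtain ⟨r, hr, Υ, hΥ⟩ := Fc.exists_name (R := fun (M : Type) (E : M → M → Prop)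
      (v : Fin 4 → M) => E (v 3) (v 0) ∧ Rel E (v 1) (v 3) (v 2))
      (.and (.mem _ _) (dfn_rel _ _ _)) h1
    rw [ext_vec3] at hΥ
    have hL : ({onN (Pos X) ω, addN (Pos X), ltN (Pos X), Φ, φ, onN (Pos X) n, Υ} :
        Set (Name (Pos X))).Countable := (Set.toFinite _).countable
    have hsn : Fc r ![onN (Pos X) ω, addN (Pos X), ltN (Pos X), Υ]
        (fun _ E v => IsSN E (v 0) (v 0) (v 1) (v 2) (v 3)) := by
      refine Fc.with_names (dfn_isSN _ _ _ _ _) hL ?_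
      intro g hg hden v hv
      obtain ⟨F, hF⟩ := hden Φ (by simp)
      obtain ⟨f, hf⟩ := hden φ (by simp)
      obtain ⟨m, hm⟩ := hden (onN (Pos X) n) (by simp)
      have hqg : q ∈ g.G := g.up r hg q hr
      have hpg : p ∈ g.G := g.up q hqg p hq
      have h2 := (h g hpg ![v 0, v 1, v 2, F, f] (den5 (hv 0) (hv 1) (hv 2) hF hf)).2
      have h3 := hΥ g hg ![F, f, m, v 3] (den4 hF hf hm (hv 3))
      exact h2 (v 3) h3.1
    obtain ⟨a, b, ha, hb, hab⟩ := exists_goodOn hsn he hpos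
    refine ⟨r, hr.trans hq, a, b, ha, hb, hab.1, ?_⟩
    intro q' hq' x hx hqx
    refine hab.2 q' hq' x hx ?_
    refine Fc.with_names (Dfn.mem 1 0) hL ?_
    intro g hg hden v hv
    obtain ⟨w, hw⟩ := hden (onN (Pos X) ω) (by simp)
    obtain ⟨ad, had⟩ := hden (addN (Pos X)) (by simp)
    obtain ⟨l, hl⟩ := hden (ltN (Pos X)) (by simp)
    obtain ⟨F, hF⟩ := hden Φ (by simp)
    obtain ⟨f, hf⟩ := hden φ (by simp)
    obtain ⟨m, hm⟩ := hden (onN (Pos X) n) (by simp)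
    have hrg : r ∈ g.G := g.up q' hg r hq'
    have hqg : q ∈ g.G := g.up r hrg q hr
    have hpg : p ∈ g.G := g.up q hqg p hq
    have hinj := (h g hpg ![w, ad, l, F, f] (den5 hw had hl hF hf)).1
    have h3 := hΥ g hrg ![F, f, m, v 0] (den4 hF hf hm (hv 0))
    obtain ⟨Y, hY1, hY2, hY3⟩ := hqx g hg ![F, f, v 1, m] (den4 hF hf (hv 1) hm)
    have hYΥ : Y = v 0 := hinj.2 Y (v 0) m hY1 h3.1 hY2 h3.2
    rw [← hYΥ]
    exact hY3
  · -- there is none
    refine ⟨q, hq, fun _ _ => 0, fun _ _ => 0, measurable_const, measurable_const, ?_, ?_⟩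
    · refine Eventually.of_forall fun η _ i => ?_
      rw [_root_.zero_add]
      exact hpos η i
    · intro q' hq' x hx hqx
      exfalso
      obtain ⟨g, hg, -, v, hv⟩ := exists_gen_set q' ![Φ, φ, rlN x, onN (Pos X) n] (L := ∅)
        Set.countable_empty
      have hv0 : g.Den Φ (v 0) := hv 0
      have hv1 : g.Den φ (v 1) := hv 1
      have hv3 : g.Den (onN (Pos X) n) (v 3) := hv 3
      obtain ⟨Y, hY1, hY2, -⟩ := hqx g hg v hv
      exact hd g (g.up q' hg q hq') ![v 0, v 1, v 3] (den3 hv0 hv1 hv3) ⟨Y, hY1, hY2⟩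

theorem low_aux {p : Pos X} {Φ φ : Name (Pos X)}
    (h : Fc p ![onN (Pos X) ω, addN (Pos X), ltN (Pos X), Φ, φ]
      (fun _ E v => IsInj E (v 4) (v 3) (v 0) ∧
        ∀ Y, E Y (v 3) → IsSN E (v 0) (v 0) (v 1) (v 2) Y)) (n : ℕ)
    {e : X.Ω → ℕ → ℚ} (he : Measurable e) (hpos : ∀ η n, 0 < e η n) :
    ∃ a b : X.Ω → ℕ → ℚ, Measurable a ∧ Measurable b ∧
      (∀ᶠ η in X.l, η ∈ p.1 → ∀ i, b η i < a η i + e η i) ∧
      ∀ (q : Pos X), q ≤ p → ∀ x : X.Ω → ℝ, Measurable x →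
        Fc q ![Φ, φ, rlN x, onN (Pos X) n] (fun _ E v => ∃ Y, E Y (v 0) ∧ Rel E (v 1) Y (v 3) ∧
          E (v 2) Y) →
        ∀ᶠ η in X.l, η ∈ q.1 → ∃ i, (a η i : ℝ) < x η ∧ x η ≤ (b η i : ℝ) := by
  classical
  obtain ⟨𝒜, hc, h1, h2, h3⟩ := exists_partition p
    (fun r => ∃ z : (X.Ω → ℕ → ℚ) × (X.Ω → ℕ → ℚ), Measurable z.1 ∧ Measurable z.2 ∧
      LowOn Φ φ n e r z.1 z.2) (fun q hq => by
      obtain ⟨r, hr, a, b, ha, hb, hG⟩ := low_local (h.mono hq) n he hpos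
      exact ⟨r, hr, (a, b), ha, hb, hG⟩)
  have hex : ∀ r : Pos X, ∃ z : (X.Ω → ℕ → ℚ) × (X.Ω → ℕ → ℚ), r ∈ 𝒜 →
      (Measurable z.1 ∧ Measurable z.2 ∧ LowOn Φ φ n e r z.1 z.2) := by
    intro r
    by_cases hr : r ∈ 𝒜
    · obtain ⟨z, hz⟩ := (h1 r hr).2
      exact ⟨z, fun _ => hz⟩
    · exact ⟨(fun _ _ => 0, fun _ _ => 0), fun h => absurd h hr⟩
  choose z hz using hex
  obtain ⟨a, ha, hae⟩ := glue hc h2 (fun q => (z q).1) (fun q hq => (hz q hq).1)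
  obtain ⟨b, hb, hbe⟩ := glue hc h2 (fun q => (z q).2) (fun q hq => (hz q hq).2.1)
  have hcc : Countable 𝒜 := hc.to_subtype
  refine ⟨a, b, ha, hb, ?_, ?_⟩
  · have key : ∀ᶠ η in X.l, ∀ q : 𝒜, η ∈ q.1.1 →
        ∀ i, (z q.1).2 η i < (z q.1).1 η i + e η i := by
      rw [eventually_countable_forall]
      intro q
      exact (hz q.1 q.2).2.2.1
    filter_upwards [h3, key] with η h4 h5 hη i
    obtain ⟨q, hq, hηq⟩ := h4 hη
    rw [hae q hq η hηq, hbe q hq η hηq]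
    exact h5 ⟨q, hq⟩ hηq i
  · intro q hq x hx hqx
    have key : ∀ᶠ η in X.l, ∀ s : 𝒜, η ∈ q.1 → η ∈ s.1.1 →
        ∃ i, ((z s.1).1 η i : ℝ) < x η ∧ x η ≤ ((z s.1).2 η i : ℝ) := by
      rw [eventually_countable_forall]
      intro s
      by_contra hcon
      have hfr : ∃ᶠ η in X.l, η ∈ q.1 ∧ η ∈ s.1.1 :=
        Frequently.mono (not_eventually.1 hcon) fun η hη => by
          rw [Classical.not_imp, Classical.not_imp] at hη
          exact ⟨hη.1, hη.2.1⟩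
      obtain ⟨q', hq', hqs, he'⟩ := exists_pos (pos_meas s.1) (p := q) hfr
      have h4 := (hz s.1 s.2).2.2.2 q' hqs x hx (hqx.mono hq')
      refine hcon ?_
      filter_upwards [h4] with η h5 h6 h7
      refine h5 ?_
      rw [he']
      exact ⟨h6, h7⟩
    filter_upwards [h3, key] with η h4 h5 hη
    obtain ⟨s, hs, hηs⟩ := h4 (hq hη)
    rw [hae s hs η hηs, hbe s hs η hηs]
    exact h5 ⟨s, hs⟩ hη hηs

end Pool.Agent.H90.SN
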