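import Pool.Agent.H90.SN.SnD
import Pool.Agent.H90.SN.LowA
import Pool.Agent.H90.SN.LowB

/-!
# No countable family of strong measure zero sets is cofinal in the generic structure
-/

set_option autoImplicit false

open Filter MeasureTheory

namespace Pool.Agent.H90.SN

open Frc Ordinal

variable {X : Sys}

/-- every measurable function belongs to some level -/
theorem exists_level_real {x : X.Ω → ℝ} (hx : Measurable x) : ∃ β, Measurable[X.Sg β] x := by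
  have h1 : ∀ s : ℚ, ∃ β, MeasurableSet[X.Sg β] {η | (s : ℝ) < x η} :=
    fun s => X.bounded _ (measurableSet_lt measurable_const hx)
  choose β hβ using h1
  obtain ⟨γ, hγ⟩ := om_bounded (Set.countable_range β)
  refine ⟨γ, ?_⟩
  have key : ∀ (m : MeasurableSpace X.Ω), (∀ r : ℝ, MeasurableSet[m] (x ⁻¹' Set.Ioi r)) →
      Measurable[m] x := fun m h => by
    letI := m
    exact measurable_of_Ioi h
  refine key _ fun r => ?_
  have e : x ⁻¹' Set.Ioi r = ⋃ s : {s : ℚ // r < s}, {η | ((s : ℚ) : ℝ) < x η} := by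
    ext η
    simp only [Set.mem_preimage, Set.mem_Ioi, Set.mem_iUnion]
    constructor
    · intro hr
      obtain ⟨s, h1, h2⟩ := exists_rat_btwn hr
      exact ⟨⟨s, h1⟩, h2⟩
    · rintro ⟨⟨s, h1⟩, h2⟩
      exact lt_trans h1 h2
  rw [e]
  exact MeasurableSet.iUnion fun s => X.sg_mono (hγ _ ⟨s.1, rfl⟩).le _ (hβ s.1)

theorem not_cofSNLe_omega {g : Gen (Pos X)} {w ad l R : g.M} (hw : g.Den (onN (Pos X) ω) w)
    (had : g.Den (addN (Pos X)) ad) (hl : g.Den (ltN (Pos X)) l) (hR : IsReals g.E w l R) :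
    ¬ CofSNLe g.E w w ad l R w := by
  classical
  rintro ⟨F, ⟨f, hinj⟩, hSN, hcof⟩
  obtain ⟨Φ, hΦ⟩ := g.exists_den F
  obtain ⟨φ, hφ⟩ := g.exists_den f
  obtain ⟨p, -, hf⟩ := (Fc.truth (v := ![onN (Pos X) ω, addN (Pos X), ltN (Pos X), Φ, φ])
    (R := fun _ E v => (IsInj E (v 4) (v 3) (v 0) ∧
      ∀ Y, E Y (v 3) → IsSN E (v 0) (v 0) (v 1) (v 2) Y) ∧
      ∀ C, (∀ x, E x C → IsCut E (v 0) (v 2) x) → IsSN E (v 0) (v 0) (v 1) (v 2) C →
        ∃ Y, E Y (v 3) ∧ IsSub E C Y)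
    (.and (.and (dfn_isInj _ _ _) (.all (.imp (.mem _ _) (dfn_isSN _ _ _ _ _))))
      (.all (.imp (.all (.imp (.mem _ _) (dfn_isCut _ _ _))) (.imp (dfn_isSN _ _ _ _ _)
        (.ex (.and (.mem _ _) (dfn_isSub _ _)))))))
    (a := ![w, ad, l, F, f]) (den5 hw had hl hΦ hφ)).1
    ⟨⟨hinj, fun Y hY => (hSN Y hY).2⟩, fun C hC => hcof C fun x hx => (hR x).2 (hC x hx)⟩
  -- the covers
  have hlow : ∀ n : ℕ, ∃ a b : X.Ω → ℕ → ℚ, Measurable a ∧ Measurable b ∧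
      (∀ᶠ η in X.l, η ∈ p.1 → ∀ i, b η i < a η i + 1 / 2 ^ (Nat.pair n i + 2)) ∧
      ∀ (q : Pos X), q ≤ p → ∀ x : X.Ω → ℝ, Measurable x →
        Fc q ![Φ, φ, rlN x, onN (Pos X) n] (fun _ E v => ∃ Y, E Y (v 0) ∧ Rel E (v 1) Y (v 3) ∧
          E (v 2) Y) →
        ∀ᶠ η in X.l, η ∈ q.1 → ∃ i, (a η i : ℝ) < x η ∧ x η ≤ (b η i : ℝ) := fun n =>
    low_aux (p := p) (Φ := Φ) (φ := φ) (hf.imp fun _ _ _ h => h.1) n
      (e := fun _ i => 1 / 2 ^ (Nat.pair n i + 2)) measurable_const (fun _ _ => by positivity)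
  choose a b ha hb hab hcov using hlow
  let A : X.Ω → ℕ → ℚ := fun η m => a m.unpair.1 η m.unpair.2
  let B : X.Ω → ℕ → ℚ := fun η m =>
    if b m.unpair.1 η m.unpair.2 < a m.unpair.1 η m.unpair.2 + 1 / 2 ^ (m + 2)
    then b m.unpair.1 η m.unpair.2 else a m.unpair.1 η m.unpair.2
  have han : ∀ n i, Measurable fun η => a n η i := fun n i => (measurable_pi_apply i).comp (ha n)
  have hbn : ∀ n i, Measurable fun η => b n η i := fun n i => (measurable_pi_apply i).comp (hb n)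
  have hA : Measurable A := measurable_pi_lambda _ fun m => han _ _
  have hB : Measurable B := by
    refine measurable_pi_lambda _ fun m => Measurable.ite ?_ (hbn _ _) (han _ _)
    exact measurableSet_lt (hbn _ _) ((han _ _).add measurable_const)
  obtain ⟨x, hx, hxA⟩ := exists_avoid hA hB (fun η m => by
    simp only [A, B]
    split_ifs with h
    · exact h
    · have : (0 : ℚ) < 1 / 2 ^ (m + 2) := by positivity
      linarith)
  obtain ⟨β, hβ⟩ := exists_level_real hx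
  -- the real `x` belongs to a member of the family
  obtain ⟨g', hg', hL, u, hu⟩ := exists_gen_set p
    ![onN (Pos X) ω, addN (Pos X), ltN (Pos X), Φ, φ] (L := {famN X β, rlN x}) (by simp)
  obtain ⟨C, hC⟩ := hL (famN X β) (by simp)
  obtain ⟨y, hy⟩ := hL (rlN x) (by simp)
  have hw' : g'.Den (onN (Pos X) ω) (u 0) := hu 0
  obtain ⟨⟨hinj', -⟩, hcof'⟩ := hf g' hg' u hu
  obtain ⟨Y, hY, hCY⟩ := hcof' C (fun z hz => by
    obtain ⟨⟨x', hx'⟩, -, hxy⟩ := (Gen.mem_iff (τ := famN X β) hC).1 hz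
    exact isCut_rlN (x := x') (hx'.mono (X.sg_le β) le_rfl) hw' (hu 2) hxy)
    (isSN_famN (β := β) hw' (hu 1) (hu 2) hC)
  have hyC : g'.E y C := (Gen.mem_iff (τ := famN X β) hC).2 ⟨⟨x, hβ⟩, g'.top_mem, hy⟩
  obtain ⟨n, hn, hYn, -⟩ := hinj'.1 Y hY
  obtain ⟨γ, hγ, hnγ⟩ := (den_onN hw' n).1 hn
  obtain ⟨m, rfl⟩ := lt_omega0.1 hγ
  obtain ⟨r, hr, hfr⟩ := (Fc.truth (v := ![Φ, φ, rlN x, onN (Pos X) m])
    (R := fun _ E v => ∃ Y, E Y (v 0) ∧ Rel E (v 1) Y (v 3) ∧ E (v 2) Y)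
    (.ex (.and (.mem _ _) (.and (dfn_rel _ _ _) (.mem _ _))))
    (a := ![u 3, u 4, y, n]) (den4 (hu 3) (hu 4) hy hnγ)).1 ⟨Y, hY, hYn, hCY y hyC⟩
  obtain ⟨q, hq, hqp, hqr⟩ := g'.dir p hg' r hr
  obtain ⟨η, hη, h1, h2⟩ := ((pos_freq q).and_eventually
    ((hcov m q hqp x hx (hfr.mono hqr)).and (hab m))).exists
  obtain ⟨i, h3, h4⟩ := h1 hη
  have h5 := h2 (hqp hη) i
  refine hxA η (Nat.pair m i) ?_
  simp only [A, B, Nat.unpair_pair]
  rw [if_pos h5]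
  exact ⟨h3, h4⟩

end Pool.Agent.H90.SN
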