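import Pool.Agent.H90.SN.RealN

/-!
# Preservation of `ω₁` and the size of the family (module D5)

* `isOmega1_onN'`: `IsOrd` is `onN_isOrd`; the elements of `o` are values of `onN β`, `β < ω_ 1`,
  countable ordinals, so `sizeLe_onN` gives `SizeLe g.E b w`.
  `¬ SizeLe g.E o w`: suppose `IsInj g.E f o w`; take a name `φ` of `f`; by `Fc.truth` some `p ∈ g.G`
  forces `IsInj E φ (onN ω₁) (onN ω)`.  For `α : Om` (the ordinal `α.toOrd < ω_ 1`) and `n : ℕ` let
  `A α n = tv` of `Rel φ α n` (names `![φ, onN α, onN n]`, `measurableSet_tv`).  Almost every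
  point of `p` is in some `A α n` (otherwise some `q ≤ p` is disjoint from all of them; some
  `r ≤ q` forces `Rel φ α n` for some `n`, `Fc.exists_mem`), so for every `α` there are `n` and
  `q_α ≤ p`, `q_α.1 ⊆ A α n` (`split_pos`).  For some `n` there are uncountably many such `α`; by
  `X.ccc` (re-indexing by an injection of `Om` into this set) there are `α ≠ β` with `q_α ∩ q_β` not
  null; this condition forces `Rel φ α n` and `Rel φ β n`, contradicting injectivity (`onN_inj`).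
* `sizeLe_FN`: `ZFC.sizeLe_of_surj` with the relation named by
  `relN (fun β : Om => onN (Pos X) β.toOrd) (fun β => famN X β) (fun _ => ⊤)` (use `Gen.tn` to have
  this name denoted, as in `sizeLe_onN` and `sizeLe_omega_of_countable` in
  `Pool/Agent/H90/Frc/Tools.lean`).
-/

set_option autoImplicit false

open Filter MeasureTheory

namespace Pool.Agent.H90.SN

open Frc Ordinal

variable {X : Sys} {g : Gen (Pos X)}

/-- for a countable family of sets of countable ordinals covering everything, one of them contains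
an injective image of all countable ordinals -/
theorem exists_fiber (n : Om → ℕ) : ∃ k, ∃ e : Om → Om, Function.Injective e ∧ ∀ i, n (e i) = k := by
  by_contra hcon
  push Not at hcon
  refine om_not_countable ?_
  rw [← Set.countable_univ_iff]
  have h1 : ∀ k, (n ⁻¹' {k}).Countable := by
    intro k
    by_contra hk
    have hle : Cardinal.mk Om ≤ Cardinal.mk (n ⁻¹' {k}) := by
      rw [om_card, ← Cardinal.succ_aleph0, Order.succ_le_iff]
      exact not_le.1 fun h => hk (Cardinal.le_aleph0_iff_set_countable.1 h)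
    obtain ⟨e⟩ := hle
    obtain ⟨i, hi⟩ := hcon k (fun i => (e i).1) (fun i j hij => e.injective (Subtype.ext hij))
    exact hi (e i).2
  refine (Set.countable_iUnion h1).mono fun i _ => ?_
  exact Set.mem_iUnion.2 ⟨n i, rfl⟩

/-- `ω₁` is not countable in the generic structure -/
theorem not_sizeLe_onN' {w o : g.M} (hw : g.Den (onN (Pos X) ω) w)
    (ho : g.Den (onN (Pos X) (ω_ 1)) o) : ¬ SizeLe g.E o w := by
  rintro ⟨f, hf⟩
  obtain ⟨φ, hφ⟩ := g.exists_den f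
  refine Gen.tp (v := ![onN (Pos X) (ω_ 1), onN (Pos X) ω, φ]) (a := ![o, w, f])
    (den3 ho hw hφ) (dfn_isInj 2 0 1) (Dfn.const False) (fun p hp => ?_) hf
  exfalso
  have key : ∀ α : Om, ∃ n : ℕ, ∃ q : Pos X, q ≤ p ∧
      Fc q ![onN (Pos X) n, onN (Pos X) α.toOrd.1, φ] (fun _ E v => Rel E (v 2) (v 1) (v 0)) := by
    intro α
    obtain ⟨g', hg', -, u, hu⟩ := exists_gen_set p ![onN (Pos X) (ω_ 1), onN (Pos X) ω, φ,
      onN (Pos X) α.toOrd.1] (L := ∅) Set.countable_empty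
    have h0 : g'.Den (onN (Pos X) (ω_ 1)) (u 0) := hu 0
    have h1 : g'.Den (onN (Pos X) ω) (u 1) := hu 1
    have h2 : g'.Den φ (u 2) := hu 2
    have h3 : g'.Den (onN (Pos X) α.toOrd.1) (u 3) := hu 3
    have hinj : IsInj g'.E (u 2) (u 0) (u 1) := hp g' hg' ![u 0, u 1, u 2] (den3 h0 h1 h2)
    obtain ⟨y, hy, hxy, -⟩ := hinj.1 (u 3) ((den_onN h0 _).2 ⟨_, α.toOrd.2, h3⟩)
    obtain ⟨η, hη, hyη⟩ := (den_onN h1 y).1 hy
    obtain ⟨n, rfl⟩ := lt_omega0.1 hη
    obtain ⟨r, hr, hfr⟩ := (Fc.truth (v := ![onN (Pos X) n, onN (Pos X) α.toOrd.1, φ])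
      (a := ![y, u 3, u 2]) (dfn_rel 2 1 0) (den3 hyη h3 h2)).1 hxy
    obtain ⟨r', hr', h4, h5⟩ := g'.dir r hr p hg'
    exact ⟨n, r', h5, hfr.mono h4⟩
  choose n q hqp hq using key
  obtain ⟨k, e, he, hek⟩ := exists_fiber n
  obtain ⟨i, j, hij, hfr⟩ := X.ccc (fun i => (q (e i)).1) (fun i => pos_meas _)
    (fun i => pos_freq _)
  obtain ⟨r, hr, hr2, -⟩ := exists_pos (p := q (e i)) (pos_meas (q (e j))) hfr
  have hr1 : r ≤ q (e j) := hr2
  obtain ⟨g', hg', -, u, hu⟩ := exists_gen_set r ![onN (Pos X) (ω_ 1), onN (Pos X) ω, φ,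
    onN (Pos X) (e i).toOrd.1, onN (Pos X) (e j).toOrd.1, onN (Pos X) k] (L := ∅)
      Set.countable_empty
  have h0 : g'.Den (onN (Pos X) (ω_ 1)) (u 0) := hu 0
  have h1 : g'.Den (onN (Pos X) ω) (u 1) := hu 1
  have h2 : g'.Den φ (u 2) := hu 2
  have h3 : g'.Den (onN (Pos X) (e i).toOrd.1) (u 3) := hu 3
  have h4 : g'.Den (onN (Pos X) (e j).toOrd.1) (u 4) := hu 4
  have h5 : g'.Den (onN (Pos X) k) (u 5) := hu 5
  have hinj : IsInj g'.E (u 2) (u 0) (u 1) :=
    hp g' (g'.up r hg' p (hr.trans (hqp (e i)))) ![u 0, u 1, u 2] (den3 h0 h1 h2)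
  have hki : g'.Den (onN (Pos X) (n (e i))) (u 5) := by rw [hek]; exact h5
  have hkj : g'.Den (onN (Pos X) (n (e j))) (u 5) := by rw [hek]; exact h5
  have e1 : Rel g'.E (u 2) (u 3) (u 5) :=
    hq (e i) g' (g'.up r hg' _ hr) ![u 5, u 3, u 2] (den3 hki h3 h2)
  have e2 : Rel g'.E (u 2) (u 4) (u 5) :=
    hq (e j) g' (g'.up r hg' _ hr1) ![u 5, u 4, u 2] (den3 hkj h4 h2)
  have e3 : u 3 = u 4 := hinj.2 _ _ _ ((den_onN h0 _).2 ⟨_, (e i).toOrd.2, h3⟩)
    ((den_onN h0 _).2 ⟨_, (e j).toOrd.2, h4⟩) e1 e2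
  rw [e3] at h3
  exact hij (he (toOrd_inj (onN_inj h3 h4)))

theorem isOmega1_onN' {w o : g.M} (hw : g.Den (onN (Pos X) ω) w)
    (ho : g.Den (onN (Pos X) (ω_ 1)) o) : IsOmega1 g.E w o := by
  refine ⟨onN_isOrd ho, not_sizeLe_onN' hw ho, fun b hb => ?_⟩
  obtain ⟨β, hβ, hbβ⟩ := (den_onN ho b).1 hb
  refine sizeLe_onN ?_ hbβ hw
  rw [card_omega0]
  have h1 : β < (Cardinal.aleph 1 : Cardinal.{0}).ord := by
    simpa using hβ
  rw [Cardinal.lt_ord, ← Cardinal.succ_aleph0] at h1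
  exact Order.lt_succ_iff.1 h1

theorem sizeLe_FN {o F : g.M} (ho : g.Den (onN (Pos X) (ω_ 1)) o) (hF : g.Den (FN X) F) :
    SizeLe g.E F o := by
  refine Gen.tn (v := ![onN (Pos X) (ω_ 1), FN X]) (a := ![o, F]) (den2 ho hF) Dfn.true
    (dfn_sizeLe 1 0) (L := {relN (P := Pos X) (fun β : Om => onN (Pos X) β.toOrd.1)
      (fun β => famN X β) (fun _ => ⊤)}) (Set.countable_singleton _) ?_ trivial
  intro g' hL u hu _
  obtain ⟨f, hf⟩ := hL _ rfl
  have h0 : g'.Den (onN (Pos X) (ω_ 1)) (u 0) := hu 0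
  have h1 : g'.Den (FN X) (u 1) := hu 1
  have hR := fun x y => den_relN hf x y
  refine g'.zfc.sizeLe_of_surj g'.wf_E (F := f) (onN_total h0) (onN_trans h0) ?_ ?_
  · intro x y y' _ _ _ h2 h3
    obtain ⟨i, -, h4, h5⟩ := (hR x y).1 h2
    obtain ⟨j, -, h6, h7⟩ := (hR x y').1 h3
    have : i = j := toOrd_inj (onN_inj h4 h6)
    subst this
    exact h5.unique h7
  · intro y hy
    obtain ⟨i, -, hi⟩ := (Gen.mem_iff h1).1 hy
    obtain ⟨x, hx⟩ := relN_exists' hf (i := i) g'.top_mem hi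
    obtain ⟨j, -, h4, h5⟩ := (hR x y).1 hx
    exact ⟨x, (den_onN h0 x).2 ⟨_, j.toOrd.2, h4⟩, hx⟩

end Pool.Agent.H90.SN
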