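import Pool.Agent.H90.SN.RealN

/-!
# The rationals of the generic structure (module D4)

`w` denotes `ω`, whose elements are exactly the values of the names `qN P s`, `s : ℚ`
(`exists_q_of_mem`, `exists_qN`, `qN_mem`, `qN_inj`, `Gen.Den.unique`).  Operations: `op_addN`, `op_mulN`,
order: `rel_ltN`.  `o`, `e` are the values of `qN P 0`, `qN P 1`.  For `NoSubfield` consider the set
of all `s : ℚ` such that the value of `qN P s` is in `S`: it contains `1` and is closed under
subtraction and division by non-zero elements, so it is a subfield of `ℚ`, hence everything (or: it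
contains all integers and their quotients).
-/

set_option autoImplicit false

namespace Pool.Agent.H90.SN

open Frc Ordinal

variable {P : Type} [PartialOrder P] [OrderTop P] {g : Gen P}

theorem RatD.isBin_binN {f : ℚ → ℚ → ℚ} {w m : g.M} (hw : g.Den (onN P ω) w)
    (hm : g.Den (binN P f) m) : IsBin g.E w m := by
  intro a b ha hb
  obtain ⟨s, hs⟩ := exists_q_of_mem hw ha
  obtain ⟨t, ht⟩ := exists_q_of_mem hw hb
  obtain ⟨c, hc⟩ := exists_qN hw (f s t)
  refine ⟨c, qN_mem hw hc, fun x => ?_⟩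
  rw [op_binN hm hs ht]
  exact ⟨fun h => h.unique hc, fun h => h ▸ hc⟩

theorem isRationals_addN {w ad mu l : g.M} (hw : g.Den (onN P ω) w) (had : g.Den (addN P) ad)
    (hmu : g.Den (mulN P) mu) (hl : g.Den (ltN P) l) : IsRationals g.E w ad mu l := by
  obtain ⟨o, ho⟩ := exists_qN hw 0
  obtain ⟨e, he⟩ := exists_qN hw 1
  refine ⟨o, e, ?_, ?_, ?_⟩
  · refine ⟨RatD.isBin_binN hw had, RatD.isBin_binN hw hmu, ?_, ?_, ?_, ?_, ?_, qN_mem hw ho,
      qN_mem hw he, ?_, ?_, ?_, ?_⟩
    · intro a b c ha hb h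
      obtain ⟨s, hs⟩ := exists_q_of_mem hw ha
      obtain ⟨t, ht⟩ := exists_q_of_mem hw hb
      rw [op_addN had hs ht] at h
      rw [op_addN had ht hs, add_comm]
      exact h
    · intro a b c ha hb h
      obtain ⟨s, hs⟩ := exists_q_of_mem hw ha
      obtain ⟨t, ht⟩ := exists_q_of_mem hw hb
      rw [op_mulN hmu hs ht] at h
      rw [op_mulN hmu ht hs, mul_comm]
      exact h
    · intro a b c u v x ha hb hc h1 h2 h3
      obtain ⟨s, hs⟩ := exists_q_of_mem hw ha
      obtain ⟨t, ht⟩ := exists_q_of_mem hw hb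
      obtain ⟨r, hr⟩ := exists_q_of_mem hw hc
      have hu := (op_addN had hs ht).1 h1
      have hx := (op_addN had hu hr).1 h2
      have hv := (op_addN had ht hr).1 h3
      rw [op_addN had hs hv, ← add_assoc]
      exact hx
    · intro a b c u v x ha hb hc h1 h2 h3
      obtain ⟨s, hs⟩ := exists_q_of_mem hw ha
      obtain ⟨t, ht⟩ := exists_q_of_mem hw hb
      obtain ⟨r, hr⟩ := exists_q_of_mem hw hc
      have hu := (op_mulN hmu hs ht).1 h1
      have hx := (op_mulN hmu hu hr).1 h2
      have hv := (op_mulN hmu ht hr).1 h3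
      rw [op_mulN hmu hs hv, ← mul_assoc]
      exact hx
    · intro a b c u x v y ha hb hc h1 h2 h3 h4
      obtain ⟨s, hs⟩ := exists_q_of_mem hw ha
      obtain ⟨t, ht⟩ := exists_q_of_mem hw hb
      obtain ⟨r, hr⟩ := exists_q_of_mem hw hc
      have hu := (op_addN had ht hr).1 h1
      have hx := (op_mulN hmu hs hu).1 h2
      have hv := (op_mulN hmu hs ht).1 h3
      have hy := (op_mulN hmu hs hr).1 h4
      rw [op_addN had hv hy, ← mul_add]
      exact hx
    · rintro rfl
      have := qN_inj ho he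
      norm_num at this
    · intro a ha
      obtain ⟨s, hs⟩ := exists_q_of_mem hw ha
      rw [op_addN had hs ho, op_mulN hmu hs he, add_zero, mul_one]
      exact ⟨hs, hs⟩
    · intro a ha
      obtain ⟨s, hs⟩ := exists_q_of_mem hw ha
      obtain ⟨b, hb⟩ := exists_qN hw (-s)
      refine ⟨b, qN_mem hw hb, ?_⟩
      rw [op_addN had hs hb, add_neg_cancel]
      exact ho
    · intro a ha hne
      obtain ⟨s, hs⟩ := exists_q_of_mem hw ha
      have hs0 : s ≠ 0 := by
        rintro rfl
        exact hne (hs.unique ho)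
      obtain ⟨b, hb⟩ := exists_qN hw s⁻¹
      refine ⟨b, qN_mem hw hb, ?_⟩
      rw [op_mulN hmu hs hb, mul_inv_cancel₀ hs0]
      exact he
  · refine ⟨?_, ?_, ?_, ?_, ?_⟩
    · intro a ha
      obtain ⟨s, hs⟩ := exists_q_of_mem hw ha
      rw [rel_ltN hl hs hs]
      exact lt_irrefl s
    · intro a b c ha hb hc
      obtain ⟨s, hs⟩ := exists_q_of_mem hw ha
      obtain ⟨t, ht⟩ := exists_q_of_mem hw hb
      obtain ⟨r, hr⟩ := exists_q_of_mem hw hc
      rw [rel_ltN hl hs ht, rel_ltN hl ht hr, rel_ltN hl hs hr]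
      exact lt_trans
    · intro a b ha hb
      obtain ⟨s, hs⟩ := exists_q_of_mem hw ha
      obtain ⟨t, ht⟩ := exists_q_of_mem hw hb
      rw [rel_ltN hl hs ht, rel_ltN hl ht hs]
      rcases lt_trichotomy s t with h | h | h
      · exact Or.inr (Or.inl h)
      · subst h
        exact Or.inl (hs.unique ht)
      · exact Or.inr (Or.inr h)
    · intro a b c u v ha hb hc hab h1 h2
      obtain ⟨s, hs⟩ := exists_q_of_mem hw ha
      obtain ⟨t, ht⟩ := exists_q_of_mem hw hb
      obtain ⟨r, hr⟩ := exists_q_of_mem hw hc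
      have hu := (op_addN had hs hr).1 h1
      have hv := (op_addN had ht hr).1 h2
      rw [rel_ltN hl hs ht] at hab
      rw [rel_ltN hl hu hv]
      linarith
    · intro a b c ha hb h1 h2 h3
      obtain ⟨s, hs⟩ := exists_q_of_mem hw ha
      obtain ⟨t, ht⟩ := exists_q_of_mem hw hb
      have hc := (op_mulN hmu hs ht).1 h3
      rw [rel_ltN hl ho hs] at h1
      rw [rel_ltN hl ho ht] at h2
      rw [rel_ltN hl ho hc]
      exact mul_pos h1 h2
  · intro S hS heS hsub hdiv
    have key : ∀ {s : ℚ} {b : g.M}, g.Den (qN P s) b → s ∈ cs g S → g.E b S :=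
      fun hb h => (mem_cs hb).1 h
    have h1 : (1 : ℚ) ∈ cs g S := (mem_cs he).2 heS
    have hs : ∀ s t : ℚ, s ∈ cs g S → t ∈ cs g S → s - t ∈ cs g S := by
      rintro s t ⟨a, ha, haS⟩ ⟨b, hb, hbS⟩
      obtain ⟨c, hc⟩ := exists_qN hw (s - t)
      refine ⟨c, hc, hsub a b c haS hbS (qN_mem hw hc) ?_⟩
      rw [op_addN had hc hb, sub_add_cancel]
      exact ha
    have hd : ∀ s t : ℚ, s ∈ cs g S → t ∈ cs g S → t ≠ 0 → s / t ∈ cs g S := by
      rintro s t ⟨a, ha, haS⟩ ⟨b, hb, hbS⟩ ht
      obtain ⟨c, hc⟩ := exists_qN hw (s / t)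
      refine ⟨c, hc, hdiv a b c haS hbS ?_ (qN_mem hw hc) ?_⟩
      · rintro rfl
        exact ht (qN_inj hb ho)
      · rw [op_mulN hmu hc hb, div_mul_cancel₀ _ ht]
        exact ha
    have h0 : (0 : ℚ) ∈ cs g S := by
      have := hs 1 1 h1 h1
      rwa [_root_.sub_self] at this
    have hneg : ∀ s : ℚ, s ∈ cs g S → -s ∈ cs g S := by
      intro s h
      have := hs 0 s h0 h
      rwa [_root_.zero_sub] at this
    have hnat : ∀ n : ℕ, (n : ℚ) ∈ cs g S := by
      intro n
      induction n with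
      | zero => simpa using h0
      | succ n ih =>
        have := hs n (-1) ih (hneg 1 h1)
        rwa [sub_neg_eq_add, ← Nat.cast_succ] at this
    have hint : ∀ n : ℤ, (n : ℚ) ∈ cs g S := by
      intro n
      obtain ⟨k, rfl | rfl⟩ := Int.eq_nat_or_neg n
      · simpa using hnat k
      · have := hneg k (hnat k)
        simpa using this
    intro b hb
    obtain ⟨s, hsb⟩ := exists_q_of_mem hw hb
    refine key hsb ?_
    have h2 := hd (s.num : ℚ) (s.den : ℚ) (hint s.num) (hnat s.den)
      (by exact_mod_cast s.den_nz)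
    rwa [Rat.num_div_den] at h2

end Pool.Agent.H90.SN
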