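import Pool.Agent.H90.SN.SnD
import Pool.Agent.H90.SN.LastD
import Pool.Agent.H90.SN.OmD
import Pool.Agent.H90.SN.RatD
import Pool.Agent.H90.SN.LowC

/-!
# The generic structure satisfies `cof(SN) = ℵ₁`
-/

set_option autoImplicit false

open Filter MeasureTheory

namespace Pool.Agent.H90.SN

open Frc Ordinal

variable {X : Sys}

theorem cofSNLe_gen {g : Gen (Pos X)} {w o ad l F R : g.M} (hw : g.Den (onN (Pos X) ω) w)
    (ho : g.Den (onN (Pos X) (ω_ 1)) o) (had : g.Den (addN (Pos X)) ad)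
    (hl : g.Den (ltN (Pos X)) l) (hF : g.Den (FN X) F) (hR : IsReals g.E w l R) :
    CofSNLe g.E w w ad l R o := by
  refine ⟨F, sizeLe_FN ho hF, ?_, ?_⟩
  · intro Y hY
    obtain ⟨β, -, hβ⟩ := (Gen.mem_iff hF).1 hY
    refine ⟨fun y hy => ?_, isSN_famN (β := β) hw had hl hβ⟩
    obtain ⟨⟨x, hx⟩, -, hxy⟩ := (Gen.mem_iff (τ := famN X β) hβ).1 hy
    exact (hR y).2 (isCut_rlN (x := x) (hx.mono (X.sg_le β) le_rfl) hw hl hxy)
  · intro C hCR hCsn
    by_contra hcon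
    obtain ⟨χ, hχ⟩ := g.exists_den C
    obtain ⟨p, hp, hf⟩ := (Fc.truth (v := ![onN (Pos X) ω, addN (Pos X), ltN (Pos X), FN X, χ])
      (R := fun _ E v => (∀ x, E x (v 4) → IsCut E (v 0) (v 2) x) ∧
        IsSN E (v 0) (v 0) (v 1) (v 2) (v 4) ∧ ¬ ∃ Y, E Y (v 3) ∧ IsSub E (v 4) Y)
      (.and (.all (.imp (.mem _ _) (dfn_isCut _ _ _))) (.and (dfn_isSN _ _ _ _ _)
        (.not (.ex (.and (.mem _ _) (dfn_isSub _ _))))))
      (a := ![w, ad, l, F, C]) (den5 hw had hl hF hχ)).1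
      ⟨fun x hx => (hR x).1 (hCR x hx), hCsn, hcon⟩
    refine no_bad (p := p) (χ := χ) ?_ ?_ ?_
    · refine Fc.with_names (.all (.imp (.mem _ _) (dfn_isCut _ _ _)))
        (L := {addN (Pos X), FN X}) (by simp) ?_
      intro g' hg' hL a ha
      obtain ⟨ad', had'⟩ := hL (addN (Pos X)) (by simp)
      obtain ⟨F', hF'⟩ := hL (FN X) (by simp)
      exact (hf g' hg' ![a 0, ad', a 1, F', a 2] (den5 (ha 0) had' (ha 1) hF' (ha 2))).1
    · refine Fc.with_names (dfn_isSN _ _ _ _ _) (L := {FN X}) (by simp) ?_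
      intro g' hg' hL a ha
      obtain ⟨F', hF'⟩ := hL (FN X) (by simp)
      exact (hf g' hg' ![a 0, a 1, a 2, F', a 3] (den5 (ha 0) (ha 1) (ha 2) hF' (ha 3))).2.1
    · refine Fc.with_names (.not (.ex (.and (.mem _ _) (dfn_isSub _ _))))
        (L := {onN (Pos X) ω, addN (Pos X), ltN (Pos X)}) (by simp) ?_
      intro g' hg' hL a ha
      obtain ⟨w', hw'⟩ := hL (onN (Pos X) ω) (by simp)
      obtain ⟨ad', had'⟩ := hL (addN (Pos X)) (by simp)
      obtain ⟨l', hl'⟩ := hL (ltN (Pos X)) (by simp)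
      exact (hf g' hg' ![w', ad', l', a 0, a 1] (den5 hw' had' hl' (ha 0) (ha 1))).2.2

theorem exists_model (X : Sys) : ∃ (M : Type) (E : M → M → Prop), ZFC E ∧ SNStatement E := by
  obtain ⟨g, -, hL, -⟩ := exists_gen_set (⊤ : Pos X) (n := 0) Fin.elim0
    (L := {onN (Pos X) ω, onN (Pos X) (ω_ 1), addN (Pos X), mulN (Pos X), ltN (Pos X), FN X})
    (by simp)
  obtain ⟨w, hw⟩ := hL (onN (Pos X) ω) (by simp)
  obtain ⟨o, ho⟩ := hL (onN (Pos X) (ω_ 1)) (by simp)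
  obtain ⟨ad, had⟩ := hL (addN (Pos X)) (by simp)
  obtain ⟨mu, hmu⟩ := hL (mulN (Pos X)) (by simp)
  obtain ⟨l, hl⟩ := hL (ltN (Pos X)) (by simp)
  obtain ⟨F, hF⟩ := hL (FN X) (by simp)
  have hz := g.zfc
  obtain ⟨pw, hpw⟩ := hz.power w
  obtain ⟨R, hR⟩ := hz.sep (n := 2) (R := fun _ E v => IsCut E (v 0) (v 1) (v 2))
    (dfn_isCut _ _ _) ![w, l] pw
  have hReals : IsReals g.E w l R := by
    intro x
    rw [hR, ext_vec2]
    constructor
    · exact fun h => h.2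
    · exact fun h => ⟨(hpw x).2 h.1, h⟩
  exact ⟨g.M, g.E, hz, w, o, w, ad, mu, l, R, onN_isOmega hw, isOmega1_onN' hw ho,
    isRationals_addN hw had hmu hl, hReals, cofSNLe_gen hw ho had hl hF hReals,
    not_cofSNLe_omega hw had hl hReals⟩

end Pool.Agent.H90.SN
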