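import Pool.Agent.H90.SN.Cover

/-!
# Sets with finite support (module B1b)

`fsp_cpt`: the sets with finite support are clopen for the product of the discrete topologies, and
the product of finite discrete spaces is compact.
`Fsp.dep_lt`: if `X` has the finite support `F` and depends on `[a, b)`, then it has the support
`F ∩ [a, b)` (compare `z`, `z'` with the point which is `z` on `[a, b)` and `z'` elsewhere).
-/

set_option autoImplicit false

namespace Pool.Agent.H90.SN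

variable {Γ : Type} [LinearOrder Γ] {T : Γ → Type}

/-- `X` has finite support -/
def Fsp (X : Set (∀ g, T g)) : Prop :=
  ∃ F : Finset Γ, ∀ z z' : ∀ g, T g, (∀ g ∈ F, z g = z' g) → (z ∈ X ↔ z' ∈ X)

theorem fsp_empty : Fsp (∅ : Set (∀ g, T g)) := ⟨∅, fun _ _ _ => Iff.rfl⟩

theorem Fsp.compl {X : Set (∀ g, T g)} (h : Fsp X) : Fsp Xᶜ := by
  obtain ⟨F, hF⟩ := h
  exact ⟨F, fun z z' hz => not_congr (hF z z' hz)⟩

theorem Fsp.union {X Y : Set (∀ g, T g)} (h : Fsp X) (h' : Fsp Y) : Fsp (X ∪ Y) := by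
  classical
  obtain ⟨F, hF⟩ := h
  obtain ⟨F', hF'⟩ := h'
  refine ⟨F ∪ F', fun z z' hz => or_congr (hF z z' fun g hg => hz g ?_)
    (hF' z z' fun g hg => hz g ?_)⟩
  · exact Finset.mem_union_left _ hg
  · exact Finset.mem_union_right _ hg

theorem Fsp.sec {X : Set (∀ g, T g)} (h : Fsp X) (c : Γ) (u : ∀ g, T g) :
    Fsp (SN.sec X c u) := by
  obtain ⟨F, hF⟩ := h
  refine ⟨F, fun z z' hz => hF _ _ fun g hg => ?_⟩
  simp only [mix]
  split_ifs
  · rfl
  · exact hz g hg

theorem sec_eq_of_supp {X : Set (∀ g, T g)} {F : Finset Γ}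
    (hF : ∀ z z' : ∀ g, T g, (∀ g ∈ F, z g = z' g) → (z ∈ X ↔ z' ∈ X)) (c : Γ)
    {z z' : ∀ g, T g} (hz : ∀ g ∈ F, z g = z' g) : SN.sec X c z = SN.sec X c z' := by
  ext y
  refine hF _ _ fun g hg => ?_
  simp only [mix]
  split_ifs
  · exact hz g hg
  · rfl

/-- a set defined by a condition on the sections has finite support -/
theorem Fsp.of_sec {X : Set (∀ g, T g)} (h : Fsp X) (c : Γ) (p : Set (∀ g, T g) → Prop) :
    Fsp {z | p (SN.sec X c z)} := by
  obtain ⟨F, hF⟩ := h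
  refine ⟨F, fun z z' hz => ?_⟩
  change p _ ↔ p _
  rw [sec_eq_of_supp hF c hz]

/-- there are only finitely many sections -/
theorem Fsp.finite_sec [∀ g, Finite (T g)] {X : Set (∀ g, T g)} (h : Fsp X) (c : Γ) :
    (Set.range (SN.sec X c)).Finite := by
  obtain ⟨F, hF⟩ := h
  refine Set.finite_coe_iff.1 (Finite.of_injective
    (fun s : Set.range (SN.sec X c) => fun g : F => (s.2.choose) g) ?_)
  intro s s' hs
  have h1 := s.2.choose_spec
  have h2 := s'.2.choose_spec
  apply Subtype.ext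
  rw [← h1, ← h2]
  exact sec_eq_of_supp hF c fun g hg => congrFun hs ⟨g, hg⟩

/-- a set with finite support depending on `[a, b)` depends on `[a, g)` for some `g < b`, if `b` is
not a successor -/
theorem Fsp.dep_lt {X : Set (∀ g, T g)} (h : Fsp X) {a b : Γ} (hab : a < b) (hX : Dep X a b)
    (hb : ∀ c < b, ∃ g, c < g ∧ g < b) : ∃ g, a ≤ g ∧ g < b ∧ Dep X a g := by
  classical
  obtain ⟨F, hF⟩ := h
  have key : ∀ z z' : ∀ g, T g, (∀ g ∈ F.filter (fun g => a ≤ g ∧ g < b), z g = z' g) →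
      (z ∈ X ↔ z' ∈ X) := by
    intro z z' hz
    have h1 : z ∈ X ↔ (fun g => if a ≤ g ∧ g < b then z g else z' g) ∈ X :=
      hX _ _ fun g h1 h2 => by simp [h1, h2]
    rw [h1]
    refine hF _ _ fun g hg => ?_
    by_cases hc : a ≤ g ∧ g < b
    · simp only [hc, and_self, if_true]
      exact hz g (Finset.mem_filter.2 ⟨hg, hc⟩)
    · simp only [hc, if_false]
  by_cases hS : (F.filter (fun g => a ≤ g ∧ g < b)).Nonempty
  · have hm := Finset.max'_mem _ hS
    obtain ⟨hm1, hm2, hm3⟩ := Finset.mem_filter.1 hm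
    obtain ⟨g, hg1, hg2⟩ := hb _ hm3
    refine ⟨g, hm2.trans hg1.le, hg2, fun z z' hz => key z z' fun g' hg' => ?_⟩
    exact hz g' (Finset.mem_filter.1 hg').2.1 ((Finset.le_max' _ g' hg').trans_lt hg1)
  · rw [Finset.not_nonempty_iff_eq_empty] at hS
    refine ⟨a, le_rfl, hab, fun z z' _ => key z z' ?_⟩
    rw [hS]
    simp

theorem fsp_cpt [∀ g, Finite (T g)] (A : ℕ → Set (∀ g, T g)) (hA : ∀ n, Fsp (A n))
    (h : (⋃ n, A n) = Set.univ) : ∃ n, (⋃ i < n, A i) = Set.univ := by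
  letI : ∀ g, TopologicalSpace (T g) := fun _ => ⊥
  haveI : ∀ g, DiscreteTopology (T g) := fun _ => ⟨rfl⟩
  have hopen : ∀ n, IsOpen (A n) := by
    intro n
    obtain ⟨F, hF⟩ := hA n
    rw [isOpen_iff_forall_mem_open]
    intro z hz
    refine ⟨(F : Set Γ).pi fun g => {z g}, fun z' hz' => ?_, ?_, fun g _ => rfl⟩
    · exact (hF z z' fun g hg => (hz' g hg).symm).1 hz
    · exact isOpen_set_pi F.finite_toSet fun g _ => isOpen_discrete _
  obtain ⟨t, ht⟩ := isCompact_univ.elim_finite_subcover A hopen (by rw [h])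
  refine ⟨t.sup id + 1, Set.eq_univ_of_univ_subset (ht.trans ?_)⟩
  refine Set.iUnion₂_subset fun i hi => ?_
  refine Set.subset_iUnion₂_of_subset i ?_ subset_rfl
  exact Nat.lt_succ_of_le (Finset.le_sup (f := id) hi)

end Pool.Agent.H90.SN
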