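import Pool.Agent.H90.SN.Exh
import Pool.Agent.H90.SN.Cont

/-!
# Sections of small sets and sets with small sections (module C4)

* `markov`: let `w' < w` with `Sm π 0 a b B w'` (`sm_of_mu_lt`), `V := {z | 2 * w < mu c b (sec B c z)}`.
  For every section `Y = sec B c z`, `z ∈ V`: `¬ Sm π 0 c b Y (2 * w)`, so for almost all `p`
  `¬ Cov π (p + 1) 0 c b Y (2 * w)` (ultrafilter); there are only finitely many sections
  (`Fsp.finite_sec`), so this holds for all of them for almost all `p`.  For almost all `p`, `split`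
  gives `V_p` with `Cov π (p + 1) 0 a c V_p ((1 + d 0) * w')`, and
  `Cov π (p + 1) 0 c b (sec B c z) ((1 + d 0) * w')` for `z ∉ V_p`; so `V ⊆ V_p`.
* `null_sec`: for `ε > 0` (real, `ε < 1`) cover `E` by sets `B i` with finite support depending on
  `[a, b)` with `∑ mu (B i) < ε`; choose `w i > mu (B i)`, `∑ w i < ε`.  By `markov`,
  `V i := {z | 2 * w i < mu c b (sec (B i) c z)}` has `mu a b (V i) ≤ mu a c (V i) ≤ 2 * w i`; outside
  `⋃ i, V i`, `nu_c (sec E c z) ≤ ∑ 2 * w i ≤ 2 * ε`.  So `nu {z | 2 * ε < nu_c (sec E c z)} ≤ 2 * ε`;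
  use `ε / 2 ^ j` and countable subadditivity.
* `null_of_sec`: let `k` be given, `δ > 0` with `8 * δ ≤ π.ep k`, `δ ≤ (1 / 2) ^ k`.  By `approx` there
  is `A` with finite support depending on `[a, b)` with `nu (E ∆ A) < δ`.  As before there is a set
  `V` with `nu V ≤ 2 * δ` such that `nu_c (sec (E ∆ A) c z) ≤ 2 * δ` for `z ∉ V`.  Let
  `A' := {z ∈ A | nu_c (sec A c z) ≤ 4 * δ}`.  All sections of `A'` are `∅` or have
  `mu c b < π.ep k ≤ (1 / 2) ^ k`, so `Sm π (k + 1) c b _ (π.ep k)` (`sm_of_mu`), and, as there are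
  finitely many sections, `cov_F` applies for almost all `p` and gives `mu a b A' ≤ (1 / 2) ^ k`.
  `E ⊆ (E ∆ A) ∪ A' ∪ V ∪ {z | nu_c (sec E c z) ≠ 0}`.
-/

set_option autoImplicit false

open Filter ENNReal Topology MeasureTheory

namespace Pool.Agent.H90.SN

variable {Γ : Type} [LinearOrder Γ] {T : Γ → Type} (π : Par)

theorem markov [∀ g, Nonempty (T g)] [∀ g, Finite (T g)] {a b c : Γ} (hac : a ≤ c)
    (hcb : c ≤ b) {B : Set (∀ g, T g)} (hB : Fsp B) {w : ℝ} (hw : w ≤ 1)
    (h : mu π a b B < ENNReal.ofReal w) :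
    mu π a c {z | ENNReal.ofReal (2 * w) < mu π c b (sec B c z)} ≤ ENNReal.ofReal (2 * w) := by
  obtain ⟨v, hv, hvw⟩ := sm_of_mu_lt' π h
  have hv0 := sm_nonneg π hv
  have hd0 := π.d_pos 0
  have hd1 := π.d_le 0
  have hle : (1 + π.d 0) * v ≤ 2 * w := by nlinarith
  have hev : ∀ᶠ p in (hyperfilter ℕ : Filter ℕ), ∀ Y ∈ Set.range (sec B c),
      ¬ Sm π 0 c b Y (2 * w) → ¬ Cov π (p + 1 - 0) 0 c b Y (2 * w) := by
    rw [Filter.eventually_all_finite (hB.finite_sec c)]
    intro Y _
    by_cases hY : Sm π 0 c b Y (2 * w)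
    · exact Filter.Eventually.of_forall fun p hp => absurd hY hp
    · have h2 := Ultrafilter.eventually_not.2 hY
      exact h2.mono fun p hp _ => hp
  have hS : Sm π 0 a c {z | ENNReal.ofReal (2 * w) < mu π c b (sec B c z)}
      ((1 + π.d 0) * v) := by
    filter_upwards [hev, hv] with p hp hpv
    obtain ⟨V, _, hV, hV'⟩ := split π hac hcb hpv (by linarith)
    refine cov_mono π hV ?_ le_rfl
    intro z hz
    by_contra hzV
    have h3 : ¬ Sm π 0 c b (sec B c z) (2 * w) := fun hSm =>
      absurd (mu_le π hSm) (not_le.2 hz)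
    exact hp _ ⟨z, rfl⟩ h3 (cov_mono π (hV' z hzV) subset_rfl hle)
  exact (mu_le π hS).trans (ENNReal.ofReal_le_ofReal hle)

theorem sub_nu_eq [WellFoundedLT Γ] [∀ g, Nonempty (T g)] [∀ g, Finite (T g)] {a b : Γ}
    {X : Set (∀ g, T g)} (h1 : Fsp X) (h2 : Dep X a b) :
    (sub π T a b).nu X = mu π a b X :=
  (sub π T a b).nu_eq ⟨h1, h2⟩

/-- `markov` for the outer submeasures -/
theorem markov_nu [WellFoundedLT Γ] [∀ g, Nonempty (T g)] [∀ g, Finite (T g)] {a b c : Γ}
    (hac : a ≤ c) (hcb : c ≤ b) {E : Set (∀ g, T g)} {ε : ℝ} (hε : ε ≤ 1)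
    (h : (sub π T a b).nu E < ENNReal.ofReal ε) :
    (sub π T a b).nu {z | ENNReal.ofReal (2 * ε) < (sub π T c b).nu (sec E c z)}
      ≤ ENNReal.ofReal (2 * ε) := by
  have hε0 : 0 < ε := by
    by_contra hcon
    rw [ENNReal.ofReal_of_nonpos (not_lt.1 hcon)] at h
    exact absurd h (not_lt.2 zero_le)
  obtain ⟨A, hA, hEA, hsum⟩ := (sub π T a b).exists_of_nu_lt h
  have hA' : ∀ n, Fsp (A n) ∧ Dep (A n) a b := hA
  have hsum' : ∑' n, mu π a b (A n) < ENNReal.ofReal ε := hsum
  have hgap : ENNReal.ofReal ε - ∑' n, mu π a b (A n) ≠ 0 := (tsub_pos_of_lt hsum').ne'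
  obtain ⟨e, he, hes⟩ := ENNReal.exists_pos_sum_of_countable hgap ℕ
  have hfin : ∀ n, mu π a b (A n) ≠ ∞ := fun n hn =>
    absurd hsum' (by
      rw [ENNReal.tsum_eq_top_of_eq_top ⟨n, hn⟩]
      exact not_lt.2 le_top)
  obtain ⟨w, hw⟩ : ∃ w : ℕ → ℝ, w = fun n => (mu π a b (A n)).toReal + e n := ⟨_, rfl⟩
  have hwn : ∀ n, 0 ≤ w n := by
    intro n
    rw [hw]
    have := ENNReal.toReal_nonneg (a := mu π a b (A n))
    positivity
  have hwe : ∀ n, ENNReal.ofReal (w n) = mu π a b (A n) + e n := by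
    intro n
    rw [hw]
    simp only
    rw [ENNReal.ofReal_add ENNReal.toReal_nonneg (by positivity), ENNReal.ofReal_toReal (hfin n)]
    simp
  have hwsum : ∑' n, ENNReal.ofReal (w n) ≤ ENNReal.ofReal ε := by
    simp only [hwe]
    rw [ENNReal.tsum_add]
    calc ∑' n, mu π a b (A n) + ∑' n, (e n : ℝ≥0∞)
        ≤ ∑' n, mu π a b (A n) + (ENNReal.ofReal ε - ∑' n, mu π a b (A n)) := by gcongr
      _ = ENNReal.ofReal ε := add_tsub_cancel_of_le hsum'.le
  have hw1 : ∀ n, w n ≤ 1 := by
    intro n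
    have h1 := (ENNReal.le_tsum n).trans hwsum
    exact ((ENNReal.ofReal_le_ofReal_iff hε0.le).1 h1).trans hε
  have hw2sum : ∑' n, ENNReal.ofReal (2 * w n) ≤ ENNReal.ofReal (2 * ε) := by
    simp only [ENNReal.ofReal_mul (zero_le_two (α := ℝ))]
    rw [ENNReal.tsum_mul_left]
    gcongr
  have hlt : ∀ n, mu π a b (A n) < ENNReal.ofReal (w n) := by
    intro n
    rw [hwe]
    exact ENNReal.lt_add_right (hfin n) (by simpa using (he n).ne')
  have hmk := fun n => markov π hac hcb (hA' n).1 (hw1 n) (hlt n)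
  have hsub : {z | ENNReal.ofReal (2 * ε) < (sub π T c b).nu (sec E c z)} ⊆
      ⋃ n, {z | ENNReal.ofReal (2 * w n) < mu π c b (sec (A n) c z)} := by
    intro z hz
    by_contra hcon
    simp only [Set.mem_iUnion, not_exists] at hcon
    have hle : ∀ n, mu π c b (sec (A n) c z) ≤ ENNReal.ofReal (2 * w n) := fun n =>
      not_lt.1 (hcon n)
    have hz' : ENNReal.ofReal (2 * ε) < (sub π T c b).nu (sec E c z) := hz
    refine absurd ?_ (not_le.2 hz')
    calc (sub π T c b).nu (sec E c z) ≤ (sub π T c b).nu (⋃ n, sec (A n) c z) := by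
          refine (sub π T c b).nu_mono ?_
          intro y hy
          obtain ⟨n, hn⟩ := Set.mem_iUnion.1 (hEA hy)
          exact Set.mem_iUnion.2 ⟨n, hn⟩
      _ ≤ ∑' n, (sub π T c b).nu (sec (A n) c z) := (sub π T c b).nu_iUnion_le _
      _ = ∑' n, mu π c b (sec (A n) c z) := by
          congr 1
          funext n
          exact sub_nu_eq π ((hA' n).1.sec c z) ((hA' n).2.sec c z)
      _ ≤ ∑' n, ENNReal.ofReal (2 * w n) := ENNReal.tsum_le_tsum hle
      _ ≤ ENNReal.ofReal (2 * ε) := hw2sum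
  calc (sub π T a b).nu {z | ENNReal.ofReal (2 * ε) < (sub π T c b).nu (sec E c z)}
      ≤ (sub π T a b).nu (⋃ n, {z | ENNReal.ofReal (2 * w n) < mu π c b (sec (A n) c z)}) :=
        (sub π T a b).nu_mono hsub
    _ ≤ ∑' n, (sub π T a b).nu {z | ENNReal.ofReal (2 * w n) < mu π c b (sec (A n) c z)} :=
        (sub π T a b).nu_iUnion_le _
    _ = ∑' n, mu π a b {z | ENNReal.ofReal (2 * w n) < mu π c b (sec (A n) c z)} := by
        congr 1
        funext n
        exact sub_nu_eq π
          ((hA' n).1.of_sec c (fun Y => ENNReal.ofReal (2 * w n) < mu π c b Y))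
          ((dep_of_sec (hA' n).2 c (fun Y => ENNReal.ofReal (2 * w n) < mu π c b Y)).mono
            le_rfl hcb)
    _ ≤ ∑' n, ENNReal.ofReal (2 * w n) :=
        ENNReal.tsum_le_tsum fun n => (mu_interval π le_rfl hcb _).trans (hmk n)
    _ ≤ ENNReal.ofReal (2 * ε) := hw2sum

/-- almost all sections of a null set are null sets -/
theorem null_sec [WellFoundedLT Γ] [∀ g, Nonempty (T g)] [∀ g, Finite (T g)] {a b c : Γ}
    (hac : a ≤ c) (hcb : c ≤ b) {E : Set (∀ g, T g)} (hE : (sub π T a b).nu E = 0) :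
    (sub π T a b).nu {z | (sub π T c b).nu (sec E c z) ≠ 0} = 0 := by
  have h1 : ∀ m : ℕ, (sub π T a b).nu
      {z | ENNReal.ofReal (2 * (1 / (m + 1))) < (sub π T c b).nu (sec E c z)} = 0 := by
    intro m
    refine le_antisymm ?_ zero_le
    refine ENNReal.le_of_forall_pos_le_add fun ε hε _ => ?_
    rw [zero_add]
    obtain ⟨δ, hδ⟩ : ∃ δ : ℝ, δ = min ((ε : ℝ) / 2) (1 / (m + 1)) := ⟨_, rfl⟩
    have hm1 : (0 : ℝ) < 1 / (m + 1) := by positivity
    have hδ0 : 0 < δ := by
      rw [hδ]
      exact lt_min (by positivity) hm1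
    have hδ1 : δ ≤ 1 := by
      rw [hδ]
      refine (min_le_right _ _).trans ?_
      rw [div_le_one (by positivity)]
      have : (0 : ℝ) ≤ m := Nat.cast_nonneg m
      linarith
    have h2 := markov_nu π hac hcb (E := E) hδ1 (by
      rw [hE]
      exact ENNReal.ofReal_pos.2 hδ0)
    calc (sub π T a b).nu {z | ENNReal.ofReal (2 * (1 / (m + 1))) < (sub π T c b).nu (sec E c z)}
        ≤ (sub π T a b).nu {z | ENNReal.ofReal (2 * δ) < (sub π T c b).nu (sec E c z)} := by
          refine (sub π T a b).nu_mono ?_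
          intro z hz
          refine lt_of_le_of_lt (ENNReal.ofReal_le_ofReal ?_) hz
          rw [hδ]
          have := min_le_right ((ε : ℝ) / 2) (1 / (m + 1))
          linarith
      _ ≤ ENNReal.ofReal (2 * δ) := h2
      _ ≤ ENNReal.ofReal (ε : ℝ) := by
          refine ENNReal.ofReal_le_ofReal ?_
          have := min_le_left ((ε : ℝ) / 2) (1 / (m + 1))
          rw [hδ]
          linarith
      _ = ε := by simp
  have h2 := (sub π T a b).nu_iUnion_null h1
  refine le_antisymm (le_trans ?_ h2.le) zero_le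
  refine (sub π T a b).nu_mono ?_
  intro z hz
  have hz' : 0 < (sub π T c b).nu (sec E c z) := pos_iff_ne_zero.2 hz
  have hlim : Tendsto (fun m : ℕ => ENNReal.ofReal (2 * (1 / ((m : ℝ) + 1)))) atTop (𝓝 0) := by
    have h3 := (tendsto_one_div_add_atTop_nhds_zero_nat (𝕜 := ℝ)).const_mul 2
    have h4 := ENNReal.tendsto_ofReal h3
    simpa using h4
  obtain ⟨m, hm⟩ := ((tendsto_order.1 hlim).2 _ hz').exists
  exact Set.mem_iUnion.2 ⟨m, hm⟩

/-- a measurable set is a null set if almost all its sections are null sets -/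
theorem null_of_sec [WellFoundedLT Γ] [∀ g, Nonempty (T g)] [∀ g, Finite (T g)] {a b c : Γ}
    (hac : a ≤ c) (hcb : c ≤ b) {E : Set (∀ g, T g)} (hE : MeasurableSet[(sub π T a b).ms] E)
    (h : (sub π T a b).nu {z | (sub π T c b).nu (sec E c z) ≠ 0} = 0) :
    (sub π T a b).nu E = 0 := by
  have hmain : ∀ k : ℕ, (sub π T a b).nu E ≤ ENNReal.ofReal (4 * (1 / 2) ^ k) := by
    intro k
    have hep := π.ep_pos k
    have hep2 : π.ep k ≤ (1 / 2) ^ k := by
      refine (π.ep_le k).trans ?_
      exact pow_le_pow_of_le_one (by norm_num) (by norm_num) (by omega)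
    have hk1 : ((1 : ℝ) / 2) ^ k ≤ 1 := pow_le_one₀ (by norm_num) (by norm_num)
    obtain ⟨δ, hδ⟩ : ∃ δ : ℝ, δ = π.ep k / 8 := ⟨_, rfl⟩
    have hδ0 : 0 < δ := by rw [hδ]; positivity
    have hδk : 8 * δ = π.ep k := by rw [hδ]; ring
    obtain ⟨A, hA, hEA⟩ := (sub π T a b).approx hE (ε := ENNReal.ofReal (δ / 2))
      (ENNReal.ofReal_pos.2 (by linarith)).ne'
    have hA' : Fsp A ∧ Dep A a b := hA
    have hEA' : (sub π T a b).nu (symmDiff E A) < ENNReal.ofReal δ := by
      refine hEA.trans_lt ?_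
      exact (ENNReal.ofReal_lt_ofReal_iff hδ0).2 (by linarith)
    have hV := markov_nu π hac hcb (E := symmDiff E A) (by linarith) hEA'
    obtain ⟨P, hP⟩ : ∃ P : Set (∀ g, T g) → Prop, P = fun Y => (sub π T c b).nu Y ≤
      ENNReal.ofReal (4 * δ) := ⟨_, rfl⟩
    obtain ⟨A', hA'def⟩ : ∃ A' : Set (∀ g, T g), A' = A ∩ {z | P (sec A c z)} := ⟨_, rfl⟩
    have hPF : Fsp {z | P (sec A c z)} := hA'.1.of_sec c P
    have hPD : Dep {z | P (sec A c z)} a c := dep_of_sec hA'.2 c P
    have hA'F : Fsp A' := by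
      have h1 := (hA'.1.compl.union hPF.compl).compl
      rwa [Set.compl_union, compl_compl, compl_compl, ← hA'def] at h1
    have hA'D : Dep A' a b := by
      have h1 := (hA'.2.compl.union (hPD.mono le_rfl hcb).compl).compl
      rwa [Set.compl_union, compl_compl, compl_compl, ← hA'def] at h1
    -- the sections of `A'`
    have hsec : ∀ u, (P (sec A c u) ∧ sec A' c u = sec A c u) ∨ sec A' c u = ∅ := by
      intro u
      by_cases hu : P (sec A c u)
      · left
        refine ⟨hu, ?_⟩
        ext z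
        rw [mem_sec, mem_sec, hA'def]
        have h1 : sec A c (mix c u z) = sec A c u := by
          ext y
          rw [mem_sec, mem_sec, mix_mix_left le_rfl]
        constructor
        · exact fun hz => hz.1
        · intro hz
          refine ⟨hz, ?_⟩
          change P (sec A c (mix c u z))
          rwa [h1]
      · right
        refine Set.eq_empty_of_forall_notMem fun z hz => ?_
        rw [mem_sec, hA'def] at hz
        have h1 : sec A c (mix c u z) = sec A c u := by
          ext y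
          rw [mem_sec, mem_sec, mix_mix_left le_rfl]
        have h2 : P (sec A c (mix c u z)) := hz.2
        rw [h1] at h2
        exact hu h2
    have hev : ∀ᶠ p in (hyperfilter ℕ : Filter ℕ), ∀ Y ∈ Set.range (sec A c), P Y →
        Cov π (p + 1 - (k + 1)) (k + 1) c b Y (π.ep k) := by
      rw [Filter.eventually_all_finite (hA'.1.finite_sec c)]
      rintro Y ⟨u, rfl⟩
      by_cases hY : P (sec A c u)
      · have h1 : mu π c b (sec A c u) < ENNReal.ofReal (π.ep k) := by
          rw [← sub_nu_eq π (hA'.1.sec c u) (hA'.2.sec c u)]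
          rw [hP] at hY
          refine lt_of_le_of_lt hY ?_
          exact (ENNReal.ofReal_lt_ofReal_iff hep).2 (by linarith)
        exact (sm_of_mu π hep2 h1).mono fun p hp _ => hp
      · exact Filter.Eventually.of_forall fun p hp => absurd hp hY
    have hSm : Sm π k a b A' ((1 / 2) ^ k) := by
      filter_upwards [hev, eventually_ge_hyper k] with p hp hkp
      have e1 : p + 1 - (k + 1) = p - k := by omega
      have e2 : p + 1 - k = (p - k) + 1 := by omega
      rw [e2]
      refine cov_F π hac hcb hA'D fun u => ?_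
      rcases hsec u with ⟨hu, hu2⟩ | hu
      · rw [hu2]
        have h1 := hp _ ⟨u, rfl⟩ hu
        rwa [e1] at h1
      · rw [hu]
        exact cov_empty π _ _ _ _ hep.le
    have hA'le : (sub π T a b).nu A' ≤ ENNReal.ofReal ((1 / 2) ^ k) := by
      rw [sub_nu_eq π hA'F hA'D]
      exact mu_le π hSm
    have hsub : E ⊆ ((symmDiff E A ∪ A') ∪
        {z | ENNReal.ofReal (2 * δ) < (sub π T c b).nu (sec (symmDiff E A) c z)}) ∪
        {z | (sub π T c b).nu (sec E c z) ≠ 0} := by
      intro z hz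
      by_cases hzA : z ∈ A
      · by_cases h1 : (sub π T c b).nu (sec E c z) = 0
        · by_cases h2 : ENNReal.ofReal (2 * δ) < (sub π T c b).nu (sec (symmDiff E A) c z)
          · exact Or.inl (Or.inr h2)
          · refine Or.inl (Or.inl (Or.inr ?_))
            rw [hA'def]
            refine ⟨hzA, ?_⟩
            change P (sec A c z)
            rw [hP]
            calc (sub π T c b).nu (sec A c z)
                ≤ (sub π T c b).nu (sec E c z ∪ sec (symmDiff E A) c z) := by
                  refine (sub π T c b).nu_mono ?_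
                  intro y hy
                  by_cases hyE : mix c z y ∈ E
                  · exact Or.inl hyE
                  · exact Or.inr (Or.inr ⟨hy, hyE⟩)
              _ ≤ (sub π T c b).nu (sec E c z) + (sub π T c b).nu (sec (symmDiff E A) c z) :=
                  (sub π T c b).nu_union_le _ _
              _ ≤ 0 + ENNReal.ofReal (2 * δ) := add_le_add h1.le (not_lt.1 h2)
              _ ≤ ENNReal.ofReal (4 * δ) := by
                  rw [zero_add]
                  exact ENNReal.ofReal_le_ofReal (by linarith)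
        · exact Or.inr h1
      · exact Or.inl (Or.inl (Or.inl (Or.inl ⟨hz, hzA⟩)))
    calc (sub π T a b).nu E
        ≤ (sub π T a b).nu (((symmDiff E A ∪ A') ∪
        {z | ENNReal.ofReal (2 * δ) < (sub π T c b).nu (sec (symmDiff E A) c z)}) ∪
        {z | (sub π T c b).nu (sec E c z) ≠ 0}) := (sub π T a b).nu_mono hsub
      _ ≤ (((sub π T a b).nu (symmDiff E A) + (sub π T a b).nu A') +
          (sub π T a b).nu
          {z | ENNReal.ofReal (2 * δ) < (sub π T c b).nu (sec (symmDiff E A) c z)}) +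
          (sub π T a b).nu {z | (sub π T c b).nu (sec E c z) ≠ 0} := by
          refine ((sub π T a b).nu_union_le _ _).trans ?_
          gcongr
          refine ((sub π T a b).nu_union_le _ _).trans ?_
          gcongr
          exact (sub π T a b).nu_union_le _ _
      _ ≤ ((ENNReal.ofReal δ + ENNReal.ofReal ((1 / 2) ^ k)) + ENNReal.ofReal (2 * δ)) + 0 := by
          rw [h]
          gcongr
      _ = ENNReal.ofReal (3 * δ + (1 / 2) ^ k) := by
          rw [add_zero, ← ENNReal.ofReal_add hδ0.le (by positivity),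
            ← ENNReal.ofReal_add (by positivity) (by positivity)]
          congr 1
          ring
      _ ≤ ENNReal.ofReal (4 * (1 / 2) ^ k) := by
          refine ENNReal.ofReal_le_ofReal ?_
          linarith
  have hlim : Tendsto (fun k : ℕ => ENNReal.ofReal (4 * (1 / 2) ^ k)) atTop (𝓝 0) := by
    have h3 := (tendsto_pow_atTop_nhds_zero_of_lt_one (r := (1 / 2 : ℝ)) (by norm_num)
      (by norm_num)).const_mul 4
    have h4 := ENNReal.tendsto_ofReal h3
    simpa using h4
  exact le_antisymm (ge_of_tendsto' hlim hmain) zero_le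

end Pool.Agent.H90.SN
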