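import Pool.Agent.H90.SN.Split

/-!
# The weight left of a point (module A2)

Proof sketch: induction on `n`, then on `Sp` (property: `w < 16 → ∃ W, …`).
* `n = 0`: `X = ∅`, `W = 0`, `V = Y = Y' = ∅`.
* `base`: induction hypothesis for `k + 1` (`π.d (k + 1) ≤ π.d k`; note `0 ≤ W c' - W c`).
* `union`: `W + W'`, `V ∪ V'`, `Y ∪ Y`, …;  `mono`: the same data.
* `elem` (parameter `j`, `wt π k j < 16`): `W c := if L c then wt π k j else 0`, where `L c` means
  `∀ i < m / 2, r i ≤ c` for an element with slots, and `g < c` for an element of the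
  second kind; `L` is monotone in `c`.  Let `a ≤ c ≤ c' ≤ b`.
  * `L c`: `V := {z | ¬ Cov π n (k + 1) c b (sec X c z) (rs π k (j + 1))}`, an element with parameter
    `j + 1` on `[a, c)` (as in the proof of `splitProp`, use `left_slots`, `left_F`,
    `splitProp`).  `Y := sec X c z`, `Y' := ∅`; `rs π k (j + 1) ≤ wt π k j * π.ep k₀ / 2 ^ 20` by
    `π.resid'`.
  * `¬ L c`, `L c'`: `V := ∅`, `Y := sec X c z`, an element with parameter `j + 1` on `[c, b)`,
    `Y' := ∅`.
  * `¬ L c'`: `V := ∅`, `Y := ∅`, `Y' := sec X c z`; `sec Y' c' z' = sec X c' (mix c z z')` is an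
    element with parameter `j + 1` on `[c', b)`.
-/

set_option autoImplicit false

namespace Pool.Agent.H90.SN

variable {Γ : Type} [LinearOrder Γ] {T : Γ → Type} (π : Par)

/-- an element is to the left or to the right of a point `c` -/
theorem elem_lr {n k : ℕ} {a b : Γ} {X : Set (∀ g, T g)} {j : ℕ}
    (h : Elm π k (Cov π n (k + 1)) a b X j) (hw : wt π k j < 16) :
    ∃ L : Γ → Prop, (∀ c c', c ≤ c' → L c → L c') ∧ ∀ c, a ≤ c → c ≤ b →
      (L c → Elm π k (Cov π n (k + 1)) a c
        {z | ¬ Cov π n (k + 1) c b (sec X c z) (rs π k (j + 1))} (j + 1)) ∧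
      (¬ L c → ∀ z, Elm π k (Cov π n (k + 1)) c b (sec X c z) (j + 1)) := by
  have hres := π.resid k j hw
  have hrs : rs π k j < 16 := by
    have h1 : rs π k (j + 1) < 16 := by
      have h2 : wt π k j / 2 ^ (2 * k + 20) ≤ wt π k j :=
        div_le_self (wt_pos π k j).le (one_le_pow₀ (by norm_num))
      exact (hres.trans h2).trans_lt hw
    rw [rs_succ] at h1
    have := rs_pos π k j
    linarith
  obtain ⟨hX, h⟩ := h
  rcases h with ⟨m, l, r, hN, hs, he⟩ | ⟨g, h1, h2, h3⟩
  · have hm : 1000 ≤ m := by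
      have h1 := π.slots k j m hw hN
      have h2 : 1 ≤ 2 ^ (k + 4) := Nat.one_le_two_pow
      omega
    refine ⟨fun c => ∀ i < m / 2, r i ≤ c, fun c c' hcc h i hi => (h i hi).trans hcc, ?_⟩
    intro c hac hcb
    constructor
    · intro hL
      refine ⟨dep_of_sec hX c (fun Z => ¬ Cov π n (k + 1) c b Z (rs π k (j + 1))),
        Or.inl ⟨m / 2, l, r, ?_, ?_, ?_⟩⟩
      · refine hN.trans ?_
        rw [pow_succ, mul_assoc]
        exact Nat.mul_le_mul_left _ (by omega)
      · refine ⟨fun i hi => ⟨(hs.1 i (by omega)).1, (hs.1 i (by omega)).2.1, hL i hi⟩, ?_⟩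
        intro i i' hii hi'
        exact hs.2 i i' hii (by omega)
      · rw [rs_succ]
        refine left_slots π (splitProp π n (k + 1)) hcb hrs
          (fun i hi => ⟨(hs.1 i (by omega)).2.1, hL i hi⟩) ?_
        intro i hi
        exact he i (by omega)
    · intro hL z
      push Not at hL
      obtain ⟨i, hi, hic⟩ := hL
      have hcl : ∀ i' < m - m / 2, c ≤ l (m / 2 + i') := by
        intro i' hi'
        exact hic.le.trans (hs.2 i (m / 2 + i') (by omega) (by omega))
      refine ⟨hX.sec c z, Or.inl ⟨m - m / 2, fun i => l (m / 2 + i), fun i => r (m / 2 + i),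
        ?_, ?_, ?_⟩⟩
      · refine hN.trans ?_
        rw [pow_succ, mul_assoc]
        exact Nat.mul_le_mul_left _ (by omega)
      · have hb := hs.block (m / 2) (m - m / 2) (by omega)
        exact ⟨fun i hi => ⟨hcl i hi, (hb.1 i hi).2⟩, hb.2⟩
      · have hb := hs.block (m / 2) (m - m / 2) (by omega)
        have := (he.block (m / 2) (m - m / 2) (by omega)).sec z hcl (fun i hi => (hb.1 i hi).2.1)
        intro i hi u
        obtain ⟨D, hD, hDl, hv⟩ := this i hi u
        refine ⟨D, hD, hDl, fun v hvD => cov_mono π (hv v hvD) subset_rfl ?_⟩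
        rw [rs_succ]
        have := rs_pos π k j
        linarith
  · refine ⟨fun c => g < c, fun c c' hcc h => lt_of_lt_of_le h hcc, ?_⟩
    intro c hac hcb
    constructor
    · intro hL
      refine ⟨dep_of_sec hX c (fun Z => ¬ Cov π n (k + 1) c b Z (rs π k (j + 1))),
        Or.inr ⟨g, h1, hL.le, ?_⟩⟩
      rw [rs_succ]
      exact left_F π (splitProp π n (k + 1)) hL.le hcb hrs h3
    · intro hL z
      refine ⟨hX.sec c z, Or.inr ⟨g, not_lt.1 hL, h2, fun u => ?_⟩⟩
      rw [sec_sec (not_lt.1 hL)]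
      refine cov_mono π (h3 _) subset_rfl ?_
      rw [rs_succ]
      have := rs_pos π k j
      linarith

/-- The function `W` counts the weight of the elements of a cover which are to the left of `c`. -/
theorem grow {n k k₀ : ℕ} (hk : k₀ < k) {a b : Γ} {X : Set (∀ g, T g)} {w : ℝ}
    (h : Cov π n k a b X w) (hw : w < 16) :
    ∃ W : Γ → ℝ, Monotone W ∧ (∀ c, 0 ≤ W c) ∧ (∀ c, W c ≤ w) ∧
      ∀ c, a ≤ c → c ≤ b → ∃ V, Dep V a c ∧ Cov π n k a c V ((1 + π.d k) * W c) ∧
        ∀ c', c ≤ c' → c' ≤ b → ∀ z ∉ V, ∃ Y Y', sec X c z ⊆ Y ∪ Y' ∧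
          Cov π n k c b Y (w * π.ep k₀ / 2 ^ 20 + (1 + π.d k) * (W c' - W c)) ∧
          ∀ z', Cov π n k c' b (sec Y' c' z') ((1 + π.d k) * w) := by
  induction n generalizing k X w with
  | zero =>
    have hd := π.d_pos k
    have he := π.ep_pos k₀
    obtain ⟨rfl, h0⟩ := h
    refine ⟨fun _ => 0, fun _ _ _ => le_rfl, fun _ => le_rfl, fun _ => h0, fun c _ _ =>
      ⟨∅, dep_empty a c, ⟨rfl, by simp⟩, fun c' _ _ z _ => ⟨∅, ∅, ?_, ⟨rfl, ?_⟩, fun z' =>
        ⟨sec_empty c' z', by positivity⟩⟩⟩⟩
    · rw [sec_empty]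
      exact Set.empty_subset _
    · simp only [sub_self, mul_zero, add_zero]
      positivity
  | succ n ih =>
    have hd := π.d_pos k
    have hd' := π.d_pos (k + 1)
    have hda := π.d_anti k
    have he := π.ep_pos k₀
    change Sp _ _ _ _ at h
    induction h with
    | @base X w h =>
      obtain ⟨W, hm, h0, h1, hc⟩ := ih (Nat.lt_succ_of_lt hk) h hw
      have hw0 : 0 ≤ w := cov_nonneg π h
      refine ⟨W, hm, h0, h1, fun c hac hcb => ?_⟩
      obtain ⟨V, hV, hVc, h2⟩ := hc c hac hcb
      refine ⟨V, hV, cov_mono π (cov_succ π hVc) subset_rfl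
        (mul_le_mul_of_nonneg_right (by linarith) (h0 c)), fun c' hcc hcb' z hz => ?_⟩
      obtain ⟨Y, Y', h3, h4, h5⟩ := h2 c' hcc hcb' z hz
      refine ⟨Y, Y', h3, cov_mono π (cov_succ π h4) subset_rfl ?_, fun z' =>
        cov_mono π (cov_succ π (h5 z')) subset_rfl (mul_le_mul_of_nonneg_right (by linarith) hw0)⟩
      have h6 : 0 ≤ W c' - W c := sub_nonneg.2 (hm hcc)
      have := mul_le_mul_of_nonneg_right (show 1 + π.d (k + 1) ≤ 1 + π.d k by linarith) h6
      linarith
    | @elem X w h =>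
      obtain ⟨j, rfl, h⟩ := h
      obtain ⟨L, hLm, hL⟩ := elem_lr π h hw
      have hwp := wt_pos π k j
      have hrs : rs π k (j + 1) ≤ wt π k j * π.ep k₀ / 2 ^ 20 := π.resid' k₀ k j hk hw
      obtain ⟨W, hW1, hW0⟩ : ∃ W : Γ → ℝ, (∀ c, L c → W c = wt π k j) ∧ ∀ c, ¬ L c → W c = 0 := by
        classical
        exact ⟨fun c => if L c then wt π k j else 0, fun c h => if_pos h, fun c h => if_neg h⟩
      refine ⟨W, ?_, ?_, ?_, ?_⟩
      · intro c c' hcc
        by_cases h1 : L c
        · rw [hW1 _ h1, hW1 _ (hLm c c' hcc h1)]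
        · rw [hW0 _ h1]
          by_cases h2 : L c'
          · rw [hW1 _ h2]
            exact hwp.le
          · rw [hW0 _ h2]
      · intro c
        by_cases h1 : L c
        · rw [hW1 _ h1]
          exact hwp.le
        · rw [hW0 _ h1]
      · intro c
        by_cases h1 : L c
        · rw [hW1 _ h1]
        · rw [hW0 _ h1]
          exact hwp.le
      · intro c hac hcb
        by_cases h1 : L c
        · have hE := (hL c hac hcb).1 h1
          refine ⟨_, hE.1, ?_, fun c' hcc hcb' z hz => ?_⟩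
          · rw [hW1 _ h1, ← wt_succ]
            exact cov_elem π hE
          · rw [hW1 _ h1, hW1 _ (hLm c c' hcc h1)]
            have hz' : Cov π n (k + 1) c b (sec X c z) (rs π k (j + 1)) := not_not.1 hz
            refine ⟨sec X c z, ∅, Set.subset_union_left,
              cov_mono π (cov_succ π hz') subset_rfl (by linarith), fun z' => ?_⟩
            rw [sec_empty]
            exact cov_empty π _ _ _ _ (by positivity)
        · refine ⟨∅, dep_empty a c, ?_, fun c' hcc hcb' z hz => ?_⟩
          · exact cov_empty π _ _ _ _ (by rw [hW0 _ h1, mul_zero])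
          · rw [hW0 _ h1]
            by_cases h2 : L c'
            · rw [hW1 _ h2, sub_zero, ← wt_succ]
              refine ⟨sec X c z, ∅, Set.subset_union_left,
                cov_mono π (cov_elem π ((hL c hac hcb).2 h1 z)) subset_rfl ?_, fun z' => ?_⟩
              · have : 0 ≤ wt π k j * π.ep k₀ / 2 ^ 20 := by positivity
                linarith
              · rw [sec_empty]
                exact cov_empty π _ _ _ _ (wt_pos π k (j + 1)).le
            · rw [hW0 _ h2]
              refine ⟨∅, sec X c z, Set.subset_union_right, cov_empty π _ _ _ _ ?_,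
                fun z' => ?_⟩
              · have : 0 ≤ wt π k j * π.ep k₀ / 2 ^ 20 := by positivity
                linarith
              · rw [sec_sec hcc, ← wt_succ]
                exact cov_elem π ((hL c' (hac.trans hcc) hcb').2 h2 _)
    | @union X Y w v h h' ih₁ ih₂ =>
      have hw0 := cov_nonneg π (n := n + 1) (k := k) (a := a) (b := b) h
      have hv0 := cov_nonneg π (n := n + 1) (k := k) (a := a) (b := b) h'
      obtain ⟨W, hm, h0, h1, hc⟩ := ih₁ (by linarith)
      obtain ⟨W', hm', h0', h1', hc'⟩ := ih₂ (by linarith)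
      refine ⟨fun c => W c + W' c, fun c c' h => add_le_add (hm h) (hm' h),
        fun c => add_nonneg (h0 c) (h0' c), fun c => add_le_add (h1 c) (h1' c),
        fun c hac hcb => ?_⟩
      obtain ⟨V, hV, hVc, h2⟩ := hc c hac hcb
      obtain ⟨V', hV', hVc', h2'⟩ := hc' c hac hcb
      refine ⟨V ∪ V', hV.union hV', ?_, fun c' hcc hcb' z hz => ?_⟩
      · rw [mul_add]
        exact cov_union π hVc hVc'
      · obtain ⟨Y₁, Y₁', h3, h4, h5⟩ := h2 c' hcc hcb' z (fun h => hz (Or.inl h))
        obtain ⟨Y₂, Y₂', h3', h4', h5'⟩ := h2' c' hcc hcb' z (fun h => hz (Or.inr h))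
        refine ⟨Y₁ ∪ Y₂, Y₁' ∪ Y₂', ?_, ?_, fun z' => ?_⟩
        · rw [sec_union]
          intro x hx
          rcases hx with hx | hx
          · rcases h3 hx with hx | hx
            · exact Or.inl (Or.inl hx)
            · exact Or.inr (Or.inl hx)
          · rcases h3' hx with hx | hx
            · exact Or.inl (Or.inr hx)
            · exact Or.inr (Or.inr hx)
        · refine cov_mono π (cov_union π h4 h4') subset_rfl (le_of_eq ?_)
          ring
        · rw [sec_union, mul_add]
          exact cov_union π (h5 z') (h5' z')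
    | @mono X Y w v h hY hv ih₁ =>
      have hw0 := cov_nonneg π (n := n + 1) (k := k) (a := a) (b := b) h
      obtain ⟨W, hm, h0, h1, hc⟩ := ih₁ (by linarith)
      refine ⟨W, hm, h0, fun c => (h1 c).trans hv, fun c hac hcb => ?_⟩
      obtain ⟨V, hV, hVc, h2⟩ := hc c hac hcb
      refine ⟨V, hV, hVc, fun c' hcc hcb' z hz => ?_⟩
      obtain ⟨Y₁, Y₁', h3, h4, h5⟩ := h2 c' hcc hcb' z hz
      refine ⟨Y₁, Y₁', (sec_mono hY c z).trans h3, cov_mono π h4 subset_rfl ?_, fun z' =>
        cov_mono π (h5 z') subset_rfl (mul_le_mul_of_nonneg_left hv (by linarith))⟩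
      have : w * π.ep k₀ / 2 ^ 20 ≤ v * π.ep k₀ / 2 ^ 20 := by gcongr
      linarith

end Pool.Agent.H90.SN
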