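import Pool.Agent.H90.SN.Main
import Pool.Agent.H90.SN.Grow

/-!
# The step of the construction of the slots, finite version (module A5)

Proof sketch.  Take `W` from `grow` (for the classes from `k + 1` on, `k₀ = k`).  Let
`h ≤ c ≤ c' ≤ b`, `W c' - W c ≤ π.ep k / 8`, and let `V` be the set for `c`; `D := Vᶜ`.
* `D` is large: otherwise `univ = D ∪ V` has weight less than `1 + (1 + d) * 1 < 12` on `[h, c)`,
  contradicting `main` (`π.c_lo`).
* Let `A ⊆ X` with `Dep A h c'`, and `v ∈ D`; `sec A c v ⊆ sec X c v ⊆ Y ∪ Y'`.  The weight of `Y` is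
  `y := w * ep k / 2 ^ 20 + (1 + d) * (ep k / 8) < 1`.  Split `Y` at `c'`: `V'` with `Dep V' c c'`,
  weight `(1 + d) * y ≤ ep k` on `[c, c')`, and so on `[c, b)`.  Claim `sec A c v ⊆ V'`: if
  `z' ∈ sec A c v`, `z' ∉ V'`, then, as `A` depends on the coordinates in `[h, c')` only,
  `sec (sec A c v) c' z' = univ`, which is contained in `sec Y c' z' ∪ sec Y' c' z'`, of weight less
  than `4` on `[c', b)`: contradiction with `main`.
-/

set_option autoImplicit false

namespace Pool.Agent.H90.SN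

variable {Γ : Type} [LinearOrder Γ] {T : Γ → Type} (π : Par)

theorem gfin [∀ g, Nonempty (T g)] {n k : ℕ} {h b : Γ} {X : Set (∀ g, T g)} {w : ℝ}
    (hX : Cov π n (k + 1) h b X w) (hw : w ≤ 1) :
    ∃ W : Γ → ℝ, Monotone W ∧ (∀ c, 0 ≤ W c ∧ W c ≤ 1) ∧
      ∀ c c', h ≤ c → c ≤ c' → c' ≤ b → W c' - W c ≤ π.ep k / 8 →
        ∃ D, Dep D h c ∧ Large (Cov π n (k + 1)) h c D ∧
          ∀ A, A ⊆ X → Dep A h c' → ∀ v ∈ D, Cov π n (k + 1) c b (sec A c v) (π.ep k) := by
  have hd := π.d_pos (k + 1)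
  have hd1 := π.d_le (k + 1)
  have he := π.ep_pos k
  have hc12 := π.c_lo (k + 1)
  have he1 : π.ep k ≤ 1 := (π.ep_le k).trans (pow_le_one₀ (by norm_num) (by norm_num))
  have hw0 : 0 ≤ w := cov_nonneg π hX
  obtain ⟨W, hm, h0, h1, hc⟩ := grow π (Nat.lt_succ_self k) hX (by linarith)
  refine ⟨W, hm, fun c => ⟨h0 c, (h1 c).trans hw⟩, fun c c' hhc hcc hcb hW => ?_⟩
  obtain ⟨V, hV, hVc, h2⟩ := hc c hhc (hcc.trans hcb)
  have hWc : W c ≤ 1 := (h1 c).trans hw
  have hWn : 0 ≤ W c' - W c := sub_nonneg.2 (hm hcc)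
  refine ⟨Vᶜ, hV.compl, ?_, ?_⟩
  · intro w₁ hw₁ hD
    have h3 := cov_union π hD hVc
    rw [Set.compl_union_self] at h3
    have h4 := main π h3
    have h5 : (1 + π.d (k + 1)) * W c ≤ (1 + 1 / 100) * 1 :=
      mul_le_mul (by linarith) hWc (h0 c) (by norm_num)
    linarith
  · intro A hAX hA v hv
    obtain ⟨Y, Y', hYY, hY, hY'⟩ := h2 c' hcc hcb v hv
    have hy0 := cov_nonneg π hY
    have hy1 : w * π.ep k / 2 ^ 20 + (1 + π.d (k + 1)) * (W c' - W c) ≤ π.ep k / 4 := by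
      have h3 : w * π.ep k / 2 ^ 20 ≤ 1 * π.ep k / 2 ^ 20 := by gcongr
      have h4 : (1 + π.d (k + 1)) * (W c' - W c) ≤ (1 + 1 / 100) * (π.ep k / 8) :=
        mul_le_mul (by linarith) hW hWn (by norm_num)
      have h5 : 1 * π.ep k / 2 ^ 20 ≤ π.ep k / 100 := by
        rw [one_mul]
        exact div_le_div_of_nonneg_left he.le (by norm_num) (by norm_num)
      linarith
    generalize w * π.ep k / 2 ^ 20 + (1 + π.d (k + 1)) * (W c' - W c) = y at hY hy0 hy1
    have hy2 : (1 + π.d (k + 1)) * y ≤ π.ep k := by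
      have : (1 + π.d (k + 1)) * y ≤ (1 + 1 / 100) * (π.ep k / 4) :=
        mul_le_mul (by linarith) hy1 hy0 (by norm_num)
      linarith
    obtain ⟨V', hV', hV'c, hV'z⟩ := split π hcc hcb hY (by linarith)
    refine cov_mono π (cov_interval π hV'c le_rfl hcb) ?_ hy2
    intro z' hz'
    by_contra hzV
    have h3 : (Set.univ : Set (∀ g, T g)) ⊆ sec Y c' z' ∪ sec Y' c' z' := by
      intro z _
      have h4 : mix c' z' z ∈ sec A c v := by
        rw [mem_sec] at hz' ⊢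
        refine (hA _ _ fun g hg1 hg2 => ?_).1 hz'
        simp only [mix, hg2, if_true]
      exact hYY (sec_mono hAX c v h4)
    have h5 := cov_mono π (cov_union π (hV'z z' hzV) (hY' z')) h3 le_rfl
    have h6 := main π h5
    have h7 : (1 + π.d (k + 1)) * w ≤ (1 + 1 / 100) * 1 :=
      mul_le_mul (by linarith) hw hw0 (by norm_num)
    linarith

end Pool.Agent.H90.SN
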