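import Pool.Agent.H90.SN.GenSp

/-!
# Deciding measurable sets of filters (module E2b)

* `decide_meas`: let `P X` say that for all `p` there is `q ≤ p` such that (almost all `G ∋ q` are in
  `X`) or (almost all `G ∋ q` are not in `X`).  `P` holds for `{G | r ∈ G}` (if `p`, `r` are
  compatible, `q ≤ p, r`; otherwise `q = p`, two members of a filter are compatible), is closed under
  complements, and under countable unions `⋃ n, X n`: if some `q ≤ p` decides some `X n`
  positively, fine.  Otherwise for every `n` the set `D n` of all `q` which are incompatible with `p` or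
  decide `X n` negatively is predense (for `r` compatible with `p` take `r' ≤ r, p` and decide
  `X n` below `r'`), so it has a countable predense subset `A n`; almost all `G ∋ p` are filters which
  meet all `A n`, so they are not in any `X n` (countably many exceptional sets).
* `exists_force`: otherwise the set of all `q` deciding `X` negatively is predense, take a
  countable predense subset.
* `gl_ccc`: choose `q i` with almost all `G ∋ q i` in `E i`; two of them are compatible; use
  `gl_frequently`.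
* `exists_decide`: let `D` be the set of all `q` such that for some `v`, `f G = v` for almost all
  `G ∋ q`.  It is predense: for `p`, the set `{G | p ∈ G ∧ f G = v}` is not null for some `v`
  (`gl_frequently`, countable union), use `exists_force`.  Take a countable predense subset
  (`exists_countable`) and enumerate it.
-/

set_option autoImplicit false

open Filter MeasureTheory

namespace Pool.Agent.H90.SN

variable {H : Type} [Preorder H]

theorem compat_of_mem {G : Set H} (hG : IsFilt G) {p q : H} (hp : p ∈ G) (hq : q ∈ G) :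
    Compat p q := by
  obtain ⟨r, _, h1, h2⟩ := hG.dir p hp q hq
  exact ⟨r, h1, h2⟩

theorem eventually_ball_mem {A : Set H} (hA : A.Countable) {Q : H → Set H → Prop}
    (h : ∀ q ∈ A, ∀ᶠ G in gl H, Q q G) : ∀ᶠ G in gl H, ∀ q ∈ A, Q q G :=
  (eventually_countable_ball hA).2 h

theorem decide_meas (hH : IsCcc H) {X : Set (Set H)} (hX : MeasurableSet[gms H] X) (p : H) :
    ∃ q ≤ p, (∀ᶠ G in gl H, q ∈ G → G ∈ X) ∨ (∀ᶠ G in gl H, q ∈ G → G ∉ X) := by
  induction hX generalizing p with
  | basic Y hY =>
    obtain ⟨r, rfl⟩ := hY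
    by_cases h : Compat p r
    · obtain ⟨q, hqp, hqr⟩ := h
      refine ⟨q, hqp, Or.inl ?_⟩
      filter_upwards [eventually_filt (H := H)] with G hG hq
      exact hG.up q hq r hqr
    · refine ⟨p, le_rfl, Or.inr ?_⟩
      filter_upwards [eventually_filt (H := H)] with G hG hp hr
      exact h (compat_of_mem hG hp hr)
  | empty =>
    exact ⟨p, le_rfl, Or.inr (Eventually.of_forall fun G _ h => h)⟩
  | compl Y _ ih =>
    obtain ⟨q, hqp, h⟩ := ih p
    refine ⟨q, hqp, ?_⟩
    rcases h with h | h
    · refine Or.inr ?_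
      filter_upwards [h] with G hG hq hn
      exact hn (hG hq)
    · refine Or.inl ?_
      filter_upwards [h] with G hG hq
      exact hG hq
  | iUnion X _ ih =>
    by_cases hpos : ∃ q ≤ p, ∃ n, ∀ᶠ G in gl H, q ∈ G → G ∈ X n
    · obtain ⟨q, hqp, n, h⟩ := hpos
      refine ⟨q, hqp, Or.inl ?_⟩
      filter_upwards [h] with G hG hq
      exact Set.mem_iUnion.2 ⟨n, hG hq⟩
    · have hpos' : ∀ q ≤ p, ∀ n, ¬ ∀ᶠ G in gl H, q ∈ G → G ∈ X n :=
        fun q hq n h => hpos ⟨q, hq, n, h⟩
      have hpre : ∀ n, Predense {q : H | ¬ Compat q p ∨ ∀ᶠ G in gl H, q ∈ G → G ∉ X n} := by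
        intro n r
        by_cases hr : Compat r p
        · obtain ⟨r', h1, h2⟩ := hr
          obtain ⟨q, hq, h⟩ := ih n r'
          refine ⟨q, ?_, q, hq.trans h1, le_rfl⟩
          rcases h with h | h
          · exact absurd h (hpos' q (hq.trans h2) n)
          · exact Or.inr h
        · exact ⟨r, Or.inl hr, r, le_rfl, le_rfl⟩
      choose A hA1 hA2 hA3 using fun n => exists_countable hH (hpre n)
      refine ⟨p, le_rfl, Or.inr ?_⟩
      have h1 : ∀ᶠ G in gl H, ∀ n, (G ∩ A n).Nonempty :=
        eventually_countable_forall.2 fun n => eventually_meets (hA3 n)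
      have h2 : ∀ᶠ G in gl H, ∀ n, ∀ q ∈ A n, Compat q p → q ∈ G → G ∉ X n := by
        refine eventually_countable_forall.2 fun n => eventually_ball_mem (hA2 n) fun q hq => ?_
        rcases hA1 n hq with h | h
        · exact Eventually.of_forall fun G hc => absurd hc h
        · filter_upwards [h] with G hG _
          exact hG
      filter_upwards [h1, h2, eventually_filt (H := H)] with G g1 g2 hG hp hn
      obtain ⟨n, hn⟩ := Set.mem_iUnion.1 hn
      obtain ⟨q, hqG, hqA⟩ := g1 n
      exact g2 n q hqA (compat_of_mem hG hqG hp) hqG hn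

theorem exists_force (hH : IsCcc H) {X : Set (Set H)} (hX : MeasurableSet[gms H] X)
    (h : ∃ᶠ G in gl H, G ∈ X) : ∃ q, ∀ᶠ G in gl H, q ∈ G → G ∈ X := by
  by_contra hcon
  have hcon' : ∀ q, ¬ ∀ᶠ G in gl H, q ∈ G → G ∈ X := fun q h => hcon ⟨q, h⟩
  have hpre : Predense {q : H | ∀ᶠ G in gl H, q ∈ G → G ∉ X} := by
    intro p
    obtain ⟨q, hqp, hq⟩ := decide_meas hH hX p
    refine ⟨q, ?_, q, hqp, le_rfl⟩
    rcases hq with hq | hq
    · exact absurd hq (hcon' q)
    · exact hq
  obtain ⟨A, hA1, hA2, hA3⟩ := exists_countable hH hpre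
  refine h ?_
  filter_upwards [eventually_meets hA3, eventually_ball_mem hA2 hA1] with G g1 g2 hG
  obtain ⟨q, hqG, hqA⟩ := g1
  exact g2 q hqA hqG hG

theorem gl_ccc (hH : IsCcc H) (E : Om → Set (Set H)) (hE : ∀ i, MeasurableSet[gms H] (E i))
    (h : ∀ i, ∃ᶠ G in gl H, G ∈ E i) : ∃ i j, i ≠ j ∧ ∃ᶠ G in gl H, G ∈ E i ∩ E j := by
  choose q hq using fun i => exists_force hH (hE i) (h i)
  obtain ⟨i, j, hij, r, hri, hrj⟩ := hH q
  refine ⟨i, j, hij, ?_⟩
  refine (gl_frequently r).mp ?_
  filter_upwards [hq i, hq j, eventually_filt (H := H)] with G h1 h2 hG hr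
  exact ⟨h1 (hG.up r hr _ hri), h2 (hG.up r hr _ hrj)⟩

/-- a measurable function to `ℕ` is decided by a countable predense family -/
theorem exists_decide (hH : IsCcc H) [Nonempty H] {f : Set H → ℕ} (hf : Measurable[gms H] f) :
    ∃ (q : ℕ → H) (v : ℕ → ℕ), Predense (Set.range q) ∧
      ∀ i, ∀ᶠ G in gl H, q i ∈ G → f G = v i := by
  have hpre : Predense {q : H | ∃ v, ∀ᶠ G in gl H, q ∈ G → f G = v} := by
    intro p
    have h1 : ∃ v, ∃ᶠ G in gl H, p ∈ G ∧ f G = v := by
      by_contra hcon
      have h2 : ∀ᶠ G in gl H, ∀ v, ¬ (p ∈ G ∧ f G = v) :=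
        eventually_countable_forall.2 fun v => not_frequently.1 fun h => hcon ⟨v, h⟩
      refine gl_frequently p ?_
      filter_upwards [h2] with G hG hp
      exact hG (f G) ⟨hp, rfl⟩
    obtain ⟨v, hv⟩ := h1
    have hm : MeasurableSet[gms H] ({G : Set H | p ∈ G} ∩ f ⁻¹' {v}) :=
      @MeasurableSet.inter _ (gms H) _ _ (measurableSet_mem p) (hf (measurableSet_singleton v))
    obtain ⟨q, hq⟩ := exists_force hH hm hv
    refine ⟨q, ⟨v, ?_⟩, ?_⟩
    · filter_upwards [hq] with G hG h
      exact (hG h).2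
    · obtain ⟨G, h1, h2, hG⟩ := ((gl_frequently q).and_eventually
        (hq.and (eventually_filt (H := H)))).exists
      exact compat_of_mem hG (h2 h1).1 h1
  obtain ⟨A, hA1, hA2, hA3⟩ := exists_countable hH hpre
  have hne : A.Nonempty := by
    obtain ⟨q, hq, _⟩ := hA3 (Classical.arbitrary H)
    exact ⟨q, hq⟩
  obtain ⟨q, rfl⟩ := hA2.exists_eq_range hne
  choose v hv using fun i => hA1 ⟨i, rfl⟩
  exact ⟨q, v, hA3, hv⟩

end Pool.Agent.H90.SN
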