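import Pool.Agent.H90.SN.Sm
import Pool.Agent.H90.SN.GFin

/-!
# Finding large sets of escapes (module B2)

Proof sketch of `goodStep`.  Let `Q p r` say that `⋃ i ≤ r, A i` has a cover of weight `< 1` by the
classes `k + 1, …, p` on `[h, b)`.

Case 1: there is `r` such that `Q p r` fails for almost all `p`.  (Negation, by `Ultrafilter`: for
all `r`, `Q p r` for almost all `p`.)  Then `n₀ := r + 1`: for `n ≥ n₀`, `i ≥ n` take
`D = ⋃ j ≤ r, A j`; it is large on `[h, b)`, so on `[h, g n)` (`Large.interval`), it depends on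
`[h, g r)`, and for `v ∈ D` the section `sec (A i) (g n) v` is empty: if `mix (g n) v z ∈ A i`, then,
as `mix (g n) v z ∈ D` too (`Dep.mem_mix`), the sets `A i`, `A j` (`j ≤ r < i`) are not disjoint.

Case 2: for all `r`, `Q p r` holds for almost all `p`.  Let `R p` be the greatest `r ≤ p` with
`Q p r` (`Nat.findGreatest`); for every `r`, for almost all `p`, `r ≤ R p` and `Q p (R p)`
(`Q p` is antitone).  If `Q p (R p)`, apply `gfin` to `⋃ i ≤ R p, A i` (with `n := p - k`): this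
gives `W p : Γ → ℝ`.  Let `L n := lim W p (g n)` along the ultrafilter (it exists as
`0 ≤ W p (g n) ≤ 1`).  `L` is monotone and bounded, so there is `n₀` with
`L m - L n < π.ep k / 16` for `n₀ ≤ n ≤ m`.  For `n₀ ≤ n ≤ i`, for almost all `p`:
`W p (g i) - W p (g n) ≤ π.ep k / 8`, `i ≤ R p`, `Q p (R p)`, so `gfin` with `c = g n`, `c' = g i`,
`A = A i` gives what we want.
-/

set_option autoImplicit false

open Filter ENNReal Topology

namespace Pool.Agent.H90.SN

variable {Γ : Type} [LinearOrder Γ] {T : Γ → Type} (π : Par)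

/-- for almost all `p` there is a large set on `[h, c)` such that the sections of `A` at its points
are very small -/
def Good (k : ℕ) (h c b : Γ) (A : Set (∀ g, T g)) : Prop :=
  ∀ᶠ p in (hyperfilter ℕ : Filter ℕ), ∃ D, Dep D h c ∧ Large (Cov π (p - k) (k + 1)) h c D ∧
    ∀ v ∈ D, Cov π (p - k) (k + 1) c b (sec A c v) (π.ep k)

theorem goodStep [∀ g, Nonempty (T g)] (k : ℕ) {h b : Γ} {g : ℕ → Γ} (hg : Monotone g)
    (hh : ∀ n, h ≤ g n) (hb : ∀ n, g n ≤ b) {A : ℕ → Set (∀ g, T g)}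
    (hA : ∀ i, Dep (A i) h (g i)) (hdis : Pairwise (Function.onFun Disjoint A)) :
    ∃ n₀, ∀ n ≥ n₀, ∀ i ≥ n, Good π k h (g n) b (A i) := by
  classical
  have hep := π.ep_pos k
  let U : ℕ → Set (∀ g, T g) := fun r => ⋃ i ≤ r, A i
  let Q : ℕ → ℕ → Prop := fun p r => ∃ w < (1 : ℝ), Cov π (p - k) (k + 1) h b (U r) w
  by_cases hQ : ∀ r, ∀ᶠ p in (hyperfilter ℕ : Filter ℕ), Q p r
  · -- Case 2
    let R : ℕ → ℕ := fun p => Nat.findGreatest (Q p) p
    have hW : ∀ p, ∃ W : Γ → ℝ, Monotone W ∧ (∀ c, 0 ≤ W c ∧ W c ≤ 1) ∧ (Q p (R p) →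
        ∀ c c', h ≤ c → c ≤ c' → c' ≤ b → W c' - W c ≤ π.ep k / 8 →
        ∃ D, Dep D h c ∧ Large (Cov π (p - k) (k + 1)) h c D ∧
          ∀ A, A ⊆ U (R p) → Dep A h c' → ∀ v ∈ D,
            Cov π (p - k) (k + 1) c b (sec A c v) (π.ep k)) := by
      intro p
      by_cases hp : Q p (R p)
      · obtain ⟨w, hw, hc⟩ := hp
        obtain ⟨W, h1, h2, h3⟩ := gfin π hc hw.le
        exact ⟨W, h1, h2, fun _ => h3⟩
      · exact ⟨fun _ => 0, monotone_const, fun _ => ⟨le_rfl, zero_le_one⟩, fun h => absurd h hp⟩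
    choose W hWm hW01 hWs using hW
    have hL : ∀ n, ∃ x ∈ Set.Icc (0 : ℝ) 1,
        Tendsto (fun p => W p (g n)) (hyperfilter ℕ : Filter ℕ) (𝓝 x) := by
      intro n
      have h1 : (((hyperfilter ℕ).map fun p => W p (g n) : Ultrafilter ℝ) : Filter ℝ) ≤
          𝓟 (Set.Icc (0 : ℝ) 1) := by
        rw [le_principal_iff, Ultrafilter.coe_map, mem_map]
        exact Eventually.of_forall fun p => ⟨(hW01 p _).1, (hW01 p _).2⟩
      obtain ⟨x, hx, hx'⟩ := isCompact_Icc.ultrafilter_le_nhds _ h1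
      exact ⟨x, hx, hx'⟩
    choose L hL01 hLt using hL
    have hLm : Monotone L := fun n m hnm =>
      le_of_tendsto_of_tendsto' (hLt n) (hLt m) fun p => hWm p (hg hnm)
    have hbd : BddAbove (Set.range L) := ⟨1, by rintro _ ⟨n, rfl⟩; exact (hL01 n).2⟩
    obtain ⟨n₀, hn₀⟩ : ∃ n₀, (⨆ n, L n) - π.ep k / 16 < L n₀ :=
      exists_lt_of_lt_ciSup (by linarith)
    refine ⟨n₀, fun n hn i hi => ?_⟩
    have h1 : L i - L n < π.ep k / 8 := by
      have h2 := le_ciSup hbd i
      have h3 := hLm hn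
      linarith
    have h2 : ∀ᶠ p in (hyperfilter ℕ : Filter ℕ), W p (g i) - W p (g n) < π.ep k / 8 :=
      ((hLt i).sub (hLt n)).eventually (gt_mem_nhds h1)
    filter_upwards [h2, hQ i, eventually_ge_hyper i] with p hp1 hp2 hp3
    have h3 : i ≤ R p := Nat.le_findGreatest hp3 hp2
    have h4 : Q p (R p) := Nat.findGreatest_spec hp3 hp2
    obtain ⟨D, hD1, hD2, hD3⟩ := hWs p h4 (g n) (g i) (hh n) (hg hi) (hb i) hp1.le
    exact ⟨D, hD1, hD2, hD3 (A i) (Set.subset_biUnion_of_mem (u := A) h3) (hA i)⟩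
  · -- Case 1
    push Not at hQ
    obtain ⟨r, hr⟩ := hQ
    refine ⟨r + 1, fun n hn i hi => ?_⟩
    have hr' : ∀ᶠ p in (hyperfilter ℕ : Filter ℕ), ¬ Q p r :=
      Ultrafilter.eventually_not.2 (by simpa using hr)
    filter_upwards [hr'] with p hp
    refine ⟨U r, ?_, ?_, ?_⟩
    · intro z z' hz
      simp only [U, Set.mem_iUnion, exists_prop]
      refine exists_congr fun j => and_congr_right fun hj => ?_
      exact ((hA j).mono le_rfl (hg (by omega))) z z' hz
    · intro w hw hc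
      exact hp ⟨w, hw, cov_interval π hc le_rfl (hb n)⟩
    · intro v hv
      simp only [U, Set.mem_iUnion, exists_prop] at hv
      obtain ⟨j, hj, hvj⟩ := hv
      have hemp : sec (A i) (g n) v = ∅ := by
        rw [Set.eq_empty_iff_forall_notMem]
        intro z hz
        rw [mem_sec] at hz
        have h5 : mix (g n) v z ∈ A j := ((hA j).mem_mix (hg (by omega)) v z).2 hvj
        have h6 : Disjoint (A i) (A j) := hdis (by omega)
        exact Set.disjoint_left.1 h6 hz h5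
      rw [hemp]
      exact cov_empty π _ _ _ _ hep.le

end Pool.Agent.H90.SN
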