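import Pool.Agent.H90.SN.GenDec
import Pool.Agent.H90.SN.Cohen

/-!
# A ccc preorder adding dominating functions (module E3)

The coordinates are the elements of an inductive type `Nm`; `Nm.mk ch st fs len val` codes `ω₁` many
names for functions `ω → ω`: the `i`-th condition for the value at `n` of the `α`-th name is given by
the demands `(st (α, n, i, m), fs (α, n, i, m))` at the coordinates `ch (α, n, i, m)`,
`m < len (α, n, i)`, and the value is `val (α, n, i)`.

A condition has finite support; at a coordinate it has a stem (a finite sequence of natural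
numbers) and a finite set of names which are dominated from now on.  `ok q c s F`: `q` satisfies the
demand `(s, F)` at `c`.

* `ok_trans`: structural induction on `c`.
* `compat_of_stems`: the condition with the stems of `p` on the support of `p` and those of `q`
  elsewhere, and with the sets `p.pr c ∪ q.pr c`.
* `cd_ccc`: `cohen_ccc` for the supports and the stems.
-/

set_option autoImplicit false

open Filter MeasureTheory

namespace Pool.Agent.H90.SN

/-- the coordinates -/
inductive Nm : Type
  | nil : Nm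
  | mk (ch : Om × ℕ × ℕ × ℕ → Nm) (st : Om × ℕ × ℕ × ℕ → List ℕ)
      (fs : Om × ℕ × ℕ × ℕ → Finset Om) (len : Om × ℕ × ℕ → ℕ) (val : Om × ℕ × ℕ → ℕ) : Nm

/-- the conditions -/
structure Cd where
  stem : Nm → List ℕ
  pr : Nm → Finset Om
  fin : {c | stem c ≠ [] ∨ pr c ≠ ∅}.Finite

/-- the condition `q` satisfies the demand `(s, F)` at the coordinate -/
def ok (q : Cd) : Nm → List ℕ → Finset Om → Prop
  | .nil, s, F => s <+: q.stem .nil ∧ F ⊆ q.pr .nil
  | .mk ch st fs len val, s, F =>
    s <+: q.stem (.mk ch st fs len val) ∧ F ⊆ q.pr (.mk ch st fs len val) ∧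
      ∀ n, s.length ≤ n → n < (q.stem (.mk ch st fs len val)).length → ∀ α ∈ F,
        ∃ i, val (α, n, i) ≤ (q.stem (.mk ch st fs len val)).getD n 0 ∧
          ∀ m < len (α, n, i), ok q (ch (α, n, i, m)) (st (α, n, i, m)) (fs (α, n, i, m))

instance : LE Cd := ⟨fun q p => ∀ c, ok q c (p.stem c) (p.pr c)⟩

theorem ok_triv (q : Cd) (c : Nm) : ok q c [] ∅ := by
  cases c with
  | nil => exact ⟨List.nil_prefix, by simp⟩
  | mk ch st fs len val => exact ⟨List.nil_prefix, by simp, by simp⟩

theorem ok_trans {r q : Cd} (h : r ≤ q) (c : Nm) {s : List ℕ} {F : Finset Om}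
    (hq : ok q c s F) : ok r c s F := by
  induction c generalizing s F with
  | nil =>
    have h0 : ok r Nm.nil (q.stem Nm.nil) (q.pr Nm.nil) := h Nm.nil
    obtain ⟨h1, h2⟩ := h0
    obtain ⟨h3, h4⟩ := hq
    exact ⟨h3.trans h1, h4.trans h2⟩
  | mk ch st fs len val ih =>
    have h0 : ok r (Nm.mk ch st fs len val) (q.stem (Nm.mk ch st fs len val))
        (q.pr (Nm.mk ch st fs len val)) := h (Nm.mk ch st fs len val)
    obtain ⟨h1, h2, h5⟩ := h0
    obtain ⟨h3, h4, h6⟩ := hq
    refine ⟨h3.trans h1, h4.trans h2, fun n hn hn' α hα => ?_⟩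
    by_cases hlt : n < (q.stem (Nm.mk ch st fs len val)).length
    · obtain ⟨i, hi, hm⟩ := h6 n hn hlt α hα
      refine ⟨i, ?_, fun m hlen => ih _ (hm m hlen)⟩
      have he : (r.stem (Nm.mk ch st fs len val)).getD n 0
          = (q.stem (Nm.mk ch st fs len val)).getD n 0 := by
        obtain ⟨t, ht⟩ := h1
        rw [← ht, List.getD_append _ _ _ _ hlt]
      rw [he]
      exact hi
    · exact h5 n (not_lt.mp hlt) hn' α (h4 hα)

/-- no demand on new values if the stem does not change -/
theorem ok_of_stem_eq {r : Cd} {c : Nm} {s : List ℕ} {F : Finset Om} (hs : r.stem c = s)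
    (hF : F ⊆ r.pr c) : ok r c s F := by
  cases c with
  | nil => exact ⟨by rw [hs], hF⟩
  | mk ch st fs len val =>
    refine ⟨by rw [hs], hF, fun n hn hn' α hα => ?_⟩
    rw [hs] at hn'
    omega

instance : Preorder Cd where
  le_refl := fun _ _ => ok_of_stem_eq rfl (Finset.Subset.refl _)
  le_trans := fun _ _ _ h h' c => ok_trans h c (h' c)

instance : Nonempty Cd := ⟨⟨fun _ => [], fun _ => ∅, by simp⟩⟩

theorem compat_of_stems {p q : Cd}
    (h : ∀ c, (p.stem c = [] ∧ p.pr c = ∅) ∨ (q.stem c = [] ∧ q.pr c = ∅) ∨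
      p.stem c = q.stem c) : Compat p q := by
  classical
  let r : Cd :=
    { stem := fun c => if p.stem c = [] ∧ p.pr c = ∅ then q.stem c else p.stem c
      pr := fun c => p.pr c ∪ q.pr c
      fin := by
        refine (p.fin.union q.fin).subset ?_
        intro c hc
        by_contra hcon
        simp only [Set.mem_union, Set.mem_setOf_eq, not_or, not_not] at hcon
        obtain ⟨⟨h1, h2⟩, h3, h4⟩ := hcon
        simp [h1, h2, h3, h4] at hc }
  refine ⟨r, fun c => ?_, fun c => ?_⟩
  · by_cases hc : p.stem c = [] ∧ p.pr c = ∅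
    · rw [hc.1, hc.2]
      exact ok_triv r c
    · refine ok_of_stem_eq ?_ Finset.subset_union_left
      change (if p.stem c = [] ∧ p.pr c = ∅ then q.stem c else p.stem c) = p.stem c
      rw [if_neg hc]
  · by_cases hd : q.stem c = [] ∧ q.pr c = ∅
    · rw [hd.1, hd.2]
      exact ok_triv r c
    · refine ok_of_stem_eq ?_ Finset.subset_union_right
      change (if p.stem c = [] ∧ p.pr c = ∅ then q.stem c else p.stem c) = q.stem c
      by_cases hc : p.stem c = [] ∧ p.pr c = ∅
      · rw [if_pos hc]
      · rw [if_neg hc]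
        rcases h c with h1 | h1 | h1
        · exact absurd h1 hc
        · exact absurd h1 hd
        · exact h1

theorem cd_ccc : IsCcc Cd := by
  intro f
  obtain ⟨i, j, hij, hag⟩ := cohen_ccc (fun i => (f i).fin.toFinset) (fun i => (f i).stem)
  refine ⟨i, j, hij, compat_of_stems fun c => ?_⟩
  by_cases hi : (f i).stem c = [] ∧ (f i).pr c = ∅
  · exact Or.inl hi
  by_cases hj : (f j).stem c = [] ∧ (f j).pr c = ∅
  · exact Or.inr (Or.inl hj)
  refine Or.inr (Or.inr (hag c ?_ ?_))
  · rw [Set.Finite.mem_toFinset]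
    rw [not_and_or] at hi
    exact hi
  · rw [Set.Finite.mem_toFinset]
    rw [not_and_or] at hj
    exact hj

end Pool.Agent.H90.SN
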