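import Pool.Agent.H90.SN.SpaceB

/-!
# Domination and levels (module C6b)

* `lO_dom`.  For `i`, `s`, `n` let `f i s n` be the least `m` such that
  `nu {z | m < g i (s, z) n} ≤ (1 / 2) ^ n` (`Sub.tendsto_of_empty`).  `f i` is measurable
  (`measurable_nu_base`).  `B.dom` gives `h`; the function `(s, z) ↦ h s` works: by
  `Sub.nu_limsup_null`, for all `s`, for almost all `z`, `g i (s, z) n ≤ f i s n` for almost all
  `n`.
-/

set_option autoImplicit false

open Filter ENNReal Topology MeasureTheory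

namespace Pool.Agent.H90.SN

theorem exists_measurable_find {α : Type} [MeasurableSpace α] {p : α → ℕ → Prop}
    (hp : ∀ x, ∃ N, p x N) (hm : ∀ k, MeasurableSet {x | p x k}) :
    ∃ f : α → ℕ, Measurable f ∧ ∀ x, p x (f x) := by
  classical
  exact ⟨fun x => Nat.find (hp x), measurable_find hp hm, fun x => Nat.find_spec (hp x)⟩

variable (π : Par) (B : Base)

theorem lO_dom (g : Om → B.S × Zm → ℕ → ℕ) (hg : ∀ i, Measurable (g i)) :
    ∃ h : B.S × Zm → ℕ → ℕ, Measurable h ∧
      ∀ i, ∀ᶠ x in lO π B, ∀ᶠ n in atTop, g i x n ≤ h x n := by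
  classical
  have hgn : ∀ i n, Measurable fun ω => g i ω n := fun i n =>
    (measurable_pi_apply n).comp (hg i)
  have hmeasE : ∀ i n (m : ℕ), MeasurableSet {ω : B.S × Zm | m < g i ω n} := fun i n m =>
    measurableSet_lt measurable_const (hgn i n)
  have hex : ∀ i s n, ∃ m : ℕ,
      (sub π Tm bt ⊤).nu {z | m < g i (s, z) n} ≤ (1 / 2 : ℝ≥0∞) ^ n := by
    intro i s n
    have hms : ∀ m : ℕ, MeasurableSet[(sub π Tm bt ⊤).ms] {z | m < g i (s, z) n} := by
      intro m
      rw [ms_sub]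
      exact measurable_prodMk_left (x := s) (hmeasE i n m)
    have ht := (sub π Tm bt ⊤).tendsto_of_empty hms
      (fun m m' hm z (hz : m' < g i (s, z) n) => lt_of_le_of_lt hm hz) (by
        rw [Set.eq_empty_iff_forall_notMem]
        intro z hz
        rw [Set.mem_iInter] at hz
        have hz' : g i (s, z) n < g i (s, z) n := hz (g i (s, z) n)
        exact lt_irrefl _ hz')
    have hpos : (0 : ℝ≥0∞) < (1 / 2 : ℝ≥0∞) ^ n :=
      ENNReal.pow_pos (by norm_num) n
    obtain ⟨m, hm⟩ := (ht.eventually (gt_mem_nhds hpos)).exists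
    exact ⟨m, hm.le⟩
  have hex2 : ∀ i n, ∃ F : B.S → ℕ, Measurable F ∧
      ∀ s, (sub π Tm bt ⊤).nu {z | F s < g i (s, z) n} ≤ (1 / 2 : ℝ≥0∞) ^ n := by
    intro i n
    refine exists_measurable_find (p := fun s m =>
      (sub π Tm bt ⊤).nu {z | m < g i (s, z) n} ≤ (1 / 2 : ℝ≥0∞) ^ n) (fun s => hex i s n) ?_
    intro m
    have h1 := measurable_nu_base π B (hmeasE i n m)
    simp only [Set.mem_ofPred_eq] at h1
    exact measurableSet_le h1 (measurable_const (a := (1 / 2 : ℝ≥0∞) ^ n))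
  choose F hF hFs using hex2
  let f : Om → B.S → ℕ → ℕ := fun i s n => F i n s
  have hf : ∀ i, Measurable (f i) := by
    intro i
    rw [measurable_pi_iff]
    intro n
    exact hF i n
  obtain ⟨h, hh, hdom⟩ := B.dom f hf
  refine ⟨fun ω => h ω.1, hh.comp measurable_fst, ?_⟩
  intro i
  rw [eventually_lO]
  filter_upwards [hdom i] with s hs
  let E : ℕ → Set Zm := fun n => {z | f i s n < g i (s, z) n}
  have hE : ∀ n, (sub π Tm bt ⊤).nu (E n) ≤ (1 / 2 : ℝ≥0∞) ^ n := fun n => hFs i n s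
  have hsum : ∑' n, (sub π Tm bt ⊤).nu (E n) ≠ ∞ := by
    refine ne_top_of_le_ne_top ?_ (ENNReal.tsum_le_tsum hE)
    rw [ENNReal.tsum_geometric]
    norm_num
  have hnull := (sub π Tm bt ⊤).nu_limsup_null hsum
  refine le_antisymm ?_ zero_le
  rw [← hnull]
  refine (sub π Tm bt ⊤).nu_mono ?_
  intro z hz
  have hz' : ¬ ∀ᶠ n in atTop, g i (s, z) n ≤ h s n := hz
  rw [not_eventually] at hz'
  have hz2 := hz'.and_eventually hs
  refine hz2.mono ?_
  rintro n ⟨h1, h2⟩
  exact lt_of_le_of_lt h2 (not_le.1 h1)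

/-- every measurable set belongs to some level: it has a countable support, and the first
coordinates of a countable set of coordinates other than `⊤` are bounded (`Tm ⊤` has only one
element) -/
theorem lO_bounded (E : Set (B.S × Zm)) (hE : MeasurableSet E) :
    ∃ β, MeasurableSet[Sg B β] E := by
  obtain ⟨K, hK, hE'⟩ := countable_support hE
  have hs : ({b : Om | ∃ n, co b n ∈ K}).Countable := by
    have : {b : Om | ∃ n, co b n ∈ K} = ⋃ n, (fun b => co b n) ⁻¹' K := by
      ext b
      simp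
    rw [this]
    refine Set.countable_iUnion fun n => ?_
    refine Set.Countable.preimage_of_injOn hK ?_
    intro b _ b' _ hbb
    have h1 : (toLex (b, n) : Om ×ₗ ℕ) = toLex (b', n) := WithTop.coe_injective hbb
    exact (Prod.mk.inj (toLex.injective h1)).1
  obtain ⟨β, hβ⟩ := om_bounded hs
  refine ⟨β, (sg_iff B).2 ⟨hE, fun s z z' => hE' s _ _ ?_⟩⟩
  intro g hg
  induction g using WithTop.recTopCoe with
  | top => exact Subsingleton.elim (α := Fin 1) _ _
  | coe p =>
    have h2 : ((p : Om ×ₗ ℕ) : Gm) < co β 0 :=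
      (co_lt_co (β := (ofLex p).1) (n := (ofLex p).2)).2 (Or.inl (hβ _ ⟨(ofLex p).2, hg⟩))
    simp only [mix]
    exact if_pos h2

end Pool.Agent.H90.SN
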