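import Pool.Agent.H90.SN.SpaceB

/-!
# Evading, second part (module C8b)

`lO_evade_aux` is `lO_evade` from `limsup_value` (which is proved in `InstEvade`).
-/

set_option autoImplicit false

open Filter ENNReal Topology MeasureTheory

namespace Pool.Agent.H90.SN

/-- measurable selection of nearly optimal rational numbers -/
theorem evade_sel {Ω : Type} [MeasurableSpace Ω] {f : ℕ → ℚ → Ω → ℝ≥0∞}
    (hf : ∀ n r, Measurable (f n r)) :
    ∃ q : Ω → ℝ≥0∞, Measurable q ∧ (∀ ω, q ω = min (⨅ n, ⨆ r, f n r ω) 1) ∧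
      ∃ r : ℕ → Ω → ℚ, (∀ n, Measurable (r n)) ∧
        ∀ ω, q ω ≠ 0 → ∀ n, q ω / 2 ≤ f n (r n ω) ω := by
  classical
  let q : Ω → ℝ≥0∞ := fun ω => min (⨅ n, ⨆ r, f n r ω) 1
  have hq : Measurable q :=
    (Measurable.iInf fun n => Measurable.iSup fun r => hf n r).min measurable_const
  refine ⟨q, hq, fun _ => rfl, ?_⟩
  obtain ⟨d, hd⟩ := exists_surjective_nat ℚ
  have hp : ∀ n ω, ∃ k, q ω = 0 ∨ q ω / 2 ≤ f n (d k) ω := by
    intro n ω
    by_cases h0 : q ω = 0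
    · exact ⟨0, Or.inl h0⟩
    have hfin : q ω ≠ ∞ := ne_top_of_le_ne_top one_ne_top (min_le_right _ _)
    have hlt : q ω / 2 < ⨆ r, f n r ω :=
      (ENNReal.half_lt_self h0 hfin).trans_le ((min_le_left _ _).trans (iInf_le _ n))
    obtain ⟨r, hr⟩ := lt_iSup_iff.1 hlt
    obtain ⟨k, rfl⟩ := hd r
    exact ⟨k, Or.inr hr.le⟩
  refine ⟨fun n ω => d (Nat.find (hp n ω)), fun n => ?_, ?_⟩
  · refine (measurable_from_nat (f := d)).comp (measurable_find (hp n) fun k => ?_)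
    exact (measurableSet_eq_fun hq measurable_const).union
      (measurableSet_le (hq.div_const 2) (hf n (d k)))
  · intro ω h0 n
    exact (Nat.find_spec (hp n ω)).resolve_left h0

/-- measurable choice of the speed of convergence -/
theorem evade_speed {Ω : Type} [MeasurableSpace Ω] {f : ℕ → ℚ → Ω → ℝ≥0∞}
    (hf : ∀ n r, Measurable (f n r)) :
    ∃ N : ℕ → Ω → ℕ, (∀ k, Measurable (N k)) ∧
      ∀ ω, (⨅ n, ⨆ r, f n r ω) = 0 → ∀ k, (⨆ r, f (N k ω) r ω) ≤ (1 / 2) ^ k := by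
  classical
  have hs : ∀ n, Measurable fun ω => ⨆ r, f n r ω := fun n => Measurable.iSup fun r => hf n r
  have hi : Measurable fun ω => ⨅ n, ⨆ r, f n r ω := Measurable.iInf hs
  have hp : ∀ k ω, ∃ n, (⨅ n, ⨆ r, f n r ω) ≠ 0 ∨ (⨆ r, f n r ω) ≤ (1 / 2) ^ k := by
    intro k ω
    by_cases h0 : (⨅ n, ⨆ r, f n r ω) = 0
    · have hpos : (⨅ n, ⨆ r, f n r ω) < (1 / 2 : ℝ≥0∞) ^ k := by
        rw [h0]
        exact ENNReal.pow_pos (by simp) k
      obtain ⟨n, hn⟩ := iInf_lt_iff.1 hpos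
      exact ⟨n, Or.inr hn.le⟩
    · exact ⟨0, Or.inl h0⟩
  refine ⟨fun k ω => Nat.find (hp k ω), fun k => measurable_find (hp k) fun n => ?_, ?_⟩
  · refine MeasurableSet.union ?_ (measurableSet_le (hs n) measurable_const)
    exact (measurableSet_eq_fun hi measurable_const).compl
  · intro ω h0 k
    exact (Nat.find_spec (hp k ω)).resolve_left (fun h => h h0)

theorem evade_limsup {Ω : Type} [MeasurableSpace Ω] {r : ℕ → Ω → ℚ}
    (hr : ∀ n, Measurable (r n)) :
    Measurable fun ω => limsup (fun n => (r n ω : ℝ)) atTop :=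
  Measurable.limsup fun n => (measurable_of_countable (fun a : ℚ => (a : ℝ))).comp (hr n)

variable (π : Par) (B : Base)

theorem lO_evade_aux
    (hlim : ∀ (c : Gm) {x : Zm → ℝ} {E : Set Zm}
      (_ : ∀ r : ℚ, ∀ n : ℕ,
        MeasurableSet[(sub π Tm c ⊤).ms] {z | z ∈ E ∧ |x z - r| < (1 / 2) ^ n})
      {r : ℕ → ℚ} {q : ℝ≥0∞} (_ : q ≠ 0)
      (_ : ∀ n : ℕ, q ≤ (sub π Tm c ⊤).nu {z | z ∈ E ∧ |x z - r n| < (1 / 2) ^ n}),
      q ≤ (sub π Tm c ⊤).nu {z | z ∈ E ∧ x z = limsup (fun n => (r n : ℝ)) atTop})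
    (β : Om) (E : Set (B.S × Zm)) (hE : MeasurableSet E) (x : B.S × Zm → ℝ)
    (hx : Measurable x)
    (h : ∀ x' : B.S × Zm → ℝ, Measurable[Sg B β] x' → ∀ᶠ ω in lO π B, ω ∈ E → x ω ≠ x' ω) :
    ∃ e : B.S × Zm → ℕ → ℚ, Measurable e ∧ (∀ ω n, 0 < e ω n) ∧
      ∀ a : B.S × Zm → ℕ → ℚ, Measurable[Sg B β] a → ∀ᶠ ω in lO π B, ω ∈ E →
        ∀ᶠ n in atTop, ¬ ((a ω n : ℝ) < x ω ∧ x ω < (a ω n : ℝ) + e ω n) := by
  let c : Gm := co β 0
  let F : ℕ → ℚ → Set (B.S × Zm) := fun n r => {ω | ω ∈ E ∧ |x ω - r| < (1 / 2) ^ n}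
  have hF : ∀ n r, MeasurableSet (F n r) := fun n r =>
    hE.inter (measurableSet_lt ((hx.sub_const _).abs) measurable_const)
  let f : ℕ → ℚ → B.S × Zm → ℝ≥0∞ := fun n r => fib π B c (F n r)
  have hf : ∀ n r, Measurable[Sg B β] (f n r) := fun n r => measurable_fib π B β (hF n r)
  obtain ⟨q, hq, hq', r, hr, hr'⟩ := @evade_sel _ (Sg B β) f hf
  obtain ⟨N, hN, hN'⟩ := @evade_speed _ (Sg B β) f hf
  -- the first step: `q = 0` almost everywhere
  have hq0 : ∀ᶠ ω in lO π B, (⨅ n, ⨆ r, f n r ω) = 0 := by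
    let x' : B.S × Zm → ℝ := fun ω => limsup (fun n => (r n ω : ℝ)) atTop
    have hx' : Measurable[Sg B β] x' := @evade_limsup _ (Sg B β) _ hr
    have hxn := h x' hx'
    have hx'm : Measurable x' := ((sg_fun_iff B).1 hx').1
    have hM : MeasurableSet {ω | ω ∈ E ∧ x ω = x' ω} :=
      hE.inter (measurableSet_eq_fun hx hx'm)
    have hnull : Null π B {ω | ω ∈ E ∧ x ω = x' ω} := by
      have := hxn
      rw [eventually_lO] at this
      refine this.mono fun s hs => ?_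
      rw [← hs]
      congr 1
      ext z
      simp
    rw [fub_iff π B c hM] at hnull
    filter_upwards [hnull] with ω hω
    by_contra hne
    have hqne : q ω ≠ 0 := by
      rw [hq']
      intro h0
      rcases min_choice (⨅ n, ⨆ r, f n r ω) 1 with h1 | h1
      · rw [h1] at h0; exact hne h0
      · rw [h1] at h0; exact one_ne_zero h0
    have hq2 : q ω / 2 ≠ 0 := by
      rw [Ne, ENNReal.div_eq_zero_iff]
      push Not
      exact ⟨hqne, by simp⟩
    have key := hlim c (x := fun z' => x (ω.1, mix c ω.2 z'))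
      (E := {z' | (ω.1, mix c ω.2 z') ∈ E})
      (fun r n => measurableSet_fib π B c (hF n r) ω) (r := fun n => r n ω) hq2
      (fun n => hr' ω hqne n)
    have hcst : ∀ z', x' (ω.1, mix c ω.2 z') = x' ω := fun z' =>
      ((sg_fun_iff B).1 hx').2 ω.1 ω.2 z'
    have h2 : {z' | z' ∈ {z' | (ω.1, mix c ω.2 z') ∈ E} ∧
        x (ω.1, mix c ω.2 z') = limsup (fun n => (r n ω : ℝ)) atTop} =
        {z' | (ω.1, mix c ω.2 z') ∈ {ω | ω ∈ E ∧ x ω = x' ω}} := by
      ext z'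
      simp only [Set.mem_ofPred_eq]
      rw [hcst z']
    rw [h2] at key
    change q ω / 2 ≤ fib π B c {ω | ω ∈ E ∧ x ω = x' ω} ω at key
    rw [hω] at key
    exact hq2 (le_antisymm key zero_le)
  -- the second step
  let e : B.S × Zm → ℕ → ℚ := fun ω k => (1 / 2) ^ (N k ω)
  have he : Measurable[Sg B β] e := by
    refine @measurable_pi_iff _ _ _ (Sg B β) _ e |>.2 fun k => ?_
    exact (measurable_from_nat (f := fun m => (1 / 2 : ℚ) ^ m)).comp (hN k)
  have he' := (sg_fun_iff B).1 he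
  refine ⟨e, he'.1, fun ω n => by positivity, fun a ha => ?_⟩
  have ha' := (sg_fun_iff B).1 ha
  let D : ℕ → Set (B.S × Zm) := fun k =>
    {ω | ω ∈ E ∧ (a ω k : ℝ) < x ω ∧ x ω < (a ω k : ℝ) + e ω k}
  have hcast : Measurable fun a : ℚ => (a : ℝ) := measurable_of_countable _
  have hak : ∀ k, Measurable fun ω => (a ω k : ℝ) := fun k =>
    hcast.comp ((measurable_pi_iff.1 ha'.1) k)
  have hek : ∀ k, Measurable fun ω => (e ω k : ℝ) := fun k =>
    hcast.comp ((measurable_pi_iff.1 he'.1) k)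
  have hD : ∀ k, MeasurableSet (D k) := fun k =>
    hE.inter ((measurableSet_lt (hak k) hx).inter (measurableSet_lt hx ((hak k).add (hek k))))
  have hL : MeasurableSet {ω | ∃ᶠ k in atTop, ω ∈ D k} := by
    have : {ω | ∃ᶠ k in atTop, ω ∈ D k} = ⋂ n, ⋃ k, D (k + n) := by
      ext ω
      simp only [Set.mem_ofPred_eq, Set.mem_iInter, Set.mem_iUnion, frequently_atTop]
      refine forall_congr' fun n => ⟨?_, ?_⟩
      · rintro ⟨k, hk, hk'⟩
        exact ⟨k - n, by rwa [Nat.sub_add_cancel hk]⟩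
      · rintro ⟨k, hk⟩
        exact ⟨k + n, Nat.le_add_left _ _, hk⟩
    rw [this]
    exact MeasurableSet.iInter fun n => MeasurableSet.iUnion fun k => hD _
  have hnull : Null π B {ω | ∃ᶠ k in atTop, ω ∈ D k} := by
    rw [fub_iff π B c hL]
    filter_upwards [hq0] with ω hω
    have hle : ∀ k, fib π B c (D k) ω ≤ (1 / 2) ^ k := by
      intro k
      refine le_trans ?_ (hN' ω hω k)
      refine le_trans ?_ (le_iSup _ (a ω k))
      refine Sub.nu_mono _ ?_
      rintro z' ⟨h1, h2, h3⟩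
      have h4 : a (ω.1, mix c ω.2 z') = a ω := ha'.2 ω.1 ω.2 z'
      have h5 : e (ω.1, mix c ω.2 z') = e ω := he'.2 ω.1 ω.2 z'
      rw [h4] at h2 h3
      rw [h5] at h3
      refine ⟨h1, ?_⟩
      have h6 : ((e ω k : ℚ) : ℝ) = (1 / 2) ^ (N k ω) := by simp [e]
      rw [h6] at h3
      rw [abs_lt]
      constructor
      · have : (0 : ℝ) < (1 / 2) ^ (N k ω) := by positivity
        linarith
      · linarith
    have hsum : ∑' k, (sub π Tm c ⊤).nu {z' | (ω.1, mix c ω.2 z') ∈ D k} ≠ ∞ := by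
      refine ne_top_of_le_ne_top ?_ (ENNReal.tsum_le_tsum hle)
      rw [ENNReal.tsum_geometric]
      simp
    have := Sub.nu_limsup_null (sub π Tm c ⊤) hsum
    exact this
  rw [eventually_lO]
  refine hnull.mono fun s hs => ?_
  rw [← hs]
  congr 1
  ext z
  simp only [Set.mem_ofPred_eq, D, Classical.not_imp, not_eventually, not_not]
  constructor
  · rintro ⟨h1, h2⟩
    exact h2.mono fun n hn => ⟨h1, hn⟩
  · intro h1
    exact ⟨h1.exists.choose_spec.1, h1.mono fun n hn => hn.2⟩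

end Pool.Agent.H90.SN
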