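import Pool.Agent.H90.SN.SpaceB
import Pool.Agent.H90.SN.InstEvadeB

/-!
# Evading (module C8)

Proof sketch of `lO_evade`; `c = co β 0`.  For `n : ℕ`, `r : ℚ` let
`F n r = {ω ∈ E | |x ω - r| < (1 / 2) ^ n}` (measurable), `f n r ω = fib π B c (F n r) ω`, measurable
for `Sg B β` (`measurable_fib`) and constant on the fibres, `s n ω = ⨆ r, f n r ω`, antitone in `n`
(for `n ≤ n'`, `F n' r ⊆ F n r`).
Claim: `⨅ n, s n ω = 0` for almost all `ω`.
  Let `q ω = min (⨅ n, s n ω) 1`, and, where `q ω ≠ 0`, let `r n ω` be the first rational number (in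
  an enumeration) with `q ω / 2 < f n (r n ω) ω`; measurable for `Sg B β`.
  Let `x' ω = limsup (r n ω)` (if `q ω ≠ 0` and the sequence is bounded; otherwise `0`),
  measurable for `Sg B β`, constant on the fibres.
  If `q ω ≠ 0`: in the fibre of `ω` the sets `F n (r n ω)` have size at least `q ω / 2 > 0`.  The
  sequence `r n ω` is bounded: otherwise there is a subsequence `n_i` with
  `|r n_i ω| → ∞`; by `Sub.le_nu_limsup` some point of the fibre is in infinitely many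
  `F n_i (r n_i ω)`, so `|x|` is infinite there, a contradiction.  Let `n_i` be a subsequence
  with `r n_i ω → x' ω`.  By `Sub.le_nu_limsup` the set of all points of the fibre which are in
  infinitely many `F n_i (r n_i ω)` has size at least `q ω / 2`, and on this set `x = x' ω`.  So
  `fib π B c (E ∩ {x = x'}) ω ≠ 0`.  But `E ∩ {x = x'}` is null by hypothesis, so by `fub_iff` this
  happens only for a null set of `ω`.
Let `N k ω` be the least `n` with `s n ω ≤ (1 / 2) ^ k` (or `0` if there is none; measurable for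
`Sg B β`), and `e ω k = (1 / 2) ^ (N k ω)`.  Let `a` be of level `β`, and
`D k = {ω ∈ E | a ω k < x ω < a ω k + e ω k}`, `D = {ω | ∃ᶠ k, ω ∈ D k}`.  For almost all `ω`:
in the fibre of `ω`, `a` and `e` are constant, `D k ⊆ F (N k ω) (a ω k)`, so
`fib π B c (D k) ω ≤ (1 / 2) ^ k`, and by `Sub.nu_limsup_null` the fibre of `D` is null.  By `fub_iff`,
`D` is null.
-/

set_option autoImplicit false

open Filter ENNReal Topology MeasureTheory

namespace Pool.Agent.H90.SN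

variable (π : Par) (B : Base)

/-- if the fibres of the sets `{x ≈ r n}` are large for all `n` then `r` is bounded and `x` takes the
value `limsup r` on a large part of the fibre -/
theorem limsup_value {Z : Type} (μ : Sub Z) {x : Z → ℝ} {E : Set Z}
    (hx : ∀ r : ℚ, ∀ n : ℕ, MeasurableSet[μ.ms] {z | z ∈ E ∧ |x z - r| < (1 / 2) ^ n})
    {r : ℕ → ℚ} {q : ℝ≥0∞} (hq : q ≠ 0)
    (h : ∀ n : ℕ, q ≤ μ.nu {z | z ∈ E ∧ |x z - r n| < (1 / 2) ^ n}) :
    q ≤ μ.nu {z | z ∈ E ∧ x z = limsup (fun n => (r n : ℝ)) atTop} := by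
  have hpow : ∀ n : ℕ, ((1 : ℝ) / 2) ^ n ≤ 1 := fun n => pow_le_one₀ (by norm_num) (by norm_num)
  have hsub : ∀ φ : ℕ → ℕ, q ≤ μ.nu {z | ∃ᶠ j in atTop,
      z ∈ {z | z ∈ E ∧ |x z - r (φ j)| < (1 / 2) ^ (φ j)}} := fun φ =>
    μ.le_nu_limsup (E := fun j => {z | z ∈ E ∧ |x z - r (φ j)| < (1 / 2) ^ (φ j)})
      (fun j => hx (r (φ j)) (φ j)) (Eventually.frequently (Eventually.of_forall fun j => h (φ j)))
  -- boundedness
  have hbd : ∃ M : ℝ, ∀ᶠ n in atTop, |(r n : ℝ)| ≤ M := by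
    by_contra hcon
    push Not at hcon
    have hfr : ∀ j : ℕ, ∃ᶠ n in atTop, (j : ℝ) < |(r n : ℝ)| := fun j => by
      have := hcon j
      exact this.mono fun n hn => hn
    obtain ⟨φ, hφ, hφ2⟩ := extraction_forall_of_frequently hfr
    have h1 := hsub φ
    have h2 : {z | ∃ᶠ j in atTop, z ∈ {z | z ∈ E ∧ |x z - r (φ j)| < (1 / 2) ^ (φ j)}} = ∅ := by
      rw [Set.eq_empty_iff_forall_notMem]
      intro z hz
      obtain ⟨j₀, hj₀⟩ := exists_nat_ge (|x z| + 1)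
      obtain ⟨j, hj, hzj⟩ := frequently_atTop.1 (show ∃ᶠ j in atTop,
        z ∈ {z | z ∈ E ∧ |x z - r (φ j)| < (1 / 2) ^ (φ j)} from hz) j₀
      have h3 : |x z - r (φ j)| < 1 := hzj.2.trans_le (hpow _)
      have h4 := hφ2 j
      have h5 : |(r (φ j) : ℝ)| ≤ |x z| + |x z - r (φ j)| := by
        have h6 : (r (φ j) : ℝ) = x z - (x z - r (φ j)) := by ring
        calc |(r (φ j) : ℝ)| = |x z - (x z - r (φ j))| := by rw [← h6]
          _ ≤ |x z| + |x z - r (φ j)| := abs_sub _ _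
      have h7 : (j₀ : ℝ) ≤ j := by exact_mod_cast hj
      linarith
    rw [h2, μ.nu_empty] at h1
    exact hq (le_antisymm h1 zero_le)
  obtain ⟨M, hM⟩ := hbd
  set L := limsup (fun n => (r n : ℝ)) atTop with hL
  have hb1 : IsBoundedUnder (· ≤ ·) atTop (fun n => (r n : ℝ)) :=
    ⟨M, eventually_map.2 (hM.mono fun n hn => (abs_le.1 hn).2)⟩
  have hb2 : IsBoundedUnder (· ≥ ·) atTop (fun n => (r n : ℝ)) :=
    ⟨-M, eventually_map.2 (hM.mono fun n hn => (abs_le.1 hn).1)⟩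
  have hfr : ∀ j : ℕ, ∃ᶠ n in atTop, |(r n : ℝ) - L| < 1 / ((j : ℝ) + 1) := by
    intro j
    have hpos : (0 : ℝ) < 1 / ((j : ℝ) + 1) := by positivity
    have h1 : ∃ᶠ n in atTop, L - 1 / ((j : ℝ) + 1) < (r n : ℝ) :=
      frequently_lt_of_lt_limsup hb2.isCoboundedUnder_le (by rw [← hL]; linarith)
    have h2 : ∀ᶠ n in atTop, (r n : ℝ) < L + 1 / ((j : ℝ) + 1) :=
      eventually_lt_of_limsup_lt (by rw [← hL]; linarith) hb1
    refine (h1.and_eventually h2).mono fun n hn => ?_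
    rw [abs_lt]
    constructor <;> linarith [hn.1, hn.2]
  obtain ⟨φ, hφ, hφ2⟩ := extraction_forall_of_frequently hfr
  refine (hsub φ).trans (μ.nu_mono ?_)
  intro z hz
  have hz' : ∃ᶠ j in atTop, z ∈ {z | z ∈ E ∧ |x z - r (φ j)| < (1 / 2) ^ (φ j)} := hz
  refine ⟨(hz'.exists).choose_spec.1, ?_⟩
  by_contra hne
  have hpos : 0 < |x z - L| := abs_pos.2 (sub_ne_zero.2 hne)
  have ht1 : Tendsto (fun j : ℕ => ((1 : ℝ) / 2) ^ (φ j) + 1 / ((j : ℝ) + 1)) atTop (𝓝 (0 + 0)) :=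
    ((_root_.tendsto_pow_atTop_nhds_zero_of_lt_one (r := (1 : ℝ) / 2) (by norm_num) (by norm_num)).comp
      hφ.tendsto_atTop).add tendsto_one_div_add_atTop_nhds_zero_nat
  rw [add_zero] at ht1
  have ht2 := ht1.eventually (gt_mem_nhds hpos)
  obtain ⟨j, hj1, hj2⟩ := (hz'.and_eventually ht2).exists
  have h3 : |x z - L| ≤ |x z - r (φ j)| + |(r (φ j) : ℝ) - L| := abs_sub_le _ _ _
  have h4 := hj1.2
  have h5 := hφ2 j
  linarith

theorem lO_evade (β : Om) (E : Set (B.S × Zm)) (hE : MeasurableSet E) (x : B.S × Zm → ℝ)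
    (hx : Measurable x)
    (h : ∀ x' : B.S × Zm → ℝ, Measurable[Sg B β] x' → ∀ᶠ ω in lO π B, ω ∈ E → x ω ≠ x' ω) :
    ∃ e : B.S × Zm → ℕ → ℚ, Measurable e ∧ (∀ ω n, 0 < e ω n) ∧
      ∀ a : B.S × Zm → ℕ → ℚ, Measurable[Sg B β] a → ∀ᶠ ω in lO π B, ω ∈ E →
        ∀ᶠ n in atTop, ¬ ((a ω n : ℝ) < x ω ∧ x ω < (a ω n : ℝ) + e ω n) := by
  exact lO_evade_aux π B (fun c => limsup_value (sub π Tm c ⊤)) β E hE x hx h

end Pool.Agent.H90.SN
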