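import Pool.Agent.H90.SN.SpaceB

/-!
# Guessing (module C7)

`guess_null`: the set of `z` which miss all the values `f n`, `n ≥ M`, is null: for every
`k` it is contained in the set of those which miss the first `π.N k` of them; use `cov_guess` on
`[co β 0, ⊤)` with the slots `[co β (G (M + i)), co β (G (M + i) + 1))` (`eq_co`), for almost all
`p`; so `mu ≤ (1 / 2) ^ k`, `Sub.nu_eq`, all `k`.

`lO_guess`: by `bounded` (`hb`; countably many sets `{ω | e ω n = q}`, `om_bounded`) there is
`γ ≥ β` with `e` measurable for `Sg B γ`; `Sg B β ≤ Sg B γ`.  Let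
`G ω n = ∑ i ≤ n, (⌈2 * (i + 1) / e ω i⌉₊ + 2)`, strictly increasing in `n`, of level `γ`, and
`a ω n = (ω.2 (co γ (G ω n)) - G ω n) * e ω n / 2` (as rational numbers).  `a` is measurable (`G ω n`
has countably many values).  Let `x` be of level `γ`.  The set `E` of all `ω` such that for no `n`,
`a ω n < x ω < a ω n + e ω n`, is measurable.  By `fub_iff` with `c = co γ 0` it is enough that all
fibres are null: on the fibre of `ω`, the values `x`, `e`, `G` are constant (`sg_fun_iff`), and for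
`n ≥ |x|` put `j n = ⌈2 * x / e n⌉ - 1`, so `j * e / 2 < x ≤ (j + 1) * e / 2` and `|j n| ≤ G n`.  So the
fibre is contained in the set of all `z'` such that `z' (co γ (G n)) ≠ j n + G n` for all
`n ≥ ⌈|x|⌉`; use `guess_null`.
-/

set_option autoImplicit false

open Filter ENNReal Topology MeasureTheory

namespace Pool.Agent.H90.SN

variable (π : Par) (B : Base)

theorem guess_null (β : Om) {G : ℕ → ℕ} (hG : StrictMono G) (f : ∀ n, Tm (co β (G n)))
    (M : ℕ) : (sub π Tm (co β 0) ⊤).nu {z | ∀ n ≥ M, z (co β (G n)) ≠ f n} = 0 := by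
  have hlt : ∀ {a b : ℕ}, a < b → co β a < co β b := fun h => co_lt_co.2 (Or.inr ⟨rfl, h⟩)
  have hle : ∀ {a b : ℕ}, a ≤ b → co β a ≤ co β b := by
    intro a b h
    rcases h.lt_or_eq with h | h
    · exact (hlt h).le
    · rw [h]
  have key : ∀ k : ℕ, (sub π Tm (co β 0) ⊤).nu {z : Zm | ∀ n ≥ M, z (co β (G n)) ≠ f n} ≤
      ENNReal.ofReal ((1 / 2) ^ k) := by
    intro k
    set X : Set Zm := {z | ∀ i < π.N k, z (co β (G (M + i))) ≠ f (M + i)} with hX
    have hslots : Slots (co β 0) ⊤ (π.N k) (fun i => co β (G (M + i)))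
        (fun i => co β (G (M + i) + 1)) := by
      refine ⟨fun i _ => ⟨hle (Nat.zero_le _), hlt (Nat.lt_succ_self _), le_top⟩, ?_⟩
      intro i j hij _
      exact hle (hG (by omega))
    have hcov : ∀ n, Cov π (n + 1) k (co β 0) ⊤ X ((1 / 2) ^ k) := by
      intro n
      exact cov_guess π (n := n) (k := k) (a := co β 0) (b := ⊤) (m := π.N k) le_rfl
        (l := fun i => co β (G (M + i))) (r := fun i => co β (G (M + i) + 1)) hslots
        (fun i _ g h1 h2 => eq_co h1 h2) (fun i _ => f (M + i)) (fun _ _ _ _ _ => rfl)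
    have hmem : X ∈ (sub π Tm (co β 0) ⊤).C := by
      refine ⟨⟨(Finset.range (π.N k)).image fun i => co β (G (M + i)), ?_⟩, ?_⟩
      · intro z z' hz
        have : ∀ i < π.N k, z (co β (G (M + i))) = z' (co β (G (M + i))) := fun i hi =>
          hz _ (Finset.mem_image.2 ⟨i, Finset.mem_range.2 hi, rfl⟩)
        constructor
        · intro h i hi
          rw [← this i hi]
          exact h i hi
        · intro h i hi
          rw [this i hi]
          exact h i hi
      · intro z z' hz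
        have : ∀ i < π.N k, z (co β (G (M + i))) = z' (co β (G (M + i))) := fun i hi =>
          hz _ (hle (Nat.zero_le _)) (co_lt_top _ _)
        constructor
        · intro h i hi
          rw [← this i hi]
          exact h i hi
        · intro h i hi
          rw [this i hi]
          exact h i hi
    have hsm : Sm π k (co β 0) ⊤ X ((1 / 2) ^ k) := by
      refine (eventually_ge_hyper k).mono fun p hp => ?_
      have : p + 1 - k = (p - k) + 1 := by omega
      rw [this]
      exact hcov _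
    calc (sub π Tm (co β 0) ⊤).nu {z : Zm | ∀ n ≥ M, z (co β (G n)) ≠ f n}
        ≤ (sub π Tm (co β 0) ⊤).nu X :=
          Sub.nu_mono _ fun z hz i _ => hz (M + i) (Nat.le_add_right _ _)
      _ = mu π (co β 0) ⊤ X := Sub.nu_eq _ hmem
      _ ≤ ENNReal.ofReal ((1 / 2) ^ k) := mu_le π hsm
  have hlim : Tendsto (fun k : ℕ => ENNReal.ofReal ((1 / 2 : ℝ) ^ k)) atTop (𝓝 0) := by
    have := ENNReal.tendsto_ofReal
      (tendsto_pow_atTop_nhds_zero_of_lt_one (r := (1 / 2 : ℝ)) (by norm_num) (by norm_num))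
    simpa using this
  exact le_antisymm (ge_of_tendsto' hlim key) bot_le

theorem lO_guess (hb : ∀ E : Set (B.S × Zm), MeasurableSet E → ∃ β, MeasurableSet[Sg B β] E)
    (β : Om) (e : B.S × Zm → ℕ → ℚ) (he : Measurable e) (hpos : ∀ ω n, 0 < e ω n) :
    ∃ a : B.S × Zm → ℕ → ℚ, Measurable a ∧ ∀ x : B.S × Zm → ℝ, Measurable[Sg B β] x →
      ∀ᶠ ω in lO π B, ∃ n, (a ω n : ℝ) < x ω ∧ x ω < (a ω n : ℝ) + e ω n := by
  classical
  have he' : ∀ n, Measurable fun ω => e ω n := fun n => measurable_pi_iff.1 he n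
  -- the level of `e`
  have h1 : ∀ p : ℕ × ℚ, ∃ β', MeasurableSet[Sg B β'] {ω | e ω p.1 = p.2} := fun p =>
    hb _ (he' p.1 (measurableSet_singleton p.2))
  choose lv hlv using h1
  obtain ⟨γ, hγ⟩ := om_bounded ((Set.countable_range lv).insert β)
  have hβγ : β ≤ γ := (hγ β (Set.mem_insert _ _)).le
  have hlγ : ∀ p, lv p ≤ γ := fun p =>
    (hγ _ (Set.mem_insert_of_mem _ (Set.mem_range_self p))).le
  have hee : ∀ s z z' n, e (s, mix (co γ 0) z z') n = e (s, z) n := by
    intro s z z' n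
    have := (sg_iff B).1 (sg_mono B (hlγ (n, e (s, z) n)) _ (hlv (n, e (s, z) n)))
    exact (this.2 s z z').2 rfl
  -- the numbers `G`
  set G : B.S × Zm → ℕ → ℕ := fun ω n =>
    ∑ i ∈ Finset.range (n + 1), (⌈2 * ((i : ℚ) + 1) / e ω i⌉₊ + 2) with hGdef
  have hGm : ∀ n, Measurable fun ω => G ω n := by
    intro n
    refine Finset.measurable_sum _ fun i _ => ?_
    exact (measurable_from_top (f := fun q : ℚ => ⌈2 * ((i : ℚ) + 1) / q⌉₊ + 2)).comp (he' i)
  have hGG : ∀ s z z' n, G (s, mix (co γ 0) z z') n = G (s, z) n := by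
    intro s z z' n
    simp only [hGdef, hee]
  have hGs : ∀ ω, StrictMono (G ω) := by
    intro ω
    refine strictMono_nat_of_lt_succ fun n => ?_
    simp only [hGdef]
    rw [Finset.sum_range_succ _ (n + 1)]
    omega
  have hGn : ∀ ω (n : ℕ), ⌈2 * ((n : ℚ) + 1) / e ω n⌉₊ + 2 ≤ G ω n := by
    intro ω n
    simp only [hGdef]
    exact Finset.single_le_sum (f := fun i : ℕ => ⌈2 * ((i : ℚ) + 1) / e ω i⌉₊ + 2)
      (fun i _ => Nat.zero_le _) (Finset.mem_range.2 (Nat.lt_succ_self n))
  -- the guess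
  set a : B.S × Zm → ℕ → ℚ := fun ω n =>
    ((((ω.2 (co γ (G ω n))).val : ℕ) : ℚ) - (G ω n : ℚ)) * e ω n / 2 with hadef
  have hv : ∀ n, Measurable fun ω : B.S × Zm => ((ω.2 (co γ (G ω n))).val : ℕ) := by
    intro n
    have hF : ∀ m : ℕ, Measurable fun ω : B.S × Zm => ((ω.2 (co γ m)).val : ℕ) := by
      intro m
      exact (measurable_from_top (f := fun t : Tm (co γ m) => t.val)).comp
        ((measurable_pi_apply (co γ m)).comp measurable_snd)
    refine measurable_to_countable' fun j => ?_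
    have : (fun ω : B.S × Zm => ((ω.2 (co γ (G ω n))).val : ℕ)) ⁻¹' {j} =
        ⋃ m : ℕ, ({ω | G ω n = m} ∩ {ω | ((ω.2 (co γ m)).val : ℕ) = j}) := by
      ext ω
      simp only [Set.mem_preimage, Set.mem_singleton_iff, Set.mem_iUnion, Set.mem_inter_iff,
        Set.mem_ofPred_eq]
      constructor
      · intro h
        exact ⟨G ω n, rfl, h⟩
      · rintro ⟨m, h2, h3⟩
        subst h2
        exact h3
    rw [this]
    exact MeasurableSet.iUnion fun m =>
      (hGm n (measurableSet_singleton m)).inter (hF m (measurableSet_singleton j))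
  have ham : ∀ n, Measurable fun ω => a ω n := by
    intro n
    have h2 : Measurable fun ω : B.S × Zm =>
        (((ω.2 (co γ (G ω n))).val : ℕ), G ω n, e ω n) :=
      (hv n).prodMk ((hGm n).prodMk (he' n))
    exact (measurable_of_countable (f := fun q : ℕ × ℕ × ℚ =>
      ((q.1 : ℚ) - (q.2.1 : ℚ)) * q.2.2 / 2)).comp h2
  refine ⟨a, measurable_pi_iff.2 ham, fun x hx => ?_⟩
  obtain ⟨hxm, hxx⟩ := (sg_fun_iff B).1 (hx.mono (sg_mono B hβγ) le_rfl)
  set E : Set (B.S × Zm) :=
    {ω | ∀ n, ¬ ((a ω n : ℝ) < x ω ∧ x ω < (a ω n : ℝ) + e ω n)} with hE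
  have hcast : Measurable fun q : ℚ => (q : ℝ) := measurable_of_countable _
  have hEm : MeasurableSet E := by
    have : E = ⋂ n, ({ω | (a ω n : ℝ) < x ω} ∩ {ω | x ω < (a ω n : ℝ) + e ω n})ᶜ := by
      ext ω
      simp [hE]
    rw [this]
    refine MeasurableSet.iInter fun n => (MeasurableSet.inter ?_ ?_).compl
    · exact measurableSet_lt (hcast.comp (ham n)) hxm
    · exact measurableSet_lt hxm ((hcast.comp (ham n)).add (hcast.comp (he' n)))
  have hnull : Null π B E := by
    rw [fub_iff π B (co γ 0) hEm]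
    refine Eventually.of_forall fun ω => ?_
    obtain ⟨s, z⟩ := ω
    set j : ℕ → ℤ := fun n => ⌈2 * x (s, z) / (e (s, z) n : ℝ)⌉ - 1 with hj
    set f : ∀ n, Tm (co γ (G (s, z) n)) := fun n =>
      Fin.ofNat (2 * sz (co γ (G (s, z) n)) + 1) (j n + G (s, z) n).toNat with hf
    refine le_antisymm ((Sub.nu_mono _ ?_).trans_eq
      (guess_null π γ (hGs (s, z)) f ⌈|x (s, z)|⌉₊)) bot_le
    intro z' hz' n hn hfn
    have hz2 := hz' n
    have hep : (0 : ℝ) < e (s, z) n := by exact_mod_cast hpos (s, z) n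
    have hxn : |x (s, z)| ≤ n := (Nat.le_ceil _).trans (by exact_mod_cast hn)
    have hGn' : 2 * ((n : ℝ) + 1) / e (s, z) n + 2 ≤ G (s, z) n := by
      have h3 : 2 * ((n : ℚ) + 1) / e (s, z) n + 2 ≤ (G (s, z) n : ℚ) := by
        have h4 : ((⌈2 * ((n : ℚ) + 1) / e (s, z) n⌉₊ + 2 : ℕ) : ℚ) ≤ (G (s, z) n : ℚ) := by
          exact_mod_cast hGn (s, z) n
        push_cast at h4
        linarith [Nat.le_ceil (2 * ((n : ℚ) + 1) / e (s, z) n)]
      exact_mod_cast h3
    have hq : |2 * x (s, z) / (e (s, z) n : ℝ)| ≤ 2 * ((n : ℝ) + 1) / e (s, z) n := by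
      rw [abs_div, abs_of_pos hep, abs_mul, abs_two]
      gcongr
      linarith
    obtain ⟨hq1, hq2⟩ := abs_le.1 hq
    have hj1 : (j n : ℝ) < 2 * x (s, z) / (e (s, z) n : ℝ) := by
      have := Int.ceil_lt_add_one (2 * x (s, z) / (e (s, z) n : ℝ))
      simp only [hj]
      push_cast
      linarith
    have hj2 : 2 * x (s, z) / (e (s, z) n : ℝ) ≤ j n + 1 := by
      have := Int.le_ceil (2 * x (s, z) / (e (s, z) n : ℝ))
      simp only [hj]
      push_cast
      linarith
    have hj3 : (0 : ℤ) ≤ j n + G (s, z) n := by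
      have : (0 : ℝ) ≤ ((j n + G (s, z) n : ℤ) : ℝ) := by
        push_cast
        linarith
      exact_mod_cast this
    have hj4 : j n + G (s, z) n < 2 * G (s, z) n + 1 := by
      have : ((j n + G (s, z) n : ℤ) : ℝ) < ((2 * G (s, z) n + 1 : ℤ) : ℝ) := by
        push_cast
        linarith
      exact_mod_cast this
    have hval : (((z' (co γ (G (s, z) n))).val : ℕ) : ℝ) = (j n : ℝ) + G (s, z) n := by
      rw [hfn]
      have h5 : (f n).val = (j n + G (s, z) n).toNat := by
        simp only [hf, Fin.ofNat, sz_co]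
        refine Nat.mod_eq_of_lt ?_
        omega
      rw [h5]
      have h6 : (((j n + G (s, z) n).toNat : ℤ) : ℝ) = ((j n + G (s, z) n : ℤ) : ℝ) := by
        rw [Int.toNat_of_nonneg hj3]
      push_cast at h6
      exact_mod_cast h6
    have hmix : mix (co γ 0) z z' (co γ (G (s, z) n)) = z' (co γ (G (s, z) n)) := by
      have : ¬ co γ (G (s, z) n) < co γ 0 := by
        rw [co_lt_co]
        rintro (h | ⟨-, h⟩)
        · exact lt_irrefl _ h
        · exact absurd h (Nat.not_lt_zero _)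
      simp [mix, this]
    have haval : (a (s, mix (co γ 0) z z') n : ℝ) = j n * e (s, z) n / 2 := by
      have h7 : a (s, mix (co γ 0) z z') n =
          ((((z' (co γ (G (s, z) n))).val : ℕ) : ℚ) - (G (s, z) n : ℚ)) * e (s, z) n / 2 := by
        have h8 : ∀ m, m = G (s, z) n →
            (mix (co γ 0) z z' (co γ m)).val = (z' (co γ (G (s, z) n))).val := by
          rintro m rfl
          rw [hmix]
        simp only [hadef]
        rw [h8 _ (hGG s z z' n), hGG, hee]
      rw [h7]
      push_cast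
      rw [hval]
      ring
    refine hz2 ⟨?_, ?_⟩
    · change (a (s, mix (co γ 0) z z') n : ℝ) < x (s, mix (co γ 0) z z')
      rw [haval, hxx]
      rw [lt_div_iff₀ hep] at hj1
      linarith
    · change x (s, mix (co γ 0) z z') <
        (a (s, mix (co γ 0) z z') n : ℝ) + e (s, mix (co γ 0) z z') n
      rw [haval, hxx, hee]
      rw [div_le_iff₀ hep] at hj2
      linarith
  rw [Filter.Eventually, mem_lO]
  have : {ω | ∃ n, (a ω n : ℝ) < x ω ∧ x ω < (a ω n : ℝ) + e ω n}ᶜ = E := by
    ext ω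
    simp [hE]
  rw [this]
  exact hnull

end Pool.Agent.H90.SN
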