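import Pool.Agent.H90.SN.Basic

/-!
# The parameters exist (module A7)

`d k = (1 / 2) ^ (3 * k + 20)`; `J k` is the least `J` with `16 ≤ (1 / 2) ^ k * (1 + d k) ^ J`;
`N k = 3 ^ (J k) * (1000 * 2 ^ (k + 4))`; `ep` is defined recursively, for example
`ep 0 = (1 / 2) ^ (J 0 + 30)`, `ep (k + 1) = ep k * (1 / 2) ^ (J (k + 1) + 3 * (k + 1) + 30)`;
`c k = 16 - 4 * (1 / 2) ^ k`.

If the weight is less than `16` then `j < J k`, so `2 ^ (j + 1) ≤ 2 ^ (J k)`, and the weight is at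
least `(1 / 2) ^ k`.  For `grow`: `(2 * t + 2) * d (k + 1) ≤ 2 ^ (k + 6) / 2 ^ (3 * k + 23)`, and
`(1 + d) ^ m ≤ 1 / (1 - m * d) ≤ 1 + 2 * m * d` if `m * d ≤ 1 / 2`; finally
`c (k + 1) - c k = 2 * (1 / 2) ^ k`.
-/

set_option autoImplicit false

namespace Pool.Agent.H90.SN

namespace ParExists

/-- the growth -/
noncomputable def dd (k : ℕ) : ℝ := (1 / 2 : ℝ) ^ (3 * k + 20)

theorem dd_pos (k : ℕ) : 0 < dd k := by unfold dd; positivity

theorem dd_anti (k : ℕ) : dd (k + 1) ≤ dd k := by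
  unfold dd
  exact pow_le_pow_of_le_one (by norm_num) (by norm_num) (by omega)

theorem dd_le (k : ℕ) : dd k ≤ 1 / 100 := by
  have h : dd k ≤ (1 / 2 : ℝ) ^ 20 := by
    unfold dd
    exact pow_le_pow_of_le_one (by norm_num) (by norm_num) (by omega)
  have h2 : ((1 : ℝ) / 2) ^ 20 ≤ 1 / 100 := by norm_num
  exact h.trans h2

theorem exists_J (k : ℕ) : ∃ J : ℕ, 16 ≤ (1 / 2 : ℝ) ^ k * (1 + dd k) ^ J := by
  have h1 : (1 : ℝ) < 1 + dd k := by have := dd_pos k; linarith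
  obtain ⟨J, hJ⟩ := pow_unbounded_of_one_lt (16 * 2 ^ k : ℝ) h1
  refine ⟨J, ?_⟩
  have h2 : (0 : ℝ) < (1 / 2 : ℝ) ^ k := by positivity
  have h3 := mul_le_mul_of_nonneg_left hJ.le h2.le
  have h4 : (1 / 2 : ℝ) ^ k * (16 * 2 ^ k) = 16 := by
    rw [one_div, inv_pow]
    field_simp
  linarith

/-- an exponent from which on the weight is at least `16` -/
noncomputable def J (k : ℕ) : ℕ := (exists_J k).choose

theorem J_spec (k : ℕ) : 16 ≤ (1 / 2 : ℝ) ^ k * (1 + dd k) ^ J k := (exists_J k).choose_spec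

theorem lt_J {k j : ℕ} (h : (1 / 2 : ℝ) ^ k * (1 + dd k) ^ j < 16) : j < J k := by
  by_contra hj
  push Not at hj
  have h1 : (1 : ℝ) ≤ 1 + dd k := by have := dd_pos k; linarith
  have h2 := pow_le_pow_right₀ h1 hj
  have h3 : (0 : ℝ) < (1 / 2 : ℝ) ^ k := by positivity
  have h4 := mul_le_mul_of_nonneg_left h2 h3.le
  have := J_spec k
  linarith

/-- the residuals -/
noncomputable def ep : ℕ → ℝ
  | 0 => (1 / 2 : ℝ) ^ (J 0 + 30)
  | k + 1 => ep k * (1 / 2 : ℝ) ^ (J (k + 1) + 3 * (k + 1) + 30)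

theorem ep_pos (k : ℕ) : 0 < ep k := by
  induction k with
  | zero => unfold ep; positivity
  | succ k ih => unfold ep; positivity

theorem half_pow_le_one (m : ℕ) : (1 / 2 : ℝ) ^ m ≤ 1 :=
  pow_le_one₀ (by norm_num) (by norm_num)

theorem ep_succ_le (k : ℕ) : ep (k + 1) ≤ ep k := by
  rw [ep]
  exact mul_le_of_le_one_right (ep_pos k).le (half_pow_le_one _)

theorem ep_anti : Antitone ep := antitone_nat_of_succ_le ep_succ_le

theorem ep_le (k : ℕ) : ep k ≤ (1 / 2) ^ (k + 10) := by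
  induction k with
  | zero =>
    rw [ep]
    exact pow_le_pow_of_le_one (by norm_num) (by norm_num) (by omega)
  | succ k ih =>
    rw [ep]
    calc ep k * (1 / 2 : ℝ) ^ (J (k + 1) + 3 * (k + 1) + 30)
        ≤ (1 / 2) ^ (k + 10) * (1 / 2 : ℝ) ^ 1 := by
          refine mul_le_mul ih ?_ (by positivity) (by positivity)
          exact pow_le_pow_of_le_one (by norm_num) (by norm_num) (by omega)
      _ = (1 / 2) ^ (k + 1 + 10) := by rw [← pow_add]

/-- a uniform form of the bound -/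
theorem ep_le' (k : ℕ) : ep k ≤ (1 / 2 : ℝ) ^ (J k + 3 * k + 30) := by
  cases k with
  | zero => rw [ep]
  | succ k =>
    rw [ep]
    refine mul_le_of_le_one_left (by positivity) ?_
    exact (ep_le k).trans (half_pow_le_one _)

theorem ep_le'' {k k' : ℕ} (h : k < k') : ep k' ≤ ep k * (1 / 2 : ℝ) ^ (J k' + 3 * k' + 30) := by
  cases k' with
  | zero => omega
  | succ k' =>
    rw [ep]
    exact mul_le_mul_of_nonneg_right (ep_anti (by omega)) (by positivity)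

theorem two_mul_half (m : ℕ) : (2 : ℝ) ^ m * (1 / 2 : ℝ) ^ m = 1 := by
  rw [← mul_pow]; norm_num

theorem wt_ge (k j : ℕ) : (1 / 2 : ℝ) ^ k ≤ (1 / 2 : ℝ) ^ k * (1 + dd k) ^ j := by
  have := dd_pos k
  exact le_mul_of_one_le_right (by positivity) (one_le_pow₀ (by linarith))

theorem two_pow_mul {k j : ℕ} (h : j < J k) (s : ℕ) :
    (2 : ℝ) ^ (j + 1) * (1 / 2 : ℝ) ^ (J k + s) ≤ (1 / 2 : ℝ) ^ s := by
  have h1 : (2 : ℝ) ^ (j + 1) ≤ 2 ^ J k := pow_le_pow_right₀ (by norm_num) (by omega)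
  calc (2 : ℝ) ^ (j + 1) * (1 / 2 : ℝ) ^ (J k + s) ≤ 2 ^ J k * (1 / 2 : ℝ) ^ (J k + s) :=
        mul_le_mul_of_nonneg_right h1 (by positivity)
    _ = (1 / 2 : ℝ) ^ s := by rw [pow_add, ← mul_assoc, two_mul_half, one_mul]

theorem slots (k j m : ℕ) (h : (1 / 2 : ℝ) ^ k * (1 + dd k) ^ j < 16)
    (hm : 3 ^ J k * (1000 * 2 ^ (k + 4)) ≤ 3 ^ j * m) : 1000 * 2 ^ (k + 4) ≤ m := by
  have h1 := lt_J h
  have h2 : 3 ^ j * m ≤ 3 ^ J k * m :=
    Nat.mul_le_mul_right _ (Nat.pow_le_pow_right (by norm_num) h1.le)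
  exact Nat.le_of_mul_le_mul_left (hm.trans h2) (by positivity)

theorem resid (k j : ℕ) (h : (1 / 2 : ℝ) ^ k * (1 + dd k) ^ j < 16) :
    2 ^ (j + 1) * ep k ≤ (1 / 2 : ℝ) ^ k * (1 + dd k) ^ j / 2 ^ (2 * k + 20) := by
  have h1 := lt_J h
  calc (2 : ℝ) ^ (j + 1) * ep k ≤ 2 ^ (j + 1) * (1 / 2 : ℝ) ^ (J k + (3 * k + 30)) := by
        refine mul_le_mul_of_nonneg_left ?_ (by positivity)
        rw [← add_assoc]; exact ep_le' k
    _ ≤ (1 / 2 : ℝ) ^ (3 * k + 30) := two_pow_mul h1 _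
    _ ≤ (1 / 2 : ℝ) ^ (k + (2 * k + 20)) :=
        pow_le_pow_of_le_one (by norm_num) (by norm_num) (by omega)
    _ = (1 / 2 : ℝ) ^ k / 2 ^ (2 * k + 20) := by rw [pow_add, one_div_pow (2 : ℝ) (2 * k + 20)]; ring
    _ ≤ (1 / 2 : ℝ) ^ k * (1 + dd k) ^ j / 2 ^ (2 * k + 20) :=
        div_le_div_of_nonneg_right (wt_ge k j) (by positivity)

theorem resid' (k k' j : ℕ) (hk : k < k') (h : (1 / 2 : ℝ) ^ k' * (1 + dd k') ^ j < 16) :
    2 ^ (j + 1) * ep k' ≤ (1 / 2 : ℝ) ^ k' * (1 + dd k') ^ j * ep k / 2 ^ 20 := by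
  have h1 := lt_J h
  have h0 := (ep_pos k).le
  calc (2 : ℝ) ^ (j + 1) * ep k'
      ≤ 2 ^ (j + 1) * (ep k * (1 / 2 : ℝ) ^ (J k' + (3 * k' + 30))) := by
        refine mul_le_mul_of_nonneg_left ?_ (by positivity)
        rw [← add_assoc]; exact ep_le'' hk
    _ = (2 ^ (j + 1) * (1 / 2 : ℝ) ^ (J k' + (3 * k' + 30))) * ep k := by ring
    _ ≤ (1 / 2 : ℝ) ^ (3 * k' + 30) * ep k := mul_le_mul_of_nonneg_right (two_pow_mul h1 _) h0
    _ ≤ (1 / 2 : ℝ) ^ (k' + 20) * ep k := by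
        refine mul_le_mul_of_nonneg_right ?_ h0
        exact pow_le_pow_of_le_one (by norm_num) (by norm_num) (by omega)
    _ = (1 / 2 : ℝ) ^ k' * ep k / 2 ^ 20 := by rw [pow_add, one_div_pow (2 : ℝ) 20]; ring
    _ ≤ (1 / 2 : ℝ) ^ k' * (1 + dd k') ^ j * ep k / 2 ^ 20 :=
        div_le_div_of_nonneg_right (mul_le_mul_of_nonneg_right (wt_ge k' j) h0) (by positivity)

/-- the constants of the main estimate -/
noncomputable def cc (k : ℕ) : ℝ := 16 - 4 * (1 / 2 : ℝ) ^ k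

theorem pow_le_of_small {d : ℝ} (hd : 0 ≤ d) (m : ℕ) (h : m * d ≤ 1) :
    (1 + d) ^ m ≤ 1 + 2 * (m * d) := by
  have h1 : (1 + d) ^ m ≤ Real.exp (m * d) := by
    rw [Real.exp_nat_mul]
    refine pow_le_pow_left₀ (by linarith) ?_ m
    have := Real.add_one_le_exp d
    linarith
  have h2 : 0 ≤ (m : ℝ) * d := by positivity
  have h3 : Real.exp (m * d) ≤ 1 + 2 * (m * d) := by
    have h4 := Real.abs_exp_sub_one_le (x := m * d) (by rw [abs_of_nonneg h2]; exact h)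
    rw [abs_of_nonneg h2] at h4
    have h5 := le_abs_self (Real.exp (m * d) - 1)
    linarith
  exact h1.trans h3

theorem grow (k t : ℕ) (ht : (t : ℝ) ≤ 2 ^ (k + 4)) :
    (1 + dd (k + 1)) ^ (2 * t + 2) * (cc k + 2 ^ (k + 4) * (16 / 2 ^ (2 * k + 20))) ≤ cc (k + 1) := by
  set x : ℝ := (1 / 2 : ℝ) ^ k with hx
  have hx0 : 0 < x := by positivity
  have hx1 : x ≤ 1 := half_pow_le_one k
  have hd : dd (k + 1) = x ^ 3 / 2 ^ 23 := by
    unfold dd
    rw [hx, ← pow_mul, show 3 * (k + 1) + 20 = k * 3 + 23 by ring, pow_add, one_div_pow (2 : ℝ) 23]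
    ring
  have h2k : (2 : ℝ) ^ k = 1 / x := by
    rw [hx, one_div_pow]; simp
  have ht' : (t : ℝ) ≤ 16 / x := by
    rw [pow_add, h2k] at ht
    calc (t : ℝ) ≤ 1 / x * 2 ^ 4 := ht
      _ = 16 / x := by ring
  have htx : (t : ℝ) * x ≤ 16 := by
    rwa [le_div_iff₀ hx0] at ht'
  have hmd : ((2 * t + 2 : ℕ) : ℝ) * dd (k + 1) ≤ x ^ 2 / 2 ^ 17 := by
    rw [hd]
    push_cast
    have h1 : (2 * (t : ℝ) + 2) * x ≤ 34 := by nlinarith
    calc (2 * (t : ℝ) + 2) * (x ^ 3 / 2 ^ 23) = ((2 * (t : ℝ) + 2) * x) * (x ^ 2 / 2 ^ 23) := by ring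
      _ ≤ 34 * (x ^ 2 / 2 ^ 23) := mul_le_mul_of_nonneg_right h1 (by positivity)
      _ ≤ x ^ 2 / 2 ^ 17 := by
        have : 0 ≤ x ^ 2 := by positivity
        have e : x ^ 2 / 2 ^ 17 - 34 * (x ^ 2 / 2 ^ 23) = x ^ 2 * (30 / 2 ^ 23) := by norm_num; ring
        nlinarith
  have hmd1 : ((2 * t + 2 : ℕ) : ℝ) * dd (k + 1) ≤ 1 := by
    refine hmd.trans ?_
    have : x ^ 2 ≤ 1 := by nlinarith
    rw [div_le_one (by positivity)]
    exact this.trans (by norm_num)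
  have hp : (1 + dd (k + 1)) ^ (2 * t + 2) ≤ 1 + x ^ 2 / 2 ^ 16 := by
    refine (pow_le_of_small (dd_pos _).le _ hmd1).trans ?_
    have : 2 * (x ^ 2 / 2 ^ 17) = x ^ 2 / 2 ^ 16 := by norm_num; ring
    linarith
  have hr : (2 : ℝ) ^ (k + 4) * (16 / 2 ^ (2 * k + 20)) = x / 2 ^ 12 := by
    rw [pow_add, pow_add, mul_comm 2 k, pow_mul, h2k]
    field_simp
    norm_num
  have hc : cc k = 16 - 4 * x := rfl
  have hc1 : cc (k + 1) = 16 - 2 * x := by
    unfold cc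
    rw [pow_succ, ← hx]
    ring
  rw [hr, hc, hc1]
  have h5 : 0 ≤ 16 - 4 * x + x / 2 ^ 12 := by
    have : 0 ≤ x / 2 ^ 12 := by positivity
    linarith
  refine (mul_le_mul_of_nonneg_right hp h5).trans ?_
  have h6 : x ^ 2 ≤ x := by nlinarith
  have h7 : 0 ≤ x ^ 2 := by positivity
  have h8 : x ^ 3 ≤ x := by nlinarith
  nlinarith

end ParExists

open ParExists in
theorem exists_par : Nonempty Par :=
  ⟨{ d := dd
     N := fun k => 3 ^ J k * (1000 * 2 ^ (k + 4))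
     ep := ep
     c := cc
     d_pos := dd_pos
     d_anti := dd_anti
     d_le := dd_le
     ep_pos := ep_pos
     ep_le := ep_le
     slots := fun k j m h hm => slots k j m h hm
     resid := resid
     resid' := resid'
     c_lo := fun k => by
      have := half_pow_le_one k
      unfold cc
      linarith
     c_hi := fun k => by
      have : (0 : ℝ) < (1 / 2 : ℝ) ^ k := by positivity
      unfold cc
      linarith
     grow := grow }⟩

end Pool.Agent.H90.SN
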