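import Pool.Agent.H90.SN.InstCcc
import Pool.Agent.H90.SN.InstDom
import Pool.Agent.H90.SN.InstGuess
import Pool.Agent.H90.SN.InstEvade
import Pool.Agent.H90.SN.ParExists

/-!
# A base space gives a system
-/

set_option autoImplicit false

open Filter ENNReal Topology MeasureTheory

namespace Pool.Agent.H90.SN

/-- the system over a base space -/
noncomputable def sysOf (π : Par) (B : Base) : Sys where
  Ω := B.S × Zm
  ms := inferInstance
  l := lO π B
  neBot := inferInstance
  cinf := inferInstance
  Sg := Sg B
  sg_mono := sg_mono B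
  sg_le := sg_le B
  ccc := lO_ccc π B
  bounded := lO_bounded B
  dom := lO_dom π B
  guess := lO_guess π B (lO_bounded B)
  evade := lO_evade π B

theorem exists_sys (h : Nonempty Base) : Nonempty Sys := by
  obtain ⟨B⟩ := h
  obtain ⟨π⟩ := exists_par
  exact ⟨sysOf π B⟩

end Pool.Agent.H90.SN
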