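import Pool.Agent.H90.SN.SpaceB

/-!
# The countable chain condition (module C6)

* `lO_ccc`.  Suppose all `E i ∩ E j`, `i ≠ j`, are null.  For every `i` there is `m` such that
  `A i m = {s | 1 / (m + 1) < nu (E i)_s}` is not null (countable union); by a pigeonhole argument
  (`Om` is not a countable union of countable sets) there are `m` and an uncountable set of `i`; re-index
  by `Om` (an uncountable subset of `Om` contains an injective image of `Om`; or work with the
  uncountable set).  Put `ε = 1 / (m + 1)`.  The sets `A i = A i m` are measurable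
  (`measurable_nu_base`).
  Claim: there are distinct `i 0, i 1, …` and a non-null set of `s` (at least one `s` in any given
  set of full measure) with `s ∈ A (i n)` for all `n`, up to a null set.  Proof: by `B.ccc` there is,
  for every set `I` of indices, a countable `I₀ ⊆ I` such that `A i \ ⋃ j ∈ I₀, A j` is null for all
  `i ∈ I` (otherwise choose recursively `ω₁` many `i_ξ` such that `A i_ξ \ ⋃ η < ξ, A i_η` is not
  null; these sets are pairwise disjoint).  Choose in this way countable `I 0`, then `I 1`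
  for `I \ I 0`, and so on; let `i` be outside all of them: `A i \ ⋃ j ∈ I n, A j` is null for
  all `n`.
  For almost all `s ∈ A i` there are `i n ∈ I n` with `s ∈ A (i n)`, and the sets
  `(E (i n) ∩ E (i m))_s` are null for all `n ≠ m` (countably many pairs).  This contradicts
  `Sub.nu_ccc` for the sections at `s`.
-/

set_option autoImplicit false

open Filter ENNReal Topology MeasureTheory

namespace Pool.Agent.H90.SN

variable (π : Par) (B : Base)

/-- up to null sets, the union of a family of sets is a countable union -/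
theorem exists_countable_cover (A : Om → Set B.S) (hA : ∀ i, MeasurableSet (A i)) (I : Set Om) :
    ∃ K : Set Om, K.Countable ∧ K ⊆ I ∧
      ∀ i ∈ I, ∀ᶠ s in B.l, s ∈ A i → ∃ j ∈ K, s ∈ A j := by
  by_contra hcon
  have hpick : ∀ K : Set Om, ∃ i, K.Countable → K ⊆ I →
      i ∈ I ∧ ∃ᶠ s in B.l, s ∈ A i ∧ ∀ j ∈ K, s ∉ A j := by
    intro K
    by_cases hK : K.Countable ∧ K ⊆ I
    · by_contra hno
      refine hcon ⟨K, hK.1, hK.2, fun i hi => ?_⟩
      by_contra hne
      refine hno ⟨i, fun _ _ => ⟨hi, ?_⟩⟩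
      rw [Filter.not_eventually] at hne
      refine hne.mono fun s hs => ?_
      push Not at hs
      exact hs
    · exact ⟨Classical.choice (by
        by_contra hem
        have := not_nonempty_iff.1 hem
        exact om_not_countable inferInstance),
        fun h1 h2 => absurd ⟨h1, h2⟩ hK⟩
  choose pick hpick using hpick
  have hwf : WellFounded (fun a b : Om => a < b) := wellFounded_lt
  obtain ⟨g, hg⟩ : ∃ g : Om → Om, ∀ ξ, g ξ = pick (g '' Set.Iio ξ) := by
    refine ⟨hwf.fix fun ξ rec => pick {x | ∃ η, ∃ h : η < ξ, rec η h = x}, fun ξ => ?_⟩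
    rw [hwf.fix_eq]
    congr 1
    ext x
    constructor
    · rintro ⟨η, h, rfl⟩
      exact ⟨η, h, rfl⟩
    · rintro ⟨η, h, rfl⟩
      exact ⟨η, h, rfl⟩
  have hgI : ∀ ξ, g ξ ∈ I := by
    intro ξ
    induction ξ using hwf.induction with
    | _ ξ ih =>
      rw [hg]
      refine (hpick _ ((om_countable_Iio ξ).image g) ?_).1
      rintro _ ⟨η, hη, rfl⟩
      exact ih η hη
  have hgf : ∀ ξ, ∃ᶠ s in B.l, s ∈ A (g ξ) \ ⋃ η ∈ Set.Iio ξ, A (g η) := by
    intro ξ
    have h1 := (hpick _ ((om_countable_Iio ξ).image g) (by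
      rintro _ ⟨η, hη, rfl⟩
      exact hgI η)).2
    rw [← hg] at h1
    refine h1.mono fun s hs => ⟨hs.1, fun hs' => ?_⟩
    obtain ⟨η, hη, hsη⟩ := Set.mem_iUnion₂.1 hs'
    exact hs.2 _ ⟨η, hη, rfl⟩ hsη
  obtain ⟨i, j, hij, hf⟩ := B.ccc (fun ξ => A (g ξ) \ ⋃ η ∈ Set.Iio ξ, A (g η))
    (fun ξ => (hA _).diff (MeasurableSet.biUnion (om_countable_Iio ξ) fun η _ => hA _)) hgf
  obtain ⟨s, hs⟩ := hf.exists
  rcases lt_or_gt_of_ne hij with h | h
  · exact hs.2.2 (Set.mem_iUnion₂.2 ⟨i, h, hs.1.1⟩)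
  · exact hs.1.2 (Set.mem_iUnion₂.2 ⟨j, h, hs.2.1⟩)

theorem exists_common (A : Om → Set B.S) (hA : ∀ i, MeasurableSet (A i)) (J : Set Om)
    (hJ : ¬ J.Countable) (hn : ∀ i ∈ J, ∃ᶠ s in B.l, s ∈ A i) :
    ∃ I : ℕ → Set Om, (∀ n, (I n).Countable) ∧ (∀ n, I n ⊆ J) ∧
      (∀ n m, n < m → Disjoint (I n) (I m)) ∧
      ∃ᶠ s in B.l, ∀ n, ∃ j ∈ I n, s ∈ A j := by
  choose ex hex1 hex2 hex3 using fun I => exists_countable_cover B A hA I
  let U : ℕ → Set Om := fun n => Nat.rec ∅ (fun _ U => U ∪ ex (J \ U)) n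
  have hU0 : U 0 = ∅ := rfl
  have hUs : ∀ n, U (n + 1) = U n ∪ ex (J \ U n) := fun n => rfl
  have hUc : ∀ n, (U n).Countable := by
    intro n
    induction n with
    | zero => rw [hU0]; exact Set.countable_empty
    | succ n ih => rw [hUs]; exact ih.union (hex1 _)
  have hUm : Monotone U := monotone_nat_of_le_succ fun n => by
    rw [hUs]; exact Set.subset_union_left
  have hUall : ¬ J ⊆ ⋃ n, U n := fun h => hJ ((Set.countable_iUnion hUc).mono h)
  obtain ⟨i, hiJ, hi⟩ := Set.not_subset.1 hUall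
  refine ⟨fun n => ex (J \ U n), fun n => hex1 _, fun n => (hex2 _).trans Set.sdiff_subset,
    fun n m hnm => ?_, ?_⟩
  · refine Set.disjoint_left.2 fun x hx hx' => ?_
    refine ((hex2 _) hx').2 (hUm (Nat.succ_le_of_lt hnm) ?_)
    rw [Nat.succ_eq_add_one, hUs]
    exact Or.inr hx
  · have hall : ∀ᶠ s in B.l, ∀ n, s ∈ A i → ∃ j ∈ ex (J \ U n), s ∈ A j := by
      refine eventually_countable_forall.2 fun n => ?_
      exact hex3 _ i ⟨hiJ, fun h => hi (Set.mem_iUnion.2 ⟨n, h⟩)⟩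
    exact ((hn i hiJ).and_eventually hall).mono fun s hs n => hs.2 n hs.1

theorem lO_ccc (E : Om → Set (B.S × Zm)) (hE : ∀ i, MeasurableSet (E i))
    (h : ∀ i, ∃ᶠ x in lO π B, x ∈ E i) : ∃ i j, i ≠ j ∧ ∃ᶠ x in lO π B, x ∈ E i ∩ E j := by
  by_contra hcon
  have hcon' : ∀ i j, i ≠ j →
      ∀ᶠ s in B.l, (sub π Tm bt ⊤).nu {z | (s, z) ∈ E i ∩ E j} = 0 := by
    intro i j hij
    by_contra hne
    refine hcon ⟨i, j, hij, ?_⟩
    rw [frequently_lO]
    exact Filter.not_eventually.1 hne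
  set f : Om → B.S → ℝ≥0∞ := fun i s => (sub π Tm bt ⊤).nu {z | (s, z) ∈ E i} with hf
  have hfm : ∀ i, Measurable (f i) := fun i => measurable_nu_base π B (hE i)
  have hex : ∀ i, ∃ m : ℕ, ∃ᶠ s in B.l, ((m : ℝ≥0∞) + 1)⁻¹ < f i s := by
    intro i
    by_contra hne
    push Not at hne
    have h1 : ∀ᶠ s in B.l, ∀ m : ℕ, f i s ≤ ((m : ℝ≥0∞) + 1)⁻¹ := by
      refine eventually_countable_forall.2 fun m => ?_
      simpa using hne m
    have h2 := (frequently_lO π B).1 (h i)
    obtain ⟨s, hs, hs'⟩ := (h2.and_eventually h1).exists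
    have h3 : Tendsto (fun m : ℕ => ((m : ℝ≥0∞) + 1)⁻¹) atTop (𝓝 0) := by
      have h4 := (tendsto_add_atTop_iff_nat (f := fun m : ℕ => (m : ℝ≥0∞)⁻¹) 1).2
        ENNReal.tendsto_inv_nat_nhds_zero
      simpa using h4
    exact hs (le_antisymm (ge_of_tendsto' h3 hs') zero_le)
  choose m hm using hex
  obtain ⟨m₀, hm₀⟩ : ∃ m₀, ¬ {i | m i = m₀}.Countable := by
    by_contra hne
    push Not at hne
    have h1 : (⋃ m₀, {i | m i = m₀}).Countable := Set.countable_iUnion hne
    refine om_not_countable (Set.countable_univ_iff.1 (h1.mono fun i _ => ?_))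
    exact Set.mem_iUnion.2 ⟨m i, rfl⟩
  set ε : ℝ≥0∞ := ((m₀ : ℝ≥0∞) + 1)⁻¹ with hε
  have hε0 : ε ≠ 0 := by
    rw [hε, Ne, ENNReal.inv_eq_zero]
    exact ENNReal.add_ne_top.2 ⟨ENNReal.natCast_ne_top _, ENNReal.one_ne_top⟩
  obtain ⟨I, hIc, hIJ, hId, hIf⟩ := exists_common B (fun i => {s | ε < f i s})
    (fun i => measurableSet_lt measurable_const (hfm i)) {i | m i = m₀} hm₀ (by
      intro i hi
      have hi' : m i = m₀ := hi
      have := hm i
      rw [hi'] at this
      exact this)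
  set K : Set Om := ⋃ n, I n with hK
  have hKc : K.Countable := Set.countable_iUnion hIc
  have hall : ∀ᶠ s in B.l, ∀ p ∈ K ×ˢ K, p.1 ≠ p.2 →
      (sub π Tm bt ⊤).nu {z | (s, z) ∈ E p.1 ∩ E p.2} = 0 := by
    refine (eventually_countable_ball (hKc.prod hKc)).2 fun p _ => ?_
    by_cases hp : p.1 = p.2
    · exact Filter.Eventually.of_forall fun s h => absurd hp h
    · exact (hcon' _ _ hp).mono fun s hs _ => hs
  obtain ⟨s, hs, hs'⟩ := (hIf.and_eventually hall).exists
  choose j hjI hjA using hs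
  have hinj : ∀ n n', n ≠ n' → j n ≠ j n' := by
    intro n n' hne heq
    rcases lt_or_gt_of_ne hne with h | h
    · exact Set.disjoint_left.1 (hId _ _ h) (hjI n) (heq ▸ hjI n')
    · exact Set.disjoint_left.1 (hId _ _ h) (hjI n') (heq ▸ hjI n)
  obtain ⟨n, n', hne, hnn⟩ := (sub π Tm bt ⊤).nu_ccc (E := fun n => {z | (s, z) ∈ E (j n)})
    (fun n => by
      rw [ms_sub]
      exact measurable_prodMk_left (hE (j n))) hε0 (fun n => le_of_lt (hjA n))
  exact hnn (hs' (j n, j n') ⟨Set.mem_iUnion.2 ⟨n, hjI n⟩, Set.mem_iUnion.2 ⟨n', hjI n'⟩⟩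
    (hinj n n' hne))

end Pool.Agent.H90.SN
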