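import Pool.Agent.H90.SN.Select

/-!
# Exhaustivity, limit step (module B4)

Proof sketch of `exh_limit`.  Let `k` be given, `N = π.N k`.  Choose recursively
`h 0 = a`, `h (j + 1) = g (n j)` with `h j < h (j + 1)` and, by `select` for `h j` (`Exh π T a (h j)`
holds as `h j < b`),
`mu π a (h j) {u | ¬ Good π k (h j) (g (n j)) b (sec (E i) (h j) u)} < (1 / 2) ^ k / (N + 1)` for all
`i ≥ n j`.  Let `i` be at least all `n j`, `j < N`, and
`B j := {u | ¬ Good π k (h j) (h (j + 1)) b (sec (E i) (h j) u)}`, `X := E i \ ⋃ j < N, B j`.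
Then `E i ⊆ X ∪ ⋃ j < N, B j`, and `mu π a b (B j) ≤ mu π a (h j) (B j)` (`mu_interval`), so it is
enough to show `Sm π k a b X ((1 / 2) ^ k)`; then `mu π a b (E i) ≤ 2 * (1 / 2) ^ k` for all large `i`.

For almost all `p`, `Good` gives, for all `j < N` and all `u ∉ B j`, a set `D` as in `Good` for
`sec (E i) (h j) u` (there are only finitely many sections, `Fsp.finite_sec`, and finitely many
`j`).  For such `p ≥ k`, `X` is an element of class `k` with parameter `0` on `[a, b)`, with slots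
`[h j, h (j + 1))`, `j < N`: for `j`, `u`, if `u ∉ B j` take `D` from `Good`:
`sec X (h (j+1)) (mix (h j) u v) ⊆ sec (E i) (h (j+1)) (mix (h j) u v)
  = sec (sec (E i) (h j) u) (h (j+1)) v`;
if `u ∈ B j` take `D = univ` (`large_univ`): `sec X (h (j+1)) (mix (h j) u v) = ∅` as `B j` depends on
the coordinates below `h j` only (`dep_of_sec`, `Dep.mem_mix`).
(`X` depends on `[a, b)`: all sets `B j` and `E i` do.)  Use `cov_elem`, `p + 1 - k = (p - k) + 1`.
-/

set_option autoImplicit false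

open Filter ENNReal Topology

namespace Pool.Agent.H90.SN

variable {Γ : Type} [LinearOrder Γ] {T : Γ → Type} (π : Par)

/-- the choice of the next point -/
theorem exh_next [∀ g, Nonempty (T g)] [∀ g, Finite (T g)] {a b : Γ} (k : ℕ) {δ : ℝ≥0∞}
    (hδ : δ ≠ 0)
    (ih : ∀ h < b, Exh π T a h) {g : ℕ → Γ} (hg : Monotone g)
    (hgb : ∀ n, g n < b) (hcof : ∀ n, ∃ m, g n < g m) {E : ℕ → Set (∀ g, T g)}
    (hE : ∀ i, Fsp (E i)) (hEd : ∀ i, Dep (E i) a (g i))
    (hdis : Pairwise (Function.onFun Disjoint E)) (h : Γ) (hah : a ≤ h) (hh : ∃ n, h ≤ g n) :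
    ∃ m, h < g m ∧ ∀ i ≥ m, mu π a h {u | ¬ Good π k h (g m) b (sec (E i) h u)} < δ := by
  obtain ⟨n, hn⟩ := hh
  obtain ⟨m, hm⟩ := hcof n
  obtain ⟨n₀, hn₀⟩ := select π k (ih h (hn.trans_lt (hgb n))) hah hg (fun n => (hgb n).le)
    ⟨n, hn⟩ hE hEd hdis hδ
  exact ⟨max m n₀, (hn.trans_lt hm).trans_le (hg (le_max_left _ _)),
    fun i hi => hn₀ _ (le_max_right _ _) i hi⟩

/-- the finite version of the construction -/
theorem exh_slots [∀ g, Nonempty (T g)] [∀ g, Finite (T g)] {a b : Γ} (k : ℕ) {h : ℕ → Γ} (h0 : h 0 = a)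
    (hlt : ∀ j, h j < h (j + 1)) (hb : ∀ j, h j ≤ b) {E : Set (∀ g, T g)} (hE : Fsp E)
    (hEd : Dep E a b) :
    Sm π k a b (E \ ⋃ j < π.N k, {u | ¬ Good π k (h j) (h (j + 1)) b (sec E (h j) u)})
      ((1 / 2) ^ k) := by
  have hmono : Monotone h := monotone_nat_of_le_succ fun j => (hlt j).le
  have hah : ∀ j, a ≤ h j := fun j => h0 ▸ hmono (Nat.zero_le j)
  set B : ℕ → Set (∀ g, T g) := fun j => {u | ¬ Good π k (h j) (h (j + 1)) b (sec E (h j) u)}
    with hB
  have hBd : ∀ j, Dep (B j) a (h j) := fun j =>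
    dep_of_sec hEd (h j) (fun A => ¬ Good π k (h j) (h (j + 1)) b A)
  -- for almost all `p`
  have hev : ∀ᶠ p in (hyperfilter ℕ : Filter ℕ), ∀ j ∈ Finset.range (π.N k),
      ∀ A ∈ Set.range (sec E (h j)), Good π k (h j) (h (j + 1)) b A →
      ∃ D, Dep D (h j) (h (j + 1)) ∧
        Large (Cov π (p - k) (k + 1)) (h j) (h (j + 1)) D ∧
        ∀ v ∈ D, Cov π (p - k) (k + 1) (h (j + 1)) b (sec A (h (j + 1)) v) (π.ep k) := by
    rw [Filter.eventually_all_finset]
    intro j _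
    rw [Filter.eventually_all_finite (hE.finite_sec (h j))]
    intro A _
    by_cases hA : Good π k (h j) (h (j + 1)) b A
    · exact hA.mono fun p hp _ => hp
    · exact Filter.Eventually.of_forall fun p hp => absurd hp hA
  have hlarge : ∀ (n : ℕ) (c d : Γ),
      Large (Cov π n (k + 1)) c d (Set.univ : Set (∀ g, T g)) := by
    intro n c d w hw hc
    have h1 := main π hc
    have h2 := π.c_lo (k + 1)
    linarith
  filter_upwards [hev, eventually_ge_hyper k] with p hp hkp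
  have hpk : p + 1 - k = (p - k) + 1 := by omega
  have hwt : wt π k 0 = (1 / 2 : ℝ) ^ k := by simp [wt]
  rw [hpk, ← hwt]
  refine cov_elem π ⟨?_, Or.inl ⟨π.N k, h, fun j => h (j + 1), by simp, ⟨?_, ?_⟩, ?_⟩⟩
  · -- dependence
    intro z z' hz
    have h1 := hEd z z' hz
    have h2 : ∀ j, (z ∈ B j ↔ z' ∈ B j) := fun j =>
      hBd j z z' fun g hg1 hg2 => hz g hg1 (hg2.trans_le (hb j))
    have h3 : (z ∈ ⋃ j < π.N k, B j) ↔ (z' ∈ ⋃ j < π.N k, B j) := by
      simp only [Set.mem_iUnion, h2]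
    change (z ∈ E ∧ z ∉ ⋃ j < π.N k, B j) ↔ (z' ∈ E ∧ z' ∉ ⋃ j < π.N k, B j)
    rw [h1, h3]
  · exact fun j _ => ⟨hah j, hlt j, hb (j + 1)⟩
  · exact fun i j hij _ => hmono hij
  · -- escape
    intro j hj u
    have hrs : rs π k 0 = π.ep k := by simp [rs]
    rw [hrs]
    by_cases hu : u ∈ B j
    · refine ⟨Set.univ, dep_univ _ _, hlarge _ _ _, fun v _ => ?_⟩
      · have hemp : sec (E \ ⋃ j < π.N k, B j) (h (j + 1)) (mix (h j) u v) = ∅ := by
          refine Set.eq_empty_of_forall_notMem fun z hz => ?_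
          rw [mem_sec] at hz
          refine hz.2 ?_
          simp only [Set.mem_iUnion]
          refine ⟨j, hj, ?_⟩
          rw [(hBd j).mem_mix (hlt j).le, (hBd j).mem_mix le_rfl]
          exact hu
        rw [hemp]
        exact cov_empty π _ _ _ _ (π.ep_pos k).le
    · have hgood : Good π k (h j) (h (j + 1)) b (sec E (h j) u) := by
        by_contra hc
        exact hu hc
      obtain ⟨D, hD1, hD2, hD3⟩ := hp j (Finset.mem_range.2 hj) _ ⟨u, rfl⟩ hgood
      refine ⟨D, hD1, hD2, fun v hv => ?_⟩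
      refine cov_mono π (hD3 v hv) ?_ le_rfl
      rw [sec_sec (hlt j).le]
      exact sec_mono Set.diff_subset _ _

theorem exh_limit [∀ g, Nonempty (T g)] [∀ g, Finite (T g)] {a b : Γ}
    (ih : ∀ h < b, Exh π T a h) {g : ℕ → Γ} (hg : Monotone g) (hag : ∀ n, a ≤ g n)
    (hgb : ∀ n, g n < b) (hcof : ∀ n, ∃ m, g n < g m) {E : ℕ → Set (∀ g, T g)}
    (hE : ∀ i, Fsp (E i)) (hEd : ∀ i, Dep (E i) a (g i))
    (hdis : Pairwise (Function.onFun Disjoint E)) :
    Tendsto (fun i => mu π a b (E i)) atTop (𝓝 0) := by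
  rw [ENNReal.tendsto_atTop_zero]
  intro ε hε
  -- the choice of `k`
  obtain ⟨k, hk⟩ : ∃ k : ℕ, ENNReal.ofReal ((1 / 2) ^ k) + ENNReal.ofReal ((1 / 2) ^ k) ≤ ε := by
    have h1 : Tendsto (fun k : ℕ => ENNReal.ofReal ((1 / 2) ^ k) + ENNReal.ofReal ((1 / 2) ^ k))
        atTop (𝓝 0) := by
      have h2 : Tendsto (fun k : ℕ => ((1 / 2 : ℝ)) ^ k) atTop (𝓝 0) :=
        tendsto_pow_atTop_nhds_zero_of_lt_one (by norm_num) (by norm_num)
      have h3 := ENNReal.tendsto_ofReal h2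
      rw [ENNReal.ofReal_zero] at h3
      simpa using h3.add h3
    exact ((ENNReal.tendsto_atTop_zero.1 h1 ε hε).imp fun k hk => hk k le_rfl)
  have hpk : (0 : ℝ) < (1 / 2) ^ k := by positivity
  set δ : ℝ≥0∞ := ENNReal.ofReal ((1 / 2) ^ k) / (π.N k + 1) with hδdef
  have hδ : δ ≠ 0 := by
    refine (ENNReal.div_pos (ENNReal.ofReal_pos.2 hpk).ne' ?_).ne'
    exact ENNReal.add_ne_top.2 ⟨ENNReal.natCast_ne_top _, ENNReal.one_ne_top⟩
  -- the points
  have hnext := exh_next π k hδ ih hg hgb hcof hE hEd hdis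
  choose f hf1 hf2 using hnext
  let s : ℕ → {x : Γ // a ≤ x ∧ ∃ n, x ≤ g n} := fun n =>
    Nat.rec ⟨a, le_rfl, 0, hag 0⟩ (fun _ x => ⟨g (f x.1 x.2.1 x.2.2), hag _, _, le_rfl⟩) n
  have hs : ∀ n, (s (n + 1)).1 = g (f (s n).1 (s n).2.1 (s n).2.2) := fun n => rfl
  let h : ℕ → Γ := fun n => (s n).1
  let m : ℕ → ℕ := fun n => f (s n).1 (s n).2.1 (s n).2.2
  have hm : ∀ n, h (n + 1) = g (m n) := hs
  have hlt : ∀ n, h n < h (n + 1) := fun n => by
    rw [hm]
    exact hf1 _ _ _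
  have hhb : ∀ n, h n ≤ b := by
    intro n
    obtain ⟨n', hn'⟩ := (s n).2.2
    exact hn'.trans (hgb n').le
  have hsm : ∀ j, ∀ i ≥ m j,
      mu π a (h j) {u | ¬ Good π k (h j) (h (j + 1)) b (sec (E i) (h j) u)} < δ := by
    intro j i hi
    rw [hm]
    exact hf2 _ _ _ i hi
  refine ⟨∑ j ∈ Finset.range (π.N k), m j, fun i hi => ?_⟩
  set B : ℕ → Set (∀ g, T g) :=
    fun j => {u | ¬ Good π k (h j) (h (j + 1)) b (sec (E i) (h j) u)} with hB
  have hX := exh_slots π k (h := h) rfl hlt hhb (hE i)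
    ((hEd i).mono le_rfl (hgb i).le)
  have hle : ∀ n ≤ π.N k, mu π a b (⋃ j < n, B j) ≤ n * δ := by
    intro n
    induction n with
    | zero => intro _; simp [mu_empty]
    | succ n ihn =>
      intro hn
      rw [Set.biUnion_lt_succ]
      refine (mu_union π a b _ _).trans ?_
      rw [Nat.cast_succ, add_mul, one_mul]
      refine add_le_add (ihn (by omega)) ?_
      have hmn : m n ≤ ∑ j ∈ Finset.range (π.N k), m j :=
        Finset.single_le_sum (f := m) (fun _ _ => Nat.zero_le _) (Finset.mem_range.2 (by omega))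
      exact (mu_interval π le_rfl (hhb n) _).trans (hsm n i (hmn.trans hi)).le
  calc mu π a b (E i) ≤ mu π a b ((E i \ ⋃ j < π.N k, B j) ∪ ⋃ j < π.N k, B j) :=
        mu_mono π (by rw [Set.diff_union_self]; exact Set.subset_union_left)
    _ ≤ mu π a b (E i \ ⋃ j < π.N k, B j) + mu π a b (⋃ j < π.N k, B j) := mu_union π a b _ _
    _ ≤ ENNReal.ofReal ((1 / 2) ^ k) + (π.N k : ℕ) * δ := by
        refine add_le_add (mu_le π hX) (hle _ le_rfl)
    _ ≤ ENNReal.ofReal ((1 / 2) ^ k) + ENNReal.ofReal ((1 / 2) ^ k) := by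
        gcongr
        rw [hδdef, ← mul_div_assoc]
        refine ENNReal.div_le_of_le_mul ?_
        rw [mul_comm]
        gcongr
        exact le_self_add
    _ ≤ ε := hk

end Pool.Agent.H90.SN
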