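import Pool.Agent.H90.SN.Tri

/-!
# The main estimate (module A4)

`main`: a cover of the whole space has weight at least `π.c k` (by induction on `n`).

`main_aux` is the claim about a finite family of sets which can be escaped; proof by induction on
`S.card`.
* `S = ∅`: `X' ≠ univ` by the main estimate for the higher classes.
* `S.card = t + 1`.  For `i ∈ S` put `p i := r i 639` (the end of the 640th slot) in the first
  case and `p i := g i` in the second case.  Let `i₀ ∈ S` with `p i₀` minimal.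
  * `i₀` of the second kind, `g = g i₀`: split `X'` at `g`: `V` on `[a, g)` has weight
    `(1 + d) * w' < c (k + 1)`, so there is `z ∉ V`.  Apply the induction hypothesis on
    `[g, b)` to the sets `sec (X i) g z`, `i ∈ S \ {i₀}` (for the slots: the slots from number
    640 on are right of `p i ≥ g`), and to `sec X' g z ∪ sec (X i₀) g z`, of weight
    `(1 + d) * w' + e`.
  * `i₀` with slots: apply `tri_exists` to its first 640 slots and `X'`: slot `[x, y)`, `V` on
    `[a, x)` of weight `(1 + d) * w' < c (k + 1)`, so there is `z ∉ V`; then `K` of weight `1 / 2`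
    on `[x, y)`; as the set `D` of `Escape` is large, there is `v ∈ D \ K`.  Put `u = mix x z v` and
    apply the induction hypothesis on `[y, b)` to the sets `sec (X i) y u`, `i ∈ S \ {i₀}`, and to
    `sec X' y u ∪ sec (X i₀) y u`, of weight `(1 + d) ^ 2 * w' + e`.  (`y ≤ p i₀ ≤ p i`.)
  The point found on the right interval, `z'`, gives `mix g z z'`, resp. `mix y u z'`.

`main`: let `w < c k`.  By `Sp.decomp` the cover consists of `t` elements of class `k`, with
`t ≤ 2 ^ (k + 4)` as each has weight at least `(1 / 2) ^ k` and `w < 16`, and a set `X'` with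
`Cov π n (k + 1) a b X' w'`.  Every element of class `k` has weight `< 16`, so at least
`1000 * 2 ^ (k + 4) ≥ 640 * t` slots (`π.slots`; use a block) and residual
`rs π k j ≤ e := 16 / 2 ^ (2 * k + 20)` (`π.resid`).  By `π.grow`,
`(1 + d (k + 1)) ^ (2 * t) * (w' + t * e) < c (k + 1)`; so `main_aux` gives a point outside.
-/

set_option autoImplicit false

namespace Pool.Agent.H90.SN

variable {Γ : Type} [LinearOrder Γ] {T : Γ → Type} (π : Par)

/-- a member of `Sp` is covered by finitely many elements and one set covered by `C` -/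
theorem Sp.decomp {α : Type} {E C : Set α → ℝ → Prop} (h0 : C ∅ 0)
    (hu : ∀ X Y w v, C X w → C Y v → C (X ∪ Y) (w + v)) {X : Set α} {w : ℝ} (h : Sp E C X w) :
    ∃ (t : ℕ) (Y : ℕ → Set α) (v : ℕ → ℝ) (X' : Set α) (w' : ℝ),
      X ⊆ X' ∪ ⋃ i < t, Y i ∧ (∀ i < t, E (Y i) (v i)) ∧ C X' w' ∧
      w' + ∑ i ∈ Finset.range t, v i ≤ w := by
  induction h with
  | @base X w h => exact ⟨0, fun _ => ∅, fun _ => 0, X, w, by simp, by simp, h, by simp⟩
  | @elem X w h =>
    refine ⟨1, fun _ => X, fun _ => w, ∅, 0, ?_, fun _ _ => h, h0, by simp⟩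
    intro z hz
    right
    simp only [Set.mem_iUnion]
    exact ⟨0, by omega, hz⟩
  | @union X₁ X₂ w₁ w₂ h h' ih ih' =>
    obtain ⟨t, Y, v, X', w', h1, h2, h3, h4⟩ := ih
    obtain ⟨s, Y', v', X'', w'', h1', h2', h3', h4'⟩ := ih'
    refine ⟨t + s, fun i => if i < t then Y i else Y' (i - t),
      fun i => if i < t then v i else v' (i - t), X' ∪ X'', w' + w'', ?_, ?_, hu _ _ _ _ h3 h3', ?_⟩
    · rintro z (hz | hz)
      · rcases h1 hz with hz | hz
        · exact Or.inl (Or.inl hz)
        · simp only [Set.mem_iUnion] at hz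
          obtain ⟨i, hi, hz⟩ := hz
          right
          simp only [Set.mem_iUnion]
          exact ⟨i, by omega, by simpa [hi] using hz⟩
      · rcases h1' hz with hz | hz
        · exact Or.inl (Or.inr hz)
        · simp only [Set.mem_iUnion] at hz
          obtain ⟨i, hi, hz⟩ := hz
          right
          simp only [Set.mem_iUnion]
          exact ⟨t + i, by omega, by simpa using hz⟩
    · intro i hi
      by_cases h : i < t
      · simpa [h] using h2 i h
      · simpa [h] using h2' (i - t) (by omega)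
    · rw [Finset.sum_range_add]
      have e1 : ∑ x ∈ Finset.range t, (if x < t then v x else v' (x - t)) =
          ∑ x ∈ Finset.range t, v x :=
        Finset.sum_congr rfl fun x hx => by simp [Finset.mem_range.1 hx]
      have e2 : ∑ x ∈ Finset.range s, (if t + x < t then v (t + x) else v' (t + x - t)) =
          ∑ x ∈ Finset.range s, v' x :=
        Finset.sum_congr rfl fun x _ => by simp
      rw [e1, e2]
      linarith
  | mono h hY hv ih =>
    obtain ⟨t, Y, v, X', w', h1, h2, h3, h4⟩ := ih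
    exact ⟨t, Y, v, X', w', hY.trans h1, h2, h3, h4.trans hv⟩

theorem one_le_one_add_d (k m : ℕ) : 1 ≤ (1 + π.d k) ^ m := by
  have := π.d_pos k
  exact one_le_pow₀ (by linarith)

/-- the data of a set which can be escaped pass to sections -/
theorem esc_sec {n k t : ℕ} {X : Set (∀ g, T g)} {a b p y : Γ} {e : ℝ} (hy : y ≤ p)
    (h : (∃ l r, Slots a b (640 * (t + 1)) l r ∧
          Escape (Cov π n (k + 1)) b X (640 * (t + 1)) l r e ∧ r 639 = p) ∨
        (a ≤ p ∧ p ≤ b ∧ ∀ u, Cov π n (k + 1) p b (sec X p u) e)) (u : ∀ g, T g) :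
    (∃ l r, Slots y b (640 * t) l r ∧
          Escape (Cov π n (k + 1)) b (sec X y u) (640 * t) l r e) ∨
        ∃ g, y ≤ g ∧ g ≤ b ∧ ∀ v, Cov π n (k + 1) g b (sec (sec X y u) g v) e := by
  rcases h with ⟨l, r, hs, he, hr⟩ | ⟨-, h2, h3⟩
  · have hl : ∀ i < 640 * t, y ≤ l (640 + i) := fun i hi =>
      hy.trans (hr ▸ hs.2 639 (640 + i) (by omega) (by omega))
    have hb := hs.block 640 (640 * t) (by omega)
    refine Or.inl ⟨fun i => l (640 + i), fun i => r (640 + i),
      ⟨fun i hi => ⟨hl i hi, (hb.1 i hi).2⟩, hb.2⟩, ?_⟩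
    exact (he.block 640 (640 * t) (by omega)).sec u hl fun i hi => (hb.1 i hi).2.1
  · refine Or.inr ⟨p, hy, h2, fun v => ?_⟩
    rw [sec_sec hy]
    exact h3 _

theorem main_aux [∀ g, Nonempty (T g)] {n k : ℕ}
    (hME : ∀ {a b : Γ} {w : ℝ}, Cov π n (k + 1) a b (Set.univ : Set (∀ g, T g)) w →
      π.c (k + 1) ≤ w) {e : ℝ} (he : 0 ≤ e) (t : ℕ) :
    ∀ (S : Finset ℕ) (_ : S.card = t) (X : ℕ → Set (∀ g, T g)) (a b : Γ)
      (_ : ∀ i ∈ S, (∃ l r, Slots a b (640 * t) l r ∧
          Escape (Cov π n (k + 1)) b (X i) (640 * t) l r e) ∨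
        ∃ g, a ≤ g ∧ g ≤ b ∧ ∀ u, Cov π n (k + 1) g b (sec (X i) g u) e)
      (X' : Set (∀ g, T g)) (w' : ℝ) (_ : Cov π n (k + 1) a b X' w')
      (_ : (1 + π.d (k + 1)) ^ (2 * t) * (w' + t * e) < π.c (k + 1)),
      ∃ z, z ∉ X' ∧ ∀ i ∈ S, z ∉ X i := by
  induction t with
  | zero =>
    intro S hS X a b _ X' w' hX' hw
    rw [Finset.card_eq_zero] at hS
    subst hS
    have h1 : X' ≠ Set.univ := by
      rintro rfl
      have := hME hX'
      simp only [mul_zero, pow_zero, one_mul, Nat.cast_zero, zero_mul, add_zero] at hw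
      linarith
    obtain ⟨z, hz⟩ := (Set.ne_univ_iff_exists_notMem _).1 h1
    exact ⟨z, hz, by simp⟩
  | succ t ih =>
    intro S hS X a b hX X' w' hX' hw
    have hX2 : ∀ i ∈ S, ∃ p, (∃ l r, Slots a b (640 * (t + 1)) l r ∧
          Escape (Cov π n (k + 1)) b (X i) (640 * (t + 1)) l r e ∧ r 639 = p) ∨
        (a ≤ p ∧ p ≤ b ∧ ∀ u, Cov π n (k + 1) p b (sec (X i) p u) e) := by
      intro i hi
      rcases hX i hi with ⟨l, r, h1, h2⟩ | ⟨g, h1, h2, h3⟩
      · exact ⟨r 639, Or.inl ⟨l, r, h1, h2, rfl⟩⟩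
      · exact ⟨g, Or.inr ⟨h1, h2, h3⟩⟩
    have : Nonempty Γ := ⟨a⟩
    choose! p hp using hX2
    obtain ⟨i₀, hi₀, hmin⟩ := Finset.exists_min_image S p (Finset.card_pos.1 (by omega))
    have hcard : (S.erase i₀).card = t := by
      rw [Finset.card_erase_of_mem hi₀, hS]
      omega
    have hw0 : 0 ≤ w' := cov_nonneg π hX'
    set D := 1 + π.d (k + 1) with hD
    have hD1 : 1 ≤ D := by have := π.d_pos (k + 1); linarith
    have hte : 0 ≤ ((t + 1 : ℕ) : ℝ) * e := by positivity
    -- `D ^ 2 * w' < c`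
    have hw2 : D ^ 2 * w' < π.c (k + 1) := by
      refine lt_of_le_of_lt ?_ hw
      refine mul_le_mul ?_ (by linarith) hw0 (by positivity)
      exact pow_le_pow_right₀ hD1 (by omega)
    have hw1 : D * w' < π.c (k + 1) := by
      refine lt_of_le_of_lt ?_ hw2
      refine mul_le_mul_of_nonneg_right ?_ hw0
      nlinarith
    have hw16 : w' < 16 := by
      have h1 := π.c_hi (k + 1)
      have h2 : w' ≤ D * w' := le_mul_of_one_le_left hw0 hD1
      linarith
    have hV : ∀ {a b : Γ} {V : Set (∀ g, T g)}, Cov π n (k + 1) a b V (D * w') → ∃ z, z ∉ V := by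
      intro a b V hV
      rw [← Set.ne_univ_iff_exists_notMem]
      rintro rfl
      have := hME hV
      linarith
    -- the inequality for the induction hypothesis
    have hstep : D ^ (2 * t) * ((D ^ 2 * w' + e) + t * e) < π.c (k + 1) := by
      refine lt_of_le_of_lt ?_ hw
      have h1 : D ^ (2 * (t + 1)) * (w' + ((t + 1 : ℕ) : ℝ) * e) =
          D ^ (2 * t) * (D ^ 2 * w' + D ^ 2 * (((t + 1 : ℕ) : ℝ) * e)) := by ring
      rw [h1]
      refine mul_le_mul_of_nonneg_left ?_ (by positivity)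
      have h2 : ((t + 1 : ℕ) : ℝ) * e ≤ D ^ 2 * (((t + 1 : ℕ) : ℝ) * e) :=
        le_mul_of_one_le_left hte (one_le_pow₀ hD1)
      push_cast at h2 ⊢
      linarith
    -- conclusion from a point and a good section
    have fin : ∀ (y : Γ) (u : ∀ g, T g), y ≤ p i₀ → y ≤ b →
        Cov π n (k + 1) y b (sec X' y u) (D ^ 2 * w') →
        Cov π n (k + 1) y b (sec (X i₀) y u) e → ∃ z, z ∉ X' ∧ ∀ i ∈ S, z ∉ X i := by
      intro y u hy _ h1 h2
      obtain ⟨z', hz1, hz2⟩ := ih (S.erase i₀) hcard (fun i => sec (X i) y u) y b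
        (fun i hi => esc_sec π (hy.trans (hmin i (Finset.mem_of_mem_erase hi)))
          (hp i (Finset.mem_of_mem_erase hi)) u)
        (sec X' y u ∪ sec (X i₀) y u) (D ^ 2 * w' + e) (cov_union π h1 h2) hstep
      refine ⟨mix y u z', fun h => hz1 (Or.inl h), fun i hi h => ?_⟩
      by_cases hii : i = i₀
      · subst hii
        exact hz1 (Or.inr h)
      · exact hz2 i (Finset.mem_erase.2 ⟨hii, hi⟩) h
    rcases hp i₀ hi₀ with ⟨l, r, hs, hes, hr⟩ | ⟨h1, h2, h3⟩
    · have hs' : Slots a b 640 l r :=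
        ⟨fun i hi => hs.1 i (by omega), fun i j hij hj => hs.2 i j hij (by omega)⟩
      obtain ⟨i, hi, V, -, hVc, hVz⟩ := tri_exists π hX' hw16 hs'
      obtain ⟨z, hz⟩ := hV hVc
      obtain ⟨K, hK, hKv⟩ := hVz z hz
      obtain ⟨D', -, hDL, hDv⟩ := hes i (by omega) z
      have hex : ∃ v ∈ D', v ∉ K := by
        by_contra hcon
        push Not at hcon
        exact hDL (1 / 2) (by norm_num) (cov_mono π hK hcon le_rfl)
      obtain ⟨v, hvD, hvK⟩ := hex
      have hy : r i ≤ p i₀ := by
        rcases Nat.lt_or_ge i 639 with h | h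
        · exact hr ▸ (hs.2 i 639 h (by omega)).trans (hs.1 639 (by omega)).2.1.le
        · have : i = 639 := by omega
          rw [this, hr]
      exact fin (r i) (mix (l i) z v) hy (hs.1 i (by omega)).2.2 (hKv v hvK) (hDv v hvD)
    · obtain ⟨V, -, hVc, hVz⟩ := split π h1 h2 hX' hw16
      obtain ⟨z, hz⟩ := hV hVc
      refine fin (p i₀) z le_rfl h2 (cov_mono π (hVz z hz) subset_rfl ?_) (h3 z)
      exact mul_le_mul_of_nonneg_right (by nlinarith) hw0

/-- **Main estimate.** -/
theorem main [∀ g, Nonempty (T g)] {n k : ℕ} {a b : Γ} {w : ℝ}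
    (h : Cov π n k a b (Set.univ : Set (∀ g, T g)) w) : π.c k ≤ w := by
  induction n generalizing k a b w with
  | zero => exact absurd h.1 Set.univ_nonempty.ne_empty
  | succ n ih =>
    by_contra hlt
    push Not at hlt
    obtain ⟨t, Y, v, X', w', h1, h2, h3, h4⟩ := Sp.decomp (cov_empty π n (k + 1) a b le_rfl)
      (fun X Y w v h h' => cov_union π h h') h
    have hw0 : 0 ≤ w' := cov_nonneg π h3
    have hv : ∀ i < t, (1 / 2 : ℝ) ^ k ≤ v i := by
      intro i hi
      obtain ⟨j, hj, -⟩ := h2 i hi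
      rw [hj]
      exact wt_ge π k j
    have hv0 : ∀ i ∈ Finset.range t, 0 ≤ v i := fun i hi =>
      (by positivity : (0 : ℝ) ≤ (1 / 2 : ℝ) ^ k).trans (hv i (Finset.mem_range.1 hi))
    have hc16 := π.c_hi k
    have hv16 : ∀ i < t, v i < 16 := by
      intro i hi
      have := Finset.single_le_sum hv0 (Finset.mem_range.2 hi)
      linarith
    have ht : (t : ℝ) ≤ 2 ^ (k + 4) := by
      have h5 : (t : ℝ) * (1 / 2 : ℝ) ^ k ≤ ∑ i ∈ Finset.range t, v i := by
        have := Finset.card_nsmul_le_sum (Finset.range t) v ((1 / 2 : ℝ) ^ k)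
          fun i hi => hv i (Finset.mem_range.1 hi)
        simpa using this
      have h6 : (t : ℝ) * (1 / 2 : ℝ) ^ k ≤ 16 := by linarith
      have h7 : (t : ℝ) = (t * (1 / 2 : ℝ) ^ k) * 2 ^ k := by
        rw [mul_assoc, ← mul_pow]
        norm_num
      rw [h7, pow_add, mul_comm ((2 : ℝ) ^ k)]
      refine mul_le_mul_of_nonneg_right (h6.trans (by norm_num)) (by positivity)
    have htN : t ≤ 2 ^ (k + 4) := by exact_mod_cast ht
    set e : ℝ := 16 / 2 ^ (2 * k + 20) with he
    have he0 : 0 ≤ e := by positivity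
    have hrs : ∀ j, wt π k j < 16 → rs π k j ≤ e := by
      intro j hj
      have h5 := π.resid k j hj
      have h6 := rs_pos π k j
      have h7 : rs π k j ≤ 2 ^ (j + 1) * π.ep k := by
        have : (2 : ℝ) ^ (j + 1) * π.ep k = 2 * rs π k j := by
          unfold rs
          ring
        rw [this]
        linarith
      refine h7.trans (h5.trans ?_)
      exact div_le_div_of_nonneg_right hj.le (by positivity)
    have hX : ∀ i ∈ Finset.range t, (∃ l r, Slots a b (640 * t) l r ∧
          Escape (Cov π n (k + 1)) b (Y i) (640 * t) l r e) ∨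
        ∃ g, a ≤ g ∧ g ≤ b ∧ ∀ u, Cov π n (k + 1) g b (sec (Y i) g u) e := by
      intro i hi
      rw [Finset.mem_range] at hi
      obtain ⟨j, hj, -, hE⟩ := h2 i hi
      have hj16 : wt π k j < 16 := hj ▸ hv16 i hi
      have hr := hrs j hj16
      rcases hE with ⟨m, l, r, hN, hs, hes⟩ | ⟨g, hg1, hg2, hg3⟩
      · have hm := π.slots k j m hj16 hN
        have hm' : 640 * t ≤ m := by
          refine le_trans ?_ hm
          exact Nat.mul_le_mul (by norm_num) htN
        refine Or.inl ⟨l, r, ⟨fun i hi => hs.1 i (by omega),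
          fun i j hij hj => hs.2 i j hij (by omega)⟩, fun i hi u => ?_⟩
        obtain ⟨D, hD1, hD2, hD3⟩ := hes i (by omega) u
        exact ⟨D, hD1, hD2, fun v hv => cov_mono π (hD3 v hv) subset_rfl hr⟩
      · exact Or.inr ⟨g, hg1, hg2, fun u => cov_mono π (hg3 u) subset_rfl hr⟩
    have hsum0 : 0 ≤ ∑ i ∈ Finset.range t, v i := Finset.sum_nonneg hv0
    have hlast : (1 + π.d (k + 1)) ^ (2 * t) * (w' + t * e) < π.c (k + 1) := by
      refine lt_of_lt_of_le ?_ (π.grow k t ht)
      have h5 : (1 + π.d (k + 1)) ^ (2 * t) ≤ (1 + π.d (k + 1)) ^ (2 * t + 2) := by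
        refine pow_le_pow_right₀ ?_ (by omega)
        have := π.d_pos (k + 1)
        linarith
      have h6 : w' + t * e < π.c k + 2 ^ (k + 4) * e := by
        have : (t : ℝ) * e ≤ 2 ^ (k + 4) * e := mul_le_mul_of_nonneg_right ht he0
        linarith
      have h7 : (0 : ℝ) < (1 + π.d (k + 1)) ^ (2 * t + 2) := by
        have := π.d_pos (k + 1)
        positivity
      calc (1 + π.d (k + 1)) ^ (2 * t) * (w' + t * e)
          ≤ (1 + π.d (k + 1)) ^ (2 * t + 2) * (w' + t * e) :=
            mul_le_mul_of_nonneg_right h5 (by positivity)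
        _ < _ := mul_lt_mul_of_pos_left h6 h7
    obtain ⟨z, hz1, hz2⟩ := main_aux π (fun h => ih h) he0 t (Finset.range t)
      (Finset.card_range t) Y a b hX X' w' h3 hlast
    rcases h1 (Set.mem_univ z) with hz | hz
    · exact hz1 hz
    · simp only [Set.mem_iUnion] at hz
      obtain ⟨i, hi, hz⟩ := hz
      exact hz2 i (Finset.mem_range.2 hi) hz

theorem large_univ [∀ g, Nonempty (T g)] (n k : ℕ) (a b : Γ) :
    Large (Cov π n k) a b (Set.univ : Set (∀ g, T g)) := by
  intro w hw h
  have h1 := main π h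
  have h2 := π.c_lo k
  linarith

end Pool.Agent.H90.SN
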