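import Pool.Agent.H90.SN.Cont

/-!
# Measurability of the submeasure of the sections (module C3)

`Simple μ A`: the family `A : M → Set Z` of members of the algebra takes only countably many values,
in a measurable way.

Proof sketch of `measurable_nu`.  Let `𝒜` be the class of all `E ⊆ M × Z` such that for all `ε ≠ 0`
there is a simple family `A` with `nu (E_m ∆ A m) ≤ ε` for all `m`, where `E_m = {z | (m, z) ∈ E}`.
* `𝒜` contains the products `s ×ˢ t`, `s` measurable, `t ∈ C`; closed under complements.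
* `𝒜` is closed under countable unions: for `E = ⋃ n, E n` let `A n` be a simple family for `E n` with
  error `ε / 2 ^ (n + 3)`, `U n m = ⋃ i ≤ n, A i m` (simple).  Let `N m` be the least `n` such that
  `∀ n' ≥ n, μ (U n' m \ U n m) ≤ ε / 2` (`increments_small`).  `N` is measurable, as the family
  `U n' m \ U n m` is simple, so `m ↦ μ (U n' m \ U n m)` is measurable.  So `m ↦ U (N m) m` is
  simple; by `nu_below`, `nu ((⋃ n, U n m) \ U (N m) m) ≤ ε / 2`.
So `𝒜` contains all sets of the product σ-algebra (`generateFrom_prod_eq` or a direct induction; the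
projections `M × Z → M`, `M × Z → Z` are generated by such products as `univ ∈ C`).
Finally `{m | t < nu (E_m)} = ⋃ k, {m | t + 1 / (k + 1) < nu (A^k m)}`, `A^k` for
`ε = 1 / (k + 1)`, is measurable.
-/

set_option autoImplicit false

open Filter ENNReal Topology MeasureTheory

namespace Pool.Agent.H90.SN

namespace Sub

variable {Z : Type} (μ : Sub Z)

/-- a measurable family of members of the algebra with countably many values -/
def Simple {M : Type} (_ : MeasurableSpace M) (A : M → Set Z) : Prop :=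
  ∃ (K : ℕ → Set Z) (φ : M → ℕ), Measurable φ ∧ (∀ n, K n ∈ μ.C) ∧ ∀ m, A m = K (φ m)

section Simple

variable {μ} {M : Type} {mM : MeasurableSpace M}

theorem Simple.mem {A : M → Set Z} (h : μ.Simple mM A) (m : M) : A m ∈ μ.C := by
  obtain ⟨K, φ, _, hK, hA⟩ := h
  rw [hA]
  exact hK _

theorem simple_const {t : Set Z} (ht : t ∈ μ.C) : μ.Simple mM fun _ => t :=
  ⟨fun _ => t, fun _ => 0, measurable_const, fun _ => ht, fun _ => rfl⟩

open Classical in
theorem simple_ite {s : Set M} (hs : MeasurableSet s) :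
    μ.Simple mM fun m => if m ∈ s then Set.univ else ∅ := by
  refine ⟨fun n => if n = 0 then ∅ else Set.univ, fun m => if m ∈ s then 1 else 0,
    Measurable.ite hs measurable_const measurable_const, ?_, ?_⟩
  · intro n
    by_cases h : n = 0
    · simp only [h, if_true]; exact μ.empty_mem
    · simp only [h, if_false]; exact μ.univ_mem
  · intro m
    by_cases h : m ∈ s <;> simp [h]

theorem Simple.compl {A : M → Set Z} (h : μ.Simple mM A) : μ.Simple mM fun m => (A m)ᶜ := by
  obtain ⟨K, φ, hφ, hK, hA⟩ := h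
  exact ⟨fun n => (K n)ᶜ, φ, hφ, fun n => μ.compl_mem (hK n), fun m => congrArg _ (hA m)⟩

theorem Simple.index {A : ℕ → M → Set Z} (h : ∀ n, μ.Simple mM (A n)) {N : M → ℕ}
    (hN : Measurable N) : μ.Simple mM fun m => A (N m) m := by
  choose K φ hφ hK hA using h
  refine ⟨fun n => K n.unpair.1 n.unpair.2, fun m => Nat.pair (N m) (φ (N m) m), ?_,
    fun n => hK _ _, fun m => by simp only [Nat.unpair_pair]; exact hA _ _⟩
  have h1 : Measurable fun m => φ (N m) m := by
    apply measurable_to_countable'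
    intro j
    have : (fun m => φ (N m) m) ⁻¹' {j} = ⋃ n, (N ⁻¹' {n} ∩ φ n ⁻¹' {j}) := by
      ext m
      simp
    rw [this]
    exact MeasurableSet.iUnion fun n =>
      (hN (measurableSet_singleton n)).inter (hφ n (measurableSet_singleton j))
  exact (measurable_of_countable fun p : ℕ × ℕ => Nat.pair p.1 p.2).comp (hN.prodMk h1)

theorem Simple.union {A B : M → Set Z} (h : μ.Simple mM A) (h' : μ.Simple mM B) :
    μ.Simple mM fun m => A m ∪ B m := by
  obtain ⟨K, φ, hφ, hK, hA⟩ := h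
  obtain ⟨K', φ', hφ', hK', hA'⟩ := h'
  refine ⟨fun n => K n.unpair.1 ∪ K' n.unpair.2, fun m => Nat.pair (φ m) (φ' m), ?_,
    fun n => μ.union_mem (hK _) (hK' _), fun m => by simp only [Nat.unpair_pair]; rw [hA, hA']⟩
  exact (measurable_of_countable fun p : ℕ × ℕ => Nat.pair p.1 p.2).comp (hφ.prodMk hφ')

theorem Simple.sdiff {A B : M → Set Z} (h : μ.Simple mM A) (h' : μ.Simple mM B) :
    μ.Simple mM fun m => A m \ B m := by
  have h1 := (h.compl.union h').compl
  have h2 : (fun m => A m \ B m) = fun m => ((A m)ᶜ ∪ B m)ᶜ := by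
    funext m
    rw [Set.compl_union, compl_compl]
    rfl
  rw [h2]
  exact h1

theorem Simple.biUnion {A : ℕ → M → Set Z} (h : ∀ n, μ.Simple mM (A n)) (n : ℕ) :
    μ.Simple mM fun m => ⋃ i < n, A i m := by
  induction n with
  | zero =>
    have : (fun m : M => ⋃ i < 0, A i m) = fun _ => ∅ := by
      funext m
      simp
    rw [this]
    exact simple_const μ.empty_mem
  | succ n ih =>
    have : (fun m : M => ⋃ i < n + 1, A i m) = fun m => (⋃ i < n, A i m) ∪ A n m := by
      funext m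
      ext z
      simp only [Set.mem_iUnion, Set.mem_union, exists_prop]
      constructor
      · rintro ⟨i, hi, hz⟩
        rcases Nat.lt_succ_iff_lt_or_eq.1 hi with h' | h'
        · exact Or.inl ⟨i, h', hz⟩
        · exact Or.inr (h' ▸ hz)
      · rintro (⟨i, hi, hz⟩ | hz)
        · exact ⟨i, Nat.lt_succ_of_lt hi, hz⟩
        · exact ⟨n, Nat.lt_succ_self n, hz⟩
    rw [this]
    exact ih.union (h n)

theorem Simple.measurable {A : M → Set Z} (h : μ.Simple mM A) : Measurable fun m => μ.μ (A m) := by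
  obtain ⟨K, φ, hφ, hK, hA⟩ := h
  have : (fun m => μ.μ (A m)) = (fun n => μ.μ (K n)) ∘ φ := by
    funext m
    rw [hA]
    rfl
  rw [this]
  exact (measurable_of_countable _).comp hφ

/-- families which can be approximated by simple families -/
def Apx (μ : Sub Z) (mM : MeasurableSpace M) (E : Set (M × Z)) : Prop :=
  ∀ ε : ℝ≥0∞, ε ≠ 0 → ∃ A : M → Set Z, μ.Simple mM A ∧
    ∀ m, μ.nu (symmDiff {z | (m, z) ∈ E} (A m)) ≤ ε

theorem Apx.empty : Apx μ mM ∅ := by
  intro ε _
  refine ⟨fun _ => ∅, simple_const μ.empty_mem, ?_⟩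
  intro m
  have : symmDiff {z : Z | (m, z) ∈ (∅ : Set (M × Z))} ∅ = ∅ := by
    ext z; simp
  rw [this, μ.nu_empty]
  exact zero_le

theorem Apx.compl {E : Set (M × Z)} (h : Apx μ mM E) : Apx μ mM Eᶜ := by
  intro ε hε
  obtain ⟨A, hA, hA'⟩ := h ε hε
  refine ⟨fun m => (A m)ᶜ, hA.compl, ?_⟩
  intro m
  have : symmDiff {z : Z | (m, z) ∈ Eᶜ} (A m)ᶜ = symmDiff {z : Z | (m, z) ∈ E} (A m) := by
    ext z
    simp only [Set.mem_symmDiff, Set.mem_ofPred_eq, Set.mem_compl_iff]
    tauto
  rw [this]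
  exact hA' m

theorem Apx.iUnion {E : ℕ → Set (M × Z)} (h : ∀ n, Apx μ mM (E n)) : Apx μ mM (⋃ n, E n) := by
  classical
  intro ε hε
  have hε2 : ε / 2 ≠ 0 := (ENNReal.half_pos hε).ne'
  obtain ⟨δ, hδ, hδs⟩ := ENNReal.exists_pos_sum_of_countable hε2 ℕ
  have hex : ∀ n, ∃ A : M → Set Z, μ.Simple mM A ∧
      ∀ m, μ.nu (symmDiff {z | (m, z) ∈ E n} (A m)) ≤ (δ n : ℝ≥0∞) := fun n =>
    h n _ (by exact_mod_cast (hδ n).ne')
  choose A hA hA' using hex
  let U : ℕ → M → Set Z := fun n m => ⋃ i < n, A i m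
  have hU : ∀ n, μ.Simple mM (U n) := fun n => Simple.biUnion hA n
  have hUm : ∀ m, Monotone fun n => U n m := by
    intro m n n' hn z hz
    simp only [U, Set.mem_iUnion, exists_prop] at hz ⊢
    obtain ⟨i, hi, hz⟩ := hz
    exact ⟨i, hi.trans_le hn, hz⟩
  have hp : ∀ m, ∃ n, ∀ n' ≥ n, μ.μ (U n' m \ U n m) ≤ ε / 2 := fun m =>
    μ.increments_small (fun n => (hU n).mem m) (hUm m) hε2
  have hmeas : ∀ k, MeasurableSet {m | ∀ n' ≥ k, μ.μ (U n' m \ U k m) ≤ ε / 2} := by
    intro k
    have : {m | ∀ n' ≥ k, μ.μ (U n' m \ U k m) ≤ ε / 2} =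
        ⋂ n', ⋂ (_ : n' ≥ k), {m | μ.μ (U n' m \ U k m) ≤ ε / 2} := by
      ext m
      simp
    rw [this]
    refine MeasurableSet.iInter fun n' => MeasurableSet.iInter fun _ => ?_
    exact measurableSet_le ((hU n').sdiff (hU k)).measurable measurable_const
  let N : M → ℕ := fun m => Nat.find (hp m)
  have hN : Measurable N := measurable_find hp hmeas
  refine ⟨fun m => U (N m) m, Simple.index hU hN, ?_⟩
  intro m
  have hsub : symmDiff {z | (m, z) ∈ ⋃ n, E n} (U (N m) m) ⊆
      (⋃ n, symmDiff {z | (m, z) ∈ E n} (A n m)) ∪ ⋃ j, (U (N m + j) m \ U (N m) m) := by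
    intro z hz
    rw [Set.mem_symmDiff] at hz
    rcases hz with ⟨h1, h2⟩ | ⟨h1, h2⟩
    · rw [Set.mem_ofPred_eq, Set.mem_iUnion] at h1
      obtain ⟨n, hn⟩ := h1
      by_cases hzA : z ∈ A n m
      · right
        rw [Set.mem_iUnion]
        refine ⟨n + 1, ?_, h2⟩
        simp only [U, Set.mem_iUnion, exists_prop]
        exact ⟨n, by omega, hzA⟩
      · left
        rw [Set.mem_iUnion]
        exact ⟨n, Set.mem_symmDiff.2 (Or.inl ⟨hn, hzA⟩)⟩
    · left
      simp only [U, Set.mem_iUnion, exists_prop] at h1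
      obtain ⟨i, _, hi⟩ := h1
      rw [Set.mem_iUnion]
      refine ⟨i, Set.mem_symmDiff.2 (Or.inr ⟨hi, ?_⟩)⟩
      intro hz
      exact h2 (Set.mem_iUnion.2 ⟨i, hz⟩)
  have hb : μ.nu (⋃ j, (U (N m + j) m \ U (N m) m)) ≤ ε / 2 := by
    refine μ.nu_below (fun j => μ.diff_mem ((hU _).mem m) ((hU _).mem m)) ?_ ?_
    · intro j j' hj
      exact Set.sdiff_subset_sdiff_left (hUm m (by omega))
    · intro j
      exact Nat.find_spec (hp m) (N m + j) (by simp only [N]; omega)
  calc μ.nu _ ≤ μ.nu ((⋃ n, symmDiff {z | (m, z) ∈ E n} (A n m)) ∪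
          ⋃ j, (U (N m + j) m \ U (N m) m)) := μ.nu_mono hsub
    _ ≤ μ.nu (⋃ n, symmDiff {z | (m, z) ∈ E n} (A n m)) +
          μ.nu (⋃ j, (U (N m + j) m \ U (N m) m)) := μ.nu_union_le _ _
    _ ≤ (∑' n, (δ n : ℝ≥0∞)) + ε / 2 := by
          refine add_le_add ?_ hb
          refine (μ.nu_iUnion_le _).trans ?_
          exact ENNReal.tsum_le_tsum fun n => hA' n m
    _ ≤ ε / 2 + ε / 2 := add_le_add hδs.le le_rfl
    _ = ε := ENNReal.add_halves ε

end Simple

theorem apx_of_measurable {M : Type} (mM : MeasurableSpace M) {E : Set (M × Z)}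
    (hE : MeasurableSet[@Prod.instMeasurableSpace M Z mM μ.ms] E) : Apx μ mM E := by
  classical
  let 𝒜 : MeasurableSpace (M × Z) :=
    { MeasurableSet' := Apx μ mM
      measurableSet_empty := Apx.empty
      measurableSet_compl := fun _ h => h.compl
      measurableSet_iUnion := fun _ h => Apx.iUnion h }
  have hle : @Prod.instMeasurableSpace M Z mM μ.ms ≤ 𝒜 := by
    refine sup_le ?_ ?_
    · rw [MeasurableSpace.comap_le_iff_le_map]
      intro s hs
      change Apx μ mM (Prod.fst ⁻¹' s)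
      intro ε _
      refine ⟨_, simple_ite hs, ?_⟩
      intro m
      have : symmDiff {z : Z | (m, z) ∈ (Prod.fst ⁻¹' s : Set (M × Z))}
          (if m ∈ s then Set.univ else ∅) = ∅ := by
        ext z
        by_cases h : m ∈ s <;> simp [h]
      rw [this, μ.nu_empty]
      exact zero_le
    · rw [MeasurableSpace.comap_le_iff_le_map]
      refine MeasurableSpace.generateFrom_le ?_
      intro t ht
      change Apx μ mM (Prod.snd ⁻¹' t)
      intro ε _
      refine ⟨_, simple_const ht, ?_⟩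
      intro m
      have : symmDiff {z : Z | (m, z) ∈ (Prod.snd ⁻¹' t : Set (M × Z))} t = ∅ := by
        ext z
        simp
      rw [this, μ.nu_empty]
      exact zero_le
  exact hle E hE

theorem measurable_nu {M : Type} (mM : MeasurableSpace M) {E : Set (M × Z)}
    (hE : MeasurableSet[@Prod.instMeasurableSpace M Z mM μ.ms] E) :
    Measurable fun m : M => μ.nu {z | (m, z) ∈ E} := by
  have hapx := apx_of_measurable μ mM hE
  obtain ⟨u, -, hu0, hu⟩ := exists_seq_strictAnti_tendsto' (show (0 : ℝ≥0∞) < 1 by norm_num)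
  have hex : ∀ k, ∃ A : M → Set Z, μ.Simple mM A ∧
      ∀ m, μ.nu (symmDiff {z | (m, z) ∈ E} (A m)) ≤ u k := fun k => hapx _ (hu0 k).1.ne'
  choose A hA hA' using hex
  refine measurable_of_tendsto_metrizable (f := fun k m => μ.μ (A k m))
    (fun k => (hA k).measurable) ?_
  rw [tendsto_pi_nhds]
  intro m
  set f := μ.nu {z | (m, z) ∈ E} with hf
  have h1 : ∀ k, f - u k ≤ μ.μ (A k m) := by
    intro k
    rw [tsub_le_iff_right, ← μ.nu_eq ((hA k).mem m)]
    calc f ≤ μ.nu (A k m ∪ symmDiff {z | (m, z) ∈ E} (A k m)) := by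
          refine μ.nu_mono ?_
          intro z hz
          by_cases h : z ∈ A k m
          · exact Or.inl h
          · exact Or.inr (Set.mem_symmDiff.2 (Or.inl ⟨hz, h⟩))
      _ ≤ _ := μ.nu_union_le _ _
      _ ≤ _ := add_le_add le_rfl (hA' k m)
  have h2 : ∀ k, μ.μ (A k m) ≤ f + u k := by
    intro k
    rw [← μ.nu_eq ((hA k).mem m)]
    calc μ.nu (A k m) ≤ μ.nu ({z | (m, z) ∈ E} ∪ symmDiff {z | (m, z) ∈ E} (A k m)) := by
          refine μ.nu_mono ?_
          intro z hz
          by_cases h : z ∈ {z | (m, z) ∈ E}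
          · exact Or.inl h
          · exact Or.inr (Set.mem_symmDiff.2 (Or.inr ⟨hz, h⟩))
      _ ≤ _ := μ.nu_union_le _ _
      _ ≤ _ := add_le_add le_rfl (hA' k m)
  have t1 : Tendsto (fun k => f - u k) atTop (𝓝 f) := by
    have := ENNReal.Tendsto.sub (tendsto_const_nhds (x := f) (f := atTop (α := ℕ))) hu
      (Or.inr ENNReal.zero_ne_top)
    simpa using this
  have t2 : Tendsto (fun k => f + u k) atTop (𝓝 f) := by
    have := (tendsto_const_nhds (x := f) (f := atTop (α := ℕ))).add hu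
    simpa using this
  exact tendsto_of_tendsto_of_tendsto_of_le_of_le t1 t2 h1 h2

end Sub

end Pool.Agent.H90.SN
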