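import Pool.Agent.H90.SN.Main

/-!
# Intervals with one coordinate; guessing (module A6)

* `cov_point`: induction on `n`, then on `Sp`.  An element with slots has at least `1000` slots by
  `π.slots`, so two different coordinates `l 0 < l 1` in `[a, b)`, contradiction.  An element of
  the second kind: the interval `[g, b)` has at most one coordinate, so all sections are empty by
  the induction hypothesis (`rs π k j < 16` by `π.resid`), and `u ∈ X → u ∈ sec X g u` (`mix_self`).
* `cov_guess`: this is an element of class `k` with parameter `0` with the slots `[l i, r i)`.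
  The set `D` for `i`, `u` is `{v | v (l i) = f i u}`; it is large by `large_point`, and
  `sec X (r i) (mix (l i) u v) = ∅` for `v ∈ D`.
* `cov_F`: an element of the second kind with parameter `0`.
-/

set_option autoImplicit false

namespace Pool.Agent.H90.SN

variable {Γ : Type} [LinearOrder Γ] {T : Γ → Type} (π : Par)

theorem cov_point {n k : ℕ} {a b : Γ}
    (hab : ∀ g g', a ≤ g → g < b → a ≤ g' → g' < b → g = g') {X : Set (∀ g, T g)} {w : ℝ}
    (h : Cov π n k a b X w) (hw : w < 16) : X = ∅ := by
  induction n generalizing k a X w with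
  | zero => exact h.1
  | succ n ih =>
    have key : ∀ {X : Set (∀ g, T g)} {w : ℝ}, Sp (fun X w => ∃ j, w = wt π k j ∧
        Elm π k (Cov π n (k + 1)) a b X j) (Cov π n (k + 1) a b) X w → w < 16 → X = ∅ := by
      intro X w h
      induction h with
      | base h => exact ih hab h
      | @elem X w h =>
        obtain ⟨j, rfl, -, h⟩ := h
        intro hw
        rcases h with ⟨m, l, r, hN, hs, -⟩ | ⟨g, h1, h2, h3⟩
        · exfalso
          have hm : 1000 * 2 ^ (k + 4) ≤ m := π.slots k j m hw hN
          have h2k : 1 ≤ 2 ^ (k + 4) := Nat.one_le_two_pow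
          have hm2 : 2 ≤ m := by omega
          obtain ⟨ha0, hl0, hb0⟩ := hs.1 0 (by omega)
          obtain ⟨ha1, hl1, hb1⟩ := hs.1 1 (by omega)
          have h01 : r 0 ≤ l 1 := hs.2 0 1 (by omega) (by omega)
          have heq : l 0 = l 1 := hab _ _ ha0 (hl0.trans_le hb0) ha1 (hl1.trans_le hb1)
          exact absurd (heq ▸ h01) (not_le.2 hl0)
        · have hres : rs π k j < 16 := by
            have hr := π.resid k j hw
            have hw' : (1 / 2 : ℝ) ^ k * (1 + π.d k) ^ j < 16 := hw
            have hpos : (1 : ℝ) ≤ 2 ^ (2 * k + 20) := one_le_pow₀ (by norm_num)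
            have hw0 : 0 < (1 / 2 : ℝ) ^ k * (1 + π.d k) ^ j := wt_pos π k j
            have hdiv : (1 / 2 : ℝ) ^ k * (1 + π.d k) ^ j / 2 ^ (2 * k + 20) < 16 :=
              (div_le_self hw0.le hpos).trans_lt hw'
            have hrs := rs_succ π k j
            have hrs0 := rs_pos π k j
            have hrs1 : rs π k (j + 1) = 2 ^ (j + 1) * π.ep k := rfl
            linarith
          refine Set.eq_empty_of_forall_notMem fun u hu => ?_
          have hsec := ih (fun g1 g2 p1 p2 p3 p4 => hab g1 g2 (h1.trans p1) p2 (h1.trans p3) p4)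
            (h3 u) hres
          have hmem : u ∈ sec X g u := by
            rw [mem_sec, mix_self]
            exact hu
          rw [hsec] at hmem
          exact hmem
      | union h h' ihX ihY =>
        intro hw
        have h1 := cov_nonneg π (n := n + 1) (k := k) (a := a) (b := b) h
        have h2 := cov_nonneg π (n := n + 1) (k := k) (a := a) (b := b) h'
        rw [ihX (by linarith), ihY (by linarith), Set.union_empty]
      | mono h hY hv ihX =>
        intro hw
        exact Set.subset_empty_iff.1 (ihX (hv.trans_lt hw) ▸ hY)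
    exact key h hw

theorem large_point {n k : ℕ} {a b : Γ}
    (hab : ∀ g g', a ≤ g → g < b → a ≤ g' → g' < b → g = g') {D : Set (∀ g, T g)}
    (hD : D.Nonempty) : Large (Cov π n k) a b D := by
  intro w hw h
  exact hD.ne_empty (cov_point π hab h (by linarith))

/-- guessing the values of `f i` at the coordinates `l i` fails only on a small set -/
theorem cov_guess [∀ g, Nonempty (T g)] {n k : ℕ} {a b : Γ} {m : ℕ} (hm : π.N k ≤ m)
    {l r : ℕ → Γ} (hs : Slots a b m l r) (h1 : ∀ i < m, ∀ g, l i ≤ g → g < r i → g = l i)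
    (f : ∀ i, (∀ g, T g) → T (l i))
    (hf : ∀ i < m, ∀ z z' : ∀ g, T g, (∀ g, a ≤ g → g < l i → z g = z' g) → f i z = f i z') :
    Cov π (n + 1) k a b {z | ∀ i < m, z (l i) ≠ f i z} ((1 / 2) ^ k) := by
  have hwt : wt π k 0 = (1 / 2 : ℝ) ^ k := by simp [wt]
  rw [← hwt]
  refine cov_elem π ⟨?_, Or.inl ⟨m, l, r, by simpa using hm, hs, ?_⟩⟩
  · intro z z' hz
    have key : ∀ i < m, (z (l i) ≠ f i z ↔ z' (l i) ≠ f i z') := by
      intro i hi
      obtain ⟨h2, h3, h4⟩ := hs.1 i hi
      rw [hz (l i) h2 (h3.trans_le h4),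
        hf i hi z z' fun g h5 h6 => hz g h5 (h6.trans (h3.trans_le h4))]
    exact ⟨fun h i hi => (key i hi).1 (h i hi), fun h i hi => (key i hi).2 (h i hi)⟩
  · intro i hi u
    obtain ⟨h2, h3, h4⟩ := hs.1 i hi
    refine ⟨{v | v (l i) = f i u}, ?_, ?_, ?_⟩
    · intro v v' hv
      change v (l i) = f i u ↔ v' (l i) = f i u
      rw [hv (l i) le_rfl h3]
    · refine large_point π (fun g g' p1 p2 p3 p4 => ?_) ?_
      · rw [h1 i hi g p1 p2, h1 i hi g' p3 p4]
      · classical
        exact ⟨Function.update u (l i) (f i u), by simp⟩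
    · intro v hv
      have hsec : sec {z | ∀ i < m, z (l i) ≠ f i z} (r i) (mix (l i) u v) = ∅ := by
        refine Set.eq_empty_of_forall_notMem fun z hz => ?_
        rw [mem_sec] at hz
        refine hz i hi ?_
        have e1 : mix (r i) (mix (l i) u v) z (l i) = v (l i) := by
          simp [mix, h3]
        have e2 : f i (mix (r i) (mix (l i) u v) z) = f i u := by
          refine hf i hi _ _ fun g _ h6 => ?_
          simp [mix, h6, h6.trans h3]
        rw [e1, e2]
        exact hv
      rw [hsec]
      exact cov_empty π n (k + 1) (r i) b (rs_pos π k 0).le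

/-- if all sections are small then the set is small -/
theorem cov_F {n k : ℕ} {a b g : Γ} (hag : a ≤ g) (hgb : g ≤ b) {X : Set (∀ g, T g)}
    (hX : Dep X a b) (h : ∀ u, Cov π n (k + 1) g b (sec X g u) (π.ep k)) :
    Cov π (n + 1) k a b X ((1 / 2) ^ k) := by
  have hwt : wt π k 0 = (1 / 2 : ℝ) ^ k := by simp [wt]
  have hrs : rs π k 0 = π.ep k := by simp [rs]
  rw [← hwt]
  refine cov_elem π ⟨hX, Or.inr ⟨g, hag, hgb, fun u => ?_⟩⟩
  rw [hrs]
  exact h u

end Pool.Agent.H90.SN
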