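import Pool.Agent.H90.SN.Sys
import Pool.Agent.H90.Frc.Rats

/-!
# The forcing with measurable sets: truth values
-/

set_option autoImplicit false

open Filter MeasureTheory

namespace Pool.Agent.H90.SN

open Frc

instance (X : Sys) : MeasurableSpace X.Ω := X.ms
instance (X : Sys) : X.l.NeBot := X.neBot
instance (X : Sys) : CountableInterFilter X.l := X.cinf

/-- the forcing: measurable sets which are not null -/
def Pos (X : Sys) : Type := {A : Set X.Ω // MeasurableSet A ∧ ∃ᶠ x in X.l, x ∈ A}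

variable {X : Sys}

instance : PartialOrder (Pos X) := inferInstanceAs (PartialOrder (Subtype _))

theorem pos_le_iff {p q : Pos X} : p ≤ q ↔ p.1 ⊆ q.1 := Iff.rfl

instance : OrderTop (Pos X) where
  top := ⟨Set.univ, MeasurableSet.univ, by simpa using X.neBot⟩
  le_top p := Set.subset_univ p.1

theorem pos_meas (p : Pos X) : MeasurableSet p.1 := p.2.1

theorem pos_freq (p : Pos X) : ∃ᶠ x in X.l, x ∈ p.1 := p.2.2

/-- a restriction of a condition -/
theorem exists_pos {p : Pos X} {A : Set X.Ω} (hA : MeasurableSet A)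
    (h : ∃ᶠ x in X.l, x ∈ p.1 ∧ x ∈ A) : ∃ q : Pos X, q ≤ p ∧ q.1 ⊆ A ∧ q.1 = p.1 ∩ A :=
  ⟨⟨p.1 ∩ A, (pos_meas p).inter hA, h⟩, Set.inter_subset_left, Set.inter_subset_right, rfl⟩

/-- one of countably many sets covering `p` almost everywhere meets `p` in a condition -/
theorem split_pos {ι : Type} [Countable ι] {p : Pos X} {A : ι → Set X.Ω}
    (hA : ∀ i, MeasurableSet (A i)) (h : ∀ᶠ x in X.l, x ∈ p.1 → ∃ i, x ∈ A i) :
    ∃ i, ∃ q : Pos X, q ≤ p ∧ q.1 ⊆ A i := by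
  by_contra hcon
  push Not at hcon
  have h1 : ∀ i, ∀ᶠ x in X.l, ¬ (x ∈ p.1 ∧ x ∈ A i) := by
    intro i
    by_contra h2
    obtain ⟨q, hq, hqA, -⟩ := exists_pos (hA i) (p := p) h2
    exact hcon i q hq hqA
  rw [← eventually_countable_forall] at h1
  obtain ⟨x, hx, hx1, hx2⟩ := ((pos_freq p).and_eventually (h1.and h)).exists
  obtain ⟨i, hi⟩ := hx2 hx
  exact hx1 i ⟨hx, hi⟩

/-- A maximal family of disjoint conditions with a given property. -/
theorem exists_partition (p : Pos X) (D : Pos X → Prop)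
    (hD : ∀ q ≤ p, ∃ r ≤ q, D r) :
    ∃ 𝒜 : Set (Pos X), 𝒜.Countable ∧ (∀ q ∈ 𝒜, q ≤ p ∧ D q) ∧
      (∀ q ∈ 𝒜, ∀ r ∈ 𝒜, q ≠ r → Disjoint q.1 r.1) ∧
      ∀ᶠ x in X.l, x ∈ p.1 → ∃ q ∈ 𝒜, x ∈ q.1 := by
  obtain ⟨𝒜, h𝒜⟩ := zorn_subset {𝒜 : Set (Pos X) | (∀ q ∈ 𝒜, q ≤ p ∧ D q) ∧
      (∀ q ∈ 𝒜, ∀ r ∈ 𝒜, q ≠ r → Disjoint q.1 r.1)} (by
    intro c hc hchain
    refine ⟨⋃₀ c, ⟨?_, ?_⟩, fun s hs => Set.subset_sUnion_of_mem hs⟩
    · rintro q ⟨s, hs, hq⟩
      exact (hc hs).1 q hq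
    · rintro q ⟨s, hs, hq⟩ r ⟨t, ht, hr⟩ hne
      rcases hchain.total hs ht with h | h
      · exact (hc ht).2 q (h hq) r hr hne
      · exact (hc hs).2 q hq r (h hr) hne)
  have h1 := h𝒜.prop
  have hcount : 𝒜.Countable := by
    by_contra hcon
    have hle : Cardinal.mk Om ≤ Cardinal.mk 𝒜 := by
      rw [Cardinal.mk_toType, Ordinal.card_omega, ← Cardinal.succ_aleph0, Order.succ_le_iff]
      exact not_le.1 fun h => hcon (Cardinal.le_aleph0_iff_set_countable.1 h)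
    obtain ⟨e⟩ := hle
    obtain ⟨i, j, hij, hfr⟩ := X.ccc (fun i => (e i).1.1) (fun i => pos_meas _)
      (fun i => pos_freq _)
    have hne : (e i).1 ≠ (e j).1 := fun h => hij (e.injective (Subtype.ext h))
    have hdis := h1.2 _ (e i).2 _ (e j).2 hne
    obtain ⟨x, hx1, hx2⟩ := hfr.exists
    exact Set.disjoint_left.1 hdis hx1 hx2
  refine ⟨𝒜, hcount, h1.1, h1.2, ?_⟩
  by_contra hcon
  have hm : MeasurableSet (⋃ q ∈ 𝒜, (q : Pos X).1)ᶜ :=
    (MeasurableSet.biUnion hcount fun q _ => pos_meas q).compl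
  have hfr : ∃ᶠ x in X.l, x ∈ p.1 ∧ x ∈ (⋃ q ∈ 𝒜, (q : Pos X).1)ᶜ := by
    refine Frequently.mono (not_eventually.1 hcon) fun x hx => ?_
    rw [Classical.not_imp] at hx
    refine ⟨hx.1, ?_⟩
    simp only [Set.mem_compl_iff, Set.mem_iUnion]
    rintro ⟨q, hq, hxq⟩
    exact hx.2 ⟨q, hq, hxq⟩
  obtain ⟨q, hqp, hq, -⟩ := exists_pos hm hfr
  obtain ⟨r, hr, hDr⟩ := hD q hqp
  have hrdis : ∀ s ∈ 𝒜, Disjoint r.1 s.1 := by
    intro s hs
    rw [Set.disjoint_left]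
    intro x hx hxs
    exact hq (hr hx) (Set.mem_biUnion hs hxs)
  have hins : insert r 𝒜 ∈ {𝒜 : Set (Pos X) | (∀ q ∈ 𝒜, q ≤ p ∧ D q) ∧
      (∀ q ∈ 𝒜, ∀ r ∈ 𝒜, q ≠ r → Disjoint q.1 r.1)} := by
    refine ⟨?_, ?_⟩
    · rintro s (rfl | hs)
      · exact ⟨hr.trans hqp, hDr⟩
      · exact h1.1 s hs
    · rintro s (rfl | hs) t (rfl | ht) hne
      · exact absurd rfl hne
      · exact hrdis t ht
      · exact (hrdis s hs).symm
      · exact h1.2 s hs t ht hne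
  have hr𝒜 : r ∈ 𝒜 := h𝒜.le_of_ge hins (Set.subset_insert r 𝒜) (Set.mem_insert r 𝒜)
  obtain ⟨x, hx⟩ := (pos_freq r).exists
  exact Set.disjoint_left.1 (hrdis r hr𝒜) hx hx

/-- Truth values: a definable statement about names is forced by exactly those conditions which
are almost contained in a measurable set. -/
theorem exists_tv {n : ℕ} {R : Pred n} (hR : Dfn R) (v : Fin n → Name (Pos X)) :
    ∃ A : Set X.Ω, MeasurableSet A ∧ ∀ p : Pos X, Fc p v R ↔ ∀ᶠ x in X.l, x ∈ p.1 → x ∈ A := by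
  obtain ⟨𝒜, hc, h1, h2, h3⟩ := exists_partition (⊤ : Pos X)
    (fun q => Fc q v R ∨ Fc q v (fun M E a => ¬ R M E a)) (fun q _ => Fc.decide hR v q)
  refine ⟨⋃ q ∈ {q | q ∈ 𝒜 ∧ Fc q v R}, q.1,
    MeasurableSet.biUnion (hc.mono fun q hq => hq.1) fun q _ => pos_meas q, fun p => ?_⟩
  constructor
  · intro hp
    have h4 : ∀ q ∈ 𝒜, ¬ Fc q v R → ∀ᶠ x in X.l, ¬ (x ∈ p.1 ∧ x ∈ q.1) := by
      intro q hq hn
      by_contra hcon
      obtain ⟨r, hr, hrq, -⟩ := exists_pos (pos_meas q) (p := p) hcon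
      rcases (h1 q hq).2 with h5 | h5
      · exact hn h5
      · exact (hp.mono hr).absurd (h5.mono (q := r) hrq)
    have h5 : ∀ᶠ x in X.l, ∀ q : 𝒜, ¬ Fc q.1 v R → ¬ (x ∈ p.1 ∧ x ∈ q.1.1) := by
      have : Countable 𝒜 := hc.to_subtype
      rw [eventually_countable_forall]
      intro q
      by_cases hn : Fc q.1 v R
      · exact Eventually.of_forall fun x h => absurd hn h
      · exact (h4 q.1 q.2 hn).mono fun x hx _ => hx
    filter_upwards [h3, h5] with x hx3 hx5 hxp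
    obtain ⟨q, hq, hxq⟩ := hx3 trivial
    refine Set.mem_biUnion (x := q) ⟨hq, ?_⟩ hxq
    by_contra hn
    exact hx5 ⟨q, hq⟩ hn ⟨hxp, hxq⟩
  · intro hp
    apply Fc.stable hR
    intro q hq
    have : Countable {q | q ∈ 𝒜 ∧ Fc q v R} := (hc.mono fun q hq => hq.1).to_subtype
    obtain ⟨⟨r, hr⟩, s, hs, hsr⟩ := split_pos (p := q)
      (A := fun r : {q | q ∈ 𝒜 ∧ Fc q v R} => r.1.1) (fun r => pos_meas r.1) (by
        filter_upwards [hp] with x hx hxq
        have := hx (hq hxq)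
        simp only [Set.mem_iUnion] at this
        obtain ⟨r, hr, hxr⟩ := this
        exact ⟨⟨r, hr⟩, hxr⟩)
    exact ⟨s, hs, hr.2.mono hsr⟩

/-- the truth value of a definable statement -/
noncomputable def tv {n : ℕ} {R : Pred n} (hR : Dfn R) (v : Fin n → Name (Pos X)) : Set X.Ω :=
  (exists_tv hR v).choose

theorem measurableSet_tv {n : ℕ} {R : Pred n} (hR : Dfn R) (v : Fin n → Name (Pos X)) :
    MeasurableSet (tv hR v) := (exists_tv hR v).choose_spec.1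

theorem fc_iff {n : ℕ} {R : Pred n} (hR : Dfn R) {v : Fin n → Name (Pos X)} {p : Pos X} :
    Fc p v R ↔ ∀ᶠ x in X.l, x ∈ p.1 → x ∈ tv hR v := (exists_tv hR v).choose_spec.2 p

/-- forcing the negation -/
theorem fc_not_iff {n : ℕ} {R : Pred n} (hR : Dfn R) {v : Fin n → Name (Pos X)} {p : Pos X} :
    Fc p v (fun M E a => ¬ R M E a) ↔ ∀ᶠ x in X.l, x ∈ p.1 → x ∉ tv hR v := by
  constructor
  · intro h
    by_contra hcon
    have : ∃ᶠ x in X.l, x ∈ p.1 ∧ x ∈ tv hR v :=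
      Frequently.mono (not_eventually.1 hcon) fun x hx => by
        rw [Classical.not_imp, not_not] at hx; exact hx
    obtain ⟨q, hq, hqt, -⟩ := exists_pos (measurableSet_tv hR v) this
    have hf : Fc q v R := (fc_iff hR).2 (Eventually.of_forall fun x hx => hqt hx)
    exact hf.absurd (h.mono hq)
  · intro h
    apply Fc.stable hR.not
    intro q hq
    obtain ⟨r, hr, h1 | h1⟩ := Fc.decide hR v q
    · exfalso
      obtain ⟨x, hx, hx1, hx2⟩ := ((pos_freq r).and_eventually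
        (((fc_iff hR).1 h1).and h)).exists
      exact hx2 (hq (hr hx)) (hx1 hx)
    · exact ⟨r, hr, h1⟩

/-- forcing is local: almost everywhere covers by countably many conditions -/
theorem fc_of_cover {n : ℕ} {R : Pred n} (hR : Dfn R) {v : Fin n → Name (Pos X)} {p : Pos X}
    {𝒜 : Set (Pos X)} (hc : 𝒜.Countable) (h : ∀ q ∈ 𝒜, Fc q v R)
    (hcov : ∀ᶠ x in X.l, x ∈ p.1 → ∃ q ∈ 𝒜, x ∈ q.1) : Fc p v R := by
  rw [fc_iff hR]
  have h1 : ∀ᶠ x in X.l, ∀ q : 𝒜, x ∈ q.1.1 → x ∈ tv hR v := by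
    have : Countable 𝒜 := hc.to_subtype
    rw [eventually_countable_forall]
    intro q
    exact (fc_iff hR).1 (h q.1 q.2)
  filter_upwards [hcov, h1] with x hx hx1 hxp
  obtain ⟨q, hq, hxq⟩ := hx hxp
  exact hx1 ⟨q, hq⟩ hxq

/-- to force a statement it is enough to consider a set of full measure -/
theorem fc_of_ae {n : ℕ} {R : Pred n} (hR : Dfn R) {v : Fin n → Name (Pos X)} {p : Pos X}
    (h : ∀ q ≤ p, ∃ r ≤ q, Fc r v R) : Fc p v R := Fc.stable hR h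

/-- gluing measurable functions on countably many disjoint conditions -/
theorem glue {Y : Type} [MeasurableSpace Y] [Nonempty Y] {𝒜 : Set (Pos X)} (hc : 𝒜.Countable)
    (hd : ∀ q ∈ 𝒜, ∀ r ∈ 𝒜, q ≠ r → Disjoint q.1 r.1) (f : Pos X → X.Ω → Y)
    (hf : ∀ q ∈ 𝒜, Measurable (f q)) :
    ∃ F : X.Ω → Y, Measurable F ∧ ∀ q ∈ 𝒜, ∀ x ∈ q.1, F x = f q x := by
  classical
  have hcc : Countable 𝒜 := hc.to_subtype
  let y₀ : Y := Classical.arbitrary Y
  let F : X.Ω → Y := fun x => if h : ∃ q ∈ 𝒜, x ∈ q.1 then f h.choose x else y₀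
  have hF : ∀ q ∈ 𝒜, ∀ x ∈ q.1, F x = f q x := by
    intro q hq x hx
    have h : ∃ q ∈ 𝒜, x ∈ q.1 := ⟨q, hq, hx⟩
    have hch := h.choose_spec
    have : h.choose = q := by
      by_contra hne
      exact Set.disjoint_left.1 (hd _ hch.1 _ hq hne) hch.2 hx
    simp only [F, dif_pos h, this]
  refine ⟨F, ?_, hF⟩
  intro s hs
  have hU : MeasurableSet (⋃ q ∈ 𝒜, (q : Pos X).1) :=
    MeasurableSet.biUnion hc fun q _ => pos_meas q
  have : F ⁻¹' s = (⋃ q ∈ 𝒜, ((q : Pos X).1 ∩ f q ⁻¹' s)) ∪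
      ((⋃ q ∈ 𝒜, (q : Pos X).1)ᶜ ∩ {_x | y₀ ∈ s}) := by
    ext x
    simp only [Set.mem_preimage, Set.mem_union, Set.mem_iUnion, Set.mem_inter_iff,
      Set.mem_compl_iff, exists_prop]
    by_cases h : ∃ q ∈ 𝒜, x ∈ q.1
    · obtain ⟨q, hq, hx⟩ := h
      rw [hF q hq x hx]
      constructor
      · intro hs'
        exact Or.inl ⟨q, hq, hx, hs'⟩
      · rintro (⟨r, hr, hxr, hs'⟩ | ⟨h1, -⟩)
        · rw [← hF r hr x hxr, hF q hq x hx] at hs'
          exact hs'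
        · exact absurd ⟨q, hq, hx⟩ h1
    · have hFx : F x = y₀ := by simp only [F, dif_neg h]
      rw [hFx]
      constructor
      · intro hs'
        exact Or.inr ⟨h, hs'⟩
      · rintro (⟨r, hr, hxr, -⟩ | ⟨-, hs'⟩)
        · exact absurd ⟨r, hr, hxr⟩ h
        · exact hs'
  rw [this]
  refine (MeasurableSet.biUnion hc fun q hq => (pos_meas q).inter (hf q hq hs)).union
    (hU.compl.inter (MeasurableSet.const _))

end Pool.Agent.H90.SN
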