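import Pool.Agent.H90.SN.RealN

/-!
# Reading names of reals and of sequences (module D6)
-/

set_option autoImplicit false

open Filter MeasureTheory

namespace Pool.Agent.H90.SN

open Frc Ordinal

variable {X : Sys}

/-! ### Sequences -/

theorem read_seq {p : Pos X} {τ : Name (Pos X)}
    (h : Fc p ![onN (Pos X) ω, τ] (fun _ E v => ∀ n, E n (v 0) → ∃ q, E q (v 0) ∧
      ∀ z, Rel E (v 1) n z ↔ z = q)) :
    ∃ f : X.Ω → ℕ → ℚ, Measurable f ∧ Fc p ![onN (Pos X) ω, τ, sqN f]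
      (fun _ E v => ∀ n, E n (v 0) → ∀ z, Rel E (v 1) n z ↔ Rel E (v 2) n z) := by
  classical
  let A : ℕ → ℚ → Set X.Ω := fun n s =>
    tv (R := fun _ E v => Rel E (v 0) (v 1) (v 2)) (dfn_rel 0 1 2)
      ![τ, onN (Pos X) n, qN (Pos X) s]
  have hA : ∀ n s, MeasurableSet (A n s) := fun n s => measurableSet_tv _ _
  -- the value exists
  have h1 : ∀ n, ∀ᶠ η in X.l, η ∈ p.1 → ∃ s, η ∈ A n s := by
    intro n
    by_contra hcon
    have hm : MeasurableSet (⋃ s, A n s)ᶜ := (MeasurableSet.iUnion fun s => hA n s).compl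
    obtain ⟨q, hq, hqA, -⟩ := exists_pos (p := p) hm (Frequently.mono (not_eventually.1 hcon)
      fun η hη => by
        rw [Classical.not_imp] at hη
        refine ⟨hη.1, ?_⟩
        simp only [Set.mem_compl_iff, Set.mem_iUnion]
        exact hη.2)
    obtain ⟨g, hg, hL, a, ha⟩ := exists_gen_set q ![onN (Pos X) ω, τ]
      (L := {onN (Pos X) n}) (by simp)
    obtain ⟨m, hm'⟩ := hL (onN (Pos X) n) (by simp)
    have hw : g.Den (onN (Pos X) ω) (a 0) := ha 0
    obtain ⟨z, hz, hzz⟩ := h g (g.up q hg p hq) a ha m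
      ((den_onN hw m).2 ⟨_, natCast_lt_omega0 n, hm'⟩)
    obtain ⟨s, hs⟩ := exists_q_of_mem hw hz
    have h2 : Fc q ![τ, onN (Pos X) n, qN (Pos X) s]
        (fun M E v => ¬ Rel E (v 0) (v 1) (v 2)) :=
      (fc_not_iff (R := fun _ E v => Rel E (v 0) (v 1) (v 2)) (dfn_rel 0 1 2)).2
        (Eventually.of_forall fun η hη hηA => hqA hη (Set.mem_iUnion.2 ⟨s, hηA⟩))
    exact h2 g hg ![a 1, m, z] (den3 (ha 1) hm' hs) ((hzz z).2 rfl)
  have h2 : ∀ᶠ η in X.l, ∀ n, η ∈ p.1 → ∃ s, η ∈ A n s := by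
    rw [eventually_countable_forall]
    exact h1
  have hex : ∀ n η, ∃ k : ℕ, η ∈ A n (ratE k) ∨ ∀ j : ℕ, η ∉ A n (ratE j) := by
    intro n η
    by_cases hc : ∃ k : ℕ, η ∈ A n (ratE k)
    · obtain ⟨k, hk⟩ := hc
      exact ⟨k, Or.inl hk⟩
    · exact ⟨0, Or.inr fun j hj => hc ⟨j, hj⟩⟩
  let f : X.Ω → ℕ → ℚ := fun η n => ratE (Nat.find (hex n η))
  have hf : Measurable f := by
    refine measurable_pi_lambda _ fun n => ?_
    refine Measurable.find (f := fun k _ => ratE k)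
      (p := fun k η => η ∈ A n (ratE k) ∨ ∀ j : ℕ, η ∉ A n (ratE j))
      (fun _ => measurable_const) (fun k => ?_) (hex n)
    have e : {η | η ∈ A n (ratE k) ∨ ∀ j : ℕ, η ∉ A n (ratE j)} =
        A n (ratE k) ∪ ⋂ j : ℕ, (A n (ratE j))ᶜ := by
      ext η
      simp
    rw [e]
    exact (hA n _).union (MeasurableSet.iInter fun j => (hA n _).compl)
  have h3 : ∀ᶠ η in X.l, η ∈ p.1 → ∀ n, η ∈ A n (f η n) := by
    filter_upwards [h2] with η hη hηp n
    rcases Nat.find_spec (hex n η) with h4 | h4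
    · exact h4
    · obtain ⟨s, hs⟩ := hη n hηp
      have := h4 (ratE.symm s)
      rw [Equiv.apply_symm_apply] at this
      exact absurd hs this
  refine ⟨f, hf, fun g hg a ha n hn => ?_⟩
  have hw : g.Den (onN (Pos X) ω) (a 0) := ha 0
  obtain ⟨γ, hγ, hnγ⟩ := (den_onN hw n).1 hn
  obtain ⟨m, rfl⟩ := lt_omega0.1 hγ
  have hS : Fc p ![onN (Pos X) ω, τ, sqN f, onN (Pos X) m]
      (fun _ E v => ∀ z, Rel E (v 1) (v 3) z ↔ Rel E (v 2) (v 3) z) := by
    refine Fc.stable (.all (.iff (dfn_rel _ _ _) (dfn_rel _ _ _))) fun q hq => ?_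
    obtain ⟨s, r, hr, hrs⟩ := split_pos (p := q)
      (A := fun s : ℚ => {η | f η m = s} ∩ A m s)
      (fun s => (((measurable_pi_apply m).comp hf) (measurableSet_singleton s)).inter (hA m s))
      (by
        filter_upwards [h3] with η hη hηq
        exact ⟨f η m, rfl, hη (hq hηq) m⟩)
    refine ⟨r, hr, fun g' hg' c hc => ?_⟩
    have hwc : g'.Den (onN (Pos X) ω) (c 0) := hc 0
    have hmc : g'.Den (onN (Pos X) m) (c 3) := hc 3
    obtain ⟨b, hb⟩ := exists_qN hwc s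
    obtain ⟨z, -, hzz⟩ := h g' (g'.up r hg' p (hr.trans hq)) ![c 0, c 1] (den2 hwc (hc 1)) (c 3)
      ((den_onN hwc _).2 ⟨_, natCast_lt_omega0 m, hmc⟩)
    have h4 : Fc r ![τ, onN (Pos X) m, qN (Pos X) s]
        (fun M E v => Rel E (v 0) (v 1) (v 2)) :=
      (fc_iff (R := fun _ E v => Rel E (v 0) (v 1) (v 2)) (dfn_rel 0 1 2)).2
        (Eventually.of_forall fun η hη => (hrs hη).2)
    have h5 : Rel g'.E (c 1) (c 3) b := h4 g' hg' ![c 1, c 3, b] (den3 (hc 1) hmc hb)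
    have h6 : b = z := (hzz b).1 h5
    subst h6
    intro t
    exact (hzz t).trans (rel_sqN_of hf (hc 2) hmc hb hg' (fun η hη => (hrs hη).1) t).symm
  exact hS g hg ![a 0, a 1, a 2, n] (den4 hw (ha 1) (ha 2) hnγ)

/-! ### Reals -/

theorem exists_real_of_ncut {S : Set ℚ} (hS : NCut S) : ∃ x : ℝ, ∀ s : ℚ, (s : ℝ) < x ↔ s ∈ S := by
  obtain ⟨h1, h2, h3, h4⟩ := hS
  have hb : BddAbove ((fun s : ℚ => (s : ℝ)) '' S) := by
    obtain ⟨q, hq⟩ := h2
    refine ⟨q, ?_⟩
    rintro _ ⟨s, hs, rfl⟩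
    by_contra hcon
    have hcon' : (q : ℝ) < (s : ℝ) := not_le.1 hcon
    exact hq (h3 s hs q (by exact_mod_cast hcon'))
  refine ⟨sSup ((fun s : ℚ => (s : ℝ)) '' S), fun s => ⟨fun h => ?_, fun h => ?_⟩⟩
  · obtain ⟨_, ⟨t, ht, rfl⟩, hst⟩ := exists_lt_of_lt_csSup (h1.image _) h
    have hst' : (s : ℝ) < (t : ℝ) := hst
    exact h3 t ht s (by exact_mod_cast hst')
  · obtain ⟨t, ht, hst⟩ := h4 s h
    have : (t : ℝ) ≤ sSup ((fun s : ℚ => (s : ℝ)) '' S) := le_csSup hb ⟨t, ht, rfl⟩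
    exact lt_of_lt_of_le (by exact_mod_cast hst) this

theorem read_real {p : Pos X} {τ : Name (Pos X)}
    (h : Fc p ![onN (Pos X) ω, ltN (Pos X), τ] (fun _ E v => IsCut E (v 0) (v 1) (v 2))) :
    ∃ x : X.Ω → ℝ, Measurable x ∧ Fc p ![τ, rlN x] (fun _ _ v => v 0 = v 1) := by
  classical
  let A : ℚ → Set X.Ω := fun s =>
    tv (R := fun _ E v => E (v 1) (v 0)) (Dfn.mem 1 0) ![τ, qN (Pos X) s]
  have hA : ∀ s, MeasurableSet (A s) := fun s => measurableSet_tv _ _
  -- generic cuts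
  have hgen : ∀ q ≤ p, ∃ S : Set ℚ, NCut S ∧
      ∀ s, (q.1 ⊆ A s → s ∈ S) ∧ (q.1 ⊆ (A s)ᶜ → s ∉ S) := by
    intro q hq
    obtain ⟨g, hg, -, a, ha⟩ := exists_gen_set q ![onN (Pos X) ω, ltN (Pos X), τ]
      (L := ∅) (by simp)
    have hw : g.Den (onN (Pos X) ω) (a 0) := ha 0
    have hl : g.Den (ltN (Pos X)) (a 1) := ha 1
    have hcut := (isCut_iff hw hl (a 2)).1 (h g (g.up q hg p hq) a ha)
    refine ⟨cs g (a 2), hcut.2, fun s => ⟨fun hs => ?_, fun hs => ?_⟩⟩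
    · obtain ⟨b, hb⟩ := exists_qN hw s
      have h4 : Fc q ![τ, qN (Pos X) s] (fun M E v => E (v 1) (v 0)) :=
        (fc_iff (R := fun _ E v => E (v 1) (v 0)) (Dfn.mem 1 0)).2
          (Eventually.of_forall fun η hη => hs hη)
      exact (mem_cs hb).2 (h4 g hg ![a 2, b] (den2 (ha 2) hb))
    · obtain ⟨b, hb⟩ := exists_qN hw s
      have h4 : Fc q ![τ, qN (Pos X) s] (fun M E v => ¬ E (v 1) (v 0)) :=
        (fc_not_iff (R := fun _ E v => E (v 1) (v 0)) (Dfn.mem 1 0)).2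
          (Eventually.of_forall fun η hη => hs hη)
      exact fun hc => h4 g hg ![a 2, b] (den2 (ha 2) hb) ((mem_cs hb).1 hc)
  -- almost everywhere statements
  have hae : ∀ {B : Set X.Ω}, MeasurableSet B → (∀ q ≤ p, q.1 ⊆ B → False) →
      ∀ᶠ η in X.l, η ∈ p.1 → η ∉ B := by
    intro B hB hno
    by_contra hcon
    obtain ⟨q, hq, hqB, -⟩ := exists_pos (p := p) hB (Frequently.mono (not_eventually.1 hcon)
      fun η hη => by rw [Classical.not_imp, not_not] at hη; exact hη)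
    exact hno q hq hqB
  have c1 : ∀ᶠ η in X.l, η ∈ p.1 → η ∉ ⋂ s, (A s)ᶜ := by
    refine hae (MeasurableSet.iInter fun s => (hA s).compl) fun q hq hqB => ?_
    obtain ⟨S, hS, hSA⟩ := hgen q hq
    obtain ⟨s, hs⟩ := hS.1
    exact (hSA s).2 (fun η hη => Set.mem_iInter.1 (hqB hη) s) hs
  have c2 : ∀ᶠ η in X.l, η ∈ p.1 → η ∉ ⋂ s, A s := by
    refine hae (MeasurableSet.iInter fun s => hA s) fun q hq hqB => ?_
    obtain ⟨S, hS, hSA⟩ := hgen q hq
    obtain ⟨s, hs⟩ := hS.2.1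
    exact hs ((hSA s).1 (fun η hη => Set.mem_iInter.1 (hqB hη) s))
  have c3 : ∀ᶠ η in X.l, ∀ z : {z : ℚ × ℚ // z.2 < z.1}, η ∈ p.1 → η ∉ A z.1.1 ∩ (A z.1.2)ᶜ := by
    rw [eventually_countable_forall]
    rintro ⟨⟨s, t⟩, hst⟩
    refine hae ((hA s).inter (hA t).compl) fun q hq hqB => ?_
    obtain ⟨S, hS, hSA⟩ := hgen q hq
    exact (hSA t).2 (fun η hη => (hqB hη).2)
      (hS.2.2.1 s ((hSA s).1 fun η hη => (hqB hη).1) t hst)
  have c4 : ∀ᶠ η in X.l, ∀ s : ℚ, η ∈ p.1 →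
      η ∉ A s ∩ ⋂ t : {t : ℚ // s < t}, (A t)ᶜ := by
    rw [eventually_countable_forall]
    intro s
    refine hae ((hA s).inter (MeasurableSet.iInter fun t => (hA t).compl)) fun q hq hqB => ?_
    obtain ⟨S, hS, hSA⟩ := hgen q hq
    obtain ⟨t, ht, hst⟩ := hS.2.2.2 s ((hSA s).1 fun η hη => (hqB hη).1)
    exact (hSA t).2 (fun η hη => Set.mem_iInter.1 (hqB hη).2 ⟨t, hst⟩) ht
  let G : Set X.Ω := {η | NCut {s : ℚ | η ∈ A s}}
  have hG : ∀ᶠ η in X.l, η ∈ p.1 → η ∈ G := by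
    filter_upwards [c1, c2, c3, c4] with η h1 h2 h3 h4 hη
    refine ⟨?_, ?_, ?_, ?_⟩
    · have := h1 hη
      simp only [Set.mem_iInter, not_forall, Set.mem_compl_iff, not_not] at this
      exact this
    · have := h2 hη
      simp only [Set.mem_iInter, not_forall] at this
      exact this
    · intro s hs t hts
      by_contra hcon
      exact h3 ⟨(s, t), hts⟩ hη ⟨hs, hcon⟩
    · intro s hs
      have := h4 s hη
      simp only [Set.mem_inter_iff, Set.mem_iInter, not_and, not_forall, Set.mem_compl_iff,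
        not_not] at this
      obtain ⟨⟨t, ht⟩, hts⟩ := this hs
      exact ⟨t, hts, ht⟩
  have hGm : MeasurableSet G := by
    have e : G = (⋃ s, A s) ∩ ((⋃ s, (A s)ᶜ) ∩ ((⋂ z : {z : ℚ × ℚ // z.2 < z.1},
        ((A z.1.1)ᶜ ∪ A z.1.2)) ∩ ⋂ s : ℚ, ((A s)ᶜ ∪ ⋃ t : {t : ℚ // s < t}, A t))) := by
      ext η
      simp only [G, Set.mem_inter_iff, Set.mem_iUnion, Set.mem_iInter, Set.mem_union,
        Set.mem_compl_iff]
      refine and_congr ?_ (and_congr ?_ (and_congr ?_ ?_))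
      · rfl
      · rfl
      · constructor
        · rintro h ⟨⟨s, t⟩, hst⟩
          by_cases hs : η ∈ A s
          · exact Or.inr (h s hs t hst)
          · exact Or.inl hs
        · intro h s hs t hts
          rcases h ⟨(s, t), hts⟩ with h5 | h5
          · exact absurd hs h5
          · exact h5
      · constructor
        · intro h s
          by_cases hs : η ∈ A s
          · obtain ⟨t, ht, hst⟩ := h s hs
            exact Or.inr ⟨⟨t, hst⟩, ht⟩
          · exact Or.inl hs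
        · intro h s hs
          rcases h s with h5 | ⟨⟨t, hst⟩, ht⟩
          · exact absurd hs h5
          · exact ⟨t, ht, hst⟩
    rw [e]
    refine (MeasurableSet.iUnion hA).inter ((MeasurableSet.iUnion fun s => (hA s).compl).inter
      ((MeasurableSet.iInter fun z => (hA _).compl.union (hA _)).inter
      (MeasurableSet.iInter fun s => (hA s).compl.union (MeasurableSet.iUnion fun t => hA _))))
  let x : X.Ω → ℝ := fun η => if h : η ∈ G then (exists_real_of_ncut h).choose else 0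
  have hx : ∀ η ∈ G, ∀ s : ℚ, (s : ℝ) < x η ↔ η ∈ A s := by
    intro η hη s
    simp only [x, dif_pos hη]
    exact (exists_real_of_ncut hη).choose_spec s
  have hxm : Measurable x := by
    refine measurable_of_Ioi fun r => ?_
    have e : x ⁻¹' Set.Ioi r = (G ∩ ⋃ s : {s : ℚ // r < s}, A s) ∪ (Gᶜ ∩ {_η | r < 0}) := by
      ext η
      simp only [Set.mem_preimage, Set.mem_Ioi, Set.mem_union, Set.mem_inter_iff, Set.mem_iUnion,
        Set.mem_compl_iff]
      by_cases hη : η ∈ G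
      · constructor
        · intro hr
          obtain ⟨s, h1, h2⟩ := exists_rat_btwn hr
          exact Or.inl ⟨hη, ⟨s, h1⟩, (hx η hη s).1 h2⟩
        · rintro (⟨-, ⟨s, h1⟩, h2⟩ | ⟨h1, -⟩)
          · exact lt_trans h1 ((hx η hη s).2 h2)
          · exact absurd hη h1
      · have : x η = 0 := by simp only [x, dif_neg hη]
        rw [this]
        constructor
        · intro h5
          exact Or.inr ⟨hη, h5⟩
        · rintro (⟨h1, -⟩ | ⟨-, h5⟩)
          · exact absurd h1 hη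
          · exact h5
    rw [e]
    exact (hGm.inter (MeasurableSet.iUnion fun s => hA _)).union
      (hGm.compl.inter (MeasurableSet.const _))
  refine ⟨x, hxm, ?_⟩
  refine Fc.with_names (Dfn.eq 0 1) (L := {onN (Pos X) ω, ltN (Pos X)}) (by simp) ?_
  intro g hg hL a ha
  obtain ⟨w, hw⟩ := hL (onN (Pos X) ω) (by simp)
  obtain ⟨l, hl⟩ := hL (ltN (Pos X)) (by simp)
  have hτ : g.Den τ (a 0) := ha 0
  have hxx : g.Den (rlN x) (a 1) := ha 1
  have hcut : IsCut g.E w l (a 0) := h g hg ![w, l, a 0] (den3 hw hl hτ)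
  have hcut' := isCut_rlN hxm hw hl hxx
  have hs : ∀ s : ℚ, Fc p ![τ, rlN x, qN (Pos X) s]
      (fun _ E v => E (v 2) (v 0) ↔ E (v 2) (v 1)) := by
    intro s
    refine Fc.stable (.iff (.mem _ _) (.mem _ _)) fun q hq => ?_
    obtain ⟨i, r, hr, hri⟩ := split_pos (p := q)
      (A := fun i : Bool => bif i then A s ∩ {η | (s : ℝ) < x η} else (A s)ᶜ ∩ {η | x η ≤ (s : ℝ)})
      (by
        rintro (i | i)
        · exact (hA s).compl.inter (measurableSet_le hxm measurable_const)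
        · exact (hA s).inter (measurableSet_lt measurable_const hxm)) (by
        filter_upwards [hG] with η hη hηq
        have h5 := hx η (hη (hq hηq)) s
        by_cases h6 : η ∈ A s
        · exact ⟨true, h6, h5.2 h6⟩
        · exact ⟨false, h6, not_lt.1 fun h7 => h6 (h5.1 h7)⟩)
    refine ⟨r, hr, fun g' hg' c hc => ?_⟩
    cases i with
    | true =>
      have h4 : Fc r ![τ, qN (Pos X) s] (fun M E v => E (v 1) (v 0)) :=
        (fc_iff (R := fun _ E v => E (v 1) (v 0)) (Dfn.mem 1 0)).2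
          (Eventually.of_forall fun η hη => (hri hη).1)
      exact ⟨fun _ => mem_rlN_of hxm (hc 1) (hc 2) hg' (fun η hη => (hri hη).2),
        fun _ => h4 g' hg' ![c 0, c 2] (den2 (hc 0) (hc 2))⟩
    | false =>
      have h4 : Fc r ![τ, qN (Pos X) s] (fun M E v => ¬ E (v 1) (v 0)) :=
        (fc_not_iff (R := fun _ E v => E (v 1) (v 0)) (Dfn.mem 1 0)).2
          (Eventually.of_forall fun η hη => (hri hη).1)
      exact ⟨fun h7 => absurd h7 (h4 g' hg' ![c 0, c 2] (den2 (hc 0) (hc 2))),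
        fun h7 => absurd h7 (not_mem_rlN_of (hc 1) (hc 2) hg' (fun η hη => (hri hη).2))⟩
  refine Gen.extensional fun z => ⟨fun hz => ?_, fun hz => ?_⟩
  · obtain ⟨s, hs'⟩ := exists_q_of_mem hw (hcut.1 z hz)
    exact (hs s g hg ![a 0, a 1, z] (den3 hτ hxx hs')).1 hz
  · obtain ⟨s, hs'⟩ := exists_q_of_mem hw (hcut'.1 z hz)
    exact (hs s g hg ![a 0, a 1, z] (den3 hτ hxx hs')).2 hz

end Pool.Agent.H90.SN
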