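import Pool.Agent.H90.Frc.Fml

/-!
# The statement about strong measure zero sets

Everything here is about an arbitrary structure `(M, E)` with one binary relation `E`, read as
membership.  All quantifiers of the predicates below range over the elements of `M`.  The basic
vocabulary (`IsSub`, `IsOPair`, `Rel`, `SizeLe`, `IsOmega`, `IsOmega1`, `IsReals`, …) is in
`Pool/Agent/H90/Frc/Stmt.lean`.
-/

set_option autoImplicit false

namespace Pool.Agent.H90.SN

open Frc

section Vocabulary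

variable {M : Type} (E : M → M → Prop)

/-- `f(a, b) = c` -/
def Op (f a b c : M) : Prop := ∃ p, IsOPair E a b p ∧ Rel E f p c

/-- `f` is a binary operation on `Q` -/
def IsBin (Q f : M) : Prop := ∀ a b, E a Q → E b Q → ∃ c, E c Q ∧ ∀ d, Op E f a b d ↔ d = c

/-- `(Q, add, mul)` is a field with the elements `o = 0` and `e = 1` -/
def IsField (Q add mul o e : M) : Prop :=
  IsBin E Q add ∧ IsBin E Q mul ∧
  (∀ a b c, E a Q → E b Q → Op E add a b c → Op E add b a c) ∧
  (∀ a b c, E a Q → E b Q → Op E mul a b c → Op E mul b a c) ∧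
  (∀ a b c u v x, E a Q → E b Q → E c Q → Op E add a b u → Op E add u c x → Op E add b c v →
    Op E add a v x) ∧
  (∀ a b c u v x, E a Q → E b Q → E c Q → Op E mul a b u → Op E mul u c x → Op E mul b c v →
    Op E mul a v x) ∧
  (∀ a b c u x v y, E a Q → E b Q → E c Q → Op E add b c u → Op E mul a u x →
    Op E mul a b v → Op E mul a c y → Op E add v y x) ∧
  E o Q ∧ E e Q ∧ o ≠ e ∧
  (∀ a, E a Q → Op E add a o a ∧ Op E mul a e a) ∧
  (∀ a, E a Q → ∃ b, E b Q ∧ Op E add a b o) ∧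
  (∀ a, E a Q → a ≠ o → ∃ b, E b Q ∧ Op E mul a b e)

/-- `lt` is a strict linear order of `Q` compatible with the operations -/
def IsFieldOrder (Q add mul lt o : M) : Prop :=
  (∀ a, E a Q → ¬ Rel E lt a a) ∧
  (∀ a b c, E a Q → E b Q → E c Q → Rel E lt a b → Rel E lt b c → Rel E lt a c) ∧
  (∀ a b, E a Q → E b Q → a = b ∨ Rel E lt a b ∨ Rel E lt b a) ∧
  (∀ a b c u v, E a Q → E b Q → E c Q → Rel E lt a b → Op E add a c u → Op E add b c v →
    Rel E lt u v) ∧
  (∀ a b c, E a Q → E b Q → Rel E lt o a → Rel E lt o b → Op E mul a b c → Rel E lt o c)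

/-- every subset of `Q` which contains `1` and is closed under subtraction and division is `Q` -/
def NoSubfield (Q add mul o e : M) : Prop :=
  ∀ S, IsSub E S Q → E e S → (∀ a b c, E a S → E b S → E c Q → Op E add c b a → E c S) →
    (∀ a b c, E a S → E b S → b ≠ o → E c Q → Op E mul c b a → E c S) → IsSub E Q S

/-- `(Q, add, mul, lt)` is an ordered field without proper subfields, that is, the ordered field of
the rational numbers. -/
def IsRationals (Q add mul lt : M) : Prop :=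
  ∃ o e, IsField E Q add mul o e ∧ IsFieldOrder E Q add mul lt o ∧ NoSubfield E Q add mul o e

/-- `q` is positive -/
def IsPos (Q add lt q : M) : Prop := ∃ o, E o Q ∧ Op E add o o o ∧ Rel E lt o q

/-- `e` restricted to `ω` is a sequence of positive rational numbers. -/
def IsPosSeq (w Q add lt e : M) : Prop :=
  ∀ n, E n w → ∃ q, E q Q ∧ IsPos E Q add lt q ∧ ∀ z, Rel E e n z ↔ z = q

/-- The sequences `a`, `b` of rational numbers define intervals `(a n, b n]` such that the length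
`b n - a n` is smaller than `e n`, for all `n`. -/
def IsShort (w Q add lt e a b : M) : Prop :=
  ∀ n, E n w → ∃ x y q z, E x Q ∧ E y Q ∧ (∀ t, Rel E a n t ↔ t = x) ∧
    (∀ t, Rel E b n t ↔ t = y) ∧ Rel E e n q ∧ Op E add x q z ∧ Rel E lt y z

/-- Every real number `x ∈ X` (a Dedekind cut) lies in one of the intervals `(a n, b n]`, that is,
`a n ∈ x` and `b n ∉ x`. -/
def IsCovered (w a b X : M) : Prop :=
  ∀ x, E x X → ∃ n c d, E n w ∧ Rel E a n c ∧ Rel E b n d ∧ E c x ∧ ¬ E d x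

/-- `X` (a set of Dedekind cuts) has strong measure zero: for every sequence `e` of positive
rational numbers there are intervals `(a n, b n]` of length less than `e n` which cover `X`. -/
def IsSN (w Q add lt X : M) : Prop :=
  ∀ e, IsPosSeq E w Q add lt e → ∃ a b, IsShort E w Q add lt e a b ∧ IsCovered E w a b X

/-- There is a family `F` of at most `|k|` strong measure zero sets of real numbers such that every
strong measure zero set of real numbers is contained in a member of `F`: `cof(SN) ≤ |k|`. -/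
def CofSNLe (w Q add lt R k : M) : Prop :=
  ∃ F, SizeLe E F k ∧ (∀ Y, E Y F → IsSub E Y R ∧ IsSN E w Q add lt Y) ∧
    ∀ X, IsSub E X R → IsSN E w Q add lt X → ∃ Y, E Y F ∧ IsSub E X Y

/-- The statement `cof(SN) = ℵ₁` in `(M, E)`: `cof(SN) ≤ ℵ₁` and not `cof(SN) ≤ ℵ₀`. -/
def SNStatement : Prop :=
  ∃ w o Q add mul lt R, IsOmega E w ∧ IsOmega1 E w o ∧ IsRationals E Q add mul lt ∧
    IsReals E Q lt R ∧ CofSNLe E w Q add lt R o ∧ ¬ CofSNLe E w Q add lt R w

end Vocabulary

/-! ### Definability -/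

section

variable {n : ℕ}

theorem dfn_op (i j k l : Fin n) : Dfn (fun _ E v => Op E (v i) (v j) (v k) (v l)) :=
  .ex (.and (dfn_isOPair _ _ _) (dfn_rel _ _ _))

theorem dfn_isBin (i j : Fin n) : Dfn (fun _ E v => IsBin E (v i) (v j)) :=
  .all (.all (.imp (.mem _ _) (.imp (.mem _ _) (.ex (.and (.mem _ _)
    (.all (.iff (dfn_op _ _ _ _) (.eq _ _))))))))

theorem dfn_isField (i j k l m : Fin n) :
    Dfn (fun _ E v => IsField E (v i) (v j) (v k) (v l) (v m)) :=
  .and (dfn_isBin _ _) (.and (dfn_isBin _ _)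
    (.and (.all (.all (.all (.imp (.mem _ _) (.imp (.mem _ _) (.imp (dfn_op _ _ _ _)
      (dfn_op _ _ _ _)))))))
    (.and (.all (.all (.all (.imp (.mem _ _) (.imp (.mem _ _) (.imp (dfn_op _ _ _ _)
      (dfn_op _ _ _ _)))))))
    (.and (.all (.all (.all (.all (.all (.all (.imp (.mem _ _) (.imp (.mem _ _)
      (.imp (.mem _ _) (.imp (dfn_op _ _ _ _) (.imp (dfn_op _ _ _ _) (.imp (dfn_op _ _ _ _)
      (dfn_op _ _ _ _)))))))))))))
    (.and (.all (.all (.all (.all (.all (.all (.imp (.mem _ _) (.imp (.mem _ _)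
      (.imp (.mem _ _) (.imp (dfn_op _ _ _ _) (.imp (dfn_op _ _ _ _) (.imp (dfn_op _ _ _ _)
      (dfn_op _ _ _ _)))))))))))))
    (.and (.all (.all (.all (.all (.all (.all (.all (.imp (.mem _ _) (.imp (.mem _ _)
      (.imp (.mem _ _) (.imp (dfn_op _ _ _ _) (.imp (dfn_op _ _ _ _) (.imp (dfn_op _ _ _ _)
      (.imp (dfn_op _ _ _ _) (dfn_op _ _ _ _)))))))))))))))
    (.and (.mem _ _) (.and (.mem _ _) (.and (.not (.eq _ _))
    (.and (.all (.imp (.mem _ _) (.and (dfn_op _ _ _ _) (dfn_op _ _ _ _))))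
    (.and (.all (.imp (.mem _ _) (.ex (.and (.mem _ _) (dfn_op _ _ _ _)))))
      (.all (.imp (.mem _ _) (.imp (.not (.eq _ _))
        (.ex (.and (.mem _ _) (dfn_op _ _ _ _)))))))))))))))))

theorem dfn_isFieldOrder (i j k l m : Fin n) :
    Dfn (fun _ E v => IsFieldOrder E (v i) (v j) (v k) (v l) (v m)) :=
  .and (.all (.imp (.mem _ _) (.not (dfn_rel _ _ _))))
    (.and (.all (.all (.all (.imp (.mem _ _) (.imp (.mem _ _) (.imp (.mem _ _)
      (.imp (dfn_rel _ _ _) (.imp (dfn_rel _ _ _) (dfn_rel _ _ _)))))))))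
    (.and (.all (.all (.imp (.mem _ _) (.imp (.mem _ _) (.or (.eq _ _)
      (.or (dfn_rel _ _ _) (dfn_rel _ _ _)))))))
    (.and (.all (.all (.all (.all (.all (.imp (.mem _ _) (.imp (.mem _ _) (.imp (.mem _ _)
      (.imp (dfn_rel _ _ _) (.imp (dfn_op _ _ _ _) (.imp (dfn_op _ _ _ _)
      (dfn_rel _ _ _))))))))))))
    (.all (.all (.all (.imp (.mem _ _) (.imp (.mem _ _) (.imp (dfn_rel _ _ _)
      (.imp (dfn_rel _ _ _) (.imp (dfn_op _ _ _ _) (dfn_rel _ _ _))))))))))))

theorem dfn_noSubfield (i j k l m : Fin n) :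
    Dfn (fun _ E v => NoSubfield E (v i) (v j) (v k) (v l) (v m)) :=
  .all (.imp (dfn_isSub _ _) (.imp (.mem _ _)
    (.imp (.all (.all (.all (.imp (.mem _ _) (.imp (.mem _ _) (.imp (.mem _ _)
      (.imp (dfn_op _ _ _ _) (.mem _ _))))))))
    (.imp (.all (.all (.all (.imp (.mem _ _) (.imp (.mem _ _) (.imp (.not (.eq _ _))
      (.imp (.mem _ _) (.imp (dfn_op _ _ _ _) (.mem _ _))))))))) (dfn_isSub _ _)))))

theorem dfn_isRationals (i j k l : Fin n) :
    Dfn (fun _ E v => IsRationals E (v i) (v j) (v k) (v l)) :=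
  .ex (.ex (.and (dfn_isField _ _ _ _ _) (.and (dfn_isFieldOrder _ _ _ _ _)
    (dfn_noSubfield _ _ _ _ _))))

theorem dfn_isPos (i j k l : Fin n) : Dfn (fun _ E v => IsPos E (v i) (v j) (v k) (v l)) :=
  .ex (.and (.mem _ _) (.and (dfn_op _ _ _ _) (dfn_rel _ _ _)))

theorem dfn_isPosSeq (i j k l m : Fin n) :
    Dfn (fun _ E v => IsPosSeq E (v i) (v j) (v k) (v l) (v m)) :=
  .all (.imp (.mem _ _) (.ex (.and (.mem _ _) (.and (dfn_isPos _ _ _ _)
    (.all (.iff (dfn_rel _ _ _) (.eq _ _)))))))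

theorem dfn_isShort (i j k l m p q : Fin n) :
    Dfn (fun _ E v => IsShort E (v i) (v j) (v k) (v l) (v m) (v p) (v q)) :=
  .all (.imp (.mem _ _) (.ex (.ex (.ex (.ex (.and (.mem _ _) (.and (.mem _ _)
    (.and (.all (.iff (dfn_rel _ _ _) (.eq _ _))) (.and (.all (.iff (dfn_rel _ _ _) (.eq _ _)))
    (.and (dfn_rel _ _ _) (.and (dfn_op _ _ _ _) (dfn_rel _ _ _)))))))))))) 

theorem dfn_isCovered (i j k l : Fin n) :
    Dfn (fun _ E v => IsCovered E (v i) (v j) (v k) (v l)) :=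
  .all (.imp (.mem _ _) (.ex (.ex (.ex (.and (.mem _ _) (.and (dfn_rel _ _ _)
    (.and (dfn_rel _ _ _) (.and (.mem _ _) (.not (.mem _ _))))))))))

theorem dfn_isSN (i j k l m : Fin n) :
    Dfn (fun _ E v => IsSN E (v i) (v j) (v k) (v l) (v m)) :=
  .all (.imp (dfn_isPosSeq _ _ _ _ _) (.ex (.ex (.and (dfn_isShort _ _ _ _ _ _ _)
    (dfn_isCovered _ _ _ _)))))

theorem dfn_cofSNLe (i j k l m p : Fin n) :
    Dfn (fun _ E v => CofSNLe E (v i) (v j) (v k) (v l) (v m) (v p)) :=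
  .ex (.and (dfn_sizeLe _ _) (.and (.all (.imp (.mem _ _) (.and (dfn_isSub _ _)
    (dfn_isSN _ _ _ _ _)))) (.all (.imp (dfn_isSub _ _) (.imp (dfn_isSN _ _ _ _ _)
    (.ex (.and (.mem _ _) (dfn_isSub _ _))))))))

theorem dfn_snStatement : Dfn (n := n) (fun _ E _ => SNStatement E) :=
  .ex (.ex (.ex (.ex (.ex (.ex (.ex (.and (dfn_isOmega _) (.and (dfn_isOmega1 _ _)
    (.and (dfn_isRationals _ _ _ _) (.and (dfn_isReals _ _ _)
    (.and (dfn_cofSNLe _ _ _ _ _ _) (.not (dfn_cofSNLe _ _ _ _ _ _)))))))))))))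

end

end Pool.Agent.H90.SN
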