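import Pool.Agent.H90.SN.PosX
import Pool.Agent.H90.SN.Stmt

/-!
# Names of reals, sequences, operations and families
-/

set_option autoImplicit false

open Filter MeasureTheory

namespace Pool.Agent.H90.SN

open Frc Ordinal

/-! ### Operations on the rationals -/

section

variable {P : Type} [PartialOrder P] [OrderTop P] {g : Gen P}

/-- the name of a binary operation on the rationals -/
noncomputable def binN (P : Type) [PartialOrder P] [OrderTop P] (f : ℚ → ℚ → ℚ) : Name P :=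
  relN (ι := ℚ × ℚ) (fun z => opN (qN P z.1) (qN P z.2)) (fun z => qN P (f z.1 z.2)) (fun _ => ⊤)

noncomputable def addN (P : Type) [PartialOrder P] [OrderTop P] : Name P := binN P (· + ·)
noncomputable def mulN (P : Type) [PartialOrder P] [OrderTop P] : Name P := binN P (· * ·)

theorem op_binN {f : ℚ → ℚ → ℚ} {m a b c : g.M} (hm : g.Den (binN P f) m) {s t : ℚ}
    (ha : g.Den (qN P s) a) (hb : g.Den (qN P t) b) :
    Op g.E m a b c ↔ g.Den (qN P (f s t)) c := by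
  constructor
  · rintro ⟨p, hp, hpc⟩
    obtain ⟨i, -, h1, h2⟩ := (den_relN hm p c).1 hpc
    obtain ⟨a', b', ha', hb', hab⟩ := den_opN h1
    obtain ⟨rfl, rfl⟩ := hp.inj hab
    rw [qN_inj ha ha', qN_inj hb hb']
    exact h2
  · intro hc
    obtain ⟨p, hp⟩ := Gen.exists_of_fc (v := ![binN P f, qN P s, qN P t, qN P (f s t)])
      (a := ![m, a, b, c]) (den4 hm ha hb hc)
      (R := fun _ E v => IsOPair E (v 1) (v 2) (v 4) ∧ Rel E (v 0) (v 4) (v 3))
      ((dfn_isOPair 1 2 4).and (dfn_rel 0 4 3)) g.top_mem (opN (qN P s) (qN P t))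
      (fun g' _ u hu => ⟨den_opN' (hu 4) (hu 1) (hu 2),
        (den_relN (hu 0) _ _).2 ⟨(s, t), g'.top_mem, hu 4, hu 3⟩⟩)
    rw [ext_vec4] at hp
    exact ⟨p, hp.1, hp.2⟩

theorem op_addN {m a b c : g.M} (hm : g.Den (addN P) m) {s t : ℚ}
    (ha : g.Den (qN P s) a) (hb : g.Den (qN P t) b) :
    Op g.E m a b c ↔ g.Den (qN P (s + t)) c := op_binN hm ha hb

theorem op_mulN {m a b c : g.M} (hm : g.Den (mulN P) m) {s t : ℚ}
    (ha : g.Den (qN P s) a) (hb : g.Den (qN P t) b) :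
    Op g.E m a b c ↔ g.Den (qN P (s * t)) c := op_binN hm ha hb

theorem isPos_iff {w ad l a : g.M} (hw : g.Den (onN P ω) w) (had : g.Den (addN P) ad)
    (hl : g.Den (ltN P) l) {s : ℚ} (ha : g.Den (qN P s) a) :
    IsPos g.E w ad l a ↔ 0 < s := by
  constructor
  · rintro ⟨o, ho, h1, h2⟩
    obtain ⟨t, ht⟩ := exists_q_of_mem hw ho
    have h3 := qN_inj ((op_addN had ht ht).1 h1) ht
    have h4 : t = 0 := by linarith
    subst h4
    exact (rel_ltN hl ht ha).1 h2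
  · intro h
    obtain ⟨o, ho⟩ := exists_qN hw 0
    refine ⟨o, qN_mem hw ho, (op_addN had ho ho).2 ?_, (rel_ltN hl ho ha).2 h⟩
    rw [add_zero]
    exact ho

end

/-! ### Reals, sequences, families -/

variable {X : Sys}

/-- the name of the real number given by a measurable function -/
noncomputable def rlN (x : X.Ω → ℝ) : Name (Pos X) :=
  .mk {q : ℚ // MeasurableSet {η | (q : ℝ) < x η} ∧ ∃ᶠ η in X.l, η ∈ {η | (q : ℝ) < x η}}
    (fun q => qN (Pos X) q.1) (fun q => ⟨{η | (q.1 : ℝ) < x η}, q.2⟩)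

/-- the name of the sequence of rational numbers given by a measurable function -/
noncomputable def sqN (a : X.Ω → ℕ → ℚ) : Name (Pos X) :=
  relN (ι := {z : ℕ × ℚ // MeasurableSet {η | a η z.1 = z.2} ∧
      ∃ᶠ η in X.l, η ∈ {η | a η z.1 = z.2}})
    (fun z => onN (Pos X) z.1.1) (fun z => qN (Pos X) z.1.2)
    (fun z => ⟨{η | a η z.1.1 = z.1.2}, z.2⟩)

/-- the name of the set of the real numbers of level `β` -/
noncomputable def famN (X : Sys) (β : Om) : Name (Pos X) :=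
  .mk {x : X.Ω → ℝ // Measurable[X.Sg β] x} (fun x => rlN x.1) (fun _ => ⊤)

/-- the name of the family of these sets -/
noncomputable def FN (X : Sys) : Name (Pos X) :=
  .mk Om (fun β => famN X β) (fun _ => ⊤)

variable {g : Gen (Pos X)}

theorem mem_G_of_sub {p : Pos X} (hp : p ∈ g.G) {A : Set X.Ω} (hA : MeasurableSet A)
    (h : p.1 ⊆ A) : ∃ q ∈ g.G, q.1 = A :=
  ⟨⟨A, hA, (pos_freq p).mono fun _ hx => h hx⟩, g.up p hp _ h, rfl⟩

theorem G_inter {p q : Pos X} (hp : p ∈ g.G) (hq : q ∈ g.G) : (p.1 ∩ q.1).Nonempty := by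
  obtain ⟨r, -, h1, h2⟩ := g.dir p hp q hq
  obtain ⟨x, hx⟩ := (pos_freq r).exists
  exact ⟨x, h1 hx, h2 hx⟩

theorem mem_rlN_of {x : X.Ω → ℝ} (hx : Measurable x) {y b : g.M} (hy : g.Den (rlN x) y) {s : ℚ}
    (hb : g.Den (qN (Pos X) s) b) {p : Pos X} (hp : p ∈ g.G) (h : ∀ η ∈ p.1, (s : ℝ) < x η) :
    g.E b y := by
  have hm : MeasurableSet {η | (s : ℝ) < x η} := measurableSet_lt measurable_const hx
  refine (Gen.mem_iff hy).2 ⟨⟨s, hm, (pos_freq p).mono fun η hη => h η hη⟩, ?_, hb⟩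
  exact g.up p hp _ fun η hη => h η hη

theorem not_mem_rlN_of {x : X.Ω → ℝ} {y b : g.M} (hy : g.Den (rlN x) y) {s : ℚ}
    (hb : g.Den (qN (Pos X) s) b) {p : Pos X} (hp : p ∈ g.G) (h : ∀ η ∈ p.1, x η ≤ (s : ℝ)) :
    ¬ g.E b y := by
  intro hE
  obtain ⟨⟨t, ht⟩, hG, hb'⟩ := (Gen.mem_iff hy).1 hE
  have : s = t := qN_inj hb hb'
  subst this
  obtain ⟨η, h1, h2⟩ := G_inter hp hG
  exact absurd (h η h1) (not_le.2 h2)

theorem rel_sqN_of {a : X.Ω → ℕ → ℚ} (ha : Measurable a) {f m z : g.M} (hf : g.Den (sqN a) f)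
    {n : ℕ} (hm : g.Den (onN (Pos X) n) m) {s : ℚ} (hz : g.Den (qN (Pos X) s) z) {p : Pos X}
    (hp : p ∈ g.G) (h : ∀ η ∈ p.1, a η n = s) (t : g.M) : Rel g.E f m t ↔ t = z := by
  have hms : MeasurableSet {η | a η n = s} := by
    have : Measurable fun η => a η n := (measurable_pi_apply n).comp ha
    exact this (measurableSet_singleton s)
  constructor
  · intro ht
    obtain ⟨⟨⟨n', s'⟩, hi⟩, hG, h1, h2⟩ := (den_relN hf m t).1 ht
    have e1 : n = n' := by exact_mod_cast onN_inj hm h1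
    subst e1
    obtain ⟨η, h3, h4⟩ := G_inter hp hG
    have h5 : a η n = s' := h4
    have e2 : s = s' := by rw [← h η h3, h5]
    subst e2
    exact h2.unique hz
  · rintro rfl
    refine (den_relN hf m t).2 ⟨⟨(n, s), hms, (pos_freq p).mono fun η hη => h η hη⟩, ?_, hm, hz⟩
    exact g.up p hp _ fun η hη => h η hη

/-- equality of reals -/
theorem rlN_eq_of {x x' : X.Ω → ℝ} (hx : Measurable x) (hx' : Measurable x') {y y' : g.M}
    (hy : g.Den (rlN x) y) (hy' : g.Den (rlN x') y') {p : Pos X} (hp : p ∈ g.G)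
    (h : ∀ η ∈ p.1, x η = x' η) : y = y' := by
  have key : ∀ {x x' : X.Ω → ℝ} (_ : Measurable x) (_ : Measurable x') {y y' : g.M}
      (_ : g.Den (rlN x) y) (_ : g.Den (rlN x') y') (_ : ∀ η ∈ p.1, x η = x' η), ∀ z,
      g.E z y → g.E z y' := by
    intro x x' hx hx' y y' hy hy' h z hz
    obtain ⟨⟨s, hs⟩, hG, hz'⟩ := (Gen.mem_iff hy).1 hz
    obtain ⟨r, hr, h1, h2⟩ := g.dir p hp _ hG
    exact mem_rlN_of hx' hy' hz' hr fun η hη => by
      rw [← h η (h1 hη)]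
      exact h2 hη
  exact Gen.extensional fun z => ⟨key hx hx' hy hy' h z,
    key hx' hx hy' hy (fun η hη => (h η hη).symm) z⟩

/-- the name of a measurable function denotes a real number -/
theorem isCut_rlN {x : X.Ω → ℝ} (hx : Measurable x) {w l y : g.M}
    (hw : g.Den (onN (Pos X) ω) w) (hl : g.Den (ltN (Pos X)) l) (hy : g.Den (rlN x) y) :
    IsCut g.E w l y := by
  have hsub : IsSub g.E y w := by
    intro z hz
    obtain ⟨⟨s, hs⟩, -, hz'⟩ := (Gen.mem_iff hy).1 hz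
    exact qN_mem (q := s) hw hz'
  have hlt : ∀ s : ℚ, MeasurableSet {η | (s : ℝ) < x η} :=
    fun s => measurableSet_lt measurable_const hx
  have hle : ∀ s : ℚ, MeasurableSet {η | x η ≤ (s : ℝ)} :=
    fun s => measurableSet_le hx measurable_const
  rw [isCut_iff hw hl]
  refine ⟨hsub, ?_, ?_, ?_, ?_⟩
  · -- nonempty
    have h1 : Fc (⊤ : Pos X) ![rlN x] (fun _ E v => ∃ b, E b (v 0)) := by
      refine Fc.stable (.ex (.mem _ _)) fun q _ => ?_
      obtain ⟨s, r, hr, hrs⟩ := split_pos (p := q) hlt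
        (Eventually.of_forall fun η _ => exists_rat_lt (x η))
      exact ⟨r, hr, Fc.exists_of (R := fun _ E v => E (v 1) (v 0)) (Dfn.mem 1 0) (qN (Pos X) s)
        (fun g' hg' u hu => mem_rlN_of hx (hu 0) (hu 1) hg' hrs)⟩
    obtain ⟨b, hb⟩ := h1 g g.top_mem ![y] (den1 hy)
    obtain ⟨q, hq⟩ := exists_q_of_mem hw (hsub b hb)
    exact ⟨q, (mem_cs hq).2 hb⟩
  · -- bounded
    have h1 : Fc (⊤ : Pos X) ![rlN x, onN (Pos X) ω] (fun _ E v => ∃ b, E b (v 1) ∧ ¬ E b (v 0)) := by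
      refine Fc.stable (.ex (.and (.mem _ _) (.not (.mem _ _)))) fun q _ => ?_
      obtain ⟨s, r, hr, hrs⟩ := split_pos (p := q) hle
        (Eventually.of_forall fun η _ => by
          obtain ⟨s, hs⟩ := exists_rat_gt (x η)
          exact ⟨s, hs.le⟩)
      refine ⟨r, hr, fun g' hg' u hu => ?_⟩
      obtain ⟨b, hb⟩ := exists_qN (hu 1) s
      exact ⟨b, qN_mem (hu 1) hb, not_mem_rlN_of (hu 0) hb hg' hrs⟩
    obtain ⟨b, hbw, hb⟩ := h1 g g.top_mem ![y, w] (den2 hy hw)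
    obtain ⟨q, hq⟩ := exists_q_of_mem hw hbw
    exact ⟨q, fun h => hb ((mem_cs hq).1 h)⟩
  · -- downward closed
    rintro s ⟨a, ha, hay⟩ t hts
    obtain ⟨b, hb⟩ := exists_qN hw t
    refine ⟨b, hb, ?_⟩
    obtain ⟨⟨s', hs'⟩, hG, ha'⟩ := (Gen.mem_iff hy).1 hay
    have : s = s' := qN_inj ha ha'
    subst this
    exact mem_rlN_of hx hy hb hG fun η hη => lt_trans (by exact_mod_cast hts) hη
  · -- no maximum
    rintro s ⟨a, ha, hay⟩
    obtain ⟨⟨s', hs'⟩, hG, ha'⟩ := (Gen.mem_iff hy).1 hay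
    have : s = s' := qN_inj ha ha'
    subst this
    let p₀ : Pos X := ⟨{η | (s : ℝ) < x η}, hs'⟩
    have h1 : Fc p₀ ![rlN x, onN (Pos X) ω, ltN (Pos X), qN (Pos X) s]
        (fun _ E v => ∃ b, E b (v 0) ∧ Rel E (v 2) (v 3) b) := by
      refine Fc.stable (.ex (.and (.mem _ _) (dfn_rel _ _ _))) fun q hq => ?_
      obtain ⟨t, r, hr, hrt⟩ := split_pos (p := q) (A := fun t : {t : ℚ // s < t} =>
        {η | ((t : ℚ) : ℝ) < x η}) (fun t => hlt t) (Eventually.of_forall fun η hη => by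
          have h0 : (s : ℝ) < x η := hq hη
          obtain ⟨t, h1, h2⟩ := exists_rat_btwn h0
          exact ⟨⟨t, by exact_mod_cast h1⟩, h2⟩)
      refine ⟨r, hr, fun g' hg' u hu => ?_⟩
      obtain ⟨b, hb⟩ := exists_qN (hu 1) t.1
      exact ⟨b, mem_rlN_of hx (hu 0) hb hg' hrt, (rel_ltN (hu 2) (hu 3) hb).2 t.2⟩
    obtain ⟨b, hb, hlb⟩ := h1 g hG ![y, w, l, a] (den4 hy hw hl ha)
    obtain ⟨t, ht⟩ := exists_q_of_mem hw (hsub b hb)
    exact ⟨t, (mem_cs ht).2 hb, (rel_ltN hl ha ht).1 hlb⟩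

end Pool.Agent.H90.SN
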