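import Pool.Agent.H90.SN.Good

/-!
# Choosing the next point (module B3)

Proof sketch of `select`.  Otherwise there are arbitrarily large `n` with some `i n ≥ n` such that
`B n := {u | ¬ Good π k h (g n) b (sec (E (i n)) h u)}` has `mu π a h (B n) ≥ δ`; get a strictly
increasing sequence `n_j` of such numbers.  The sets `B (n_j)` have finite support (`Fsp.of_sec`)
and depend on `[a, h)` (`dep_of_sec`, `Dep.mono`).  Every `u` is in only finitely many of them: apply
`goodStep` to the sets `A i = sec (E (N + i)) h u`, `g (N + ·)`, where `h ≤ g N` (they depend on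
`[h, g (N + i))` and are pairwise disjoint).  So `Sub.limsup_small` for `subOf π hex` gives
`mu π a h (B (n_j)) → 0`, a contradiction.
-/

set_option autoImplicit false

open Filter ENNReal Topology

namespace Pool.Agent.H90.SN

variable {Γ : Type} [LinearOrder Γ] {T : Γ → Type} (π : Par)

theorem select [∀ g, Nonempty (T g)] [∀ g, Finite (T g)] (k : ℕ) {a h b : Γ}
    (hex : Exh π T a h) (hah : a ≤ h) {g : ℕ → Γ} (hg : Monotone g) (hgb : ∀ n, g n ≤ b)
    (hh : ∃ n, h ≤ g n) {E : ℕ → Set (∀ g, T g)} (hE : ∀ i, Fsp (E i))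
    (hEd : ∀ i, Dep (E i) a (g i)) (hdis : Pairwise (Function.onFun Disjoint E))
    {δ : ℝ≥0∞} (hδ : δ ≠ 0) :
    ∃ n₀, ∀ n ≥ n₀, ∀ i ≥ n,
      mu π a h {u | ¬ Good π k h (g n) b (sec (E i) h u)} < δ := by
  by_contra hcon
  push Not at hcon
  obtain ⟨N, hN⟩ := hh
  have hfr : ∃ᶠ n in atTop, ∃ i, n ≤ i ∧
      δ ≤ mu π a h {u | ¬ Good π k h (g n) b (sec (E i) h u)} := by
    rw [frequently_atTop]
    intro n₀
    obtain ⟨n, hn, i, hi, hd⟩ := hcon n₀
    exact ⟨n, hn, i, hi, hd⟩
  obtain ⟨φ, hφ, hbad⟩ := extraction_of_frequently_atTop hfr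
  choose i hi hd using hbad
  let D : ℕ → Set (∀ g, T g) := fun j => {u | ¬ Good π k h (g (φ j)) b (sec (E (i j)) h u)}
  have hD : ∀ j, D j ∈ (subOf π hex).C := fun j =>
    ⟨Fsp.of_sec (hE (i j)) h (fun Z => ¬ Good π k h (g (φ j)) b Z),
      dep_of_sec (hEd (i j)) h (fun Z => ¬ Good π k h (g (φ j)) b Z)⟩
  have hpt : ∀ u, ∀ᶠ j in atTop, u ∉ D j := by
    intro u
    obtain ⟨n₀, hn₀⟩ := goodStep π k (h := h) (b := b) (g := fun m => g (N + m))
      (hg.comp fun x y hxy => Nat.add_le_add_left hxy N)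
      (fun m => hN.trans (hg (Nat.le_add_right N m))) (fun m => hgb _)
      (A := fun m => sec (E (N + m)) h u) (fun m => (hEd (N + m)).sec h u) (by
        intro m m' hmm'
        have h1 : Disjoint (E (N + m)) (E (N + m')) := hdis (by omega)
        rw [Function.onFun, Set.disjoint_left]
        intro z hz hz'
        exact Set.disjoint_left.1 h1 hz hz')
    filter_upwards [eventually_ge_atTop (N + n₀)] with j hj hu
    have h1 : N + n₀ ≤ φ j := hj.trans (hφ.id_le j)
    have h2 := hi j
    apply hu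
    have h3 := hn₀ (φ j - N) (by omega) (i j - N) (by omega)
    have e1 : N + (φ j - N) = φ j := by omega
    have e2 : N + (i j - N) = i j := by omega
    simp only [e1, e2] at h3
    exact h3
  have hlim := (subOf π hex).limsup_small hD hpt
  have hle : δ ≤ 0 := ge_of_tendsto' hlim fun j => hd j
  exact hδ (le_antisymm hle zero_le)

end Pool.Agent.H90.SN
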