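import Pool.Agent.H90.SN.ReadD

/-!
# Using that a set has strong measure zero (module D7)

`Good r e χ a b` (below, `GoodOn`): on `r` the measurable sequences `a`, `b` are short for `e`, and they
cover every real number forced to be in `χ`.

Proof sketch of `exists_goodOn`.
* It is enough that for every `q ≤ p` there are `r ≤ q` and measurable `a`, `b` with `GoodOn r e χ a b`:
  take a partition (`exists_partition` for this property), glue the sequences (`glue`) and use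
  that `GoodOn` is local (a condition `q ≤ p` is covered almost everywhere by countably many `q ∩ r`).
* Given `q ≤ p`: `q` forces that `sqN e` is a positive sequence (`IsPosSeq`; for every `n` the
  value is decided densely: `Fc.stable`, `split_pos`, `rel_sqN_of`, `isPos_iff`), so `q` forces
  `∃ a b, IsShort … ∧ IsCovered …`; by `Fc.exists_name` (twice) there are `r ≤ q` and names `α`, `α'` with
  `r` forcing `IsShort ∧ IsCovered` for them.  `IsShort` implies the hypothesis of `read_seq` for `α`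
  and `α'`: get `a`, `b`.
* Short: otherwise there are `n` and a condition `r' ≤ r` on which `a η n + e η n ≤ b η n`; make `r'`
  smaller so that `a η n = s`, `b η n = t`, `e η n = u` on `r'` (`split_pos`); a generic structure
  containing `r'` (`exists_gen_set`) gives a contradiction (`rel_sqN_of`, `op_addN`, `rel_ltN`).
* Covered: let `q ≤ r` force `rlN x ∈ χ`; otherwise there is `q' ≤ q` such that on `q'` for all `i`
  not `a η i < x η ≤ b η i`.  Take a generic structure `g` containing `q'`: there are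
  `n c d` with `Rel α n c`, `Rel α' n d`, `c ∈ rlN x`, `d ∉ rlN x`; so `c`, `d` are the values of
  `qN s`, `qN t`, and `g.G` contains the conditions `{a n = s}`, `{b n = t}`, `{s < x}` (`den_relN`,
  `Gen.mem_iff`); a condition in `g.G` below these and `q'` is contained in `{t < x}`, so
  `d ∈ rlN x` (`mem_rlN_of`), contradiction.
-/

set_option autoImplicit false

open Filter MeasureTheory

namespace Pool.Agent.H90.SN

open Frc Ordinal

variable {X : Sys}

/-- on `r` the sequences `a`, `b` are short for `e` and cover every real forced to be in `χ` -/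
def GoodOn (r : Pos X) (e : X.Ω → ℕ → ℚ) (χ : Name (Pos X)) (a b : X.Ω → ℕ → ℚ) : Prop :=
  (∀ᶠ η in X.l, η ∈ r.1 → ∀ i, b η i < a η i + e η i) ∧
    ∀ (q : Pos X), q ≤ r → ∀ x : X.Ω → ℝ, Measurable x →
      Fc q ![χ, rlN x] (fun _ E v => E (v 1) (v 0)) →
        ∀ᶠ η in X.l, η ∈ q.1 → ∃ i, (a η i : ℝ) < x η ∧ x η ≤ (b η i : ℝ)

/-- coordinates of measurable sequences are measurable -/
theorem meas_coord {a : X.Ω → ℕ → ℚ} (ha : Measurable a) (n : ℕ) : Measurable fun η => a η n :=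
  (measurable_pi_apply n).comp ha

theorem posSeq_sqN {e : X.Ω → ℕ → ℚ} (he : Measurable e) (hpos : ∀ η n, 0 < e η n)
    {g : Gen (Pos X)} {w ad l f : g.M} (hw : g.Den (onN (Pos X) ω) w)
    (had : g.Den (addN (Pos X)) ad) (hl : g.Den (ltN (Pos X)) l) (hf : g.Den (sqN e) f) :
    IsPosSeq g.E w w ad l f := by
  intro n hn
  obtain ⟨β, hβ, hnβ⟩ := (den_onN hw n).1 hn
  obtain ⟨k, rfl⟩ := lt_omega0.1 hβ
  have hF : Fc (⊤ : Pos X) ![onN (Pos X) ω, addN (Pos X), ltN (Pos X), sqN e, onN (Pos X) k]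
      (fun _ E v => ∃ q, E q (v 0) ∧ IsPos E (v 0) (v 1) (v 2) q ∧
        ∀ z, Rel E (v 3) (v 4) z ↔ z = q) := by
    refine Fc.stable (.ex (.and (.mem _ _) (.and (dfn_isPos _ _ _ _)
      (.all (.iff (dfn_rel _ _ _) (.eq _ _)))))) fun q _ => ?_
    obtain ⟨s, r, hr, hrs⟩ := split_pos (p := q) (A := fun s : ℚ => {η | e η k = s})
      (fun s => meas_coord he k (measurableSet_singleton s))
      (Eventually.of_forall fun η _ => ⟨e η k, rfl⟩)
    refine ⟨r, hr, fun g' hg' u hu => ?_⟩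
    obtain ⟨z, hz⟩ := exists_qN (hu 0) s
    obtain ⟨η, hη⟩ := (pos_freq r).exists
    have hs : 0 < s := by
      have h1 : e η k = s := hrs hη
      rw [← h1]
      exact hpos η k
    exact ⟨z, qN_mem (hu 0) hz, (isPos_iff (hu 0) (hu 1) (hu 2) hz).2 hs,
      rel_sqN_of he (hu 3) (hu 4) hz hg' fun η hη => hrs hη⟩
  exact hF g g.top_mem ![w, ad, l, f, n] (den5 hw had hl hf hnβ)

/-- names for the sequences given by strong measure zero -/
theorem exists_names {p : Pos X} {χ : Name (Pos X)}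
    (h : Fc p ![onN (Pos X) ω, addN (Pos X), ltN (Pos X), χ]
      (fun _ E v => IsSN E (v 0) (v 0) (v 1) (v 2) (v 3)))
    {e : X.Ω → ℕ → ℚ} (he : Measurable e) (hpos : ∀ η n, 0 < e η n) :
    ∃ r ≤ p, ∃ α α' : Name (Pos X), ∀ g : Gen (Pos X), r ∈ g.G →
      ∀ w ad l c f a a' : g.M, g.Den (onN (Pos X) ω) w → g.Den (addN (Pos X)) ad →
      g.Den (ltN (Pos X)) l → g.Den χ c → g.Den (sqN e) f → g.Den α a → g.Den α' a' →
      IsShort g.E w w ad l f a a' ∧ IsCovered g.E w a a' c := by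
  have h1 : Fc p ![onN (Pos X) ω, addN (Pos X), ltN (Pos X), χ, sqN e]
      (fun M E v => ∃ a, (fun (M : Type) (E : M → M → Prop) (v : Fin 6 → M) =>
        ∃ b, IsShort E (v 0) (v 0) (v 1) (v 2) (v 4) (v 5) b ∧ IsCovered E (v 0) (v 5) b (v 3))
          M E (ext v a)) := by
    intro g hg v hv
    have h2 := h g hg ![v 0, v 1, v 2, v 3] (den4 (hv 0) (hv 1) (hv 2) (hv 3))
      (v 4) (posSeq_sqN he hpos (hv 0) (hv 1) (hv 2) (hv 4))
    obtain ⟨a, b, h3, h4⟩ := h2
    exact ⟨a, b, h3, h4⟩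
  obtain ⟨q, hq, α, hα⟩ := Fc.exists_name (R := fun (M : Type) (E : M → M → Prop)
    (v : Fin 6 → M) => ∃ b, IsShort E (v 0) (v 0) (v 1) (v 2) (v 4) (v 5) b ∧
      IsCovered E (v 0) (v 5) b (v 3)) (.ex (.and (dfn_isShort _ _ _ _ _ _ _)
        (dfn_isCovered _ _ _ _))) h1
  rw [ext_vec5] at hα
  have h2 : Fc q ![onN (Pos X) ω, addN (Pos X), ltN (Pos X), χ, sqN e, α]
      (fun M E v => ∃ a, (fun (M : Type) (E : M → M → Prop) (v : Fin 7 → M) =>
        IsShort E (v 0) (v 0) (v 1) (v 2) (v 4) (v 5) (v 6) ∧ IsCovered E (v 0) (v 5) (v 6) (v 3))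
          M E (ext v a)) := by
    intro g hg v hv
    obtain ⟨b, h3, h4⟩ := hα g hg v hv
    exact ⟨b, h3, h4⟩
  obtain ⟨r, hr, α', hα'⟩ := Fc.exists_name (R := fun (M : Type) (E : M → M → Prop)
    (v : Fin 7 → M) => IsShort E (v 0) (v 0) (v 1) (v 2) (v 4) (v 5) (v 6) ∧
      IsCovered E (v 0) (v 5) (v 6) (v 3)) (.and (dfn_isShort _ _ _ _ _ _ _)
        (dfn_isCovered _ _ _ _)) h2
  rw [ext_vec6] at hα'
  refine ⟨r, hr.trans hq, α, α', ?_⟩
  intro g hg w ad l c f a a' hw had hl hc hf ha ha'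
  exact hα' g hg ![w, ad, l, c, f, a, a'] (by
    intro i
    fin_cases i
    exacts [hw, had, hl, hc, hf, ha, ha'])

theorem exists_goodOn_local {p : Pos X} {χ : Name (Pos X)}
    (h : Fc p ![onN (Pos X) ω, addN (Pos X), ltN (Pos X), χ]
      (fun _ E v => IsSN E (v 0) (v 0) (v 1) (v 2) (v 3)))
    {e : X.Ω → ℕ → ℚ} (he : Measurable e) (hpos : ∀ η n, 0 < e η n) :
    ∃ r ≤ p, ∃ a b : X.Ω → ℕ → ℚ, Measurable a ∧ Measurable b ∧ GoodOn r e χ a b := by
  obtain ⟨r, hr, α, α', H⟩ := exists_names h he hpos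
  -- read the two sequences
  have hL : ({onN (Pos X) ω, addN (Pos X), ltN (Pos X), χ, sqN e, α, α'} :
      Set (Name (Pos X))).Countable := (Set.toFinite _).countable
  have hread : Dfn (n := 2) (fun _ E v => ∀ n, E n (v 0) → ∃ q, E q (v 0) ∧
      ∀ z, Rel E (v 1) n z ↔ z = q) :=
    .all (.imp (.mem _ _) (.ex (.and (.mem _ _) (.all (.iff (dfn_rel _ _ _) (.eq _ _))))))
  have h1 : Fc r ![onN (Pos X) ω, α] (fun _ E v => ∀ n, E n (v 0) → ∃ q, E q (v 0) ∧
      ∀ z, Rel E (v 1) n z ↔ z = q) := by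
    refine Fc.with_names hread hL ?_
    intro g hg hden v hv n hn
    obtain ⟨ad, had⟩ := hden (addN (Pos X)) (by simp)
    obtain ⟨l, hl⟩ := hden (ltN (Pos X)) (by simp)
    obtain ⟨c, hc⟩ := hden χ (by simp)
    obtain ⟨f, hf⟩ := hden (sqN e) (by simp)
    obtain ⟨a', ha'⟩ := hden α' (by simp)
    obtain ⟨x, y, q, z, hx, hy, h2, h3, -⟩ :=
      (H g hg (v 0) ad l c f (v 1) a' (hv 0) had hl hc hf (hv 1) ha').1 n hn
    exact ⟨x, hx, h2⟩
  have h1' : Fc r ![onN (Pos X) ω, α'] (fun _ E v => ∀ n, E n (v 0) → ∃ q, E q (v 0) ∧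
      ∀ z, Rel E (v 1) n z ↔ z = q) := by
    refine Fc.with_names hread hL ?_
    intro g hg hden v hv n hn
    obtain ⟨ad, had⟩ := hden (addN (Pos X)) (by simp)
    obtain ⟨l, hl⟩ := hden (ltN (Pos X)) (by simp)
    obtain ⟨c, hc⟩ := hden χ (by simp)
    obtain ⟨f, hf⟩ := hden (sqN e) (by simp)
    obtain ⟨a, ha⟩ := hden α (by simp)
    obtain ⟨x, y, q, z, hx, hy, h2, h3, -⟩ :=
      (H g hg (v 0) ad l c f a (v 1) (hv 0) had hl hc hf ha (hv 1)).1 n hn
    exact ⟨y, hy, h3⟩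
  obtain ⟨a, ha, hra⟩ := read_seq h1
  obtain ⟨b, hb, hrb⟩ := read_seq h1'
  refine ⟨r, hr, a, b, ha, hb, ?_, ?_⟩
  · -- short
    have key : ∀ i, ∀ᶠ η in X.l, η ∈ r.1 → b η i < a η i + e η i := by
      intro i
      by_contra hcon
      have hB : MeasurableSet {η : X.Ω | a η i + e η i ≤ b η i} :=
        measurableSet_le ((meas_coord ha i).add (meas_coord he i)) (meas_coord hb i)
      have hfr : ∃ᶠ η in X.l, η ∈ r.1 ∧ η ∈ {η : X.Ω | a η i + e η i ≤ b η i} :=
        Frequently.mono (not_eventually.1 hcon) fun η hη => by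
          rw [Classical.not_imp, not_lt] at hη
          exact hη
      obtain ⟨q, hq, hqB, -⟩ := exists_pos hB hfr
      obtain ⟨⟨s, t, u⟩, r', hr', hrs⟩ := split_pos (p := q)
        (A := fun z : ℚ × ℚ × ℚ => {η | a η i = z.1} ∩ ({η | b η i = z.2.1} ∩
          {η | e η i = z.2.2}))
        (fun z => (meas_coord ha i (measurableSet_singleton z.1)).inter
          ((meas_coord hb i (measurableSet_singleton z.2.1)).inter
            (meas_coord he i (measurableSet_singleton z.2.2))))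
        (Eventually.of_forall fun η _ => ⟨(a η i, b η i, e η i), rfl, rfl, rfl⟩)
      obtain ⟨g, hg, -, v, hv⟩ := exists_gen_set r' ![onN (Pos X) ω, addN (Pos X),
        ltN (Pos X), χ, sqN e, α, α', sqN a, sqN b] (L := ∅) Set.countable_empty
      have hv0 : g.Den (onN (Pos X) ω) (v 0) := hv 0
      have hv1 : g.Den (addN (Pos X)) (v 1) := hv 1
      have hv2 : g.Den (ltN (Pos X)) (v 2) := hv 2
      have hv3 : g.Den χ (v 3) := hv 3
      have hv4 : g.Den (sqN e) (v 4) := hv 4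
      have hv5 : g.Den α (v 5) := hv 5
      have hv6 : g.Den α' (v 6) := hv 6
      have hv7 : g.Den (sqN a) (v 7) := hv 7
      have hv8 : g.Den (sqN b) (v 8) := hv 8
      have hrg : r ∈ g.G := g.up r' hg r (hr'.trans hq)
      obtain ⟨n, hn⟩ := exists_den_nat hv0 i
      have hnw : g.E n (v 0) := (den_onN hv0 n).2 ⟨_, natCast_lt_omega0 i, hn⟩
      obtain ⟨x, y, z, d, hx, hy, h2, h3, h4, h5, h6⟩ :=
        (H g hrg (v 0) (v 1) (v 2) (v 3) (v 4) (v 5) (v 6) hv0 hv1 hv2 hv3 hv4 hv5 hv6).1 n hnw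
      obtain ⟨S, hS⟩ := exists_qN hv0 s
      obtain ⟨T, hT⟩ := exists_qN hv0 t
      obtain ⟨U, hU⟩ := exists_qN hv0 u
      have e1 : S = x := by
        rw [← h2 S]
        refine ((hra g hrg ![v 0, v 5, v 7] (den3 hv0 hv5 hv7)) n hnw S).2 ?_
        exact (rel_sqN_of ha hv7 hn hS hg (fun η hη => (hrs hη).1) S).2 rfl
      have e2 : T = y := by
        rw [← h3 T]
        refine ((hrb g hrg ![v 0, v 6, v 8] (den3 hv0 hv6 hv8)) n hnw T).2 ?_
        exact (rel_sqN_of hb hv8 hn hT hg (fun η hη => (hrs hη).2.1) T).2 rfl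
      have e3 : z = U := (rel_sqN_of he hv4 hn hU hg (fun η hη => (hrs hη).2.2) z).1 h4
      subst e1 e2 e3
      have h7 := (op_addN hv1 hS hU).1 h5
      have h8 : t < s + u := (rel_ltN hv2 hT h7).1 h6
      obtain ⟨η, hη⟩ := (pos_freq r').exists
      have h9 : a η i + e η i ≤ b η i := hqB (hr' hη)
      have h10 : a η i = s := (hrs hη).1
      have h11 : b η i = t := (hrs hη).2.1
      have h12 : e η i = u := (hrs hη).2.2
      rw [h10, h11, h12] at h9
      exact absurd h8 (not_lt.2 h9)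
    have key' := eventually_countable_forall.2 key
    filter_upwards [key'] with η hη hr i
    exact hη i hr
  · -- covered
    intro q hq x hx hqx
    by_contra hcon
    have hB : MeasurableSet {η : X.Ω | ∀ i, (a η i : ℝ) < x η → (b η i : ℝ) < x η} := by
      rw [Set.ofPred_forall]
      refine MeasurableSet.iInter fun i => ?_
      have hma : Measurable fun η => ((a η i : ℚ) : ℝ) := by
        have : Measurable fun q : ℚ => (q : ℝ) := measurable_from_top
        exact this.comp (meas_coord ha i)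
      have hmb : Measurable fun η => ((b η i : ℚ) : ℝ) := by
        have : Measurable fun q : ℚ => (q : ℝ) := measurable_from_top
        exact this.comp (meas_coord hb i)
      have : {η : X.Ω | (a η i : ℝ) < x η → (b η i : ℝ) < x η} =
          {η | (a η i : ℝ) < x η}ᶜ ∪ {η | (b η i : ℝ) < x η} := by
        ext η
        simp only [Set.mem_ofPred_eq, Set.mem_union, Set.mem_compl_iff]
        tauto
      rw [this]
      exact (measurableSet_lt hma hx).compl.union (measurableSet_lt hmb hx)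
    have hfr : ∃ᶠ η in X.l, η ∈ q.1 ∧
        η ∈ {η : X.Ω | ∀ i, (a η i : ℝ) < x η → (b η i : ℝ) < x η} :=
      Frequently.mono (not_eventually.1 hcon) fun η hη => by
        rw [Classical.not_imp] at hη
        refine ⟨hη.1, fun i hi => ?_⟩
        by_contra hb'
        exact hη.2 ⟨i, hi, not_lt.1 hb'⟩
    obtain ⟨q', hq', hqB, -⟩ := exists_pos hB hfr
    obtain ⟨g, hg, -, v, hv⟩ := exists_gen_set q' ![onN (Pos X) ω, addN (Pos X),
      ltN (Pos X), χ, sqN e, α, α', sqN a, sqN b, rlN x] (L := ∅) Set.countable_empty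
    have hv0 : g.Den (onN (Pos X) ω) (v 0) := hv 0
    have hv1 : g.Den (addN (Pos X)) (v 1) := hv 1
    have hv2 : g.Den (ltN (Pos X)) (v 2) := hv 2
    have hv3 : g.Den χ (v 3) := hv 3
    have hv4 : g.Den (sqN e) (v 4) := hv 4
    have hv5 : g.Den α (v 5) := hv 5
    have hv6 : g.Den α' (v 6) := hv 6
    have hv7 : g.Den (sqN a) (v 7) := hv 7
    have hv8 : g.Den (sqN b) (v 8) := hv 8
    have hv9 : g.Den (rlN x) (v 9) := hv 9
    have hqg : q ∈ g.G := g.up q' hg q hq'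
    have hrg : r ∈ g.G := g.up q hqg r hq
    have hmem : g.E (v 9) (v 3) := hqx g hqg ![v 3, v 9] (den2 hv3 hv9)
    obtain ⟨n, c, d, hn, hc, hd, hcx, hdx⟩ :=
      (H g hrg (v 0) (v 1) (v 2) (v 3) (v 4) (v 5) (v 6) hv0 hv1 hv2 hv3 hv4 hv5 hv6).2 _ hmem
    have hc' := ((hra g hrg ![v 0, v 5, v 7] (den3 hv0 hv5 hv7)) n hn c).1 hc
    have hd' := ((hrb g hrg ![v 0, v 6, v 8] (den3 hv0 hv6 hv8)) n hn d).1 hd
    obtain ⟨⟨⟨k, s⟩, hi⟩, hG1, hk1, hcs⟩ := (den_relN hv7 n c).1 hc'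
    obtain ⟨⟨⟨k', t⟩, hi'⟩, hG2, hk2, hdt⟩ := (den_relN hv8 n d).1 hd'
    have ek : k = k' := by exact_mod_cast onN_inj hk1 hk2
    subst ek
    obtain ⟨⟨s', hs'⟩, hG3, hcs'⟩ := (Gen.mem_iff hv9).1 hcx
    have es : s = s' := qN_inj hcs hcs'
    subst es
    obtain ⟨r1, hr1, h11, h12⟩ := g.dir q' hg _ hG1
    obtain ⟨r2, hr2, h21, h22⟩ := g.dir r1 hr1 _ hG2
    obtain ⟨r3, hr3, h31, h32⟩ := g.dir r2 hr2 _ hG3
    refine hdx (mem_rlN_of hx hv9 hdt hr3 fun η hη => ?_)
    have k1 : η ∈ q'.1 := h11 (h21 (h31 hη))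
    have k2 : a η k = s := h12 (h21 (h31 hη))
    have k3 : b η k = t := h22 (h31 hη)
    have k4 : (s : ℝ) < x η := h32 hη
    have k5 := hqB k1 k
    rw [k2, k3] at k5
    exact k5 k4

theorem exists_goodOn {p : Pos X} {χ : Name (Pos X)}
    (h : Fc p ![onN (Pos X) ω, addN (Pos X), ltN (Pos X), χ]
      (fun _ E v => IsSN E (v 0) (v 0) (v 1) (v 2) (v 3)))
    {e : X.Ω → ℕ → ℚ} (he : Measurable e) (hpos : ∀ η n, 0 < e η n) :
    ∃ a b : X.Ω → ℕ → ℚ, Measurable a ∧ Measurable b ∧ GoodOn p e χ a b := by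
  classical
  obtain ⟨𝒜, hc, h1, h2, h3⟩ := exists_partition p
    (fun r => ∃ z : (X.Ω → ℕ → ℚ) × (X.Ω → ℕ → ℚ), Measurable z.1 ∧ Measurable z.2 ∧
      GoodOn r e χ z.1 z.2) (fun q hq => by
      obtain ⟨r, hr, a, b, ha, hb, hG⟩ := exists_goodOn_local (h.mono hq) he hpos
      exact ⟨r, hr, (a, b), ha, hb, hG⟩)
  have hex : ∀ r : Pos X, ∃ z : (X.Ω → ℕ → ℚ) × (X.Ω → ℕ → ℚ), r ∈ 𝒜 →
      (Measurable z.1 ∧ Measurable z.2 ∧ GoodOn r e χ z.1 z.2) := by
    intro r
    by_cases hr : r ∈ 𝒜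
    · obtain ⟨z, hz⟩ := (h1 r hr).2
      exact ⟨z, fun _ => hz⟩
    · exact ⟨(fun _ _ => 0, fun _ _ => 0), fun h => absurd h hr⟩
  choose z hz using hex
  obtain ⟨a, ha, hae⟩ := glue hc h2 (fun q => (z q).1) (fun q hq => (hz q hq).1)
  obtain ⟨b, hb, hbe⟩ := glue hc h2 (fun q => (z q).2) (fun q hq => (hz q hq).2.1)
  have hcc : Countable 𝒜 := hc.to_subtype
  refine ⟨a, b, ha, hb, ?_, ?_⟩
  · have key : ∀ᶠ η in X.l, ∀ q : 𝒜, η ∈ q.1.1 →
        ∀ i, (z q.1).2 η i < (z q.1).1 η i + e η i := by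
      rw [eventually_countable_forall]
      intro q
      exact (hz q.1 q.2).2.2.1
    filter_upwards [h3, key] with η h4 h5 hη i
    obtain ⟨q, hq, hηq⟩ := h4 hη
    rw [hae q hq η hηq, hbe q hq η hηq]
    exact h5 ⟨q, hq⟩ hηq i
  · intro q hq x hx hqx
    have key : ∀ᶠ η in X.l, ∀ s : 𝒜, η ∈ q.1 → η ∈ s.1.1 →
        ∃ i, ((z s.1).1 η i : ℝ) < x η ∧ x η ≤ ((z s.1).2 η i : ℝ) := by
      rw [eventually_countable_forall]
      intro s
      by_contra hcon
      have hfr : ∃ᶠ η in X.l, η ∈ q.1 ∧ η ∈ s.1.1 :=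
        Frequently.mono (not_eventually.1 hcon) fun η hη => by
          rw [Classical.not_imp, Classical.not_imp] at hη
          exact ⟨hη.1, hη.2.1⟩
      obtain ⟨q', hq', hqs, he'⟩ := exists_pos (pos_meas s.1) (p := q) hfr
      have h4 := (hz s.1 s.2).2.2.2 q' hqs x hx (hqx.mono hq')
      refine hcon ?_
      filter_upwards [h4] with η h5 h6 h7
      refine h5 ?_
      rw [he']
      exact ⟨h6, h7⟩
    filter_upwards [h3, key] with η h4 h5 hη
    obtain ⟨s, hs, hηs⟩ := h4 (hq hη)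
    rw [hae s hs η hηs, hbe s hs η hηs]
    exact h5 ⟨s, hs⟩ hη hηs

end Pool.Agent.H90.SN
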