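import Mathlib

/-!
# Exhaustive submeasures on a compact algebra of sets (module C0)

`Sub Z`: an algebra `C` of subsets of `Z` such that countable covers of `Z` by members of `C` have
finite subcovers, with an exhaustive submeasure `μ` (defined for all subsets of `Z`).

`limsup_small`.  Proof sketch: suppose `ε ≤ μ (D n)` for infinitely many `n`, `ε > 0` (real, or
`ε < ∞`).  By exhaustivity, for all `n` there is `m n ≥ n` such that for all `m' ≥ m n`, with
`U = ⋃ i ∈ [n, m n], D i` and `U' = ⋃ i ∈ [n, m'], D i`, `μ (U' \ U) ≤ ε / 2 ^ (n + 2)` (otherwise one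
constructs infinitely many disjoint sets `U_{j+1} \ U_j` of size at least `ε / 2 ^ (n + 2)`).  Let
`G n` be this `U`, `K n = ⋂ j ≤ n, G j`.  For large `m'` with `ε ≤ μ (D m')`,
`D m' \ K n ⊆ ⋃ j ≤ n, (U'_j \ G j)` has `μ ≤ ε / 2`, so `K n` is not empty.  By `cpt` (applied to the
complements) the intersection of all `G n` is not empty; its points are in infinitely many `D i`.
-/

set_option autoImplicit false

open Filter ENNReal Topology

namespace Pool.Agent.H90.SN

/-- an exhaustive submeasure on an algebra of sets with the finite subcover property -/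
structure Sub (Z : Type) where
  /-- the algebra -/
  C : Set (Set Z)
  /-- the submeasure -/
  μ : Set Z → ℝ≥0∞
  empty_mem : ∅ ∈ C
  compl_mem : ∀ {A : Set Z}, A ∈ C → Aᶜ ∈ C
  union_mem : ∀ {A B : Set Z}, A ∈ C → B ∈ C → A ∪ B ∈ C
  cpt : ∀ A : ℕ → Set Z, (∀ n, A n ∈ C) → (⋃ n, A n) = Set.univ →
    ∃ n, (⋃ i < n, A i) = Set.univ
  μ_empty : μ ∅ = 0
  μ_mono : ∀ {A B : Set Z}, A ⊆ B → μ A ≤ μ B
  μ_union : ∀ A B : Set Z, μ (A ∪ B) ≤ μ A + μ B
  exh : ∀ A : ℕ → Set Z, (∀ n, A n ∈ C) → Pairwise (Function.onFun Disjoint A) →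
    Tendsto (fun n => μ (A n)) atTop (𝓝 0)

namespace Sub

variable {Z : Type} (μ : Sub Z)

theorem inter_mem {A B : Set Z} (hA : A ∈ μ.C) (hB : B ∈ μ.C) : A ∩ B ∈ μ.C := by
  have := μ.compl_mem (μ.union_mem (μ.compl_mem hA) (μ.compl_mem hB))
  rwa [Set.compl_union, compl_compl, compl_compl] at this

theorem diff_mem {A B : Set Z} (hA : A ∈ μ.C) (hB : B ∈ μ.C) : A \ B ∈ μ.C :=
  μ.inter_mem hA (μ.compl_mem hB)

theorem univ_mem : Set.univ ∈ μ.C := by
  have := μ.compl_mem μ.empty_mem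
  rwa [Set.compl_empty] at this

theorem biUnion_mem {A : ℕ → Set Z} (hA : ∀ n, A n ∈ μ.C) (n : ℕ) : (⋃ i < n, A i) ∈ μ.C := by
  induction n with
  | zero => simpa using μ.empty_mem
  | succ n ih =>
    rw [Set.biUnion_lt_succ]
    exact μ.union_mem ih (hA n)

theorem μ_biUnion_le (A : ℕ → Set Z) (n : ℕ) :
    μ.μ (⋃ i < n, A i) ≤ ∑ i ∈ Finset.range n, μ.μ (A i) := by
  induction n with
  | zero => simp [μ.μ_empty]
  | succ n ih =>
    rw [Set.biUnion_lt_succ, Finset.sum_range_succ]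
    exact (μ.μ_union _ _).trans (add_le_add_left ih _)

/-- for an increasing sequence of members of the algebra the increments become small -/
theorem increments_small {A : ℕ → Set Z} (hA : ∀ n, A n ∈ μ.C) (hm : Monotone A) {ε : ℝ≥0∞}
    (hε : ε ≠ 0) : ∃ n, ∀ m ≥ n, μ.μ (A m \ A n) ≤ ε := by
  by_contra hcon
  push Not at hcon
  choose f hf1 hf2 using hcon
  let s : ℕ → ℕ := fun n => Nat.rec 0 (fun _ x => f x) n
  have hs : ∀ n, s (n + 1) = f (s n) := fun n => rfl
  have hsm : Monotone s := monotone_nat_of_le_succ fun n => hf1 (s n)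
  have h1 := μ.exh (fun n => A (s (n + 1)) \ A (s n)) (fun n => μ.diff_mem (hA _) (hA _)) ?_
  · rw [ENNReal.tendsto_atTop_zero] at h1
    obtain ⟨n, hn⟩ := h1 ε (pos_iff_ne_zero.2 hε)
    exact absurd (hn n le_rfl) (not_le.2 (hf2 (s n)))
  · have key : ∀ i j, i < j → Disjoint (A (s (i + 1)) \ A (s i)) (A (s (j + 1)) \ A (s j)) := by
      intro i j hij
      rw [Set.disjoint_left]
      intro z hz hz'
      exact hz'.2 (hm (hsm (Nat.succ_le_of_lt hij)) hz.1)
    intro i j hij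
    rcases lt_or_gt_of_ne hij with h | h
    · exact key i j h
    · exact (key j i h).symm

/-- if every point is in only finitely many of the sets `D n` then `μ (D n)` tends to `0` -/
theorem limsup_small {D : ℕ → Set Z} (hD : ∀ n, D n ∈ μ.C)
    (h : ∀ z, ∀ᶠ n in atTop, z ∉ D n) : Tendsto (fun n => μ.μ (D n)) atTop (𝓝 0) := by
  rw [ENNReal.tendsto_atTop_zero]
  by_contra hcon
  push Not at hcon
  obtain ⟨ε, hε, hcon⟩ := hcon
  obtain ⟨e, he, hsum⟩ := ENNReal.exists_pos_sum_of_countable' hε.ne' ℕ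
  -- the increasing unions
  have hU : ∀ n, ∃ M, ∀ m ≥ M, μ.μ ((⋃ i < m, D (n + i)) \ (⋃ i < M, D (n + i))) ≤ e n := by
    intro n
    refine μ.increments_small (A := fun m => ⋃ i < m, D (n + i))
      (fun m => μ.biUnion_mem (fun i => hD (n + i)) m) ?_ (he n).ne'
    intro m m' hmm z hz
    simp only [Set.mem_iUnion] at hz ⊢
    obtain ⟨i, hi, hz⟩ := hz
    exact ⟨i, hi.trans_le hmm, hz⟩
  choose M hM using hU
  let G : ℕ → Set Z := fun n => ⋃ i < M n, D (n + i)
  have hG : ∀ n, G n ∈ μ.C := fun n => μ.biUnion_mem (fun i => hD (n + i)) (M n)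
  have hne : (⋃ n, (G n)ᶜ) ≠ Set.univ := by
    intro hun
    obtain ⟨n, hn⟩ := μ.cpt (fun n => (G n)ᶜ) (fun n => μ.compl_mem (hG n)) hun
    obtain ⟨m, hm1, hm2⟩ := hcon (n + ∑ j ∈ Finset.range n, M j)
    have hsub : D m ⊆ ⋃ j < n, (D m \ G j) := by
      intro z hz
      have : z ∈ ⋃ j < n, (G j)ᶜ := by rw [hn]; trivial
      simp only [Set.mem_iUnion] at this ⊢
      obtain ⟨j, hj, hzj⟩ := this
      exact ⟨j, hj, hz, hzj⟩
    have hle : ∀ j ∈ Finset.range n, μ.μ (D m \ G j) ≤ e j := by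
      intro j hj
      have hMj : M j ≤ ∑ j ∈ Finset.range n, M j :=
        Finset.single_le_sum (f := M) (fun _ _ => Nat.zero_le _) hj
      have hjn := Finset.mem_range.1 hj
      refine (μ.μ_mono ?_).trans (hM j (m - j + 1) (by omega))
      rintro z ⟨hz, hz'⟩
      refine ⟨?_, hz'⟩
      simp only [Set.mem_iUnion]
      refine ⟨m - j, by omega, ?_⟩
      rwa [show j + (m - j) = m by omega]
    have h2 : μ.μ (D m) ≤ ε :=
      calc μ.μ (D m) ≤ μ.μ (⋃ j < n, (D m \ G j)) := μ.μ_mono hsub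
        _ ≤ ∑ j ∈ Finset.range n, μ.μ (D m \ G j) := μ.μ_biUnion_le _ n
        _ ≤ ∑ j ∈ Finset.range n, e j := Finset.sum_le_sum hle
        _ ≤ ∑' j, e j := ENNReal.sum_le_tsum _
        _ ≤ ε := hsum.le
    exact absurd h2 (not_le.2 hm2)
  obtain ⟨z, hz⟩ := (Set.ne_univ_iff_exists_notMem _).1 hne
  obtain ⟨n, hn⟩ := eventually_atTop.1 (h z)
  have hzn : z ∈ G n := by
    by_contra hc
    exact hz (Set.mem_iUnion.2 ⟨n, hc⟩)
  simp only [G, Set.mem_iUnion] at hzn
  obtain ⟨i, _, hi⟩ := hzn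
  exact hn (n + i) (Nat.le_add_right _ _) hi

end Sub

end Pool.Agent.H90.SN
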