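import Pool.Agent.H90.SN.Point
import Pool.Agent.H90.SN.Sub
import Pool.Agent.H90.SN.Fsp

/-!
# The submeasures on intervals (module B1)

`Sm π k a b X w`: for almost all `p` (with respect to a fixed non-principal ultrafilter on `ℕ`) the
set `X` is covered by elements of the classes `k, …, p` on `[a, b)` of total weight at most `w`.
`mu π a b X` is the infimum of these `w` for `k = 0`.

Everything here is routine: `cov_mono`, `cov_union`, `cov_empty`, `cov_interval`, `cov_succ`,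
`cov_of_small` and `main`; note `p + 1 - k = (p - k) + 1` for `k ≤ p`, and almost all `p` are `≥ k`
(`Filter.hyperfilter_le_cofinite`, `Nat.cofinite_eq_atTop`).  `sm_of_mu`: if the weight is less than
`(1 / 2) ^ k` then the classes `0, …, k` are not used (`cov_of_small`, `k + 1` times).
-/

set_option autoImplicit false

open Filter ENNReal Topology

namespace Pool.Agent.H90.SN

variable {Γ : Type} [LinearOrder Γ] {T : Γ → Type} (π : Par)

/-- for almost all `p`, covered by the classes `k, …, p` with weight at most `w` -/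
def Sm (k : ℕ) (a b : Γ) (X : Set (∀ g, T g)) (w : ℝ) : Prop :=
  ∀ᶠ p in (hyperfilter ℕ : Filter ℕ), Cov π (p + 1 - k) k a b X w

/-- the submeasure on the interval `[a, b)` -/
noncomputable def mu (a b : Γ) (X : Set (∀ g, T g)) : ℝ≥0∞ :=
  ⨅ (w : ℝ) (_ : Sm π 0 a b X w), ENNReal.ofReal w

/-- exhaustivity on the interval `[a, b)` -/
def Exh (T : Γ → Type) (a b : Γ) : Prop :=
  ∀ E : ℕ → Set (∀ g, T g), (∀ i, Fsp (E i)) → (∀ i, Dep (E i) a b) →
    Pairwise (Function.onFun Disjoint E) → Tendsto (fun i => mu π a b (E i)) atTop (𝓝 0)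

/-! ### `Sm` -/

theorem eventually_ge_hyper (k : ℕ) : ∀ᶠ p in (hyperfilter ℕ : Filter ℕ), k ≤ p := by
  have h : (hyperfilter ℕ : Filter ℕ) ≤ atTop := by
    rw [← Nat.cofinite_eq_atTop]
    exact hyperfilter_le_cofinite
  exact h (eventually_ge_atTop k)

theorem cov_succ_iter {n k : ℕ} (j : ℕ) {a b : Γ} {X : Set (∀ g, T g)} {w : ℝ}
    (h : Cov π n (k + j) a b X w) : Cov π (n + j) k a b X w := by
  induction j generalizing n with
  | zero => exact h
  | succ j ih =>
    have h' : Cov π n ((k + j) + 1) a b X w := h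
    have := ih (cov_succ π h')
    rwa [Nat.add_right_comm] at this

theorem cov_small_iter {n : ℕ} (j : ℕ) {a b : Γ} {X : Set (∀ g, T g)} {w : ℝ}
    (hw : w < (1 / 2) ^ j) (h : Cov π (n + (j + 1)) 0 a b X w) : Cov π n (j + 1) a b X w := by
  have key : ∀ i, i ≤ j + 1 → Cov π (n + (j + 1 - i)) i a b X w := by
    intro i
    induction i with
    | zero => exact fun _ => h
    | succ i ih =>
      intro hi
      have h1 := ih (by omega)
      have e : n + (j + 1 - i) = n + (j + 1 - (i + 1)) + 1 := by omega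
      rw [e] at h1
      refine cov_of_small π h1 (hw.trans_le ?_)
      exact pow_le_pow_of_le_one (by norm_num) (by norm_num) (by omega)
  simpa using key (j + 1) le_rfl

theorem sm_mono {k : ℕ} {a b : Γ} {X Y : Set (∀ g, T g)} {w v : ℝ} (h : Sm π k a b X w)
    (hY : Y ⊆ X) (hv : w ≤ v) : Sm π k a b Y v :=
  h.mono fun _ hp => cov_mono π hp hY hv

theorem sm_union {k : ℕ} {a b : Γ} {X Y : Set (∀ g, T g)} {w v : ℝ} (h : Sm π k a b X w)
    (h' : Sm π k a b Y v) : Sm π k a b (X ∪ Y) (w + v) :=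
  (h.and h').mono fun _ hp => cov_union π hp.1 hp.2

theorem sm_empty (k : ℕ) (a b : Γ) {w : ℝ} (hw : 0 ≤ w) :
    Sm π k a b (∅ : Set (∀ g, T g)) w :=
  Eventually.of_forall fun _ => cov_empty π _ k a b hw

theorem sm_nonneg {k : ℕ} {a b : Γ} {X : Set (∀ g, T g)} {w : ℝ} (h : Sm π k a b X w) :
    0 ≤ w := by
  obtain ⟨p, hp⟩ := h.exists
  exact cov_nonneg π hp

theorem sm_interval {k : ℕ} {a b a' b' : Γ} {X : Set (∀ g, T g)} {w : ℝ} (h : Sm π k a b X w)
    (ha : a' ≤ a) (hb : b ≤ b') : Sm π k a' b' X w :=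
  h.mono fun _ hp => cov_interval π hp ha hb

theorem sm_class {k k' : ℕ} (hk : k ≤ k') {a b : Γ} {X : Set (∀ g, T g)} {w : ℝ}
    (h : Sm π k' a b X w) : Sm π k a b X w := by
  refine (h.and (eventually_ge_hyper k')).mono fun p hp => ?_
  obtain ⟨h1, h2⟩ := hp
  have e : k' = k + (k' - k) := by omega
  have h3 : Cov π (p + 1 - k') (k + (k' - k)) a b X w := by rwa [← e]
  have h4 := cov_succ_iter π (k' - k) h3
  have e2 : p + 1 - k' + (k' - k) = p + 1 - k := by omega
  rwa [e2] at h4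

/-! ### `mu` -/

theorem mu_mono {a b : Γ} {X Y : Set (∀ g, T g)} (h : X ⊆ Y) : mu π a b X ≤ mu π a b Y :=
  le_iInf₂ fun w hw => iInf₂_le w (sm_mono π hw h le_rfl)

theorem mu_empty (a b : Γ) : mu π a b (∅ : Set (∀ g, T g)) = 0 := by
  refine le_antisymm ?_ zero_le
  have := iInf₂_le (f := fun (w : ℝ) (_ : Sm π 0 a b (∅ : Set (∀ g, T g)) w) => ENNReal.ofReal w)
    0 (sm_empty π 0 a b le_rfl)
  simpa [mu] using this

theorem mu_union (a b : Γ) (X Y : Set (∀ g, T g)) :
    mu π a b (X ∪ Y) ≤ mu π a b X + mu π a b Y := by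
  have e : mu π a b X + mu π a b Y = ⨅ (v : ℝ) (_ : Sm π 0 a b Y v) (w : ℝ)
      (_ : Sm π 0 a b X w), (ENNReal.ofReal w + ENNReal.ofReal v) := by
    simp only [mu, ENNReal.iInf_add, ENNReal.add_iInf]
  rw [e]
  refine le_iInf fun v => le_iInf fun hv => le_iInf fun w => le_iInf fun hw => ?_
  rw [← ENNReal.ofReal_add (sm_nonneg π hw) (sm_nonneg π hv)]
  exact iInf₂_le (w + v) (sm_union π hw hv)

theorem mu_interval {a b a' b' : Γ} (ha : a' ≤ a) (hb : b ≤ b') (X : Set (∀ g, T g)) :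
    mu π a' b' X ≤ mu π a b X :=
  le_iInf₂ fun w hw => iInf₂_le w (sm_interval π hw ha hb)

theorem mu_le {k : ℕ} {a b : Γ} {X : Set (∀ g, T g)} {w : ℝ} (h : Sm π k a b X w) :
    mu π a b X ≤ ENNReal.ofReal w :=
  iInf₂_le w (sm_class π (Nat.zero_le k) h)

theorem sm_of_mu_lt' {a b : Γ} {X : Set (∀ g, T g)} {w : ℝ}
    (h : mu π a b X < ENNReal.ofReal w) : ∃ v, Sm π 0 a b X v ∧ v < w := by
  simp only [mu, iInf_lt_iff] at h
  obtain ⟨v, hv, hlt⟩ := h
  exact ⟨v, hv, (ENNReal.ofReal_lt_ofReal_iff_of_nonneg (sm_nonneg π hv)).1 hlt⟩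

theorem sm_of_mu_lt {a b : Γ} {X : Set (∀ g, T g)} {w : ℝ}
    (h : mu π a b X < ENNReal.ofReal w) : Sm π 0 a b X w := by
  obtain ⟨v, hv, hlt⟩ := sm_of_mu_lt' π h
  exact sm_mono π hv subset_rfl hlt.le

theorem sm_of_mu {k : ℕ} {a b : Γ} {X : Set (∀ g, T g)} {w : ℝ} (hw : w ≤ (1 / 2) ^ k)
    (h : mu π a b X < ENNReal.ofReal w) : Sm π (k + 1) a b X w := by
  obtain ⟨v, hv, hlt⟩ := sm_of_mu_lt' π h
  refine (hv.and (eventually_ge_hyper (k + 1))).mono fun p hp => ?_
  obtain ⟨h1, h2⟩ := hp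
  have e : p + 1 - 0 = (p - k) + (k + 1) := by omega
  rw [e] at h1
  have h3 := cov_small_iter π k (hlt.trans_le hw) h1
  have e2 : p + 1 - (k + 1) = p - k := by omega
  rw [e2]
  exact cov_mono π h3 subset_rfl hlt.le

theorem mu_univ [∀ g, Nonempty (T g)] (a b : Γ) :
    12 ≤ mu π a b (Set.univ : Set (∀ g, T g)) := by
  refine le_iInf₂ fun w hw => ?_
  obtain ⟨p, hp⟩ := hw.exists
  have h1 : (12 : ℝ) ≤ w := (π.c_lo 0).trans (main π hp)
  have h2 : ENNReal.ofReal 12 ≤ ENNReal.ofReal w := ENNReal.ofReal_le_ofReal h1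
  simpa using h2

/-- the submeasure on `[a, b)`, on the algebra of the sets with finite support depending on the
coordinates in `[a, b)` -/
noncomputable def subOf [∀ g, Finite (T g)] {a b : Γ} (h : Exh π T a b) : Sub (∀ g, T g) where
  C := {X | Fsp X ∧ Dep X a b}
  μ := mu π a b
  empty_mem := ⟨fsp_empty, dep_empty a b⟩
  compl_mem h := ⟨h.1.compl, h.2.compl⟩
  union_mem h h' := ⟨h.1.union h'.1, h.2.union h'.2⟩
  cpt A hA h := fsp_cpt A (fun n => (hA n).1) h
  μ_empty := mu_empty π a b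
  μ_mono h := mu_mono π h
  μ_union X Y := mu_union π a b X Y
  exh A hA hd := h A (fun i => (hA i).1) (fun i => (hA i).2) hd

end Pool.Agent.H90.SN
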