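import Pool.Agent.H90.SN.ReadD

/-!
# The levels have strong measure zero (module D10)
-/

set_option autoImplicit false

open Filter MeasureTheory

namespace Pool.Agent.H90.SN

open Frc Ordinal

variable {X : Sys}

theorem measurableSet_seq_eq {a : X.Ω → ℕ → ℚ} (ha : Measurable a) (n : ℕ) (s : ℚ) :
    MeasurableSet {η | a η n = s} :=
  ((measurable_pi_apply n).comp ha) (measurableSet_singleton s)

theorem den7' {P : Type} [PartialOrder P] {g : Gen P} {v : Fin 7 → Name P} {a : Fin 7 → g.M}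
    (h0 : g.Den (v 0) (a 0)) (h1 : g.Den (v 1) (a 1)) (h2 : g.Den (v 2) (a 2))
    (h3 : g.Den (v 3) (a 3)) (h4 : g.Den (v 4) (a 4)) (h5 : g.Den (v 5) (a 5))
    (h6 : g.Den (v 6) (a 6)) : ∀ i, g.Den (v i) (a i) := by
  intro i; fin_cases i; exacts [h0, h1, h2, h3, h4, h5, h6]

theorem den8' {P : Type} [PartialOrder P] {g : Gen P} {v : Fin 8 → Name P} {a : Fin 8 → g.M}
    (h0 : g.Den (v 0) (a 0)) (h1 : g.Den (v 1) (a 1)) (h2 : g.Den (v 2) (a 2))
    (h3 : g.Den (v 3) (a 3)) (h4 : g.Den (v 4) (a 4)) (h5 : g.Den (v 5) (a 5))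
    (h6 : g.Den (v 6) (a 6)) (h7 : g.Den (v 7) (a 7)) : ∀ i, g.Den (v i) (a i) := by
  intro i; fin_cases i; exacts [h0, h1, h2, h3, h4, h5, h6, h7]

/-- the values of a read sequence of positive rationals are positive -/
theorem pos_of_read {p : Pos X} {σ : Name (Pos X)} {f : X.Ω → ℕ → ℚ} (hf : Measurable f)
    (hp : Fc p ![onN (Pos X) ω, addN (Pos X), ltN (Pos X), σ]
      (fun _ E v => IsPosSeq E (v 0) (v 0) (v 1) (v 2) (v 3)))
    (hread : Fc p ![onN (Pos X) ω, σ, sqN f]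
      (fun _ E v => ∀ n, E n (v 0) → ∀ z, Rel E (v 1) n z ↔ Rel E (v 2) n z)) :
    ∀ᶠ η in X.l, η ∈ p.1 → ∀ n, 0 < f η n := by
  have key : ∀ n s, s ≤ 0 → ∀ᶠ η in X.l, ¬ (η ∈ p.1 ∧ f η n = s) := by
    intro n s hs
    by_contra hcon
    obtain ⟨q, hq, hqs, -⟩ := exists_pos (measurableSet_seq_eq hf n s) (p := p) hcon
    obtain ⟨g, hg, hL, a, ha⟩ := exists_gen_set q ![onN (Pos X) ω, addN (Pos X), ltN (Pos X), σ]
      (L := {sqN f, onN (Pos X) n, qN (Pos X) s}) (by simp)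
    obtain ⟨F, hF⟩ := hL (sqN f) (by simp)
    obtain ⟨m, hm⟩ := hL (onN (Pos X) n) (by simp)
    obtain ⟨z, hz⟩ := hL (qN (Pos X) s) (by simp)
    have hw : g.Den (onN (Pos X) ω) (a 0) := ha 0
    have had : g.Den (addN (Pos X)) (a 1) := ha 1
    have hl : g.Den (ltN (Pos X)) (a 2) := ha 2
    have hσ : g.Den σ (a 3) := ha 3
    have hpg : p ∈ g.G := g.up q hg p hq
    have hmw : g.E m (a 0) := (den_onN hw m).2 ⟨_, natCast_lt_omega0 n, hm⟩
    obtain ⟨q0, hq0, hpos, hval⟩ := hp g hpg a ha m hmw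
    have h1 := hread g hpg ![a 0, a 3, F] (den3 hw hσ hF) m hmw
    have h2 := rel_sqN_of hf hF hm hz hg (fun η hη => hqs hη)
    have h3 : q0 = z := (h2 q0).1 ((h1 q0).1 ((hval q0).2 rfl))
    subst h3
    exact absurd ((isPos_iff hw had hl hz).1 hpos) (not_lt.2 hs)
  have key' : ∀ᶠ η in X.l, ∀ z : ℕ × {s : ℚ // s ≤ 0}, ¬ (η ∈ p.1 ∧ f η z.1 = z.2) := by
    rw [eventually_countable_forall]
    exact fun z => key z.1 z.2.1 z.2.2
  filter_upwards [key'] with η hη hηp n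
  by_contra hcon
  exact hη (n, ⟨f η n, not_lt.1 hcon⟩) ⟨hηp, rfl⟩

theorem isSN_famN {g : Gen (Pos X)} {β : Om} {w ad l Y : g.M} (hw : g.Den (onN (Pos X) ω) w)
    (had : g.Den (addN (Pos X)) ad) (hl : g.Den (ltN (Pos X)) l) (hY : g.Den (famN X β) Y) :
    IsSN g.E w w ad l Y := by
  intro e he
  obtain ⟨σ, hσ⟩ := g.exists_den e
  refine Gen.tp (v := ![onN (Pos X) ω, addN (Pos X), ltN (Pos X), famN X β, σ])
    (a := ![w, ad, l, Y, e]) (den5 hw had hl hY hσ)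
    (R := fun _ E v => IsPosSeq E (v 0) (v 0) (v 1) (v 2) (v 4))
    (S := fun _ E v => ∃ a b, IsShort E (v 0) (v 0) (v 1) (v 2) (v 4) a b ∧
      IsCovered E (v 0) a b (v 3)) (dfn_isPosSeq _ _ _ _ _)
    (.ex (.ex (.and (dfn_isShort _ _ _ _ _ _ _) (dfn_isCovered _ _ _ _)))) ?_ he
  intro p hp
  -- reading the sequence
  have hp' : Fc p ![onN (Pos X) ω, addN (Pos X), ltN (Pos X), σ]
      (fun _ E v => IsPosSeq E (v 0) (v 0) (v 1) (v 2) (v 3)) := by
    refine Fc.with_names (dfn_isPosSeq _ _ _ _ _) (L := {famN X β}) (by simp) ?_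
    intro g' hg' hL a ha
    obtain ⟨y, hy⟩ := hL (famN X β) (by simp)
    exact hp g' hg' ![a 0, a 1, a 2, y, a 3] (den5 (ha 0) (ha 1) (ha 2) hy (ha 3))
  obtain ⟨f, hf, hread⟩ := read_seq (p := p) (τ := σ) (by
    refine Fc.with_names (.all (.imp (.mem _ _) (.ex (.and (.mem _ _)
      (.all (.iff (dfn_rel _ _ _) (.eq _ _))))))) (L := {addN (Pos X), ltN (Pos X)}) (by simp) ?_
    intro g' hg' hL a ha n hn
    obtain ⟨ad', had'⟩ := hL (addN (Pos X)) (by simp)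
    obtain ⟨l', hl'⟩ := hL (ltN (Pos X)) (by simp)
    obtain ⟨q, hq, -, hq'⟩ := hp' g' hg' ![a 0, ad', l', a 1] (den4 (ha 0) had' hl' (ha 1)) n hn
    exact ⟨q, hq, hq'⟩)
  have hfpos := pos_of_read hf hp' hread
  -- the positive sequence
  let e' : X.Ω → ℕ → ℚ := fun η n => (if 0 < f η n then f η n else 1) / 2
  have hfn : ∀ n, Measurable fun η => f η n := fun n => (measurable_pi_apply n).comp hf
  have he' : Measurable e' := by
    refine measurable_pi_lambda _ fun n => ?_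
    have h1 : Measurable fun s : ℚ => (if 0 < s then s else 1) / 2 := measurable_of_countable _
    exact h1.comp (hfn n)
  have he'pos : ∀ η n, 0 < e' η n := by
    intro η n
    simp only [e']
    split_ifs with h <;> linarith
  obtain ⟨a, ha, hguess⟩ := X.guess β e' he' he'pos
  let b : X.Ω → ℕ → ℚ := fun η n => a η n + e' η n
  have han : ∀ n, Measurable fun η => a η n := fun n => (measurable_pi_apply n).comp ha
  have he'n : ∀ n, Measurable fun η => e' η n := fun n => (measurable_pi_apply n).comp he'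
  have hb : Measurable b := measurable_pi_lambda _ fun n => (han n).add (he'n n)
  refine ⟨p, le_rfl, {sqN a, sqN b, sqN f}, by simp, ?_⟩
  intro g' hpg hL u hu _
  obtain ⟨A, hA⟩ := hL (sqN a) (by simp)
  obtain ⟨B, hB⟩ := hL (sqN b) (by simp)
  obtain ⟨F, hF⟩ := hL (sqN f) (by simp)
  have hw' : g'.Den (onN (Pos X) ω) (u 0) := hu 0
  have had' : g'.Den (addN (Pos X)) (u 1) := hu 1
  have hl' : g'.Den (ltN (Pos X)) (u 2) := hu 2
  have hY' : g'.Den (famN X β) (u 3) := hu 3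
  have hσ' : g'.Den σ (u 4) := hu 4
  refine ⟨A, B, ?_, ?_⟩
  · -- short
    intro n hn
    obtain ⟨γ, hγ, hnγ⟩ := (den_onN hw' n).1 hn
    obtain ⟨m, rfl⟩ := lt_omega0.1 hγ
    have hS : Fc p ![onN (Pos X) ω, addN (Pos X), ltN (Pos X), σ, sqN f, sqN a, sqN b,
        onN (Pos X) m] (fun _ E v => ∃ x y q z, E x (v 0) ∧ E y (v 0) ∧
          (∀ t, Rel E (v 5) (v 7) t ↔ t = x) ∧ (∀ t, Rel E (v 6) (v 7) t ↔ t = y) ∧
          Rel E (v 3) (v 7) q ∧ Op E (v 1) x q z ∧ Rel E (v 2) y z) := by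
      refine Fc.stable (.ex (.ex (.ex (.ex (.and (.mem _ _) (.and (.mem _ _)
        (.and (.all (.iff (dfn_rel _ _ _) (.eq _ _))) (.and (.all (.iff (dfn_rel _ _ _)
        (.eq _ _))) (.and (dfn_rel _ _ _) (.and (dfn_op _ _ _ _) (dfn_rel _ _ _)))))))))))
        fun q hq => ?_
      obtain ⟨⟨s, t⟩, r, hr, hrs⟩ := split_pos (p := q)
        (A := fun z : ℚ × ℚ => {η | a η m = z.1} ∩ ({η | f η m = z.2} ∩ {_η | 0 < z.2}))
        (fun z => (measurableSet_seq_eq ha m z.1).inter ((measurableSet_seq_eq hf m z.2).inter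
          (MeasurableSet.const _))) (by
          filter_upwards [hfpos] with η hη hηq
          exact ⟨(a η m, f η m), rfl, rfl, hη (hq hηq) m⟩)
      refine ⟨r, hr, fun g2 hg2 c hc => ?_⟩
      have hwc : g2.Den (onN (Pos X) ω) (c 0) := hc 0
      have hmc : g2.Den (onN (Pos X) m) (c 7) := hc 7
      have hmw : g2.E (c 7) (c 0) := (den_onN hwc _).2 ⟨_, natCast_lt_omega0 m, hmc⟩
      obtain ⟨x, hx⟩ := exists_qN hwc s
      obtain ⟨q0, hq0⟩ := exists_qN hwc t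
      obtain ⟨y, hy⟩ := exists_qN hwc (s + t / 2)
      obtain ⟨z, hz⟩ := exists_qN hwc (s + t)
      have hpg2 : p ∈ g2.G := g2.up r hg2 p (hr.trans hq)
      have ht0 : 0 < t := by
        obtain ⟨η, hη⟩ := (pos_freq r).exists
        exact (hrs hη).2.2
      refine ⟨x, y, q0, z, qN_mem hwc hx, qN_mem hwc hy, ?_, ?_, ?_, ?_, ?_⟩
      · exact rel_sqN_of ha (hc 5) hmc hx hg2 fun η hη => (hrs hη).1
      · refine rel_sqN_of hb (hc 6) hmc hy hg2 fun η hη => ?_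
        have h1 : a η m = s := (hrs hη).1
        have h2 : f η m = t := (hrs hη).2.1
        simp only [b, e', h1, h2, if_pos ht0]
      · have h1 := hread g2 hpg2 ![c 0, c 3, c 4] (den3 hwc (hc 3) (hc 4)) (c 7) hmw q0
        exact h1.2 ((rel_sqN_of hf (hc 4) hmc hq0 hg2 (fun η hη => (hrs hη).2.1) q0).2 rfl)
      · exact (op_addN (hc 1) hx hq0).2 hz
      · exact (rel_ltN (hc 2) hy hz).2 (by linarith)
    exact hS g' hpg ![u 0, u 1, u 2, u 4, F, A, B, n]
      (den8' hw' had' hl' hσ' hF hA hB hnγ)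
  · -- covered
    intro y hy
    obtain ⟨⟨x, hx⟩, -, hxy⟩ := (Gen.mem_iff hY').1 hy
    have hxy' : g'.Den (rlN x) y := hxy
    have hxm : Measurable x := hx.mono (X.sg_le β) le_rfl
    have hS : Fc p ![onN (Pos X) ω, sqN a, sqN b, rlN x] (fun _ E v => ∃ n c d, E n (v 0) ∧
        Rel E (v 1) n c ∧ Rel E (v 2) n d ∧ E c (v 3) ∧ ¬ E d (v 3)) := by
      refine Fc.stable (.ex (.ex (.ex (.and (.mem _ _) (.and (dfn_rel _ _ _)
        (.and (dfn_rel _ _ _) (.and (.mem _ _) (.not (.mem _ _))))))))) fun q hq => ?_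
      obtain ⟨⟨m, s, t⟩, r, hr, hrs⟩ := split_pos (p := q)
        (A := fun z : ℕ × ℚ × ℚ => {η | a η z.1 = z.2.1} ∩ ({η | b η z.1 = z.2.2} ∩
          ({η | (z.2.1 : ℝ) < x η} ∩ {η | x η ≤ (z.2.2 : ℝ)})))
        (fun z => (measurableSet_seq_eq ha z.1 z.2.1).inter
          ((measurableSet_seq_eq hb z.1 z.2.2).inter
          ((measurableSet_lt measurable_const hxm).inter
            (measurableSet_le hxm measurable_const)))) (by
          filter_upwards [hguess x hx] with η hη _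
          obtain ⟨n, h1, h2⟩ := hη
          refine ⟨(n, a η n, b η n), rfl, rfl, h1, ?_⟩
          simp only [b, Set.mem_setOf_eq, Rat.cast_add]
          exact h2.le)
      refine ⟨r, hr, fun g2 hg2 c hc => ?_⟩
      have hwc : g2.Den (onN (Pos X) ω) (c 0) := hc 0
      obtain ⟨n, hn⟩ := exists_den_nat hwc m
      obtain ⟨x1, hx1⟩ := exists_qN hwc s
      obtain ⟨y1, hy1⟩ := exists_qN hwc t
      refine ⟨n, x1, y1, (den_onN hwc n).2 ⟨_, natCast_lt_omega0 m, hn⟩, ?_, ?_, ?_, ?_⟩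
      · exact (rel_sqN_of ha (hc 1) hn hx1 hg2 (fun η hη => (hrs hη).1) x1).2 rfl
      · exact (rel_sqN_of hb (hc 2) hn hy1 hg2 (fun η hη => (hrs hη).2.1) y1).2 rfl
      · exact mem_rlN_of hxm (hc 3) hx1 hg2 fun η hη => (hrs hη).2.2.1
      · exact not_mem_rlN_of (hc 3) hy1 hg2 fun η hη => (hrs hη).2.2.2
    exact hS g' hpg ![u 0, A, B, y] (den4 hw' hA hB hxy')

end Pool.Agent.H90.SN
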