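import Pool.Agent.H90.SN.Sys
import Pool.Agent.H90.SN.Fub
import Pool.Agent.H90.SN.Meas

/-!
# The product space: coordinates (module C5a)

Coordinates: `Gm = (ω₁ × ω) ∪ {⊤}` ordered lexicographically, `Tm (β, n) = {0, …, 2 * n}`,
`Zm = ∏ Tm g`.

* `ms_sub`: both σ-algebras are generated by the coordinates (a set with finite support is a finite
  union of cylinders; `Tm ⊤` has only one element, so there is no dependence on `⊤`).
* `measurable_mix`: check the coordinates `g`: for `g < c` use `hu`, for `c ≤ g` the coordinate is a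
  measurable function of the second component, as `{z | z g = t}` has finite support and
  depends on `[c, ⊤)`.
* `countable_support`: the sets with this property form a σ-algebra.
-/

set_option autoImplicit false

open Filter ENNReal Topology MeasureTheory

namespace Pool.Agent.H90.SN

/-- the coordinates -/
abbrev Gm : Type := WithTop (Om ×ₗ ℕ)

/-- the size of a coordinate -/
def sz : Gm → ℕ
  | none => 0
  | some p => (ofLex p).2

abbrev Tm (g : Gm) : Type := Fin (2 * sz g + 1)

abbrev Zm : Type := ∀ g, Tm g

/-- the coordinate `(β, n)` -/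
def co (β : Om) (n : ℕ) : Gm := ((toLex (β, n) : Om ×ₗ ℕ) : WithTop (Om ×ₗ ℕ))

instance : WellFoundedLT Gm := inferInstance

@[simp] theorem sz_co (β : Om) (n : ℕ) : sz (co β n) = n := rfl

theorem co_lt_top (β : Om) (n : ℕ) : co β n < ⊤ := WithTop.coe_lt_top _

theorem co_lt_co {β β' : Om} {n n' : ℕ} : co β n < co β' n' ↔ β < β' ∨ β = β' ∧ n < n' := by
  unfold co
  rw [WithTop.coe_lt_coe, Prod.Lex.toLex_lt_toLex]

/-- there is nothing between `(β, n)` and `(β, n + 1)` -/
theorem eq_co {β : Om} {n : ℕ} {g : Gm} (h : co β n ≤ g) (h' : g < co β (n + 1)) :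
    g = co β n := by
  induction g using WithTop.recTopCoe with
  | top => exact absurd h' (not_lt.2 le_top)
  | coe p =>
    obtain ⟨⟨β', n'⟩, rfl⟩ : ∃ q : Om × ℕ, p = toLex q := ⟨ofLex p, rfl⟩
    unfold co at h h' ⊢
    rw [WithTop.coe_le_coe, Prod.Lex.toLex_le_toLex] at h
    rw [WithTop.coe_lt_coe, Prod.Lex.toLex_lt_toLex] at h'
    have hβ : β = β' := by
      rcases h with h | h
      · rcases h' with h' | h'
        · exact absurd (h.trans h') (lt_irrefl _)
        · exact absurd (h.trans_eq h'.1) (lt_irrefl _)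
      · exact h.1
    subst hβ
    have hn : n = n' := by
      rcases h with h | h
      · exact absurd h (lt_irrefl _)
      · rcases h' with h' | h'
        · exact absurd h' (lt_irrefl _)
        · exact le_antisymm h.2 (Nat.lt_succ_iff.1 h'.2)
    rw [hn]

theorem exists_bt : ∃ g : Gm, ∀ g', g ≤ g' :=
  ⟨(IsWellFounded.wf (r := (· < · : Gm → Gm → Prop))).min Set.univ ⟨⊤, trivial⟩,
    fun g' => not_lt.1 (WellFounded.not_lt_min _ _ (Set.mem_univ g'))⟩

/-- the least coordinate -/
noncomputable def bt : Gm := exists_bt.choose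

theorem bt_le (g : Gm) : bt ≤ g := exists_bt.choose_spec g

instance (B : Base) : MeasurableSpace B.S := B.ms
instance (B : Base) : B.l.NeBot := B.neBot
instance (B : Base) : CountableInterFilter B.l := B.cinf

variable (π : Par) (B : Base)

/-- the set of all `z` with `z g ∈ s` is in the algebra of `[c, ⊤)` if `c ≤ g` -/
theorem coord_mem_C {c g : Gm} (h : c ≤ g) (s : Set (Tm g)) :
    {z : Zm | z g ∈ s} ∈ (sub π Tm c ⊤).C := by
  refine ⟨⟨{g}, fun z z' hz => ?_⟩, fun z z' hz => ?_⟩
  · have : z g = z' g := hz g (Finset.mem_singleton_self g)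
    simp only [Set.mem_ofPred_eq, this]
  · have : z g = z' g := by
      by_cases hg : g = ⊤
      · subst hg
        have : Subsingleton (Tm (⊤ : Gm)) := inferInstanceAs (Subsingleton (Fin 1))
        exact Subsingleton.elim _ _
      · exact hz g h (lt_top_iff_ne_top.2 hg)
    simp only [Set.mem_ofPred_eq, this]

theorem measurable_coord {c g : Gm} (h : c ≤ g) :
    Measurable[(sub π Tm c ⊤).ms] fun z : Zm => z g := by
  intro s _
  exact MeasurableSpace.measurableSet_generateFrom (coord_mem_C π h s)

/-- sets with finite support are measurable -/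
theorem Fsp.measurableSet {X : Set Zm} (h : Fsp X) : MeasurableSet X := by
  obtain ⟨F, hF⟩ := h
  have hX : X = F.restrict ⁻¹' (F.restrict '' X) := by
    ext z
    constructor
    · intro hz; exact ⟨z, hz, rfl⟩
    · rintro ⟨z', hz', heq⟩
      refine (hF z' z fun g hg => ?_).1 hz'
      exact congrFun heq ⟨g, hg⟩
  rw [hX]
  exact (Finset.measurable_restrict F) (Set.toFinite _).measurableSet

theorem ms_sub : (sub π Tm bt ⊤).ms = MeasurableSpace.pi := by
  refine le_antisymm ?_ ?_
  · exact MeasurableSpace.generateFrom_le fun X hX => Fsp.measurableSet hX.1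
  · refine iSup_le fun g => ?_
    exact (measurable_coord π (bt_le g)).comap_le

theorem measurable_mix {M : Type} (mM : MeasurableSpace M) (c : Gm) {u : M → Zm}
    (hu : ∀ g < c, Measurable fun m => u m g) :
    Measurable[@Prod.instMeasurableSpace M Zm mM (sub π Tm c ⊤).ms]
      fun p : M × Zm => mix c (u p.1) p.2 := by
  refine @measurable_pi_lambda _ _ _ (@Prod.instMeasurableSpace M Zm mM (sub π Tm c ⊤).ms) _ _
    fun g => ?_
  by_cases hg : g < c
  · have : (fun p : M × Zm => mix c (u p.1) p.2 g) = fun p => u p.1 g := by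
      funext p
      simp only [mix, if_pos hg]
    rw [this]
    exact (hu g hg).comp (@measurable_fst M Zm mM (sub π Tm c ⊤).ms)
  · have : (fun p : M × Zm => mix c (u p.1) p.2 g) = fun p => p.2 g := by
      funext p
      simp only [mix, if_neg hg]
    rw [this]
    exact (measurable_coord π (not_lt.1 hg)).comp (@measurable_snd M Zm mM (sub π Tm c ⊤).ms)

theorem countable_support {M : Type} [MeasurableSpace M] {E : Set (M × Zm)}
    (hE : MeasurableSet E) :
    ∃ K : Set Gm, K.Countable ∧ ∀ m z z', (∀ g ∈ K, z g = z' g) → ((m, z) ∈ E ↔ (m, z') ∈ E) := by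
  let 𝒞 : MeasurableSpace (M × Zm) :=
    { MeasurableSet' := fun E => ∃ K : Set Gm, K.Countable ∧
        ∀ m z z', (∀ g ∈ K, z g = z' g) → ((m, z) ∈ E ↔ (m, z') ∈ E)
      measurableSet_empty := ⟨∅, Set.countable_empty, fun _ _ _ _ => Iff.rfl⟩
      measurableSet_compl := by
        rintro E ⟨K, hK, h⟩
        exact ⟨K, hK, fun m z z' hz => not_congr (h m z z' hz)⟩
      measurableSet_iUnion := by
        intro f hf
        choose K hK h using hf
        refine ⟨⋃ n, K n, Set.countable_iUnion hK, fun m z z' hz => ?_⟩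
        simp only [Set.mem_iUnion]
        exact exists_congr fun n => h n m z z' fun g hg => hz g (Set.mem_iUnion.2 ⟨n, hg⟩) }
  have key : (Prod.instMeasurableSpace : MeasurableSpace (M × Zm)) ≤ 𝒞 := by
    change MeasurableSpace.comap Prod.fst _ ⊔ MeasurableSpace.comap Prod.snd _ ≤ 𝒞
    refine sup_le ?_ ?_
    · rintro _ ⟨s, _, rfl⟩
      exact ⟨∅, Set.countable_empty, fun _ _ _ _ => Iff.rfl⟩
    · change MeasurableSpace.comap Prod.snd (⨆ g, _) ≤ 𝒞
      rw [MeasurableSpace.comap_iSup]
      refine iSup_le fun g => ?_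
      rw [MeasurableSpace.comap_comp]
      rintro _ ⟨s, _, rfl⟩
      refine ⟨{g}, Set.countable_singleton g, fun m z z' hz => ?_⟩
      have : z g = z' g := hz g rfl
      simp only [Set.mem_preimage, Function.comp_apply, this]
  exact key E hE

end Pool.Agent.H90.SN
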