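import Pool.Agent.H90.SN.Space

/-!
# The product space (module C5b)

For a base space `B`, `B.S × Zm` carries the product σ-algebra, and the filter `lO`: almost all
sections of the complement are null sets.

* `sg_iff`: `E = ρ ⁻¹' E` for the map `ρ ω = (ω.1, mix (co β 0) ω.2 0)`.
* `measurable_fib`: `measurable_nu` for `M = B.S × Zm` with `Sg B β`, and `measurable_mix`.
* `fub_iff`: `null_sec` and `null_of_sec` for almost all `s` (use `ms_sub`).
-/

set_option autoImplicit false

open Filter ENNReal Topology MeasureTheory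

namespace Pool.Agent.H90.SN

variable (π : Par) (B : Base)

/-- the sets of level `β` -/
@[reducible] noncomputable def Sg (β : Om) : MeasurableSpace (B.S × Zm) :=
  MeasurableSpace.comap (fun ω => (ω.1, mix (co β 0) ω.2 fun _ => 0)) inferInstance

private theorem mix_mix_le' {c c' : Gm} (h : c ≤ c') (z z' : Zm) :
    mix c (mix c' z z') z = z := by
  funext g
  by_cases hg : g < c
  · have hg' : g < c' := hg.trans_le h
    simp [mix, hg, hg']
  · simp [mix, hg]

theorem measurable_rho (β : Om) :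
    Measurable fun ω : B.S × Zm => (ω.1, mix (co β 0) ω.2 fun _ => 0) := by
  refine measurable_fst.prodMk ?_
  refine measurable_pi_lambda _ fun g => ?_
  by_cases hg : g < co β 0
  · simp only [mix, hg, if_true]
    exact (measurable_pi_apply g).comp measurable_snd
  · simp only [mix, hg, if_false]
    exact measurable_const

theorem sg_iff {β : Om} {E : Set (B.S × Zm)} :
    MeasurableSet[Sg B β] E ↔ MeasurableSet E ∧
      ∀ s z z', (s, mix (co β 0) z z') ∈ E ↔ (s, z) ∈ E := by
  constructor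
  · rintro ⟨F, hF, rfl⟩
    refine ⟨measurable_rho B β hF, fun s z z' => ?_⟩
    simp only [Set.mem_preimage]
    rw [mix_mix_left le_rfl]
  · rintro ⟨hE, h⟩
    refine ⟨E, hE, ?_⟩
    ext ⟨s, z⟩
    simp only [Set.mem_preimage]
    exact h s z _

theorem sg_fun_iff {β : Om} {Y : Type} [MeasurableSpace Y] [MeasurableSingletonClass Y]
    {f : B.S × Zm → Y} :
    Measurable[Sg B β] f ↔ Measurable f ∧ ∀ s z z', f (s, mix (co β 0) z z') = f (s, z) := by
  constructor
  · intro h
    refine ⟨fun t ht => ((sg_iff B).1 (h ht)).1, fun s z z' => ?_⟩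
    have h1 := ((sg_iff B).1 (h (measurableSet_singleton (f (s, z))))).2 s z z'
    simp only [Set.mem_preimage, Set.mem_singleton_iff, iff_true] at h1
    exact h1
  · rintro ⟨hf, h⟩ t ht
    refine (sg_iff B).2 ⟨hf ht, fun s z z' => ?_⟩
    simp only [Set.mem_preimage, h]

theorem sg_le (β : Om) : Sg B β ≤ inferInstanceAs (MeasurableSpace (B.S × Zm)) := by
  intro E hE
  exact ((sg_iff B).1 hE).1

theorem sg_mono : Monotone (Sg B) := by
  intro β β' hβ E hE
  obtain ⟨h1, h2⟩ := (sg_iff B).1 hE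
  refine (sg_iff B).2 ⟨h1, fun s z z' => ?_⟩
  have hc : co β 0 ≤ co β' 0 := by
    rcases hβ.lt_or_eq with h | h
    · exact (co_lt_co.2 (Or.inl h)).le
    · rw [h]
  have h3 := h2 s (mix (co β' 0) z z') z
  rw [mix_mix_le' hc] at h3
  exact h3.symm

/-- null sets of the product space -/
def Null (E : Set (B.S × Zm)) : Prop :=
  ∀ᶠ s in B.l, (sub π Tm bt ⊤).nu {z | (s, z) ∈ E} = 0

/-- almost all points of the product space -/
def lO : Filter (B.S × Zm) where
  sets := {E | Null π B Eᶜ}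
  univ_sets := by
    refine Eventually.of_forall fun s => ?_
    have : {z : Zm | (s, z) ∈ (Set.univ : Set (B.S × Zm))ᶜ} = ∅ := by
      ext z; simp
    rw [this]
    exact Sub.nu_empty _
  sets_of_superset := by
    intro E F hE hEF
    refine Eventually.mono hE fun s hs => ?_
    refine le_antisymm ?_ bot_le
    refine (Sub.nu_mono _ ?_).trans hs.le
    intro z hz
    exact fun h => hz (hEF h)
  inter_sets := by
    intro E F hE hF
    refine (Eventually.and hE hF).mono fun s hs => ?_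
    refine le_antisymm ?_ bot_le
    have h1 : {z : Zm | (s, z) ∈ (E ∩ F)ᶜ} ⊆ {z | (s, z) ∈ Eᶜ} ∪ {z | (s, z) ∈ Fᶜ} := by
      intro z hz
      exact not_and_or.1 hz
    refine (Sub.nu_mono _ h1).trans ((Sub.nu_union_le _ _ _).trans ?_)
    rw [hs.1, hs.2, add_zero]

theorem mem_lO {E : Set (B.S × Zm)} : E ∈ lO π B ↔ Null π B Eᶜ := Iff.rfl

theorem eventually_lO {p : B.S × Zm → Prop} :
    (∀ᶠ ω in lO π B, p ω) ↔ ∀ᶠ s in B.l, (sub π Tm bt ⊤).nu {z | ¬ p (s, z)} = 0 := Iff.rfl

theorem frequently_lO {p : B.S × Zm → Prop} :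
    (∃ᶠ ω in lO π B, p ω) ↔ ∃ᶠ s in B.l, (sub π Tm bt ⊤).nu {z | p (s, z)} ≠ 0 := by
  rw [Filter.Frequently, eventually_lO, Filter.Frequently]
  simp only [not_not, ne_eq]

instance : (lO π B).NeBot := by
  refine ⟨fun h => ?_⟩
  have h1 : (∅ : Set (B.S × Zm)) ∈ lO π B := by
    rw [h]; exact Filter.mem_bot
  have h2 : Null π B (∅ : Set (B.S × Zm))ᶜ := h1
  obtain ⟨s, hs⟩ := Eventually.exists h2
  have h3 : {z : Zm | (s, z) ∈ (∅ : Set (B.S × Zm))ᶜ} = Set.univ := by
    ext z; simp
  rw [h3, Sub.nu_eq _ (Sub.univ_mem _)] at hs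
  have h4 : 12 ≤ (sub π Tm bt ⊤).μ (Set.univ : Set Zm) := mu_univ π bt ⊤
  rw [hs] at h4
  simp at h4

instance : CountableInterFilter (lO π B) := by
  refine ⟨fun S hS h => ?_⟩
  have h1 : ∀ᶠ s in B.l, ∀ E ∈ S, (sub π Tm bt ⊤).nu {z | (s, z) ∈ Eᶜ} = 0 := by
    rw [eventually_countable_ball hS]
    exact h
  change ∀ᶠ s in B.l, (sub π Tm bt ⊤).nu {z | (s, z) ∈ (⋂₀ S)ᶜ} = 0
  refine Eventually.mono h1 fun s hs => ?_
  have h2 : {z : Zm | (s, z) ∈ (⋂₀ S)ᶜ} = ⋃ E : S, {z : Zm | (s, z) ∈ (E : Set (B.S × Zm))ᶜ} := by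
    ext z
    simp only [Set.mem_ofPred_eq, Set.mem_compl_iff, Set.mem_sInter, Set.mem_iUnion, not_forall,
      Subtype.exists, exists_prop]
  rw [h2]
  have : Countable S := hS.to_subtype
  exact Sub.nu_iUnion_null _ fun E => hs E E.2

private theorem aux_fib {S M Z W : Type} (mS : MeasurableSpace S) (mM : MeasurableSpace M)
    (mZ : MeasurableSpace Z) (mW : MeasurableSpace W) (f : M → S) (hf : @Measurable _ _ mM mS f)
    (g : M × W → Z) (hg : @Measurable _ _ (@Prod.instMeasurableSpace M W mM mW) mZ g)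
    {E : Set (S × Z)} (hE : @MeasurableSet _ (@Prod.instMeasurableSpace S Z mS mZ) E) :
    @MeasurableSet _ (@Prod.instMeasurableSpace M W mM mW) {p : M × W | (f p.1, g p) ∈ E} := by
  have h : Measurable fun p : M × W => (f p.1, g p) := (hf.comp measurable_fst).prodMk hg
  exact h hE

private theorem aux_sec {M W : Type} (mM : MeasurableSpace M) (mW : MeasurableSpace W)
    {E : Set (M × W)} (hE : @MeasurableSet _ (@Prod.instMeasurableSpace M W mM mW) E) (m : M) :
    @MeasurableSet _ mW {w | (m, w) ∈ E} := measurable_prodMk_left hE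

/-- the size of the fibre of `E` over the point `ω`, seen from the coordinate `c` -/
noncomputable def fib (c : Gm) (E : Set (B.S × Zm)) (ω : B.S × Zm) : ℝ≥0∞ :=
  (sub π Tm c ⊤).nu {z' | (ω.1, mix c ω.2 z') ∈ E}

/-- the fibre of a measurable set is measurable -/
theorem measurableSet_fib (c : Gm) {E : Set (B.S × Zm)} (hE : MeasurableSet E)
    (ω : B.S × Zm) : MeasurableSet[(sub π Tm c ⊤).ms] {z' | (ω.1, mix c ω.2 z') ∈ E} := by
  have h1 := measurable_mix π (inferInstance : MeasurableSpace Unit) c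
    (u := fun _ => ω.2) (fun g _ => measurable_const)
  have h2 := aux_fib (instMeasurableSpaceS B) (inferInstance : MeasurableSpace Unit) _ _
    (fun _ => ω.1) measurable_const _ h1 hE
  exact aux_sec _ _ h2 ()

private theorem measurable_sg_fst (β : Om) :
    @Measurable _ _ (Sg B β) _ (fun ω : B.S × Zm => ω.1) := by
  intro t ht
  refine ⟨Prod.fst ⁻¹' t, measurable_fst ht, rfl⟩

private theorem measurable_sg_snd (β : Om) (g : Gm) (hg : g < co β 0) :
    @Measurable _ _ (Sg B β) _ (fun ω : B.S × Zm => ω.2 g) := by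
  intro t ht
  refine ⟨(fun ω : B.S × Zm => ω.2 g) ⁻¹' t,
    ((measurable_pi_apply g).comp measurable_snd) ht, ?_⟩
  ext ω
  simp only [Set.mem_preimage, mix, hg, if_true]

theorem measurable_fib (β : Om) {E : Set (B.S × Zm)} (hE : MeasurableSet E) :
    Measurable[Sg B β] (fib π B (co β 0) E) := by
  have h1 := measurable_mix π (Sg B β) (co β 0) (u := fun ω => ω.2) (measurable_sg_snd B β)
  have h2 := aux_fib (instMeasurableSpaceS B) (Sg B β) _ _
    (fun ω => ω.1) (measurable_sg_fst B β) _ h1 hE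
  have h3 := Sub.measurable_nu (sub π Tm (co β 0) ⊤) (Sg B β) h2
  have h4 : fib π B (co β 0) E = fun m => (sub π Tm (co β 0) ⊤).nu
      {z | (m, z) ∈ {p : (B.S × Zm) × Zm | (p.1.1, mix (co β 0) p.1.2 p.2) ∈ E}} := by
    funext ω
    simp only [fib, Set.mem_ofPred_eq]
  rw [h4]
  exact h3

theorem measurable_nu_base {E : Set (B.S × Zm)} (hE : MeasurableSet E) :
    Measurable fun s : B.S => (sub π Tm bt ⊤).nu {z | (s, z) ∈ E} := by
  have hE' : @MeasurableSet _ (@Prod.instMeasurableSpace B.S Zm B.ms (sub π Tm bt ⊤).ms) E := by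
    rw [ms_sub]
    exact hE
  exact Sub.measurable_nu (sub π Tm bt ⊤) B.ms hE'

/-- Fubini for null sets -/
theorem fub_iff (c : Gm) {E : Set (B.S × Zm)} (hE : MeasurableSet E) :
    Null π B E ↔ ∀ᶠ ω in lO π B, fib π B c E ω = 0 := by
  rw [eventually_lO]
  refine eventually_congr (Eventually.of_forall fun s => ?_)
  have hE' : @MeasurableSet Zm (sub π Tm bt ⊤).ms {z : Zm | (s, z) ∈ E} := by
    rw [ms_sub]
    exact aux_sec (instMeasurableSpaceS B) _ hE s
  have h1 := fun h => null_sec π (T := Tm) (bt_le c) le_top (E := {z : Zm | (s, z) ∈ E}) h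
  have h2 := fun h => null_of_sec π (T := Tm) (bt_le c) le_top (E := {z : Zm | (s, z) ∈ E}) hE' h
  exact ⟨h1, h2⟩

end Pool.Agent.H90.SN
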