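import Pool.Agent.H90.SN.Cover

/-!
# Splitting a cover at a point (module A1)

Proof sketch.  `split_of` is the statement of `split` for `n` (all `k`); one proves `split` by
induction on `n`, so in the induction step the lemmas `left_slots`, `left_F` are available for
the classes above `k`.

Induction step, by induction on `Sp` (the property: `w < 16 → ∃ V, …`).
* `base`: induction hypothesis for `k + 1`, as `π.d (k + 1) ≤ π.d k`.
* `union`, `mono`: take `V ∪ V'`, resp. the same `V` (weights are nonnegative, `cov_nonneg`).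
* `elem`: let `j` be the parameter, `wt π k j < 16`.
  * slots `l i < r i`, `i < m`; `1000 * 2 ^ (k + 4) ≤ m` by `π.slots`.  As the slots are in
    increasing order, `{i < m | r i ≤ c} = {i | i < s}` for some `s ≤ m`, and `c ≤ l i` for
    `s + 1 ≤ i < m` (as `c < r s ≤ l i`).
    If `m ≤ 2 * s + 1`: `V := {z | ¬ Cov π n (k + 1) c b (sec X c z) (rs π k (j + 1))}` is an element
    of class `k` with parameter `j + 1` on `[a, c)` (`left_slots`, `dep_of_sec`, `rs_succ`;
    `N k ≤ 3 ^ j * m ≤ 3 ^ (j + 1) * s`), of weight `wt π k (j + 1) = (1 + π.d k) * wt π k j`, and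
    for `z ∉ V` the section has weight `rs π k (j + 1) ≤ wt π k j` (`π.resid`).
    Otherwise `V := ∅`, and `sec X c z` is an element of class `k` with parameter `j + 1` on
    `[c, b)`: use the slots `s + 1 ≤ i < m` (`Escape.sec`, `Escape.block`, `Slots.block`).
  * an element of the second kind with `g < c`: `V` as before, use `left_F`.
    With `c ≤ g`: `V := ∅`, and `sec (sec X c z) g u = sec X g (mix c z u)`.
* `n = 0`: `X = ∅`, `V = ∅`.
-/

set_option autoImplicit false

namespace Pool.Agent.H90.SN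

variable {Γ : Type} [LinearOrder Γ] {T : Γ → Type} (π : Par)

/-- the statement of the splitting lemma for covers by `n` classes from `k` on -/
def SplitProp (Γ : Type) [LinearOrder Γ] (T : Γ → Type) (π : Par) (n k : ℕ) : Prop :=
  ∀ {a b c : Γ}, a ≤ c → c ≤ b → ∀ {X : Set (∀ g, T g)} {w : ℝ}, Cov π n k a b X w → w < 16 →
    ∃ V, Dep V a c ∧ Cov π n k a c V ((1 + π.d k) * w) ∧
      ∀ z ∉ V, Cov π n k c b (sec X c z) ((1 + π.d k) * w)

/-- the left part (for slots): the residual is doubled -/
theorem left_slots {n k : ℕ} (hS : SplitProp Γ T π n k) {b c : Γ} (hcb : c ≤ b)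
    {X : Set (∀ g, T g)} {m : ℕ} {l r : ℕ → Γ} {e : ℝ} (he : e < 16)
    (hlr : ∀ i < m, l i < r i ∧ r i ≤ c) (h : Escape (Cov π n k) b X m l r e) :
    Escape (Cov π n k) c {z | ¬ Cov π n k c b (sec X c z) (2 * e)} m l r (2 * e) := by
  intro i hi u
  obtain ⟨D, hD, hL, hv⟩ := h i hi u
  refine ⟨D, hD, hL, fun v hvD => ?_⟩
  have hY := hv v hvD
  have he0 : 0 ≤ e := cov_nonneg π hY
  have hd : (1 + π.d k) * e ≤ 2 * e := by
    have := π.d_le k
    nlinarith
  obtain ⟨V, -, hV, hV'⟩ := hS (hlr i hi).2 hcb hY he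
  refine cov_mono π hV ?_ hd
  intro z hz
  by_contra hzV
  refine hz ?_
  have := hV' z hzV
  rw [sec_sec (hlr i hi).2] at this
  exact cov_mono π this subset_rfl hd

/-- the left part (for elements of the second kind): the residual is doubled -/
theorem left_F {n k : ℕ} (hS : SplitProp Γ T π n k) {b c g : Γ} (hgc : g ≤ c) (hcb : c ≤ b)
    {X : Set (∀ g, T g)} {e : ℝ} (he : e < 16) (h : ∀ u, Cov π n k g b (sec X g u) e) :
    ∀ u, Cov π n k g c (sec {z | ¬ Cov π n k c b (sec X c z) (2 * e)} g u) (2 * e) := by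
  intro u
  have hY := h u
  have he0 : 0 ≤ e := cov_nonneg π hY
  have hd : (1 + π.d k) * e ≤ 2 * e := by
    have := π.d_le k
    nlinarith
  obtain ⟨V, -, hV, hV'⟩ := hS hgc hcb hY he
  refine cov_mono π hV ?_ hd
  intro z hz
  by_contra hzV
  refine hz ?_
  have := hV' z hzV
  rw [sec_sec hgc] at this
  exact cov_mono π this subset_rfl hd

theorem rs_lt {k j : ℕ} (h : wt π k j < 16) : 2 * rs π k j ≤ wt π k j ∧ rs π k j < 16 := by
  have h1 := π.resid k j h
  have h2 : 2 * rs π k j = 2 ^ (j + 1) * π.ep k := by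
    unfold rs
    ring
  have h3 : (1 / 2 : ℝ) ^ k * (1 + π.d k) ^ j / 2 ^ (2 * k + 20) ≤ wt π k j := by
    unfold wt
    refine div_le_self ?_ (one_le_pow₀ (by norm_num))
    exact (wt_pos π k j).le
  have h4 := rs_pos π k j
  have h5 : 2 * rs π k j ≤ wt π k j := by
    rw [h2]
    exact h1.trans h3
  exact ⟨h5, by linarith⟩

theorem exists_slot_index {a b c : Γ} {m : ℕ} {l r : ℕ → Γ} (hs : Slots a b m l r) :
    ∃ s ≤ m, (∀ i < s, r i ≤ c) ∧ ∀ i, s + 1 ≤ i → i < m → c ≤ l i := by
  classical
  by_cases h : ∃ i, i < m ∧ c < r i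
  · refine ⟨Nat.find h, (Nat.find_spec h).1.le, fun i hi => ?_, fun i hi him => ?_⟩
    · by_contra hc
      exact Nat.find_min h hi ⟨hi.trans (Nat.find_spec h).1, not_le.1 hc⟩
    · exact (Nat.find_spec h).2.le.trans (hs.2 _ i (by omega) him)
  · push Not at h
    exact ⟨m, le_rfl, fun i hi => h i hi, fun i hi him => by omega⟩

/-- **Splitting lemma.** -/
theorem splitProp (n k : ℕ) : SplitProp Γ T π n k := by
  induction n generalizing k with
  | zero =>
    intro a b c _ _ X w h _
    have hd := π.d_pos k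
    have hw : 0 ≤ (1 + π.d k) * w := mul_nonneg (by linarith) h.2
    refine ⟨∅, dep_empty a c, ⟨rfl, hw⟩, fun z _ => ⟨?_, hw⟩⟩
    rw [h.1, sec_empty]
  | succ n ih =>
    intro a b c hac hcb X w h
    have hd := π.d_pos k
    change Sp _ _ _ _ at h
    induction h with
    | @base X w h =>
      intro hw
      have hw0 := cov_nonneg π h
      obtain ⟨V, h1, h2, h3⟩ := ih (k + 1) hac hcb h hw
      have hle : (1 + π.d (k + 1)) * w ≤ (1 + π.d k) * w :=
        mul_le_mul_of_nonneg_right (by linarith [π.d_anti k]) hw0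
      exact ⟨V, h1, cov_succ π (cov_mono π h2 subset_rfl hle),
        fun z hz => cov_succ π (cov_mono π (h3 z hz) subset_rfl hle)⟩
    | @elem X w h =>
      intro hw
      obtain ⟨j, rfl, hX, h⟩ := h
      obtain ⟨hrs, hrs'⟩ := rs_lt π hw
      have hwt := wt_pos π k j
      have hwle : wt π k j ≤ (1 + π.d k) * wt π k j := by nlinarith
      have hr0 := rs_pos π k j
      have hWdep : Dep {z | ¬ Cov π n (k + 1) c b (sec X c z) (2 * rs π k j)} a c :=
        dep_of_sec hX c fun Y => ¬ Cov π n (k + 1) c b Y (2 * rs π k j)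
      have hWz : ∀ z ∉ {z | ¬ Cov π n (k + 1) c b (sec X c z) (2 * rs π k j)},
          Cov π (n + 1) k c b (sec X c z) ((1 + π.d k) * wt π k j) := by
        intro z hz
        have hz' : Cov π n (k + 1) c b (sec X c z) (2 * rs π k j) := by
          by_contra hcon
          exact hz hcon
        exact cov_mono π (cov_succ π hz') subset_rfl (hrs.trans hwle)
      have hempty : Cov π (n + 1) k a c (∅ : Set (∀ g, T g)) ((1 + π.d k) * wt π k j) :=
        cov_empty π _ _ _ _ (by positivity)
      rcases h with ⟨m, l, r, hN, hs, he⟩ | ⟨g, h1, h2, h3⟩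
      · have hm := π.slots k j m hw hN
        have hm1 : 1000 ≤ m := by
          have : 1 ≤ 2 ^ (k + 4) := Nat.one_le_two_pow
          omega
        obtain ⟨s, hsm, hs1, hs2⟩ := exists_slot_index (c := c) hs
        by_cases hcase : m ≤ 2 * s + 1
        · refine ⟨_, hWdep, ?_, hWz⟩
          rw [← wt_succ]
          refine cov_elem π ⟨hWdep, Or.inl ⟨s, l, r, ?_, ?_, ?_⟩⟩
          · refine hN.trans ?_
            rw [pow_succ, mul_assoc]
            exact Nat.mul_le_mul_left _ (by omega)
          · exact ⟨fun i hi => ⟨(hs.1 i (by omega)).1, (hs.1 i (by omega)).2.1, hs1 i hi⟩,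
              fun i j hij hj => hs.2 i j hij (by omega)⟩
          · rw [rs_succ]
            exact left_slots π (ih (k + 1)) hcb hrs'
              (fun i hi => ⟨(hs.1 i (by omega)).2.1, hs1 i hi⟩)
              (fun i hi u => he i (by omega) u)
        · refine ⟨∅, dep_empty a c, hempty, fun z _ => ?_⟩
          rw [← wt_succ]
          have hms : s + 1 + (m - (s + 1)) ≤ m := by omega
          refine cov_elem π ⟨hX.sec c z, Or.inl ⟨m - (s + 1), fun i => l (s + 1 + i),
            fun i => r (s + 1 + i), ?_, ?_, ?_⟩⟩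
          · refine hN.trans ?_
            rw [pow_succ, mul_assoc]
            exact Nat.mul_le_mul_left _ (by omega)
          · have hb := hs.block (s + 1) (m - (s + 1)) hms
            exact ⟨fun i hi => ⟨hs2 (s + 1 + i) (by omega) (by omega), (hb.1 i hi).2⟩, hb.2⟩
          · have hb := (he.block (s + 1) (m - (s + 1)) hms).sec z
              (c := c) (fun i hi => hs2 (s + 1 + i) (by omega) (by omega))
              (fun i hi => (hs.1 (s + 1 + i) (by omega)).2.1)
            intro i hi u
            obtain ⟨D, hD, hL, hv⟩ := hb i hi u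
            refine ⟨D, hD, hL, fun v hvD => cov_mono π (hv v hvD) subset_rfl ?_⟩
            rw [rs_succ]
            linarith
      · rcases le_or_gt g c with hg | hg
        · refine ⟨_, hWdep, ?_, hWz⟩
          rw [← wt_succ]
          refine cov_elem π ⟨hWdep, Or.inr ⟨g, h1, hg, ?_⟩⟩
          rw [rs_succ]
          exact left_F π (ih (k + 1)) hg hcb hrs' h3
        · refine ⟨∅, dep_empty a c, hempty, fun z _ => ?_⟩
          rw [← wt_succ]
          refine cov_elem π ⟨hX.sec c z, Or.inr ⟨g, hg.le, h2, fun u => ?_⟩⟩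
          rw [sec_sec hg.le]
          refine cov_mono π (h3 _) subset_rfl ?_
          rw [rs_succ]
          linarith
    | @union X Y w v h h' ihX ihY =>
      intro hw
      have h1 := cov_nonneg π (n := n + 1) (k := k) (a := a) (b := b) h
      have h2 := cov_nonneg π (n := n + 1) (k := k) (a := a) (b := b) h'
      obtain ⟨V, hV1, hV2, hV3⟩ := ihX (by linarith)
      obtain ⟨V', hV1', hV2', hV3'⟩ := ihY (by linarith)
      refine ⟨V ∪ V', hV1.union hV1', ?_, fun z hz => ?_⟩
      · rw [mul_add]
        exact cov_union π hV2 hV2'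
      · rw [mul_add, sec_union]
        exact cov_union π (hV3 z fun h => hz (Or.inl h)) (hV3' z fun h => hz (Or.inr h))
    | @mono X Y w v h hY hv ihX =>
      intro hw
      obtain ⟨V, hV1, hV2, hV3⟩ := ihX (hv.trans_lt hw)
      have hle : (1 + π.d k) * w ≤ (1 + π.d k) * v :=
        mul_le_mul_of_nonneg_left hv (by linarith)
      exact ⟨V, hV1, cov_mono π hV2 subset_rfl hle,
        fun z hz => cov_mono π (hV3 z hz) (sec_mono hY c z) hle⟩

theorem split {n k : ℕ} {a b c : Γ} (hac : a ≤ c) (hcb : c ≤ b) {X : Set (∀ g, T g)} {w : ℝ}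
    (h : Cov π n k a b X w) (hw : w < 16) :
    ∃ V, Dep V a c ∧ Cov π n k a c V ((1 + π.d k) * w) ∧
      ∀ z ∉ V, Cov π n k c b (sec X c z) ((1 + π.d k) * w) :=
  splitProp π n k hac hcb h hw

end Pool.Agent.H90.SN
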