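import Mathlib

/-!
# The base space and the final measure space: interfaces

`Base`: a measurable space `S` with a countably complete filter `l` (almost all), the countable
chain condition, and: every `ω₁`-family of measurable functions `S → ω^ω` is almost everywhere
eventually dominated by one measurable function.  (Module E: such a space exists.)

`Sys`: what is used for the forcing argument (module C: a `Base` gives a `Sys`).
-/

set_option autoImplicit false

open Filter MeasureTheory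

namespace Pool.Agent.H90.SN

/-- the countable ordinals -/
abbrev Om : Type := (Ordinal.omega 1 : Ordinal.{0}).ToType

theorem om_card : Cardinal.mk Om = Cardinal.aleph 1 := by
  rw [Cardinal.mk_toType, Ordinal.card_omega]

theorem om_countable_Iio (a : Om) : (Set.Iio a).Countable := by
  rw [Cardinal.countable_iff_lt_aleph_one, ← om_card]
  refine Cardinal.mk_Iio_lt a ?_
  rw [om_card, Cardinal.ord_aleph, Ordinal.type_toType]

theorem om_not_countable : ¬ Countable Om := by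
  intro h
  have h1 := Cardinal.mk_le_aleph0_iff.2 h
  rw [om_card] at h1
  exact absurd h1 (not_le.2 Cardinal.aleph0_lt_aleph_one)

/-- every countable set of countable ordinals is bounded -/
theorem om_bounded {s : Set Om} (hs : s.Countable) : ∃ b, ∀ a ∈ s, a < b := by
  by_contra hcon
  push Not at hcon
  refine om_not_countable ?_
  rw [← Set.countable_univ_iff]
  refine (hs.biUnion fun a _ => (om_countable_Iio a).union (Set.countable_singleton a)).mono ?_
  intro b _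
  obtain ⟨a, ha, hab⟩ := hcon b
  simp only [Set.mem_iUnion]
  exact ⟨a, ha, (lt_or_eq_of_le hab).imp (fun h => h) (fun h => h)⟩

structure Base where
  /-- the space -/
  S : Type
  ms : MeasurableSpace S
  /-- almost all -/
  l : Filter S
  neBot : l.NeBot
  cinf : CountableInterFilter l
  ccc : ∀ E : Om → Set S, (∀ i, MeasurableSet[ms] (E i)) → (∀ i, ∃ᶠ s in l, s ∈ E i) →
    ∃ i j, i ≠ j ∧ ∃ᶠ s in l, s ∈ E i ∩ E j
  dom : ∀ g : Om → S → ℕ → ℕ, (∀ i, Measurable[ms] (g i)) →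
    ∃ h : S → ℕ → ℕ, Measurable[ms] h ∧ ∀ i, ∀ᶠ s in l, ∀ᶠ n in atTop, g i s n ≤ h s n

structure Sys where
  /-- the space -/
  Ω : Type
  ms : MeasurableSpace Ω
  /-- almost all -/
  l : Filter Ω
  neBot : l.NeBot
  cinf : CountableInterFilter l
  /-- the sets of the `β`-th level -/
  Sg : Om → MeasurableSpace Ω
  sg_mono : Monotone Sg
  sg_le : ∀ β, Sg β ≤ ms
  ccc : ∀ E : Om → Set Ω, (∀ i, MeasurableSet[ms] (E i)) → (∀ i, ∃ᶠ x in l, x ∈ E i) →
    ∃ i j, i ≠ j ∧ ∃ᶠ x in l, x ∈ E i ∩ E j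
  bounded : ∀ E : Set Ω, MeasurableSet[ms] E → ∃ β, MeasurableSet[Sg β] E
  dom : ∀ g : Om → Ω → ℕ → ℕ, (∀ i, Measurable[ms] (g i)) →
    ∃ h : Ω → ℕ → ℕ, Measurable[ms] h ∧ ∀ i, ∀ᶠ x in l, ∀ᶠ n in atTop, g i x n ≤ h x n
  guess : ∀ (β : Om) (e : Ω → ℕ → ℚ), Measurable[ms] e → (∀ ω n, 0 < e ω n) →
    ∃ a : Ω → ℕ → ℚ, Measurable[ms] a ∧ ∀ x : Ω → ℝ, Measurable[Sg β] x →
      ∀ᶠ ω in l, ∃ n, (a ω n : ℝ) < x ω ∧ x ω < (a ω n : ℝ) + e ω n
  evade : ∀ (β : Om) (E : Set Ω), MeasurableSet[ms] E → ∀ x : Ω → ℝ, Measurable[ms] x →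
    (∀ x' : Ω → ℝ, Measurable[Sg β] x' → ∀ᶠ ω in l, ω ∈ E → x ω ≠ x' ω) →
    ∃ e : Ω → ℕ → ℚ, Measurable[ms] e ∧ (∀ ω n, 0 < e ω n) ∧
      ∀ a : Ω → ℕ → ℚ, Measurable[Sg β] a → ∀ᶠ ω in l, ω ∈ E →
        ∀ᶠ n in atTop, ¬ ((a ω n : ℝ) < x ω ∧ x ω < (a ω n : ℝ) + e ω n)

end Pool.Agent.H90.SN
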