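import Pool.Agent.H90.SN.Split

/-!
# Splitting at the end points of a slot (module A3)

Proof sketch of `tri`: induction on `n`, then on `Sp` (property: `w < 16 → ∃ H, …`).  Everything
is additive, only `elem` is interesting.  Let `j` be the parameter, `wt π k j < 16`, `x = x i`,
`y = y i`, `i < q`.

Element with slots `l i' < r i'`, `i' < m`: `1000 ≤ m` by `π.slots`.  Let
`s = #{i' < m | r i' ≤ x}`, `t = #{i' < m | r i' ≤ y}`, so `s ≤ t`; the slots `i' < s` are left of
`x`, the slots `i' ≥ s + 1` are right of `x`, and similarly for `t`, `y`.  The slots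
`s + 1 ≤ i' < t` are inside `[x, y)`.
`H i := wt π k j` if `2 * s + 1 < m` and `m ≤ 5 * (t - (s + 1))` (heavy), otherwise `H i := 0`.
At most five `i < q` are heavy, as the sets of slots inside `[x i, y i)` are disjoint.
* `m ≤ 2 * s + 1`: `V := {z | ¬ Cov π n (k + 1) x b (sec X x z) (rs π k (j + 1))}` is an element on
  `[a, x)` (see the proof of `splitProp`).  For `z ∉ V` split `sec X x z` (weight
  `rs π k (j + 1)`, tiny by `π.resid`) at `y`: this gives `K`.
* otherwise `V := ∅`.
  * heavy: `K := {v | ¬ Cov π n (k + 1) y b (sec X y (mix x z v)) (rs π k (j + 2))}` is an element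
    with parameter `j + 2` on `[x, y)`: use the slots inside `[x, y)`, `left_slots` for
    `sec X x z`; `N k ≤ 3 ^ j * m ≤ 3 ^ (j + 2) * (t - (s + 1))`.
  * not heavy: `K := ∅`, and `sec X y (mix x z v)` is an element with parameter `j + 2` on
    `[y, b)`: at least `m / 9` slots `i' ≥ t + 1`.
Element of the second kind with `g`: `H i := wt π k j` if `x i ≤ g < y i`, else `0`; at most one
`i`.  Cases `g < x`, `x ≤ g < y` (`left_F`), `y ≤ g`.
-/

set_option autoImplicit false

namespace Pool.Agent.H90.SN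

variable {Γ : Type} [LinearOrder Γ] {T : Γ → Type} (π : Par)

namespace TriAux

/-- the conclusion of `tri` for one slot -/
def TriAt (n k : ℕ) (a b x y : Γ) (X : Set (∀ g, T g)) (w h : ℝ) : Prop :=
  ∃ V, Dep V a x ∧ Cov π n k a x V ((1 + π.d k) * w) ∧
    ∀ z ∉ V, ∃ K, Dep K x y ∧ Cov π n k x y K ((1 + π.d k) ^ 2 * h + w / 2 ^ 10) ∧
      ∀ v ∉ K, Cov π n k y b (sec X y (mix x z v)) ((1 + π.d k) ^ 2 * w)

theorem rs_le (k j : ℕ) (hw : wt π k j < 16) : rs π k (j + 1) ≤ wt π k j / 2 ^ 20 := by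
  have h := π.resid k j hw
  have h1 : (1 : ℝ) ≤ 2 ^ (2 * k) := one_le_pow₀ (by norm_num)
  have h2 : (0 : ℝ) < wt π k j := wt_pos π k j
  refine h.trans ?_
  change wt π k j / 2 ^ (2 * k + 20) ≤ _
  apply div_le_div_of_nonneg_left h2.le (by positivity)
  rw [pow_add]
  nlinarith

theorem exists_cut (p : ℕ → Prop) (m : ℕ) (hp : ∀ i j, i < j → j < m → p j → p i) :
    ∃ s ≤ m, ∀ i < m, (p i ↔ i < s) := by
  induction m with
  | zero => exact ⟨0, le_rfl, fun i hi => absurd hi (by omega)⟩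
  | succ m ih =>
    obtain ⟨s, hs, h⟩ := ih fun i j hij hj => hp i j hij (by omega)
    by_cases hm : p m
    · refine ⟨m + 1, le_rfl, fun i hi => ⟨fun _ => hi, fun _ => ?_⟩⟩
      rcases Nat.lt_or_ge i m with h1 | h1
      · exact hp i m h1 (by omega) hm
      · have : i = m := by omega
        exact this ▸ hm
    · refine ⟨s, by omega, fun i hi => ?_⟩
      rcases Nat.lt_or_ge i m with h1 | h1
      · exact h i h1
      · have : i = m := by omega
        subst this
        exact ⟨fun h2 => absurd h2 hm, fun h2 => absurd h2 (by omega)⟩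

theorem slots_cut {a b : Γ} {m : ℕ} {l r : ℕ → Γ} (hs : Slots a b m l r) (c : Γ) :
    ∃ s ≤ m, (∀ i < m, (r i ≤ c ↔ i < s)) := by
  refine exists_cut (fun i => r i ≤ c) m fun i j hij hj h => ?_
  exact ((hs.2 i j hij hj).trans (hs.1 j hj).2.1.le).trans h

theorem right_of_cut {a b : Γ} {m : ℕ} {l r : ℕ → Γ} (hs : Slots a b m l r) {c : Γ} {s : ℕ}
    (h : ∀ i < m, (r i ≤ c ↔ i < s)) {i : ℕ} (hi : s + 1 ≤ i) (him : i < m) : c ≤ l i := by
  have h1 : ¬ r s ≤ c := fun h2 => by
    have := (h s (by omega)).1 h2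
    omega
  exact (lt_of_not_ge h1).le.trans (hs.2 s i (by omega) him)

theorem sum_slots {a b : Γ} {q : ℕ} {x y : ℕ → Γ} (hs : Slots a b q x y) (S : Γ → ℕ)
    (hS : Monotone S) : ∑ i ∈ Finset.range q, (S (y i) - S (x i)) ≤ S b := by
  have key : ∀ Q ≤ q, ∀ c, (∀ i < Q, y i ≤ c) →
      ∑ i ∈ Finset.range Q, (S (y i) - S (x i)) ≤ S c := by
    intro Q
    induction Q with
    | zero => intro _ c _; simp
    | succ Q ih =>
      intro hQ c hc
      rw [Finset.sum_range_succ]
      have h1 := ih (by omega) (x Q) fun i hi => hs.2 i Q hi (by omega)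
      have h2 : S (x Q) ≤ S (y Q) := hS (hs.1 Q (by omega)).2.1.le
      have h3 : S (y Q) ≤ S c := hS (hc Q (by omega))
      omega
  exact key q le_rfl b fun i hi => (hs.1 i hi).2.2

theorem triAt_left {n k : ℕ} {a b x y : Γ} {X : Set (∀ g, T g)} {j : ℕ} {h : ℝ} (hh : 0 ≤ h)
    (hxy : x ≤ y) (hyb : y ≤ b) (hw : wt π k j < 16)
    (hV : Elm π k (Cov π n (k + 1)) a x
      {z | ¬ Cov π n (k + 1) x b (sec X x z) (rs π k (j + 1))} (j + 1)) :
    TriAt π (n + 1) k a b x y X (wt π k j) h := by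
  have hr := rs_le π k j hw
  have hr0 := rs_pos π k (j + 1)
  have hw0 := wt_pos π k j
  have hd := π.d_pos k
  have hd1 := π.d_le (k + 1)
  have hd0 := π.d_pos (k + 1)
  refine ⟨_, hV.1, ?_, ?_⟩
  · rw [← wt_succ]
    exact cov_elem π hV
  · intro z hz
    have hz' : Cov π n (k + 1) x b (sec X x z) (rs π k (j + 1)) := not_not.1 hz
    obtain ⟨K, h1, h2, h3⟩ := split π hxy hyb hz' (by linarith)
    have h4 : (1 + π.d (k + 1)) * rs π k (j + 1) ≤ wt π k j / 2 ^ 10 := by
      have : (1 + π.d (k + 1)) * rs π k (j + 1) ≤ 2 * (wt π k j / 2 ^ 20) :=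
        mul_le_mul (by linarith) hr hr0.le (by norm_num)
      refine this.trans ?_
      linarith
    refine ⟨K, h1, cov_succ π (cov_mono π h2 subset_rfl ?_), fun v hv => ?_⟩
    · have : 0 ≤ (1 + π.d k) ^ 2 * h := by positivity
      linarith
    · have h5 := h3 v hv
      rw [sec_sec hxy] at h5
      refine cov_succ π (cov_mono π h5 subset_rfl (h4.trans ?_))
      have h6 : 1 ≤ (1 + π.d k) ^ 2 := one_le_pow₀ (by linarith)
      nlinarith

theorem triAt_mid {n k : ℕ} {a b x y : Γ} {X : Set (∀ g, T g)} {j : ℕ}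
    (hxy : x ≤ y) (hw : wt π k j < 16)
    (hK : ∀ z, Elm π k (Cov π n (k + 1)) x y
      {v | ¬ Cov π n (k + 1) y b (sec (sec X x z) y v) (rs π k (j + 2))} (j + 2)) :
    TriAt π (n + 1) k a b x y X (wt π k j) (wt π k j) := by
  have hr := rs_le π k j hw
  have hr0 := rs_pos π k (j + 1)
  have hw0 := wt_pos π k j
  have hd := π.d_pos k
  refine ⟨∅, dep_empty _ _, cov_empty π _ _ _ _ (by positivity), fun z _ => ?_⟩
  refine ⟨_, (hK z).1, ?_, ?_⟩
  · refine cov_mono π (cov_elem π (hK z)) subset_rfl ?_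
    rw [show j + 2 = (j + 1) + 1 from rfl, wt_succ, wt_succ]
    have : 0 ≤ wt π k j / 2 ^ 10 := by positivity
    nlinarith
  · intro v hv
    have hv' : Cov π n (k + 1) y b (sec (sec X x z) y v) (rs π k (j + 2)) := not_not.1 hv
    rw [sec_sec hxy] at hv'
    refine cov_succ π (cov_mono π hv' subset_rfl ?_)
    rw [show j + 2 = (j + 1) + 1 from rfl, rs_succ]
    have h6 : 1 ≤ (1 + π.d k) ^ 2 := one_le_pow₀ (by linarith)
    have h7 : 2 * rs π k (j + 1) ≤ wt π k j := by linarith
    nlinarith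

theorem triAt_right {n k : ℕ} {a b x y : Γ} {X : Set (∀ g, T g)} {j : ℕ} {h : ℝ} (hh : 0 ≤ h)
    (hK : ∀ u, Elm π k (Cov π n (k + 1)) y b (sec X y u) (j + 2)) :
    TriAt π (n + 1) k a b x y X (wt π k j) h := by
  have hw0 := wt_pos π k j
  have hd := π.d_pos k
  refine ⟨∅, dep_empty _ _, cov_empty π _ _ _ _ (by positivity), fun z _ => ?_⟩
  refine ⟨∅, dep_empty _ _, cov_empty π _ _ _ _ (by positivity), fun v _ => ?_⟩
  refine cov_mono π (cov_elem π (hK _)) subset_rfl ?_
  rw [show j + 2 = (j + 1) + 1 from rfl, wt_succ, wt_succ]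
  exact le_of_eq (by ring)

theorem Escape.mono {n k : ℕ} {b : Γ} {X : Set (∀ g, T g)} {m : ℕ} {l r : ℕ → Γ} {e e' : ℝ}
    (h : Escape (Cov π n k) b X m l r e) (he : e ≤ e') : Escape (Cov π n k) b X m l r e' := by
  intro i hi u
  obtain ⟨D, h1, h2, h3⟩ := h i hi u
  exact ⟨D, h1, h2, fun v hv => cov_mono π (h3 v hv) subset_rfl he⟩

theorem elem_slots {n k : ℕ} {a b : Γ} {X : Set (∀ g, T g)} {j : ℕ} (hX : Dep X a b)
    (hw : wt π k j < 16) {m : ℕ} {l r : ℕ → Γ} (hN : π.N k ≤ 3 ^ j * m)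
    (hlr : Slots a b m l r) (hE : Escape (Cov π n (k + 1)) b X m l r (rs π k j))
    {q : ℕ} {x y : ℕ → Γ} (hs : Slots a b q x y) :
    ∃ H : ℕ → ℝ, (∀ i, 0 ≤ H i) ∧ (∑ i ∈ Finset.range q, H i ≤ 5 * wt π k j) ∧
      ∀ i < q, TriAt π (n + 1) k a b (x i) (y i) X (wt π k j) (H i) := by
  classical
  have hw0 := wt_pos π k j
  have hm : 1000 ≤ m := by
    have h1 := π.slots k j m hw hN
    have h2 : 1 ≤ 2 ^ (k + 4) := Nat.one_le_two_pow
    omega
  choose S hSm hS using slots_cut hlr
  have hSmono : Monotone S := by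
    intro c c' hc
    by_contra h
    have h := lt_of_not_ge h
    have h1 := hSm c
    have h2 := (hS c (S c') (by omega)).2 h
    have h3 := (hS c' (S c') (by omega)).1 (h2.trans hc)
    omega
  set P : ℕ → Prop := fun i => 2 * S (x i) + 1 < m ∧ m ≤ 5 * (S (y i) - (S (x i) + 1)) with hP
  refine ⟨fun i => if P i then wt π k j else 0, fun i => ?_, ?_, fun i hi => ?_⟩
  · dsimp only
    split_ifs
    · exact hw0.le
    · exact le_rfl
  · have h1 := sum_slots hs S hSmono
    have h2 : (∑ i ∈ Finset.range q, if P i then wt π k j else 0) * m ≤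
        ∑ i ∈ Finset.range q, 5 * wt π k j * ((S (y i) - S (x i) : ℕ) : ℝ) := by
      rw [Finset.sum_mul]
      refine Finset.sum_le_sum fun i _ => ?_
      split_ifs with h
      · have h3 : m ≤ 5 * (S (y i) - S (x i)) := by
          have := h.2
          omega
        have h4 : (m : ℝ) ≤ 5 * ((S (y i) - S (x i) : ℕ) : ℝ) := by exact_mod_cast h3
        nlinarith
      · have : (0 : ℝ) ≤ ((S (y i) - S (x i) : ℕ) : ℝ) := Nat.cast_nonneg _
        rw [zero_mul]
        positivity
    rw [← Finset.mul_sum, ← Nat.cast_sum] at h2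
    have h3 : ((∑ i ∈ Finset.range q, (S (y i) - S (x i)) : ℕ) : ℝ) ≤ m := by
      exact_mod_cast h1.trans (hSm b)
    have h4 : (0 : ℝ) < m := by
      have : 0 < m := by omega
      exact_mod_cast this
    have h5 : (∑ i ∈ Finset.range q, if P i then wt π k j else 0) * m ≤ 5 * wt π k j * m :=
      h2.trans (mul_le_mul_of_nonneg_left h3 (by positivity))
    exact le_of_mul_le_mul_right h5 h4
  · beta_reduce
    obtain ⟨hx1, hxy, hyb⟩ := hs.1 i hi
    have hst : S (x i) ≤ S (y i) := hSmono hxy.le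
    have ht : S (y i) ≤ m := hSm (y i)
    have hxb : x i ≤ b := hxy.le.trans hyb
    have hE1 : Escape (Cov π n (k + 1)) b X m l r (rs π k (j + 1)) := by
      refine Escape.mono π hE ?_
      rw [rs_succ]
      have := rs_pos π k j
      linarith
    have hr := rs_le π k j hw
    by_cases h1 : m ≤ 2 * S (x i) + 1
    · have hH : (if P i then wt π k j else 0) = 0 := if_neg fun h => by
        have := h.1
        omega
      rw [hH]
      apply triAt_left π le_rfl hxy.le hyb hw
      refine ⟨dep_of_sec hX (x i) fun s => ¬ Cov π n (k + 1) (x i) b s (rs π k (j + 1)),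
        Or.inl ⟨S (x i), l, r, ?_, ?_, ?_⟩⟩
      · have : m ≤ 3 * S (x i) := by omega
        calc π.N k ≤ 3 ^ j * m := hN
          _ ≤ 3 ^ j * (3 * S (x i)) := Nat.mul_le_mul_left _ this
          _ = 3 ^ (j + 1) * S (x i) := by ring
      · refine ⟨fun i' hi' => ?_, fun i' j' h2 h3 => hlr.2 i' j' h2 (h3.trans_le (hSm _))⟩
        have h2 : i' < m := hi'.trans_le (hSm _)
        exact ⟨(hlr.1 i' h2).1, (hlr.1 i' h2).2.1, (hS (x i) i' h2).2 hi'⟩
      · rw [rs_succ]
        refine left_slots π (splitProp π n (k + 1)) hxb ?_ (fun i' hi' => ?_) fun i' hi' =>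
          hE i' (hi'.trans_le (hSm _))
        · have := rs_pos π k j
          have h5 := rs_succ π k j
          linarith
        · have h2 : i' < m := hi'.trans_le (hSm _)
          exact ⟨(hlr.1 i' h2).2.1, (hS (x i) i' h2).2 hi'⟩
    · by_cases h2 : m ≤ 5 * (S (y i) - (S (x i) + 1))
      · have hH : (if P i then wt π k j else 0) = wt π k j :=
          if_pos ⟨by omega, h2⟩
        rw [hH]
        apply triAt_mid π hxy.le hw
        intro z
        have hXz : Dep (sec X (x i) z) (x i) b := hX.sec (x i) z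
        have hl : ∀ i' < S (y i) - (S (x i) + 1), x i ≤ l (S (x i) + 1 + i') := fun i' hi' =>
          right_of_cut hlr (hS (x i)) (by omega) (by omega)
        have hr' : ∀ i' < S (y i) - (S (x i) + 1), r (S (x i) + 1 + i') ≤ y i := fun i' hi' =>
          (hS (y i) _ (by omega)).2 (by omega)
        refine ⟨dep_of_sec hXz (y i) fun s => ¬ Cov π n (k + 1) (y i) b s (rs π k (j + 2)),
          Or.inl ⟨S (y i) - (S (x i) + 1), fun i' => l (S (x i) + 1 + i'),
            fun i' => r (S (x i) + 1 + i'), ?_, ?_, ?_⟩⟩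
        · calc π.N k ≤ 3 ^ j * m := hN
            _ ≤ 3 ^ j * (9 * (S (y i) - (S (x i) + 1))) := Nat.mul_le_mul_left _ (by omega)
            _ = 3 ^ (j + 2) * (S (y i) - (S (x i) + 1)) := by ring
        · refine ⟨fun i' hi' => ⟨hl i' hi', (hlr.1 _ (by omega)).2.1, hr' i' hi'⟩,
            fun i' j' h3 h4 => hlr.2 _ _ (by omega) (by omega)⟩
        · rw [show j + 2 = (j + 1) + 1 from rfl, rs_succ]
          refine left_slots π (splitProp π n (k + 1)) hyb (by linarith) (fun i' hi' => ?_) ?_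
          · exact ⟨(hlr.1 _ (by omega)).2.1, hr' i' hi'⟩
          · exact (hE1.block (S (x i) + 1) _ (by omega)).sec z hl
              fun i' hi' => (hlr.1 _ (by omega)).2.1
      · have hH : (if P i then wt π k j else 0) = 0 := if_neg fun h => h2 h.2
        rw [hH]
        apply triAt_right π le_rfl
        intro u
        have hl : ∀ i' < m - (S (y i) + 1), y i ≤ l (S (y i) + 1 + i') := fun i' hi' =>
          right_of_cut hlr (hS (y i)) (by omega) (by omega)
        refine ⟨hX.sec (y i) u, Or.inl ⟨m - (S (y i) + 1), fun i' => l (S (y i) + 1 + i'),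
            fun i' => r (S (y i) + 1 + i'), ?_, ?_, ?_⟩⟩
        · calc π.N k ≤ 3 ^ j * m := hN
            _ ≤ 3 ^ j * (9 * (m - (S (y i) + 1))) := Nat.mul_le_mul_left _ (by omega)
            _ = 3 ^ (j + 2) * (m - (S (y i) + 1)) := by ring
        · refine ⟨fun i' hi' => ⟨hl i' hi', (hlr.1 _ (by omega)).2.1, (hlr.1 _ (by omega)).2.2⟩,
            fun i' j' h3 h4 => hlr.2 _ _ (by omega) (by omega)⟩
        · have hE2 : Escape (Cov π n (k + 1)) b X m l r (rs π k (j + 2)) := by
            refine Escape.mono π hE1 ?_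
            rw [show j + 2 = (j + 1) + 1 from rfl, rs_succ π k (j + 1)]
            have := rs_pos π k (j + 1)
            linarith
          exact (hE2.block (S (y i) + 1) _ (by omega)).sec u hl
              fun i' hi' => (hlr.1 _ (by omega)).2.1

theorem elem_F {n k : ℕ} {a b g : Γ} {X : Set (∀ g, T g)} {j : ℕ} (hX : Dep X a b)
    (hw : wt π k j < 16) (hag : a ≤ g) (hgb : g ≤ b)
    (hE : ∀ u, Cov π n (k + 1) g b (sec X g u) (rs π k j))
    {q : ℕ} {x y : ℕ → Γ} (hs : Slots a b q x y) :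
    ∃ H : ℕ → ℝ, (∀ i, 0 ≤ H i) ∧ (∑ i ∈ Finset.range q, H i ≤ 5 * wt π k j) ∧
      ∀ i < q, TriAt π (n + 1) k a b (x i) (y i) X (wt π k j) (H i) := by
  classical
  have hw0 := wt_pos π k j
  have hr := rs_le π k j hw
  have hr0 := rs_pos π k j
  have hr1 := rs_succ π k j
  set S : Γ → ℕ := fun c => if g < c then 1 else 0 with hSdef
  have hSmono : Monotone S := by
    intro c c' hc
    simp only [hSdef]
    by_cases h : g < c
    · simp [h, h.trans_le hc]
    · simp [h]
  refine ⟨fun i => if x i ≤ g ∧ g < y i then wt π k j else 0, fun i => ?_, ?_, fun i hi => ?_⟩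
  · dsimp only
    split_ifs
    · exact hw0.le
    · exact le_rfl
  · have h1 := sum_slots hs S hSmono
    have h2 : (∑ i ∈ Finset.range q, if x i ≤ g ∧ g < y i then wt π k j else 0) ≤
        ∑ i ∈ Finset.range q, wt π k j * ((S (y i) - S (x i) : ℕ) : ℝ) := by
      refine Finset.sum_le_sum fun i _ => ?_
      split_ifs with h
      · have h3 : S (y i) - S (x i) = 1 := by
          simp only [hSdef]
          rw [if_pos h.2, if_neg (not_lt.2 h.1)]
        rw [h3, Nat.cast_one, mul_one]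
      · have : (0 : ℝ) ≤ ((S (y i) - S (x i) : ℕ) : ℝ) := Nat.cast_nonneg _
        positivity
    rw [← Finset.mul_sum, ← Nat.cast_sum] at h2
    have h3 : ((∑ i ∈ Finset.range q, (S (y i) - S (x i)) : ℕ) : ℝ) ≤ 1 := by
      have : S b ≤ 1 := by
        simp only [hSdef]
        split_ifs <;> omega
      exact_mod_cast h1.trans this
    nlinarith
  · beta_reduce
    obtain ⟨hx1, hxy, hyb⟩ := hs.1 i hi
    have hxb : x i ≤ b := hxy.le.trans hyb
    by_cases h1 : g < x i
    · have hH : (if x i ≤ g ∧ g < y i then wt π k j else 0) = 0 := if_neg fun h =>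
        absurd h1 (not_lt.2 h.1)
      rw [hH]
      apply triAt_left π le_rfl hxy.le hyb hw
      refine ⟨dep_of_sec hX (x i) fun s => ¬ Cov π n (k + 1) (x i) b s (rs π k (j + 1)),
        Or.inr ⟨g, hag, h1.le, ?_⟩⟩
      rw [rs_succ]
      exact left_F π (splitProp π n (k + 1)) h1.le hxb (by linarith) hE
    · by_cases h2 : g < y i
      · have hH : (if x i ≤ g ∧ g < y i then wt π k j else 0) = wt π k j :=
          if_pos ⟨not_lt.1 h1, h2⟩
        rw [hH]
        apply triAt_mid π hxy.le hw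
        intro z
        have hXz : Dep (sec X (x i) z) (x i) b := hX.sec (x i) z
        refine ⟨dep_of_sec hXz (y i) fun s => ¬ Cov π n (k + 1) (y i) b s (rs π k (j + 2)),
          Or.inr ⟨g, not_lt.1 h1, h2.le, ?_⟩⟩
        rw [show j + 2 = (j + 1) + 1 from rfl, rs_succ]
        refine left_F π (splitProp π n (k + 1)) h2.le hyb (by linarith) fun u => ?_
        rw [sec_sec (not_lt.1 h1)]
        exact cov_mono π (hE _) subset_rfl (by linarith)
      · have hH : (if x i ≤ g ∧ g < y i then wt π k j else 0) = 0 := if_neg fun h => h2 h.2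
        rw [hH]
        apply triAt_right π le_rfl
        intro u
        refine ⟨hX.sec (y i) u, Or.inr ⟨g, not_lt.1 h2, hgb, fun u' => ?_⟩⟩
        rw [sec_sec (not_lt.1 h2)]
        refine cov_mono π (hE _) subset_rfl ?_
        rw [show j + 2 = (j + 1) + 1 from rfl, rs_succ π k (j + 1)]
        linarith

end TriAux

open TriAux

theorem tri {n k : ℕ} {a b : Γ} {X : Set (∀ g, T g)} {w : ℝ} (h : Cov π n k a b X w)
    (hw : w < 16) {q : ℕ} {x y : ℕ → Γ} (hs : Slots a b q x y) :
    ∃ H : ℕ → ℝ, (∀ i, 0 ≤ H i) ∧ (∑ i ∈ Finset.range q, H i ≤ 5 * w) ∧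
      ∀ i < q, ∃ V, Dep V a (x i) ∧ Cov π n k a (x i) V ((1 + π.d k) * w) ∧
        ∀ z ∉ V, ∃ K, Dep K (x i) (y i) ∧
          Cov π n k (x i) (y i) K ((1 + π.d k) ^ 2 * H i + w / 2 ^ 10) ∧
          ∀ v ∉ K, Cov π n k (y i) b (sec X (y i) (mix (x i) z v)) ((1 + π.d k) ^ 2 * w) := by
  induction n generalizing k X w with
  | zero =>
    obtain ⟨rfl, hw0⟩ := h
    have hd := π.d_pos k
    refine ⟨fun _ => 0, fun _ => le_rfl, by simpa using hw0, fun i _ => ?_⟩
    refine ⟨∅, dep_empty _ _, cov_empty π _ _ _ _ (by positivity), fun z _ => ?_⟩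
    refine ⟨∅, dep_empty _ _, cov_empty π _ _ _ _ (by positivity), fun v _ => ?_⟩
    rw [sec_empty]
    exact cov_empty π _ _ _ _ (by positivity)
  | succ n ih =>
    change Sp _ _ _ _ at h
    induction h with
    | @base X w h =>
      have hw0 := cov_nonneg π h
      have hd := π.d_pos k
      have hd' := π.d_pos (k + 1)
      have hdd := π.d_anti k
      obtain ⟨H, h1, h2, h3⟩ := ih h hw
      refine ⟨H, h1, h2, fun i hi => ?_⟩
      obtain ⟨V, h4, h5, h6⟩ := h3 i hi
      have hsq : (1 + π.d (k + 1)) ^ 2 ≤ (1 + π.d k) ^ 2 :=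
        pow_le_pow_left₀ (by linarith) (by linarith) 2
      refine ⟨V, h4, cov_succ π (cov_mono π h5 subset_rfl ?_), fun z hz => ?_⟩
      · exact mul_le_mul_of_nonneg_right (by linarith) hw0
      · obtain ⟨K, h7, h8, h9⟩ := h6 z hz
        refine ⟨K, h7, cov_succ π (cov_mono π h8 subset_rfl ?_), fun v hv =>
          cov_succ π (cov_mono π (h9 v hv) subset_rfl ?_)⟩
        · have := mul_le_mul_of_nonneg_right hsq (h1 i)
          linarith
        · exact mul_le_mul_of_nonneg_right hsq hw0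
    | elem h =>
      obtain ⟨j, rfl, hX, h⟩ := h
      rcases h with ⟨m, l, r, hN, hlr, hE⟩ | ⟨g, hag, hgb, hE⟩
      · exact elem_slots π hX hw hN hlr hE hs
      · exact elem_F π hX hw hag hgb hE hs
    | @union X Y w v h h' ih1 ih2 =>
      have hw0 : 0 ≤ w := cov_nonneg π (n := n + 1) (k := k) (a := a) (b := b) h
      have hv0 : 0 ≤ v := cov_nonneg π (n := n + 1) (k := k) (a := a) (b := b) h'
      obtain ⟨H, h1, h2, h3⟩ := ih1 (by linarith)
      obtain ⟨H', h1', h2', h3'⟩ := ih2 (by linarith)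
      refine ⟨fun i => H i + H' i, fun i => add_nonneg (h1 i) (h1' i), ?_, fun i hi => ?_⟩
      · rw [Finset.sum_add_distrib]
        linarith
      · obtain ⟨V, h4, h5, h6⟩ := h3 i hi
        obtain ⟨V', h4', h5', h6'⟩ := h3' i hi
        refine ⟨V ∪ V', h4.union h4', ?_, fun z hz => ?_⟩
        · rw [mul_add]
          exact cov_union π h5 h5'
        · rw [Set.mem_union, not_or] at hz
          obtain ⟨K, h7, h8, h9⟩ := h6 z hz.1
          obtain ⟨K', h7', h8', h9'⟩ := h6' z hz.2
          refine ⟨K ∪ K', h7.union h7', ?_, fun v hv => ?_⟩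
          · refine cov_mono π (cov_union π h8 h8') subset_rfl (le_of_eq ?_)
            ring
          · rw [Set.mem_union, not_or] at hv
            rw [sec_union, mul_add]
            exact cov_union π (h9 v hv.1) (h9' v hv.2)
    | @mono X Y w v h hY hv ih1 =>
      have hw0 : 0 ≤ w := cov_nonneg π (n := n + 1) (k := k) (a := a) (b := b) h
      have hd := π.d_pos k
      obtain ⟨H, h1, h2, h3⟩ := ih1 (by linarith)
      refine ⟨H, h1, by linarith, fun i hi => ?_⟩
      obtain ⟨V, h4, h5, h6⟩ := h3 i hi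
      refine ⟨V, h4, cov_mono π h5 subset_rfl ?_, fun z hz => ?_⟩
      · exact mul_le_mul_of_nonneg_left hv (by linarith)
      · obtain ⟨K, h7, h8, h9⟩ := h6 z hz
        refine ⟨K, h7, cov_mono π h8 subset_rfl (by linarith), fun u hu =>
          cov_mono π (h9 u hu) (sec_mono hY _ _) ?_⟩
        exact mul_le_mul_of_nonneg_left hv (by positivity)

/-- among many slots there is one which contains little of the cover -/
theorem tri_exists {n k : ℕ} {a b : Γ} {X : Set (∀ g, T g)} {w : ℝ} (h : Cov π n k a b X w)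
    (hw : w < 16) {x y : ℕ → Γ} (hs : Slots a b 640 x y) :
    ∃ i < 640, ∃ V, Dep V a (x i) ∧ Cov π n k a (x i) V ((1 + π.d k) * w) ∧
      ∀ z ∉ V, ∃ K, Cov π n k (x i) (y i) K (1 / 2) ∧
        ∀ v ∉ K, Cov π n k (y i) b (sec X (y i) (mix (x i) z v)) ((1 + π.d k) ^ 2 * w) := by
  obtain ⟨H, h1, h2, h3⟩ := tri π h hw hs
  have hw0 := cov_nonneg π h
  have hd := π.d_pos k
  have hd1 := π.d_le k
  obtain ⟨i, hi, hHi⟩ : ∃ i < 640, H i ≤ 1 / 8 := by
    by_contra hcon
    push Not at hcon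
    have : ∑ i ∈ Finset.range 640, (1 / 8 : ℝ) ≤ ∑ i ∈ Finset.range 640, H i :=
      Finset.sum_le_sum fun i hi => (hcon i (Finset.mem_range.1 hi)).le
    rw [Finset.sum_const, Finset.card_range, nsmul_eq_mul] at this
    norm_num at this
    linarith
  obtain ⟨V, h4, h5, h6⟩ := h3 i hi
  refine ⟨i, hi, V, h4, h5, fun z hz => ?_⟩
  obtain ⟨K, h7, h8, h9⟩ := h6 z hz
  refine ⟨K, cov_mono π h8 subset_rfl ?_, h9⟩
  have h10 : (1 + π.d k) ^ 2 ≤ 2 := by nlinarith
  have h11 : (1 + π.d k) ^ 2 * H i ≤ 2 * (1 / 8) :=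
    mul_le_mul h10 hHi (h1 i) (by norm_num)
  linarith

end Pool.Agent.H90.SN
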